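import Pool.Agent.Lib.MP_6b187a_gt.Div.Var

/-!
# Bounds on compact sets, uniqueness for the Jacobi equation, the Riccati criterion
-/

set_option autoImplicit false
set_option maxSynthPendingDepth 3

namespace Pool.Agent.Lib.MP_6b187a_gt.Div

open Filter Set
open scoped ContDiff Topology

noncomputable section

/-- A function with `‖z'‖ ≤ K ‖z‖` which vanishes at one point vanishes. -/
theorem eq_zero_of_norm_deriv_le {X : Type*} [NormedAddCommGroup X] [NormedSpace ℝ X]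
    {z z' : ℝ → X} {K a b t₀ : ℝ} (hz : ∀ t ∈ Icc a b, HasDerivAt z (z' t) t)
    (h0 : t₀ ∈ Icc a b) (hz0 : z t₀ = 0) (hb : ∀ t ∈ Icc a b, ‖z' t‖ ≤ K * ‖z t‖) :
    ∀ t ∈ Icc a b, z t = 0 := by
  have hr : ∀ t ∈ Icc t₀ b, z t = 0 := by
    refine eq_zero_of_abs_deriv_le_mul_abs_self_of_eq_zero_right (f' := z') (K := K)
      (fun t ht => (hz t ⟨h0.1.trans ht.1, ht.2⟩).continuousAt.continuousWithinAt)
      (fun t ht => (hz t ⟨h0.1.trans ht.1, ht.2.le⟩).hasDerivWithinAt) hz0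
      (fun t ht => hb t ⟨h0.1.trans ht.1, ht.2.le⟩)
  have hl : ∀ t ∈ Icc (-t₀) (-a), z (-t) = 0 := by
    have hd : ∀ t ∈ Icc (-t₀) (-a), HasDerivAt (fun s => z (-s)) (-z' (-t)) t := by
      intro t ht
      have h1 := hz (-t) ⟨by linarith [ht.2], by linarith [ht.1, h0.2]⟩
      have h2 := h1.scomp t (hasDerivAt_neg t)
      simpa [Function.comp_def] using h2
    refine eq_zero_of_abs_deriv_le_mul_abs_self_of_eq_zero_right (f' := fun t => -z' (-t)) (K := K)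
      (fun t ht => (hd t ht).continuousAt.continuousWithinAt)
      (fun t ht => (hd t ⟨ht.1, ht.2.le⟩).hasDerivWithinAt) (by simpa using hz0)
      (fun t ht => ?_)
    rw [norm_neg]
    exact hb (-t) ⟨by linarith [ht.2], by linarith [ht.1, h0.2]⟩
  intro t ht
  rcases le_total t₀ t with h | h
  · exact hr t ⟨h, ht.2⟩
  · have := hl (-t) ⟨by linarith, by linarith [ht.1]⟩
    simpa using this

theorem continuous_norm_of_contDiff {E F : Type*} [NormedAddCommGroup E] [NormedSpace ℝ E]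
    [NormedAddCommGroup F] [NormedSpace ℝ F] {f : E → F} (h : ContDiff ℝ ∞ f) :
    Continuous fun x => ‖f x‖ := h.continuous.norm

namespace RM

variable {n : ℕ} (M : RM n)

theorem continuous_g_diag :
    Continuous fun p : EuclideanSpace ℝ (Fin n) × EuclideanSpace ℝ (Fin n) => M.g p.1 p.2 p.2 :=
  ((M.smooth.continuous.comp continuous_fst).clm_apply continuous_snd).clm_apply continuous_snd

/-- The metric is bounded below on compact sets. -/
theorem exists_lower {K : Set (EuclideanSpace ℝ (Fin n))} (hK : IsCompact K) :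
    ∃ m : ℝ, 0 < m ∧ ∀ x ∈ K, ∀ v, m * ‖v‖ ^ 2 ≤ M.g x v v := by
  have hc : IsCompact (K ×ˢ Metric.sphere (0 : EuclideanSpace ℝ (Fin n)) 1) :=
    hK.prod (isCompact_sphere _ _)
  obtain ⟨m, hm, hm'⟩ := hc.exists_forall_le' (f := fun p => M.g p.1 p.2 p.2) (a := 0)
    M.continuous_g_diag.continuousOn (by
      rintro ⟨x, v⟩ ⟨hx, hv⟩
      refine M.pos x v ?_
      rintro rfl
      simp at hv)
  refine ⟨m, hm, fun x hx v => ?_⟩
  rcases eq_or_ne v 0 with rfl | hv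
  · simp
  · have hv' : 0 < ‖v‖ := norm_pos_iff.2 hv
    have h1 := hm' (x, ‖v‖⁻¹ • v) ⟨hx, by
      rw [mem_sphere_zero_iff_norm, norm_smul, norm_inv, norm_norm, inv_mul_cancel₀ hv'.ne']⟩
    simp only [map_smul, smul_apply, smul_eq_mul] at h1
    have h2 : ‖v‖⁻¹ * (‖v‖⁻¹ * M.g x v v) = M.g x v v / ‖v‖ ^ 2 := by
      field_simp
    rw [h2, le_div_iff₀ (by positivity)] at h1
    exact h1

theorem g_nonneg (x v : EuclideanSpace ℝ (Fin n)) : 0 ≤ M.g x v v := by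
  rcases eq_or_ne v 0 with rfl | hv
  · simp
  · exact (M.pos x v hv).le

theorem g_le (x v w : EuclideanSpace ℝ (Fin n)) : |M.g x v w| ≤ ‖M.g x‖ * ‖v‖ * ‖w‖ :=
  (M.g x).le_opNorm₂ v w

/-- The metric is bounded above on compact sets. -/
theorem exists_upper {K : Set (EuclideanSpace ℝ (Fin n))} (hK : IsCompact K) :
    ∃ C : ℝ, 0 < C ∧ ∀ x ∈ K, ∀ v, M.g x v v ≤ C * ‖v‖ ^ 2 := by
  obtain ⟨C, hC⟩ := hK.exists_bound_of_continuousOn (f := M.g) M.smooth.continuous.continuousOn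
  refine ⟨max C 1, by positivity, fun x hx v => ?_⟩
  have h1 := (le_abs_self _).trans (M.g_le x v v)
  have h2 : ‖M.g x‖ * ‖v‖ * ‖v‖ ≤ max C 1 * ‖v‖ ^ 2 := by
    rw [mul_assoc, ← sq]
    exact mul_le_mul_of_nonneg_right ((hC x hx).trans (le_max_left _ _)) (by positivity)
  exact h1.trans h2

theorem norm_Dg_le (x u v w : EuclideanSpace ℝ (Fin n)) :
    |M.Dg x u v w| ≤ ‖M.Dg x‖ * ‖u‖ * ‖v‖ * ‖w‖ := by
  have h1 : ‖M.Dg x u v w‖ ≤ ‖M.Dg x u‖ * ‖v‖ * ‖w‖ := (M.Dg x u).le_opNorm₂ v w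
  have h2 : ‖M.Dg x u‖ ≤ ‖M.Dg x‖ * ‖u‖ := (M.Dg x).le_opNorm u
  exact h1.trans (by gcongr)

theorem norm_D2g_le (x s u v w : EuclideanSpace ℝ (Fin n)) :
    |M.D2g x s u v w| ≤ ‖M.D2g x‖ * ‖s‖ * ‖u‖ * ‖v‖ * ‖w‖ := by
  have h1 : ‖M.D2g x s u v w‖ ≤ ‖M.D2g x s u‖ * ‖v‖ * ‖w‖ := (M.D2g x s u).le_opNorm₂ v w
  have h2 : ‖M.D2g x s u‖ ≤ ‖M.D2g x‖ * ‖s‖ * ‖u‖ := (M.D2g x).le_opNorm₂ s u
  exact h1.trans (by gcongr)

end RM

namespace RM

variable {n : ℕ} {M : RM n}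

/-- The bound for the second derivative of a Jacobi field. -/
theorem IsJacobi.norm_deriv2_le {γ J : ℝ → EuclideanSpace ℝ (Fin n)} (hγ : ContDiff ℝ 2 γ)
    (hJ : M.IsJacobi γ J) (a b : ℝ) :
    ∃ K : ℝ, 1 ≤ K ∧ ∀ t ∈ Icc a b, ‖deriv (deriv J) t‖ ≤ K * (‖J t‖ + ‖deriv J t‖) := by
  have hcx : Continuous γ := hγ.continuous
  have hcv : Continuous (deriv γ) := hγ.continuous_deriv (by norm_num)
  have hca : Continuous (deriv (deriv γ)) := continuous_deriv2 hγ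
  have hcD : Continuous fun t => M.Dg (γ t) := M.contDiff_Dg.continuous.comp hcx
  obtain ⟨m, hm, hm'⟩ := M.exists_lower (isCompact_Icc.image (s := Icc a b) hcx)
  have hcP : Continuous fun t => ‖M.Dg (γ t)‖ * ‖deriv (deriv γ) t‖ +
      2 * (‖M.D2g (γ t)‖ * ‖deriv γ t‖ ^ 2) + 3 * (‖M.Dg (γ t)‖ * ‖deriv γ t‖) := by
    have n1 := hcD.norm
    have n2 : Continuous fun t => ‖M.D2g (γ t)‖ :=
      (continuous_norm_of_contDiff M.contDiff_D2g).comp hcx
    have n3 := hcv.norm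
    have n4 := hca.norm
    exact ((n1.mul n4).add (continuous_const.mul (n2.mul (n3.pow 2)))).add
      (continuous_const.mul (n1.mul n3))
  obtain ⟨P, hP⟩ := (isCompact_Icc (a := a) (b := b)).exists_bound_of_continuousOn
    hcP.continuousOn
  refine ⟨max (P / m) 1, le_max_right _ _, fun t ht => ?_⟩
  have h1 := hJ.dgeo_eq t (deriv (deriv J) t)
  have h2 := hm' (γ t) ⟨t, ht, rfl⟩ (deriv (deriv J) t)
  have h3 := hP t ht
  rw [Real.norm_of_nonneg (by positivity)] at h3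
  simp only [dgeo] at h1
  set x := γ t
  set v := deriv γ t
  set a' := deriv (deriv γ) t
  set ξ := J t
  set ζ := deriv J t
  set α := deriv (deriv J) t
  have e1 := (abs_le.1 (M.norm_Dg_le x ξ a' α)).1
  have e2 := (abs_le.1 (M.norm_D2g_le x ξ v v α)).1
  have e3 := (abs_le.1 (M.norm_Dg_le x ζ v α)).1
  have e4 := (abs_le.1 (M.norm_Dg_le x v ζ α)).1
  have e5 := (abs_le.1 (M.norm_D2g_le x ξ α v v)).2
  have e6 := (abs_le.1 (M.norm_Dg_le x α ζ v)).2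
  have e7 := (abs_le.1 (M.norm_Dg_le x α v ζ)).2
  have h4 : m * ‖α‖ ^ 2 ≤ P * (‖ξ‖ + ‖ζ‖) * ‖α‖ := by
    have p1 : (‖M.Dg x‖ * ‖a'‖ + 2 * (‖M.D2g x‖ * ‖v‖ ^ 2) + 3 * (‖M.Dg x‖ * ‖v‖)) *
        (‖ξ‖ + ‖ζ‖) * ‖α‖ ≤ P * (‖ξ‖ + ‖ζ‖) * ‖α‖ := by gcongr
    have q1 : 0 ≤ ‖M.Dg x‖ * ‖a'‖ * ‖ζ‖ * ‖α‖ := by positivity
    have q2 : 0 ≤ ‖M.D2g x‖ * ‖v‖ ^ 2 * ‖ξ‖ * ‖α‖ := by positivity
    have q3 : 0 ≤ ‖M.D2g x‖ * ‖v‖ ^ 2 * ‖ζ‖ * ‖α‖ := by positivity
    have q4 : 0 ≤ ‖M.Dg x‖ * ‖v‖ * ‖ξ‖ * ‖α‖ := by positivity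
    have q5 : 0 ≤ ‖M.Dg x‖ * ‖v‖ * ‖ζ‖ * ‖α‖ := by positivity
    nlinarith
  rcases eq_or_ne α 0 with h0 | h0
  · rw [h0, norm_zero]
    positivity
  · have hα : 0 < ‖α‖ := norm_pos_iff.2 h0
    have h5 : m * ‖α‖ ≤ P * (‖ξ‖ + ‖ζ‖) := by
      refine le_of_mul_le_mul_right ?_ hα
      calc m * ‖α‖ * ‖α‖ = m * ‖α‖ ^ 2 := by ring
        _ ≤ _ := h4
    calc ‖α‖ ≤ P / m * (‖ξ‖ + ‖ζ‖) := by
          rw [div_mul_eq_mul_div, le_div_iff₀ hm]
          linarith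
      _ ≤ _ := by gcongr; exact le_max_left _ _

/-- Uniqueness: a Jacobi field with zero initial values is zero. -/
theorem IsJacobi.eq_zero {γ J : ℝ → EuclideanSpace ℝ (Fin n)} (hγ : ContDiff ℝ 2 γ)
    (hJ : M.IsJacobi γ J) {a : ℝ} (h0 : J a = 0) (h1 : deriv J a = 0) : ∀ t, J t = 0 := by
  intro t
  obtain ⟨K, hK1, hK⟩ := hJ.norm_deriv2_le hγ (min a t) (max a t)
  have hz : ∀ s ∈ Icc (min a t) (max a t), HasDerivAt (fun s => (J s, deriv J s))
      ((fun s => (deriv J s, deriv (deriv J) s)) s) s := fun s _ =>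
    (hasDerivAt_of_contDiff hJ.smooth s).prodMk (hasDerivAt_deriv_of_contDiff hJ.smooth s)
  have h2 := eq_zero_of_norm_deriv_le (K := 2 * K) hz (t₀ := a)
    ⟨min_le_left _ _, le_max_left _ _⟩ (by simp [h0, h1]) (by
      intro s hs
      have h3 := hK s hs
      have h4 : ‖J s‖ ≤ ‖(J s, deriv J s)‖ := norm_fst_le (J s, deriv J s)
      have h5 : ‖deriv J s‖ ≤ ‖(J s, deriv J s)‖ := norm_snd_le (J s, deriv J s)
      have h6 : 0 ≤ ‖(J s, deriv J s)‖ := norm_nonneg _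
      rw [Prod.norm_def (deriv J s, deriv (deriv J) s)]
      refine max_le ?_ ?_
      · show ‖deriv J s‖ ≤ _
        nlinarith
      · show ‖deriv (deriv J) s‖ ≤ _
        nlinarith) t ⟨min_le_right _ _, le_max_right _ _⟩
  exact (Prod.mk_eq_zero.1 h2).1

/-- **The Riccati criterion.** A Jacobi field vanishes at `a < b`. If there is a function `w`,
`w a = w b = 0`, such that the integrand of the index form plus `w'` is nonnegative and vanishes only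
if `‖J'‖ ≤ C ‖J‖`, then the Jacobi field is zero. -/
theorem IsJacobi.eq_zero_of_riccati {γ J : ℝ → EuclideanSpace ℝ (Fin n)} (hγ : ContDiff ℝ 2 γ)
    (hJ : M.IsJacobi γ J) {a b : ℝ} (hab : a < b) (ha : J a = 0) (hb : J b = 0)
    {w w' : ℝ → ℝ} (hw : ∀ t ∈ Icc a b, HasDerivAt w (w' t) t) (hwa : w a = 0) (hwb : w b = 0)
    (hpos : ∀ t ∈ Icc a b, 0 ≤ M.quad (γ t) (deriv γ t) (J t) (deriv J t) + w' t) (C : ℝ)
    (hz : ∀ t ∈ Ioo a b, M.quad (γ t) (deriv γ t) (J t) (deriv J t) + w' t = 0 →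
      ‖deriv J t‖ ≤ C * ‖J t‖) : ∀ t, J t = 0 := by
  set f : ℝ → ℝ := fun t => M.pair (γ t) (deriv γ t) (J t) (deriv J t) + w t with hf
  have hd : ∀ t ∈ Icc a b, HasDerivAt f
      (M.quad (γ t) (deriv γ t) (J t) (deriv J t) + w' t) t := fun t ht =>
    (hJ.hasDerivAt_pair hγ t).add (hw t ht)
  have hfa : f a = 0 := by simp [hf, pair, ha, hwa]
  have hfb : f b = 0 := by simp [hf, pair, hb, hwb]
  have hmono : MonotoneOn f (Icc a b) := by
    refine monotoneOn_of_deriv_nonneg (convex_Icc a b)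
      (fun t ht => (hd t ht).continuousAt.continuousWithinAt)
      (fun t ht => (hd t (interior_subset ht)).differentiableAt.differentiableWithinAt)
      (fun t ht => ?_)
    rw [(hd t (interior_subset ht)).deriv]
    exact hpos t (interior_subset ht)
  have hf0 : ∀ t ∈ Icc a b, f t = 0 := by
    intro t ht
    have h1 := hmono (left_mem_Icc.2 hab.le) ht ht.1
    have h2 := hmono ht (right_mem_Icc.2 hab.le) ht.2
    linarith
  have hq : ∀ t ∈ Ioo a b, M.quad (γ t) (deriv γ t) (J t) (deriv J t) + w' t = 0 := by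
    intro t ht
    have h1 : f =ᶠ[𝓝 t] fun _ => (0 : ℝ) := by
      filter_upwards [Icc_mem_nhds ht.1 ht.2] with s hs
      exact hf0 s hs
    rw [← (hd t (Ioo_subset_Icc_self ht)).deriv, h1.deriv_eq]
    simp
  have hle : ∀ t ∈ Icc a b, ‖deriv J t‖ ≤ C * ‖J t‖ := by
    have hcl : IsClosed {t : ℝ | ‖deriv J t‖ ≤ C * ‖J t‖} := by
      refine isClosed_le ?_ ?_
      · exact (hJ.smooth.continuous_deriv (by norm_num)).norm
      · exact continuous_const.mul hJ.smooth.continuous.norm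
    have h1 : Ioo a b ⊆ {t : ℝ | ‖deriv J t‖ ≤ C * ‖J t‖} := fun t ht => hz t ht (hq t ht)
    have h2 := hcl.closure_subset_iff.2 h1
    rw [closure_Ioo hab.ne] at h2
    exact h2
  have hJ0 := eq_zero_of_norm_deriv_le (fun t _ => hasDerivAt_of_contDiff hJ.smooth t)
    (left_mem_Icc.2 hab.le) ha hle
  refine hJ.eq_zero hγ ha ?_
  have h3 := hle a (left_mem_Icc.2 hab.le)
  rw [ha, norm_zero, mul_zero] at h3
  exact norm_le_zero_iff.1 h3

end RM

end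

end Pool.Agent.Lib.MP_6b187a_gt.Div
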