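import Pool.Agent.Lib.MP_6b187a_gt.Div.DistUp
import Pool.Agent.Lib.MP_6b187a_gt.Div.Bound

/-!
# The distance of the metric `gM` is complete

If the curves of class `C¹` of length at most one which start in a bounded set stay in a bounded
set, then every Cauchy sequence of the Riemannian distance converges.
-/

set_option autoImplicit false
set_option maxSynthPendingDepth 3

namespace Pool.Agent.Lib.MP_6b187a_gt.Div

open Filter Set
open scoped ContDiff Topology

noncomputable section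

namespace RM

variable {n : ℕ} (M : RM n)

theorem continuous_speed {c : ℝ → EuclideanSpace ℝ (Fin n)} (hc : ContDiff ℝ 1 c) :
    Continuous fun s => √(M.g (c s) (deriv c s) (deriv c s)) := by
  have h1 : Continuous (deriv c) := hc.continuous_deriv le_rfl
  exact (M.continuous_g_diag.comp (hc.continuous.prodMk h1)).sqrt

/-- A function whose derivative along the curve is at most `K` times the speed changes by at most
`K` times the length. -/
theorem norm_sub_le_length {F : Type*} [NormedAddCommGroup F] [NormedSpace ℝ F]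
    {c : ℝ → EuclideanSpace ℝ (Fin n)} (hc : ContDiff ℝ 1 c) {φ φ' : ℝ → F} {K : ℝ}
    (hK : 0 ≤ K) (hφ : ∀ s, HasDerivAt φ (φ' s) s)
    (hb : ∀ s ∈ Icc (0 : ℝ) 1, ‖φ' s‖ ≤ K * √(M.g (c s) (deriv c s) (deriv c s))) :
    ∀ s ∈ Icc (0 : ℝ) 1, ‖φ s - φ 0‖ ≤ K * M.length c := by
  intro s hs
  have hcont := M.continuous_speed hc
  have hB : ∀ r : ℝ, HasDerivAt
      (fun r => K * ∫ u in (0 : ℝ)..r, √(M.g (c u) (deriv c u) (deriv c u)))
      (K * √(M.g (c r) (deriv c r) (deriv c r))) r := fun r =>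
    (intervalIntegral.integral_hasDerivAt_right (hcont.intervalIntegrable _ _)
      (hcont.stronglyMeasurableAtFilter _ _) hcont.continuousAt).const_mul K
  have h1 := image_norm_le_of_norm_deriv_right_le_deriv_boundary (a := 0) (b := 1)
    (f := fun r => φ r - φ 0) (f' := φ')
    (fun r _ => ((hφ r).sub_const (φ 0)).continuousAt.continuousWithinAt)
    (fun r _ => ((hφ r).sub_const (φ 0)).hasDerivWithinAt)
    (B := fun r => K * ∫ u in (0 : ℝ)..r, √(M.g (c u) (deriv c u) (deriv c u)))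
    (B' := fun r => K * √(M.g (c r) (deriv c r) (deriv c r)))
    (by simp) hB (fun r hr => hb r (Ico_subset_Icc_self hr)) hs
  refine h1.trans (mul_le_mul_of_nonneg_left ?_ hK)
  unfold length
  exact intervalIntegral.integral_mono_interval le_rfl hs.1 hs.2
    (Filter.Eventually.of_forall fun u => Real.sqrt_nonneg _) (hcont.intervalIntegrable _ _)

/-- The straight line is a curve of class `C¹`. -/
theorem exists_curve (x y : EuclideanSpace ℝ (Fin n)) :
    {l : ℝ | ∃ c : ℝ → EuclideanSpace ℝ (Fin n),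
      ContDiff ℝ 1 c ∧ c 0 = x ∧ c 1 = y ∧ l = M.length c}.Nonempty := by
  refine ⟨_, fun s => x + s • (y - x), ?_, ?_, ?_, rfl⟩
  · fun_prop
  · simp
  · simp

/-- If the distance is smaller than `ε` then there is a curve of length smaller than `ε`. -/
theorem exists_curve_of_dist_lt {x y : EuclideanSpace ℝ (Fin n)} {ε : ℝ} (h : M.dist x y < ε) :
    ∃ c : ℝ → EuclideanSpace ℝ (Fin n), ContDiff ℝ 1 c ∧ c 0 = x ∧ c 1 = y ∧ M.length c < ε := by
  obtain ⟨l, ⟨c, h1, h2, h3, rfl⟩, hl⟩ := exists_lt_of_csInf_lt (M.exists_curve x y) h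
  exact ⟨c, h1, h2, h3, hl⟩

/-- The distance on a ball is at most a constant times the distance of `ℝⁿ`. -/
theorem dist_le_mul_norm {B C : ℝ} (hC : ∀ x ∈ Metric.closedBall (0 : EuclideanSpace ℝ (Fin n)) B,
      ∀ v, M.g x v v ≤ C * ‖v‖ ^ 2)
    {x y : EuclideanSpace ℝ (Fin n)} (hx : ‖x‖ ≤ B) (hy : ‖y‖ ≤ B) :
    M.dist x y ≤ √C * ‖y - x‖ := by
  have hd : ∀ s : ℝ, HasDerivAt (fun s : ℝ => x + s • (y - x)) (y - x) s := fun s => by
    simpa using ((hasDerivAt_id s).smul_const (y - x)).const_add x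
  have h1 := Du.dist_le_length M (fun s : ℝ => x + s • (y - x)) (by fun_prop)
  simp only [zero_smul, add_zero, one_smul, add_sub_cancel] at h1
  refine h1.trans ?_
  unfold length
  have h2 : ‖∫ t in (0 : ℝ)..1, √(M.g (x + t • (y - x)) (deriv (fun s : ℝ => x + s • (y - x)) t)
      (deriv (fun s : ℝ => x + s • (y - x)) t))‖ ≤ √C * ‖y - x‖ * |(1 : ℝ) - 0| :=
    intervalIntegral.norm_integral_le_of_norm_le_const fun t ht => by
      rw [Real.norm_eq_abs, abs_of_nonneg (Real.sqrt_nonneg _), (hd t).deriv]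
      rw [uIoc_of_le (by norm_num : (0 : ℝ) ≤ 1)] at ht
      have h3 : x + t • (y - x) ∈ Metric.closedBall (0 : EuclideanSpace ℝ (Fin n)) B := by
        have h4 : x ∈ Metric.closedBall (0 : EuclideanSpace ℝ (Fin n)) B := by simpa using hx
        have h5 : y ∈ Metric.closedBall (0 : EuclideanSpace ℝ (Fin n)) B := by simpa using hy
        have h6 := (convex_closedBall (0 : EuclideanSpace ℝ (Fin n)) B).add_smul_sub_mem h4 h5
          ⟨ht.1.le, ht.2⟩
        exact h6
      refine (Real.sqrt_le_sqrt (hC _ h3 (y - x))).trans ?_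
      rw [Real.sqrt_mul' _ (sq_nonneg _), Real.sqrt_sq (norm_nonneg _)]
  rw [sub_zero, abs_one, mul_one] at h2
  exact (le_abs_self _).trans h2

/-- If the curves of length at most one which start in a bounded set stay in a bounded set, then
the distance is complete. -/
theorem metricallyComplete_of_bdd
    (h : ∀ R : ℝ, ∃ B : ℝ, ∀ c : ℝ → EuclideanSpace ℝ (Fin n), ContDiff ℝ 1 c → ‖c 0‖ ≤ R →
      M.length c ≤ 1 → ∀ s ∈ Icc (0 : ℝ) 1, ‖c s‖ ≤ B) : M.MetricallyComplete := by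
  intro x hx
  obtain ⟨N₀, hN₀⟩ := hx 1 one_pos
  obtain ⟨B, hB⟩ := h ‖x N₀‖
  obtain ⟨B₂, hB₂⟩ := h B
  have hxB : ∀ i, N₀ ≤ i → ‖x i‖ ≤ B := by
    intro i hi
    obtain ⟨c, hc, hc0, hc1, hcl⟩ := M.exists_curve_of_dist_lt (hN₀ N₀ i le_rfl hi)
    have := hB c hc (by rw [hc0]) hcl.le 1 ⟨by norm_num, le_rfl⟩
    rwa [hc1] at this
  obtain ⟨m, hm, hm'⟩ := M.exists_lower
    (isCompact_closedBall (0 : EuclideanSpace ℝ (Fin n)) B₂)
  have hnorm : ∀ ε : ℝ, ε ≤ 1 → ∀ i j, N₀ ≤ i → M.dist (x i) (x j) < ε →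
      ‖x j - x i‖ ≤ (√m)⁻¹ * ε := by
    intro ε hε i j hi hd
    obtain ⟨c, hc, hc0, hc1, hcl⟩ := M.exists_curve_of_dist_lt hd
    have hcB := hB₂ c hc (by rw [hc0]; exact hxB i hi) (hcl.le.trans hε)
    have hsm : 0 < √m := Real.sqrt_pos.2 hm
    have h1 := M.norm_sub_le_length hc (φ := c) (φ' := deriv c) (K := (√m)⁻¹) (by positivity)
      (fun s => ((hc.differentiable one_ne_zero) s).hasDerivAt) (fun s hs => by
        have h2 := hm' (c s) (by simpa using hcB s hs) (deriv c s)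
        have h3 := Real.sqrt_le_sqrt h2
        rw [Real.sqrt_mul' _ (sq_nonneg _), Real.sqrt_sq (norm_nonneg _)] at h3
        rw [inv_mul_eq_div, le_div_iff₀ hsm]
        linarith) 1 ⟨by norm_num, le_rfl⟩
    rw [hc0, hc1] at h1
    exact h1.trans (mul_le_mul_of_nonneg_left hcl.le (by positivity))
  have hcau : CauchySeq x := by
    rw [Metric.cauchySeq_iff]
    intro ε hε
    have hsm : 0 < √m := Real.sqrt_pos.2 hm
    have hδ : 0 < min 1 (√m * (ε / 2)) := lt_min one_pos (by positivity)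
    obtain ⟨N, hN⟩ := hx _ hδ
    refine ⟨max N N₀, fun i hi j hj => ?_⟩
    have h1 := hnorm _ (min_le_left _ _) i j ((le_max_right _ _).trans hi)
      (hN i j ((le_max_left _ _).trans hi) ((le_max_left _ _).trans hj))
    rw [dist_comm, dist_eq_norm]
    calc ‖x j - x i‖ ≤ (√m)⁻¹ * min 1 (√m * (ε / 2)) := h1
      _ ≤ (√m)⁻¹ * (√m * (ε / 2)) := mul_le_mul_of_nonneg_left (min_le_right _ _) (by positivity)
      _ = ε / 2 := by field_simp
      _ < ε := by linarith
  obtain ⟨y, hy⟩ := cauchySeq_tendsto_of_complete hcau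
  obtain ⟨C, hC0, hC⟩ := M.exists_upper
    (isCompact_closedBall (0 : EuclideanSpace ℝ (Fin n)) B)
  have hyB : ‖y‖ ≤ B := le_of_tendsto hy.norm (by
    filter_upwards [eventually_ge_atTop N₀] with i hi using hxB i hi)
  refine ⟨y, ?_⟩
  have h1 : Tendsto (fun i => √C * ‖y - x i‖) atTop (𝓝 0) := by
    have h2 : Tendsto (fun i => ‖y - x i‖) atTop (𝓝 0) := by
      have h3 := (tendsto_const_nhds (x := y)).sub hy
      rw [sub_self] at h3
      simpa using h3.norm
    simpa using h2.const_mul (√C)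
  refine tendsto_of_tendsto_of_tendsto_of_le_of_le' tendsto_const_nhds h1
    (Filter.Eventually.of_forall fun i => Du.dist_nonneg M _ _) ?_
  filter_upwards [eventually_ge_atTop N₀] with i hi
  exact M.dist_le_mul_norm hC (hxB i hi) hyB

end RM

namespace Cp

/-- The norm of a point is at most the sum of the absolute values of the coordinates. -/
theorem norm_le_coord (p : R3) : ‖p‖ ≤ |p 0| + |p 1| + |p 2| := by
  rw [EuclideanSpace.norm_eq, Fin.sum_univ_three]
  simp only [Real.norm_eq_abs]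
  rw [Real.sqrt_le_left (by positivity)]
  nlinarith [abs_nonneg (p 0), abs_nonneg (p 1), abs_nonneg (p 2),
    mul_nonneg (abs_nonneg (p 0)) (abs_nonneg (p 1)),
    mul_nonneg (abs_nonneg (p 0)) (abs_nonneg (p 2)),
    mul_nonneg (abs_nonneg (p 1)) (abs_nonneg (p 2))]

theorem coord_le_norm (p : R3) (i : Fin 3) : |p i| ≤ ‖p‖ := by
  have := EuclideanSpace.norm_eq p
  have h1 : ‖p i‖ ≤ ‖p‖ := PiLp.norm_apply_le p i
  exact h1

theorem speed_t (p v : R3) : |v 0| ≤ √(gM.g p v v) := by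
  refine Real.le_sqrt_of_sq_le ?_
  rw [gM_g, sq_abs]
  have h1 := one_lt_fE (p 0) (p 1)
  have h2 : 0 ≤ fE (p 0) (p 1) * (fY (p 1) / fX (p 1)) ^ 2 * (v 1 * v 1) :=
    mul_nonneg (mul_nonneg (fE_pos _ _).le (sq_nonneg _)) (mul_self_nonneg _)
  have h3 : 0 ≤ fE (p 0) (p 1) / fY (p 1) * (v 2 * v 2) :=
    mul_nonneg (div_nonneg (fE_pos _ _).le (fY_pos _).le) (mul_self_nonneg _)
  nlinarith [mul_self_nonneg (v 0)]

theorem speed_x (p v : R3) : |v 2| ≤ √(gM.g p v v) := by
  refine Real.le_sqrt_of_sq_le ?_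
  rw [gM_g, sq_abs]
  have h1 : 1 ≤ fE (p 0) (p 1) / fY (p 1) := by
    rw [le_div_iff₀ (fY_pos _), fE_eq]
    have := fw_pos (p 0) (p 1)
    linarith
  have h2 : 0 ≤ fE (p 0) (p 1) * (fY (p 1) / fX (p 1)) ^ 2 * (v 1 * v 1) :=
    mul_nonneg (mul_nonneg (fE_pos _ _).le (sq_nonneg _)) (mul_self_nonneg _)
  have h3 : 0 ≤ fE (p 0) (p 1) * (v 0 * v 0) :=
    mul_nonneg (fE_pos _ _).le (mul_self_nonneg _)
  nlinarith [mul_self_nonneg (v 2)]

/-- `√E |dt| ≤ √g`. -/
theorem speed_Et (p v : R3) : √(fE (p 0) (p 1)) * |v 0| ≤ √(gM.g p v v) := by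
  refine Real.le_sqrt_of_sq_le ?_
  rw [gM_g, mul_pow, Real.sq_sqrt (fE_pos _ _).le, sq_abs]
  have h2 : 0 ≤ fE (p 0) (p 1) * (fY (p 1) / fX (p 1)) ^ 2 * (v 1 * v 1) :=
    mul_nonneg (mul_nonneg (fE_pos _ _).le (sq_nonneg _)) (mul_self_nonneg _)
  have h3 : 0 ≤ fE (p 0) (p 1) / fY (p 1) * (v 2 * v 2) :=
    mul_nonneg (div_nonneg (fE_pos _ _).le (fY_pos _).le) (mul_self_nonneg _)
  nlinarith

/-- `√E (Y / X) |dy| ≤ √g`. -/
theorem speed_Ey (p v : R3) :
    √(fE (p 0) (p 1)) * (fY (p 1) / fX (p 1)) * |v 1| ≤ √(gM.g p v v) := by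
  refine Real.le_sqrt_of_sq_le ?_
  rw [gM_g, mul_pow, mul_pow, Real.sq_sqrt (fE_pos _ _).le, sq_abs]
  have h2 : 0 ≤ fE (p 0) (p 1) * (v 0 * v 0) :=
    mul_nonneg (fE_pos _ _).le (mul_self_nonneg _)
  have h3 : 0 ≤ fE (p 0) (p 1) / fY (p 1) * (v 2 * v 2) :=
    mul_nonneg (div_nonneg (fE_pos _ _).le (fY_pos _).le) (mul_self_nonneg _)
  nlinarith

/-- The derivative of `√X`. -/
theorem speed_sqrtX (p v : R3) :
    |fY (p 1) * v 1 / (2 * √(fX (p 1)))| ≤ 1 / 2 * √(gM.g p v v) := by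
  have hY := fY_pos (p 1)
  have hX := fX_pos (p 1)
  have hs : 0 < √(fX (p 1)) := Real.sqrt_pos.2 hX
  have h1 := speed_Ey p v
  have h2 : √(fX (p 1)) ≤ √(fE (p 0) (p 1)) :=
    Real.sqrt_le_sqrt (by rw [fE_eq']; linarith [fw_pos (p 0) (p 1)])
  have h3 : √(fX (p 1)) * (fY (p 1) / fX (p 1)) * |v 1| ≤ √(gM.g p v v) := by
    refine le_trans ?_ h1
    have : 0 ≤ fY (p 1) / fX (p 1) := by positivity
    gcongr
  rw [abs_div, abs_mul, abs_of_pos hY, abs_of_pos (by positivity : 0 < 2 * √(fX (p 1)))]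
  have h4 : √(fX (p 1)) * (fY (p 1) / fX (p 1)) * |v 1| = fY (p 1) * |v 1| / √(fX (p 1)) := by
    have h5 : fX (p 1) = √(fX (p 1)) * √(fX (p 1)) := (Real.mul_self_sqrt hX.le).symm
    rw [h5]
    rw [Real.sqrt_mul_self hs.le]
    field_simp
  rw [h4] at h3
  calc fY (p 1) * |v 1| / (2 * √(fX (p 1))) = 1 / 2 * (fY (p 1) * |v 1| / √(fX (p 1))) := by
        field_simp
    _ ≤ _ := by linarith

/-- The derivative of `h = exp (-t/100 - y)`. -/
theorem speed_h (p v : R3) :
    |Real.exp (-(p 0) / 100 - p 1) * (-(v 0) / 100 - v 1)| ≤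
      2 * fX (p 1) * √(gM.g p v v) := by
  have hY := fY_pos (p 1)
  have hX := fX_pos (p 1)
  have hX1 := one_lt_fX (p 1)
  have hYX : fY (p 1) ≤ fX (p 1) := by rw [fX_eq]; linarith
  set e : ℝ := Real.exp (-(p 0) / 100 - p 1) with he
  have he0 : 0 < e := Real.exp_pos _
  have h1 : e / fY (p 1) ≤ √(fE (p 0) (p 1)) := by
    refine Real.le_sqrt_of_sq_le ?_
    have h2 : (e / fY (p 1)) ^ 2 = fw (p 0) (p 1) := by
      rw [he, fY, fw, ← Real.exp_sub, ← Real.exp_nat_mul]
      congr 1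
      push_cast
      ring
    rw [h2, fE_eq']
    linarith
  have h2 := speed_Et p v
  have h3 := speed_Ey p v
  have h4 : e / fY (p 1) * |v 0| ≤ √(gM.g p v v) := by
    refine le_trans ?_ h2
    gcongr
  have h5 : e / fY (p 1) * (fY (p 1) / fX (p 1)) * |v 1| ≤ √(gM.g p v v) := by
    refine le_trans ?_ h3
    gcongr
  have h6 : e * |v 0| ≤ fX (p 1) * √(gM.g p v v) := by
    have : e * |v 0| = fY (p 1) * (e / fY (p 1) * |v 0|) := by field_simp
    rw [this]
    exact mul_le_mul hYX h4 (by positivity) hX.le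
  have h7 : e * |v 1| ≤ fX (p 1) * √(gM.g p v v) := by
    have : e * |v 1| = fX (p 1) * (e / fY (p 1) * (fY (p 1) / fX (p 1)) * |v 1|) := by
      field_simp
    rw [this]
    exact mul_le_mul_of_nonneg_left h5 hX.le
  rw [abs_mul, abs_of_pos he0]
  have h8 : |-(v 0) / 100 - v 1| ≤ |v 0| / 100 + |v 1| := by
    have := abs_sub (-(v 0) / 100) (v 1)
    rw [abs_div, abs_neg] at this
    simpa using this
  have h9 : e * |-(v 0) / 100 - v 1| ≤ e * (|v 0| / 100 + |v 1|) :=
    mul_le_mul_of_nonneg_left h8 he0.le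
  have h10 : 0 ≤ fX (p 1) * √(gM.g p v v) := by positivity
  nlinarith

/-- The curves of length at most one which start in a bounded set stay in a bounded set. -/
theorem gM_bdd : ∀ R : ℝ, ∃ B : ℝ, ∀ c : ℝ → R3, ContDiff ℝ 1 c → ‖c 0‖ ≤ R →
    gM.length c ≤ 1 → ∀ s ∈ Icc (0 : ℝ) 1, ‖c s‖ ≤ B := by
  intro R
  -- the bounds
  set S : ℝ := √(1 + Real.exp R) + 1 / 2 with hS
  set H : ℝ := Real.exp (R / 100 + R) + 2 * S ^ 2 with hH
  refine ⟨(R + 1) + (S ^ 2 + H + (R + 1)) + (R + 1), fun c hc h0 hl s hs => ?_⟩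
  have hR : 0 ≤ R := (norm_nonneg _).trans h0
  have hd : ∀ r, HasDerivAt c (deriv c r) r := fun r =>
    ((hc.differentiable one_ne_zero) r).hasDerivAt
  have hco : ∀ (i : Fin 3) (r : ℝ), HasDerivAt (fun r => c r i) (deriv c r i) r := fun i r =>
    (RM.pr i).hasFDerivAt.comp_hasDerivAt r (hd r)
  have ht0 : |c 0 0| ≤ R := (coord_le_norm _ _).trans h0
  have hy0 : |c 0 1| ≤ R := (coord_le_norm _ _).trans h0
  have hx0 : |c 0 2| ≤ R := (coord_le_norm _ _).trans h0
  -- `t` and `x`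
  have hl0 := Du.length_nonneg gM c
  have ht : ∀ r ∈ Icc (0 : ℝ) 1, |c r 0| ≤ R + 1 := by
    intro r hr
    have h1 := gM.norm_sub_le_length hc (K := 1) (by norm_num) (hco 0)
      (fun r _ => by rw [one_mul]; exact speed_t _ _) r hr
    rw [Real.norm_eq_abs] at h1
    have h2 := abs_sub_abs_le_abs_sub (c r 0) (c 0 0)
    linarith
  have hx : ∀ r ∈ Icc (0 : ℝ) 1, |c r 2| ≤ R + 1 := by
    intro r hr
    have h1 := gM.norm_sub_le_length hc (K := 1) (by norm_num) (hco 2)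
      (fun r _ => by rw [one_mul]; exact speed_x _ _) r hr
    rw [Real.norm_eq_abs] at h1
    have h2 := abs_sub_abs_le_abs_sub (c r 2) (c 0 2)
    linarith
  -- `√X`
  have hX : ∀ r ∈ Icc (0 : ℝ) 1, √(fX (c r 1)) ≤ S := by
    intro r hr
    have h1 : ∀ r, HasDerivAt (fun r => √(fX (c r 1)))
        (fY (c r 1) * deriv c r 1 / (2 * √(fX (c r 1)))) r := fun r => by
      have h2 : HasDerivAt (fun r => fX (c r 1)) (fY (c r 1) * deriv c r 1) r :=
        ((hco 1 r).exp).const_add 1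
      exact h2.sqrt (fX_pos _).ne'
    have h2 := gM.norm_sub_le_length hc (K := 1 / 2) (by norm_num) h1
      (fun r _ => speed_sqrtX _ _) r hr
    rw [Real.norm_eq_abs] at h2
    have h3 := le_abs_self (√(fX (c r 1)) - √(fX (c 0 1)))
    have h4 : √(fX (c 0 1)) ≤ √(1 + Real.exp R) :=
      Real.sqrt_le_sqrt (by
        rw [fX]
        have := Real.exp_le_exp.2 ((le_abs_self _).trans hy0)
        linarith)
    rw [hS]
    linarith
  have hX2 : ∀ r ∈ Icc (0 : ℝ) 1, fX (c r 1) ≤ S ^ 2 := by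
    intro r hr
    have h1 := hX r hr
    have h2 := Real.sqrt_nonneg (fX (c r 1))
    calc fX (c r 1) = √(fX (c r 1)) ^ 2 := (Real.sq_sqrt (fX_pos _).le).symm
      _ ≤ S ^ 2 := pow_le_pow_left₀ h2 h1 2
  -- `h`
  have hh : Real.exp (-(c s 0) / 100 - c s 1) ≤ H := by
    have h1 : ∀ r, HasDerivAt (fun r => Real.exp (-(c r 0) / 100 - c r 1))
        (Real.exp (-(c r 0) / 100 - c r 1) * (-(deriv c r 0) / 100 - deriv c r 1)) r := fun r =>
      (((hco 0 r).fun_neg.div_const 100).sub (hco 1 r)).exp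
    have h2 := gM.norm_sub_le_length hc (K := 2 * S ^ 2) (by positivity) h1
      (fun r hr => by
        refine (speed_h (c r) (deriv c r)).trans ?_
        have := hX2 r hr
        gcongr) s hs
    rw [Real.norm_eq_abs] at h2
    have h3 := le_abs_self (Real.exp (-(c s 0) / 100 - c s 1) - Real.exp (-(c 0 0) / 100 - c 0 1))
    have h4 : Real.exp (-(c 0 0) / 100 - c 0 1) ≤ Real.exp (R / 100 + R) :=
      Real.exp_le_exp.2 (by
        have h5 := neg_abs_le (c 0 0)
        have h6 := neg_abs_le (c 0 1)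
        linarith)
    have h5 : 2 * S ^ 2 * gM.length c ≤ 2 * S ^ 2 := by
      have : 0 ≤ 2 * S ^ 2 := by positivity
      nlinarith
    rw [hH]
    linarith
  have hy : |c s 1| ≤ S ^ 2 + H + (R + 1) := by
    have hH0 : 0 < H := lt_of_lt_of_le (Real.exp_pos _) hh
    have h1 := hX2 s hs
    have h2 := Real.add_one_le_exp (c s 1)
    have h3 := Real.add_one_le_exp (-(c s 0) / 100 - c s 1)
    have h4 := ht s hs
    have h5 := abs_le.1 h4
    have h6 : 0 ≤ S ^ 2 := sq_nonneg S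
    rw [abs_le]
    rw [fX] at h1
    constructor <;> linarith [h5.1, h5.2]
  refine (norm_le_coord _).trans ?_
  have h1 := ht s hs
  have h2 := hx s hs
  linarith

end Cp

/-- **The distance of `gM` is complete.** -/
theorem gM_metricallyComplete : gM.MetricallyComplete := gM.metricallyComplete_of_bdd Cp.gM_bdd

end

end Pool.Agent.Lib.MP_6b187a_gt.Div
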