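import Mathlib

/-!
# Geodesics from a point which do not diverge: the definitions

Riemannian metrics on `ℝⁿ`, their geodesics of unit speed, Jacobi fields, distance, completeness.
-/

set_option autoImplicit false

namespace Pool.Agent.Lib.MP_6b187a_gt.Div

open Filter
open scoped ContDiff Topology

noncomputable section

/-- A smooth Riemannian metric on `ℝⁿ`: `g x v w` is the scalar product of the tangent vectors `v`
and `w` at the point `x`. -/
structure RM (n : ℕ) where
  g : EuclideanSpace ℝ (Fin n) →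
    EuclideanSpace ℝ (Fin n) →L[ℝ] EuclideanSpace ℝ (Fin n) →L[ℝ] ℝ
  smooth : ContDiff ℝ ∞ g
  symm : ∀ x v w, g x v w = g x w v
  pos : ∀ x v, v ≠ 0 → 0 < g x v v

namespace RM

variable {n : ℕ} (M : RM n)

/-- The geodesic equation `∇_v v = 0` in coordinates with the lower index `w`, for the position `x`,
the velocity `v` and the acceleration `a`:
`g(a, w) + (∂_v g)(v, w) - (∂_w g)(v, v) / 2`. -/
def geo (x v a w : EuclideanSpace ℝ (Fin n)) : ℝ :=
  M.g x a w + fderiv ℝ M.g x v v w - fderiv ℝ M.g x w v v / 2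

/-- `γ` is a geodesic parametrized by arc length, defined for all times. -/
structure IsGeodesic (γ : ℝ → EuclideanSpace ℝ (Fin n)) : Prop where
  smooth : ContDiff ℝ 2 γ
  unit : ∀ t, M.g (γ t) (deriv γ t) (deriv γ t) = 1
  eq : ∀ t w, M.geo (γ t) (deriv γ t) (deriv (deriv γ) t) w = 0

/-- `J` is a Jacobi field along `γ`: a solution of the linearised geodesic equation
`d/ds (geodesic equation of γ + s J) = 0` at `s = 0`. -/
structure IsJacobi (γ J : ℝ → EuclideanSpace ℝ (Fin n)) : Prop where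
  smooth : ContDiff ℝ 2 J
  eq : ∀ t w, deriv (fun s : ℝ => M.geo (γ t + s • J t) (deriv γ t + s • deriv J t)
    (deriv (deriv γ) t + s • deriv (deriv J) t) w) 0 = 0

/-- No geodesic contains a pair of conjugate points: a Jacobi field which vanishes at two different
points of a geodesic is zero. -/
def NoConjugatePoints : Prop :=
  ∀ γ J : ℝ → EuclideanSpace ℝ (Fin n), M.IsGeodesic γ → M.IsJacobi γ J →
    ∀ a b : ℝ, a ≠ b → J a = 0 → J b = 0 → ∀ t, J t = 0

/-- The length of the curve `c`, `0 ≤ t ≤ 1`. -/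
def length (c : ℝ → EuclideanSpace ℝ (Fin n)) : ℝ :=
  ∫ t in (0 : ℝ)..1, √(M.g (c t) (deriv c t) (deriv c t))

/-- The Riemannian distance: the infimum of the lengths of the curves of class `C¹` from `x` to
`y`. -/
def dist (x y : EuclideanSpace ℝ (Fin n)) : ℝ :=
  sInf {l : ℝ | ∃ c : ℝ → EuclideanSpace ℝ (Fin n),
    ContDiff ℝ 1 c ∧ c 0 = x ∧ c 1 = y ∧ l = M.length c}

/-- All geodesics are defined for all times. -/
def GeodesicallyComplete : Prop :=
  ∀ x v : EuclideanSpace ℝ (Fin n), M.g x v v = 1 →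
    ∃ γ : ℝ → EuclideanSpace ℝ (Fin n), M.IsGeodesic γ ∧ γ 0 = x ∧ deriv γ 0 = v

/-- Every Cauchy sequence of the Riemannian distance converges. -/
def MetricallyComplete : Prop :=
  ∀ x : ℕ → EuclideanSpace ℝ (Fin n),
    (∀ ε : ℝ, 0 < ε → ∃ N : ℕ, ∀ i j : ℕ, N ≤ i → N ≤ j → M.dist (x i) (x j) < ε) →
    ∃ y, Tendsto (fun i => M.dist (x i) y) atTop (𝓝 0)

end RM

end

end Pool.Agent.Lib.MP_6b187a_gt.Div
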