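import Pool.Agent.Lib.MP_6b187a_gt.Div.Var

/-!
# Euler–Lagrange form of the geodesic and of the Jacobi equation; diagonal metrics
-/

set_option autoImplicit false
set_option maxSynthPendingDepth 3

namespace Pool.Agent.Lib.MP_6b187a_gt.Div

open Filter Set
open scoped ContDiff Topology

noncomputable section

namespace RM

variable {n : ℕ} {M : RM n}

/-- The Euler–Lagrange form of the geodesic equation. -/
theorem hasDerivAt_mom_of_geo {γ : ℝ → EuclideanSpace ℝ (Fin n)} (hγ : ContDiff ℝ 2 γ)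
    (h : ∀ t w, M.geo (γ t) (deriv γ t) (deriv (deriv γ) t) w = 0) (t : ℝ)
    (w : EuclideanSpace ℝ (Fin n)) :
    HasDerivAt (fun t => M.g (γ t) (deriv γ t) w) (M.Dg (γ t) w (deriv γ t) (deriv γ t) / 2) t := by
  have hx := hasDerivAt_of_contDiff hγ t
  have hv := hasDerivAt_deriv_of_contDiff hγ t
  have hg : HasDerivAt (fun t => M.g (γ t)) (M.Dg (γ t) (deriv γ t)) t :=
    (M.hasFDerivAt_g (γ t)).comp_hasDerivAt t hx
  have h1 := (hg.clm_apply hv).clm_apply (hasDerivAt_const t w)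
  refine h1.congr_deriv ?_
  have h2 := h t w
  rw [geo_eq] at h2
  simp only [add_apply, map_zero, add_zero]
  linarith

/-- The Euler–Lagrange form implies the geodesic equation. -/
theorem geo_of_hasDerivAt_mom {γ : ℝ → EuclideanSpace ℝ (Fin n)} (hγ : ContDiff ℝ 2 γ) (t : ℝ)
    (w : EuclideanSpace ℝ (Fin n))
    (h : HasDerivAt (fun t => M.g (γ t) (deriv γ t) w)
      (M.Dg (γ t) w (deriv γ t) (deriv γ t) / 2) t) :
    M.geo (γ t) (deriv γ t) (deriv (deriv γ) t) w = 0 := by
  have hx := hasDerivAt_of_contDiff hγ t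
  have hv := hasDerivAt_deriv_of_contDiff hγ t
  have hg : HasDerivAt (fun t => M.g (γ t)) (M.Dg (γ t) (deriv γ t)) t :=
    (M.hasFDerivAt_g (γ t)).comp_hasDerivAt t hx
  have h1 := (hg.clm_apply hv).clm_apply (hasDerivAt_const t w)
  have h2 := h1.unique h
  rw [geo_eq]
  simp only [add_apply, map_zero, add_zero] at h2
  linarith

/-- The Euler–Lagrange form of the Jacobi equation. -/
theorem IsJacobi.hasDerivAt_mom {γ J : ℝ → EuclideanSpace ℝ (Fin n)} (hγ : ContDiff ℝ 2 γ)
    (hJ : M.IsJacobi γ J) (t : ℝ) (w : EuclideanSpace ℝ (Fin n)) :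
    HasDerivAt (fun t => M.g (γ t) (deriv J t) w + M.Dg (γ t) (J t) (deriv γ t) w)
      (M.Dg (γ t) w (deriv γ t) (deriv J t) + M.D2g (γ t) (J t) w (deriv γ t) (deriv γ t) / 2)
      t := by
  have hx := hasDerivAt_of_contDiff hγ t
  have hv := hasDerivAt_deriv_of_contDiff hγ t
  have hξ := hasDerivAt_of_contDiff hJ.smooth t
  have hζ := hasDerivAt_deriv_of_contDiff hJ.smooth t
  have hg : HasDerivAt (fun t => M.g (γ t)) (M.Dg (γ t) (deriv γ t)) t :=
    (M.hasFDerivAt_g (γ t)).comp_hasDerivAt t hx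
  have hD : HasDerivAt (fun t => M.Dg (γ t)) (M.D2g (γ t) (deriv γ t)) t :=
    (M.hasFDerivAt_Dg (γ t)).comp_hasDerivAt t hx
  have h1 := (hg.clm_apply hζ).clm_apply (hasDerivAt_const t w)
  have h2 := ((hD.clm_apply hξ).clm_apply hv).clm_apply (hasDerivAt_const t w)
  refine (h1.add h2).congr_deriv ?_
  have h4 := hJ.dgeo_eq t w
  simp only [dgeo, add_apply, map_zero, add_zero] at h4 ⊢
  rw [M.D2g_comm (γ t) (deriv γ t) (J t)]
  have h5 := M.Dg_symm (γ t) w (deriv J t) (deriv γ t)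
  linarith

/-- The converse: the Euler–Lagrange form implies the Jacobi equation. -/
theorem isJacobi_of_hasDerivAt_mom {γ J : ℝ → EuclideanSpace ℝ (Fin n)} (hγ : ContDiff ℝ 2 γ)
    (hJ : ContDiff ℝ 2 J)
    (h : ∀ t w, HasDerivAt (fun t => M.g (γ t) (deriv J t) w + M.Dg (γ t) (J t) (deriv γ t) w)
      (M.Dg (γ t) w (deriv γ t) (deriv J t) + M.D2g (γ t) (J t) w (deriv γ t) (deriv γ t) / 2)
      t) : M.IsJacobi γ J := by
  refine ⟨hJ, fun t w => ?_⟩
  have hx := hasDerivAt_of_contDiff hγ t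
  have hv := hasDerivAt_deriv_of_contDiff hγ t
  have hξ := hasDerivAt_of_contDiff hJ t
  have hζ := hasDerivAt_deriv_of_contDiff hJ t
  have hg : HasDerivAt (fun t => M.g (γ t)) (M.Dg (γ t) (deriv γ t)) t :=
    (M.hasFDerivAt_g (γ t)).comp_hasDerivAt t hx
  have hD : HasDerivAt (fun t => M.Dg (γ t)) (M.D2g (γ t) (deriv γ t)) t :=
    (M.hasFDerivAt_Dg (γ t)).comp_hasDerivAt t hx
  have h1 := (hg.clm_apply hζ).clm_apply (hasDerivAt_const t w)
  have h2 := ((hD.clm_apply hξ).clm_apply hv).clm_apply (hasDerivAt_const t w)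
  have h3 := (h1.add h2).unique (h t w)
  rw [(M.hasDerivAt_geo _ _ _ _ _ _ w).deriv]
  simp only [dgeo, add_apply, map_zero, add_zero] at h3 ⊢
  rw [M.D2g_comm (γ t) (deriv γ t) (J t)] at h3
  have h5 := M.Dg_symm (γ t) w (deriv J t) (deriv γ t)
  linarith

/-- The speed of a solution of the geodesic equation is constant. -/
theorem hasDerivAt_speed {γ : ℝ → EuclideanSpace ℝ (Fin n)} (hγ : ContDiff ℝ 2 γ)
    (h : ∀ t w, M.geo (γ t) (deriv γ t) (deriv (deriv γ) t) w = 0) (t : ℝ) :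
    HasDerivAt (fun t => M.g (γ t) (deriv γ t) (deriv γ t)) 0 t := by
  have hx := hasDerivAt_of_contDiff hγ t
  have hv := hasDerivAt_deriv_of_contDiff hγ t
  have hg : HasDerivAt (fun t => M.g (γ t)) (M.Dg (γ t) (deriv γ t)) t :=
    (M.hasFDerivAt_g (γ t)).comp_hasDerivAt t hx
  have h1 := (hg.clm_apply hv).clm_apply hv
  refine h1.congr_deriv ?_
  have h2 := h t (deriv γ t)
  rw [geo_eq] at h2
  have h3 := M.symm (γ t) (deriv γ t) (deriv (deriv γ) t)
  simp only [add_apply]
  linarith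

/-- For a Jacobi field `J` along a geodesic `γ`, the derivative `e` of the speed is constant. -/
theorem IsJacobi.hasDerivAt_e {γ J : ℝ → EuclideanSpace ℝ (Fin n)} (hγ : ContDiff ℝ 2 γ)
    (h : ∀ t w, M.geo (γ t) (deriv γ t) (deriv (deriv γ) t) w = 0)
    (hJ : M.IsJacobi γ J) (t : ℝ) :
    HasDerivAt (fun t => M.g (γ t) (deriv J t) (deriv γ t) +
      M.Dg (γ t) (J t) (deriv γ t) (deriv γ t) / 2) 0 t := by
  have hx := hasDerivAt_of_contDiff hγ t
  have hv := hasDerivAt_deriv_of_contDiff hγ t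
  have hξ := hasDerivAt_of_contDiff hJ.smooth t
  have hζ := hasDerivAt_deriv_of_contDiff hJ.smooth t
  have hg : HasDerivAt (fun t => M.g (γ t)) (M.Dg (γ t) (deriv γ t)) t :=
    (M.hasFDerivAt_g (γ t)).comp_hasDerivAt t hx
  have hD : HasDerivAt (fun t => M.Dg (γ t)) (M.D2g (γ t) (deriv γ t)) t :=
    (M.hasFDerivAt_Dg (γ t)).comp_hasDerivAt t hx
  have h1 := (hg.clm_apply hζ).clm_apply hv
  have h2 := ((hD.clm_apply hξ).clm_apply hv).clm_apply hv
  refine (h1.add (h2.div_const 2)).congr_deriv ?_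
  have h4 := hJ.dgeo_eq t (deriv γ t)
  have h6 := h t (deriv J t)
  rw [geo_eq] at h6
  simp only [dgeo, add_apply] at h4 h6 ⊢
  rw [M.D2g_comm (γ t) (deriv γ t) (J t)]
  have h5 := M.Dg_symm (γ t) (deriv γ t) (deriv J t) (deriv γ t)
  have h7 := M.symm (γ t) (deriv J t) (deriv (deriv γ) t)
  have h8 := M.Dg_symm (γ t) (J t) (deriv (deriv γ) t) (deriv γ t)
  linarith

/-- For a Jacobi field `J` along a geodesic `γ`, `g(J, γ')` has the constant derivative `e`. -/
theorem IsJacobi.hasDerivAt_tan {γ J : ℝ → EuclideanSpace ℝ (Fin n)} (hγ : ContDiff ℝ 2 γ)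
    (h : ∀ t w, M.geo (γ t) (deriv γ t) (deriv (deriv γ) t) w = 0)
    (hJ : M.IsJacobi γ J) (t : ℝ) :
    HasDerivAt (fun t => M.g (γ t) (deriv γ t) (J t))
      (M.g (γ t) (deriv J t) (deriv γ t) + M.Dg (γ t) (J t) (deriv γ t) (deriv γ t) / 2) t := by
  have hx := hasDerivAt_of_contDiff hγ t
  have hv := hasDerivAt_deriv_of_contDiff hγ t
  have hξ := hasDerivAt_of_contDiff hJ.smooth t
  have hg : HasDerivAt (fun t => M.g (γ t)) (M.Dg (γ t) (deriv γ t)) t :=
    (M.hasFDerivAt_g (γ t)).comp_hasDerivAt t hx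
  refine ((hg.clm_apply hv).clm_apply hξ).congr_deriv ?_
  have h6 := h t (J t)
  rw [geo_eq] at h6
  simp only [add_apply] at h6 ⊢
  have h7 := M.symm (γ t) (deriv J t) (deriv γ t)
  linarith

/-- A Jacobi field which vanishes at two points is orthogonal to the geodesic, together with its
derivative. -/
theorem IsJacobi.orthogonal {γ J : ℝ → EuclideanSpace ℝ (Fin n)} (hγ : ContDiff ℝ 2 γ)
    (h : ∀ t w, M.geo (γ t) (deriv γ t) (deriv (deriv γ) t) w = 0)
    (hJ : M.IsJacobi γ J) {a b : ℝ} (hab : a ≠ b) (ha : J a = 0) (hb : J b = 0) (t : ℝ) :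
    M.g (γ t) (deriv γ t) (J t) = 0 ∧
      M.g (γ t) (deriv J t) (deriv γ t) + M.Dg (γ t) (J t) (deriv γ t) (deriv γ t) / 2 = 0 := by
  set e : ℝ → ℝ := fun t => M.g (γ t) (deriv J t) (deriv γ t) +
    M.Dg (γ t) (J t) (deriv γ t) (deriv γ t) / 2 with he
  have h1 : ∀ s, e s = e a := by
    intro s
    have h2 := is_const_of_deriv_eq_zero (f := e)
      (fun s => (hJ.hasDerivAt_e hγ h s).differentiableAt) (fun s => (hJ.hasDerivAt_e hγ h s).deriv)
    exact h2 s a
  have h3 : ∀ s, HasDerivAt (fun t => M.g (γ t) (deriv γ t) (J t) - e a * t) 0 s := by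
    intro s
    have h4 := (hJ.hasDerivAt_tan hγ h s).sub ((hasDerivAt_id s).const_mul (e a))
    refine h4.congr_deriv ?_
    have h5 : M.g (γ s) (deriv J s) (deriv γ s) + M.Dg (γ s) (J s) (deriv γ s) (deriv γ s) / 2
      = e a := h1 s
    rw [h5]
    ring
  have h4 : ∀ s r, M.g (γ s) (deriv γ s) (J s) - e a * s = M.g (γ r) (deriv γ r) (J r) - e a * r :=
    is_const_of_deriv_eq_zero (fun s => (h3 s).differentiableAt) (fun s => (h3 s).deriv)
  have h5 : e a = 0 := by
    have h6 := h4 a b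
    rw [ha, hb] at h6
    simp only [map_zero, zero_sub, neg_inj] at h6
    have h7 : e a * (a - b) = 0 := by linarith
    rcases mul_eq_zero.1 h7 with h8 | h8
    · exact h8
    · exact absurd (sub_eq_zero.1 h8) hab
  refine ⟨?_, ?_⟩
  · have h6 := h4 t a
    rw [ha, h5] at h6
    simpa using h6
  · have h6 := h1 t
    rw [h5] at h6
    exact h6

/-- The coordinate functions. -/
def pr (i : Fin n) : EuclideanSpace ℝ (Fin n) →L[ℝ] ℝ := EuclideanSpace.proj i

theorem pr_apply (i : Fin n) (v : EuclideanSpace ℝ (Fin n)) : pr i v = v i := rfl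

/-- The diagonal metric with the coefficients `d i`. -/
def diag (d : Fin n → EuclideanSpace ℝ (Fin n) → ℝ) (hd : ∀ i, ContDiff ℝ ∞ (d i))
    (hpos : ∀ i x, 0 < d i x) : RM n where
  g := fun x => ∑ i, d i x • (pr i).smulRight (pr i)
  smooth := ContDiff.sum fun i _ => (hd i).smul contDiff_const
  symm := by
    intro x v w
    simp only [sum_apply, smul_apply, ContinuousLinearMap.smulRight_apply,
      pr_apply, smul_eq_mul]
    exact Finset.sum_congr rfl fun i _ => by ring
  pos := by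
    intro x v hv
    simp only [sum_apply, smul_apply, ContinuousLinearMap.smulRight_apply,
      pr_apply, smul_eq_mul]
    have h1 : ∃ i, v i ≠ 0 := by
      by_contra h
      push Not at h
      exact hv (by ext i; simpa using h i)
    obtain ⟨i, hi⟩ := h1
    refine Finset.sum_pos' (fun j _ => ?_) ⟨i, Finset.mem_univ i, ?_⟩
    · exact mul_nonneg (hpos j x).le (mul_self_nonneg _)
    · exact mul_pos (hpos i x) (mul_self_pos.2 hi)

section diag

variable (d : Fin n → EuclideanSpace ℝ (Fin n) → ℝ) (hd : ∀ i, ContDiff ℝ ∞ (d i))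
    (hpos : ∀ i x, 0 < d i x)

theorem diag_g (x v w : EuclideanSpace ℝ (Fin n)) :
    (diag d hd hpos).g x v w = ∑ i, d i x * (v i * w i) := by
  simp only [diag, sum_apply, smul_apply, ContinuousLinearMap.smulRight_apply,
      pr_apply, smul_eq_mul]

theorem diag_Dg (x u v w : EuclideanSpace ℝ (Fin n)) :
    (diag d hd hpos).Dg x u v w = ∑ i, fderiv ℝ (d i) x u * (v i * w i) := by
  set M := diag d hd hpos with hM
  have h1 : HasFDerivAt (fun y => M.g y v w) (((M.Dg x).flip v).flip w) x := by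
    have := ((M.hasFDerivAt_g x).clm_apply (hasFDerivAt_const v x)).clm_apply
      (hasFDerivAt_const w x)
    refine this.congr_fderiv ?_
    ext y
    simp
  have h2 : HasFDerivAt (fun y => ∑ i, d i y * (v i * w i))
      (∑ i, (v i * w i) • fderiv ℝ (d i) x) x := by
    refine HasFDerivAt.fun_sum fun i _ => ?_
    exact (((hd i).differentiable (by simp)) x).hasFDerivAt.mul_const (v i * w i)
  have h3 : (fun y => M.g y v w) = fun y => ∑ i, d i y * (v i * w i) := by
    funext y
    exact diag_g d hd hpos y v w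
  rw [h3] at h1
  have h4 := congrArg (fun L => L u) (h1.unique h2)
  simp only [ContinuousLinearMap.flip_apply, sum_apply, smul_apply, smul_eq_mul] at h4
  rw [h4]
  exact Finset.sum_congr rfl fun i _ => by ring

theorem diag_D2g (x s u v w : EuclideanSpace ℝ (Fin n)) :
    (diag d hd hpos).D2g x s u v w =
      ∑ i, fderiv ℝ (fun y => fderiv ℝ (d i) y u) x s * (v i * w i) := by
  set M := diag d hd hpos with hM
  have h1 : HasFDerivAt (fun y => M.Dg y u v w) ((((M.D2g x).flip u).flip v).flip w) x := by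
    have := (((M.hasFDerivAt_Dg x).clm_apply (hasFDerivAt_const u x)).clm_apply
      (hasFDerivAt_const v x)).clm_apply (hasFDerivAt_const w x)
    refine this.congr_fderiv ?_
    ext y
    simp
  have hd' : ∀ i, Differentiable ℝ (fun y => fderiv ℝ (d i) y u) := fun i =>
    (((contDiff_infty_iff_fderiv.1 (hd i)).2.clm_apply contDiff_const).differentiable (by simp))
  have h2 : HasFDerivAt (fun y => ∑ i, fderiv ℝ (d i) y u * (v i * w i))
      (∑ i, (v i * w i) • fderiv ℝ (fun y => fderiv ℝ (d i) y u) x) x := by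
    refine HasFDerivAt.fun_sum fun i _ => ?_
    exact ((hd' i) x).hasFDerivAt.mul_const (v i * w i)
  have h3 : (fun y => M.Dg y u v w) = fun y => ∑ i, fderiv ℝ (d i) y u * (v i * w i) := by
    funext y
    exact diag_Dg d hd hpos y u v w
  rw [h3] at h1
  have h4 := congrArg (fun L => L s) (h1.unique h2)
  simp only [ContinuousLinearMap.flip_apply, sum_apply, smul_apply, smul_eq_mul] at h4
  rw [h4]
  exact Finset.sum_congr rfl fun i _ => by ring

end diag

end RM

end

end Pool.Agent.Lib.MP_6b187a_gt.Div
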