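import Mathlib

/-!
# The metric `g` on `ℝ³` and the ordinary differential equations of its geodesics and Jacobi fields

Coordinates `(t, y, x)`, `Y = e^y`, `X = 1 + Y`, `w = exp (-t/50 - 4 y)`, `θ = w / Y`, `E = X + w`,
`g = E (dt² + (Y/X)² dy² + dx² / Y)`. With `ψ = log X` this is `E (dt² + dψ² + dx² / Y)`.
-/

set_option autoImplicit false

namespace Pool.Agent.Lib.MP_6b187a_gt.Div

noncomputable section

/-- `Y = e^y`. -/
def fY (y : ℝ) : ℝ := Real.exp y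

/-- `X = 1 + e^y`. -/
def fX (y : ℝ) : ℝ := 1 + Real.exp y

/-- `w = exp (-t/50 - 4 y)`. -/
def fw (t y : ℝ) : ℝ := Real.exp (-t / 50 - 4 * y)

/-- `θ = exp (-t/50 - 5 y) = w / Y`. -/
def fθ (t y : ℝ) : ℝ := Real.exp (-t / 50 - 5 * y)

/-- The conformal factor `E = 1 + e^y + exp (-t/50 - 4 y)`. -/
def fE (t y : ℝ) : ℝ := 1 + Real.exp y + Real.exp (-t / 50 - 4 * y)

/-- `E_t`. -/
def fEt (t y : ℝ) : ℝ := -fw t y / 50

/-- `E_ψ`. -/
def fEp (t y : ℝ) : ℝ := fX y - 4 * fw t y * fX y / fY y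

/-- `E_tt`. -/
def fEtt (t y : ℝ) : ℝ := fw t y / 2500

/-- `E_tψ`. -/
def fEtp (t y : ℝ) : ℝ := 2 / 25 * fw t y * fX y / fY y

/-- `E_ψψ`. -/
def fEpp (t y : ℝ) : ℝ :=
  fX y + 16 * fw t y * fX y ^ 2 / fY y ^ 2 + 4 * fw t y * fX y / fY y ^ 2

/-- The equations of a geodesic of unit speed at the time `s` (`a = E t'`, `b = E ψ'`,
`c = E x' / Y` is constant). -/
structure Orb (c : ℝ) (t y x a b : ℝ → ℝ) (s : ℝ) : Prop where
  ht : HasDerivAt t (a s / fE (t s) (y s)) s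
  hy : HasDerivAt y (fX (y s) / fY (y s) * b s / fE (t s) (y s)) s
  hx : HasDerivAt x (c * fY (y s) / fE (t s) (y s)) s
  ha : HasDerivAt a (-(fw (t s) (y s) / 100) / fE (t s) (y s)) s
  hb : HasDerivAt b
    (fX (y s) * (1 - c ^ 2 - 4 * fθ (t s) (y s)) / 2 / fE (t s) (y s)) s
  en : a s ^ 2 + b s ^ 2 + c ^ 2 * fY (y s) = fE (t s) (y s)

/-- The linearised equations, in a generic form: `E`, `Et`, `Ep`, `G`, `Gp` are functions of the
time along the geodesic, `Ett`, `Etp`, `Epp`, `Gpp` the values of the second derivatives at the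
time `s`. `G` is the function `Γ = Y`. -/
structure Lin (c dc k : ℝ) (E Et Ep G Gp a b τ u ξ A B : ℝ → ℝ) (Ett Etp Epp Gpp : ℝ)
    (s : ℝ) : Prop where
  Epos : 0 < E s
  Gpos : 0 < G s
  hE : HasDerivAt E ((Et s * a s + Ep s * b s) / E s) s
  hEt : HasDerivAt Et ((Ett * a s + Etp * b s) / E s) s
  hEp : HasDerivAt Ep ((Etp * a s + Epp * b s) / E s) s
  hG : HasDerivAt G (Gp s * b s / E s) s
  hGp : HasDerivAt Gp (Gpp * b s / E s) s
  ha : HasDerivAt a (Et s / 2 / E s) s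
  hb : HasDerivAt b ((Ep s - c ^ 2 * Gp s) / 2 / E s) s
  hτ : HasDerivAt τ ((A s + k * a s) / E s) s
  hu : HasDerivAt u ((B s + k * b s) / E s) s
  hξ : HasDerivAt ξ ((G s * dc + c * Gp s * u s + k * (c * G s)) / E s) s
  hA : HasDerivAt A (((Ett * τ s + Etp * u s) / 2 + k * (Et s / 2)) / E s) s
  hB : HasDerivAt B (((Etp * τ s + Epp * u s - c ^ 2 * Gpp * u s - 2 * c * dc * Gp s) / 2 +
    k * ((Ep s - c ^ 2 * Gp s) / 2)) / E s) s
  en : a s ^ 2 + b s ^ 2 + c ^ 2 * G s = E s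
  cons : a s * A s + b s * B s + c * dc * G s + c ^ 2 * Gp s * u s / 2 -
    (Et s * τ s + Ep s * u s) / 2 = 0

end

end Pool.Agent.Lib.MP_6b187a_gt.Div
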