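import Pool.Agent.Lib.MP_6b187a_gt.Div.LemG
import Pool.Agent.Lib.MP_6b187a_gt.Div.Sys

/-!
# Lemma D: the dichotomy for `c ^ 2 ≥ 1` (piece F13)
-/

set_option autoImplicit false

namespace Pool.Agent.Lib.MP_6b187a_gt.Div.Lg

open Real Set

variable {c : ℝ} {t y a b : ℝ → ℝ}

/-- restriction -/
theorem SOrb.res {p q p' q' : ℝ} (O : SOrb c t y a b p q) (hp : p ≤ p') (hq : q' ≤ q) :
    SOrb c t y a b p' q' where
  ht s hs := O.ht s ⟨hp.trans hs.1, hs.2.trans hq⟩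
  hy s hs := O.hy s ⟨hp.trans hs.1, hs.2.trans hq⟩
  ha s hs := O.ha s ⟨hp.trans hs.1, hs.2.trans hq⟩
  hb s hs := O.hb s ⟨hp.trans hs.1, hs.2.trans hq⟩
  he s hs := O.he s ⟨hp.trans hs.1, hs.2.trans hq⟩

/-- reversal of an orbit -/
theorem SOrb.rev {p q : ℝ} (O : SOrb c t y a b p q) :
    SOrb c (fun s => t (-s)) (fun s => y (-s)) (fun s => -a (-s)) (fun s => -b (-s))
      (-q) (-p) where
  ht s hs := by
    have hs' : -s ∈ Icc p q := ⟨by linarith [hs.2], by linarith [hs.1]⟩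
    refine ((O.ht (-s) hs').scomp s (hasDerivAt_neg s)).congr_deriv ?_
    simp only [smul_eq_mul]
    ring
  hy s hs := by
    have hs' : -s ∈ Icc p q := ⟨by linarith [hs.2], by linarith [hs.1]⟩
    refine ((O.hy (-s) hs').scomp s (hasDerivAt_neg s)).congr_deriv ?_
    simp only [smul_eq_mul]
    ring
  ha s hs := by
    have hs' : -s ∈ Icc p q := ⟨by linarith [hs.2], by linarith [hs.1]⟩
    refine (((O.ha (-s) hs').scomp s (hasDerivAt_neg s)).neg).congr_deriv ?_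
    simp only [smul_eq_mul]
    ring
  hb s hs := by
    have hs' : -s ∈ Icc p q := ⟨by linarith [hs.2], by linarith [hs.1]⟩
    refine (((O.hb (-s) hs').scomp s (hasDerivAt_neg s)).neg).congr_deriv ?_
    simp only [smul_eq_mul]
    ring
  he s hs := by
    have hs' : -s ∈ Icc p q := ⟨by linarith [hs.2], by linarith [hs.1]⟩
    have := O.he (-s) hs'
    simp only [neg_sq]
    exact this

theorem SOrb.cont_th {p q : ℝ} (O : SOrb c t y a b p q) :
    ContinuousOn (fun s => eTh (t s) (y s)) (Icc p q) := by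
  have h1 : ContinuousOn t (Icc p q) := fun s hs => (O.ht s hs).continuousAt.continuousWithinAt
  have h2 : ContinuousOn y (Icc p q) := fun s hs => (O.hy s hs).continuousAt.continuousWithinAt
  unfold eTh
  fun_prop

/-- `θ` stays large after a time with `θ ≥ 1 / 2` and `b ≤ 0` -/
theorem SOrb.th_after {s0 s : ℝ} (O : SOrb c t y a b s0 s) (hc : 1 ≤ c ^ 2) (hs : s0 ≤ s)
    (hb0 : b s0 ≤ 0) (hth0 : 1 / 2 ≤ eTh (t s0) (y s0)) : 49 / 100 < eTh (t s) (y s) := by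
  obtain ⟨S, hS0, hS⟩ := O.exists_sigma hs
  have h := (O.lemG hc hb0 hth0 S hS0 hS (s := s) ⟨hs, le_rfl⟩).hth
  linarith

/-- the estimate after a time with `θ = 1 / 2` and `b ≤ 0` -/
theorem SOrb.L_after {s0 s : ℝ} (O : SOrb c t y a b s0 s) (hc : 1 ≤ c ^ 2) (hs : s0 ≤ s)
    (hb0 : b s0 ≤ 0) (hth0 : eTh (t s0) (y s0) = 1 / 2) :
    20 * eTh (t s) (y s) ≤ 21 * ((b s ^ 2 + c ^ 2 * exp (y s)) / exp (y s)) := by
  obtain ⟨S, hS0, hS⟩ := O.exists_sigma hs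
  have h := O.lemG hc hb0 hth0.ge S hS0 hS (s := s) ⟨hs, le_rfl⟩
  obtain ⟨d, hd⟩ : ∃ d, d = log (1 + exp (y s0)) - log (1 + exp (y s)) := ⟨_, rfl⟩
  obtain ⟨Y, hY⟩ : ∃ Y, Y = exp (y s) := ⟨_, rfl⟩
  obtain ⟨Y0, hY0⟩ : ∃ Y0, Y0 = exp (y s0) := ⟨_, rfl⟩
  obtain ⟨θ, hθ⟩ : ∃ θ, θ = eTh (t s) (y s) := ⟨_, rfl⟩
  have hYp : 0 < Y := by rw [hY]; exact exp_pos _
  have hY0p : 0 < Y0 := by rw [hY0]; exact exp_pos _
  have hθp : 0 < θ := by rw [hθ]; exact eTh_pos _ _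
  have hY0d : Y0 = Y * exp (y s0 - y s) := by
    rw [hY0, hY, ← exp_add]
    congr 1
    ring
  -- `ρ`
  obtain ⟨ρ, hρ⟩ : ∃ ρ, ρ = exp (y s0 - y s) := ⟨_, rfl⟩
  have hρ1 : 1 ≤ ρ := by rw [hρ]; exact one_le_exp (sub_nonneg.2 h.hy)
  rw [← hρ] at hY0d
  -- the size of `θ`
  have h1 : |a s0| * S s ≤ 1 / 2 * (1 + 201 / 100 * d) := by
    have e1 : a s0 ^ 2 * S s ^ 2 ≤ 201 / 100 * d := by
      have := h.hdS
      rw [← hd] at this
      have h0 : 0 ≤ a s0 ^ 2 * S s ^ 2 := by positivity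
      nlinarith
    have e2 : 2 * (|a s0| * S s) ≤ 1 + (|a s0| * S s) ^ 2 := by
      nlinarith [sq_nonneg (|a s0| * S s - 1)]
    have e3 : (|a s0| * S s) ^ 2 = a s0 ^ 2 * S s ^ 2 := by rw [mul_pow, sq_abs]
    linarith
  have hd0 : 0 ≤ d := by rw [hd]; exact h.hd0
  have hd1 : d ≤ y s0 - y s := by rw [hd]; exact h.hd1
  have h2 : (t s - t s0) / 50 ≤ 1 / 100 + (y s0 - y s) := by
    have e1 := (abs_le.1 h.ht).2
    rw [← hd] at e1
    linarith
  have hρ4 : 99 / 200 * ρ ^ 4 ≤ θ := by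
    have e1 : θ = 1 / 2 * exp (-(t s - t s0) / 50 + 5 * (y s0 - y s)) := by
      rw [hθ, ← hth0, eTh, eTh, ← exp_add]
      congr 1
      ring
    have e2 : ρ ^ 4 = exp (4 * (y s0 - y s)) := by
      rw [hρ, ← exp_nat_mul]
      norm_num
    have e3 : (99 / 100 : ℝ) ≤ exp (-1 / 100) := by
      have := add_one_le_exp (-1 / 100 : ℝ)
      linarith
    have e4 : exp (-1 / 100) * exp (4 * (y s0 - y s)) ≤
        exp (-(t s - t s0) / 50 + 5 * (y s0 - y s)) := by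
      rw [← exp_add, exp_le_exp]
      linarith
    have e5 : 99 / 100 * exp (4 * (y s0 - y s)) ≤ exp (-1 / 100) * exp (4 * (y s0 - y s)) :=
      mul_le_mul_of_nonneg_right e3 (exp_pos _).le
    rw [e1, e2]
    linarith
  -- the size of `a`
  have h3 : a s0 ^ 2 ≤ 1 + Y0 / 2 := by
    have e1 := O.a_sq hc s0 ⟨le_rfl, hs⟩
    rw [hth0, ← hY0] at e1
    nlinarith [sq_nonneg (b s0)]
  obtain ⟨q, hq⟩ : ∃ q, q = Y0 / (1 + Y0) := ⟨_, rfl⟩
  have hq0 : 0 ≤ q := by rw [hq]; positivity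
  have hq1 : q ≤ 1 := by rw [hq, div_le_one (by positivity)]; linarith
  have hq2 : a s0 ^ 2 * q ^ 2 ≤ Y0 := by
    have e1 : (1 + Y0) * q = Y0 := by rw [hq]; field_simp
    have e2 : a s0 ^ 2 * q ^ 2 ≤ (1 + Y0) * q ^ 2 :=
      mul_le_mul_of_nonneg_right (by linarith) (sq_nonneg _)
    have e3 : (1 + Y0) * q ^ 2 = Y0 * q := by
      calc (1 + Y0) * q ^ 2 = ((1 + Y0) * q) * q := by ring
        _ = Y0 * q := by rw [e1]
    have e4 : Y0 * q ≤ Y0 * 1 := mul_le_mul_of_nonneg_left hq1 hY0p.le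
    linarith
  have h4 : a s ^ 2 ≤ 1 + Y0 / 2 + 1 / 200 * (b s ^ 2 + Y0) + 1 / 40000 * b s ^ 2 := by
    have e1 := h.ha
    rw [← hY0, ← hq] at e1
    have hb := h.hb
    have e2 : |a s| ≤ |a s0| + 1 / 200 * q * (-b s) := by
      have e3 : |a s| ≤ |a s0| + |a s - a s0| := by
        have := abs_add_le (a s0) (a s - a s0)
        simpa using this
      linarith
    have e3 : a s ^ 2 ≤ (|a s0| + 1 / 200 * q * (-b s)) ^ 2 := by
      rw [← sq_abs (a s)]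
      exact pow_le_pow_left₀ (abs_nonneg _) e2 2
    have e4 : (|a s0| + 1 / 200 * q * (-b s)) ^ 2 =
        a s0 ^ 2 + 1 / 100 * (|a s0| * q * (-b s)) + 1 / 40000 * (q ^ 2 * b s ^ 2) := by
      rw [← sq_abs (a s0)]
      ring
    have e5 : |a s0| * q * (-b s) ≤ 1 / 2 * (b s ^ 2 + a s0 ^ 2 * q ^ 2) := by
      have := sq_nonneg (|a s0| * q - (-b s))
      have e6 : (|a s0| * q) ^ 2 = a s0 ^ 2 * q ^ 2 := by rw [mul_pow, sq_abs]
      nlinarith
    have e7 : q ^ 2 * b s ^ 2 ≤ b s ^ 2 := by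
      have : q ^ 2 ≤ 1 := by nlinarith
      nlinarith [sq_nonneg (b s)]
    rw [e4] at e3
    linarith
  -- the size of `L`
  have he := O.he s ⟨hs, le_rfl⟩
  rw [eE_eq, ← hY, ← hθ] at he
  obtain ⟨M, hM⟩ : ∃ M, M = b s ^ 2 + (c ^ 2 - 1) * Y := ⟨_, rfl⟩
  have h5 : b s ^ 2 ≤ M := by
    have : 0 ≤ (c ^ 2 - 1) * Y := mul_nonneg (by linarith) hYp.le
    linarith
  have h6 : M = 1 + θ * Y - a s ^ 2 := by rw [hM]; linarith
  have h7 : θ * Y - 101 / 200 * Y0 ≤ 101 / 100 * M := by nlinarith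
  rw [hY0d] at h7
  have h8 : θ - 101 / 200 * ρ ≤ 101 / 100 * (M / Y) := by
    rw [← mul_div_assoc, le_div_iff₀ hYp]
    linarith
  have h9 : (b s ^ 2 + c ^ 2 * Y) / Y = 1 + M / Y := by
    rw [hM]
    field_simp
    ring
  rw [← hY, ← hθ, h9]
  have h10 : 0 ≤ 21 + 38 / 100 * ρ ^ 4 - 21 / 2 * ρ := by
    nlinarith [sq_nonneg (ρ ^ 2 - 36 / 10), sq_nonneg (ρ - 19 / 10)]
  linarith

/-- the estimate after a time with `θ < 49 / 100` -/
theorem SOrb.dich_after {r s : ℝ} (O : SOrb c t y a b r s) (hc : 1 ≤ c ^ 2) (hrs : r ≤ s)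
    (hr : eTh (t r) (y r) < 49 / 100) :
    20 * eTh (t s) (y s) ≤ 21 * ((b s ^ 2 + c ^ 2 * exp (y s)) / exp (y s)) := by
  rcases le_total (eTh (t s) (y s)) (1 / 2) with h | h
  · have e1 : 1 ≤ (b s ^ 2 + c ^ 2 * exp (y s)) / exp (y s) := by
      rw [le_div_iff₀ (exp_pos _)]
      nlinarith [exp_pos (y s), sq_nonneg (b s)]
    linarith
  · obtain ⟨s0, hs0, hth0⟩ := intermediate_value_Icc hrs O.cont_th
      (show (1 / 2 : ℝ) ∈ Icc (eTh (t r) (y r)) (eTh (t s) (y s)) from ⟨by linarith, h⟩)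
    rcases le_total (b s0) 0 with hb | hb
    · exact (O.res hs0.1 le_rfl).L_after hc hs0.2 hb hth0
    · exfalso
      have h1 := (O.res le_rfl hs0.2).rev.th_after hc (by linarith [hs0.1])
        (by simp only [neg_neg]; linarith) (by simp only [neg_neg]; exact hth0.ge)
      simp only [neg_neg] at h1
      linarith

/-- **Lemma D.** Either `θ ≥ 49 / 100` at all times or `20 θ ≤ 21 L` at all times. -/
theorem SOrb.dich {s1 s2 : ℝ} (O : SOrb c t y a b s1 s2) (hc : 1 ≤ c ^ 2) :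
    (∀ s ∈ Icc s1 s2, 49 / 100 ≤ eTh (t s) (y s)) ∨
    ∀ s ∈ Icc s1 s2,
      20 * eTh (t s) (y s) ≤ 21 * ((b s ^ 2 + c ^ 2 * exp (y s)) / exp (y s)) := by
  by_cases h : ∀ s ∈ Icc s1 s2, 49 / 100 ≤ eTh (t s) (y s)
  · exact Or.inl h
  · right
    push Not at h
    obtain ⟨r, hr0, hr⟩ := h
    intro s hs
    rcases le_total r s with hrs | hrs
    · exact (O.res hr0.1 hs.2).dich_after hc hrs hr
    · have h1 := (O.res hs.1 hr0.2).rev.dich_after hc (by linarith)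
        (by simp only [neg_neg]; exact hr)
      simp only [neg_neg, neg_sq] at h1
      exact h1

/-- the connection with `Sys.lean` -/
theorem SOrb.of_orb {s1 s2 : ℝ} {x : ℝ → ℝ} (h : ∀ s ∈ Icc s1 s2, Orb c t y x a b s) :
    SOrb c t y a b s1 s2 where
  ht s hs := (h s hs).ht
  hy s hs := (h s hs).hy
  ha s hs := by
    refine (h s hs).ha.congr_deriv ?_
    have e1 : fw (t s) (y s) = eTh (t s) (y s) * exp (y s) := eW_eq _ _
    rw [e1]
    rfl
  hb s hs := by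
    refine (h s hs).hb.congr_deriv ?_
    have e1 : fE (t s) (y s) = eE (t s) (y s) := rfl
    have e2 : fθ (t s) (y s) = eTh (t s) (y s) := rfl
    have e3 : fX (y s) = 1 + exp (y s) := rfl
    rw [e1, e2, e3]
    have := (eE_pos (t s) (y s)).ne'
    field_simp
  he s hs := (h s hs).en

end Pool.Agent.Lib.MP_6b187a_gt.Div.Lg

namespace Pool.Agent.Lib.MP_6b187a_gt.Div

open Set

/-- **Lemma D** in the notation of `Sys.lean`. -/
theorem orb_dich {c : ℝ} {t y x a b : ℝ → ℝ} {s1 s2 : ℝ}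
    (h : ∀ s ∈ Icc s1 s2, Orb c t y x a b s) (hc : 1 ≤ c ^ 2) :
    (∀ s ∈ Icc s1 s2, 49 / 100 ≤ fθ (t s) (y s)) ∨
    ∀ s ∈ Icc s1 s2, 20 * fθ (t s) (y s) * fY (y s) ≤ 21 * (b s ^ 2 + c ^ 2 * fY (y s)) := by
  rcases (Lg.SOrb.of_orb h).dich hc with h1 | h1
  · exact Or.inl h1
  · right
    intro s hs
    have h2 := h1 s hs
    have hp : 0 < Real.exp (y s) := Real.exp_pos _
    have h3 : 21 * ((b s ^ 2 + c ^ 2 * Real.exp (y s)) / Real.exp (y s)) * Real.exp (y s) =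
        21 * (b s ^ 2 + c ^ 2 * Real.exp (y s)) := by
      field_simp
    have h4 := mul_le_mul_of_nonneg_right h2 hp.le
    rw [h3] at h4
    exact h4

/-- **Lemma D** for an orbit which is defined for all times. -/
theorem dichotomy {c : ℝ} {t y a b x : ℝ → ℝ} (h : ∀ s, Orb c t y x a b s)
    (hc : 1 ≤ c ^ 2) :
    (∀ s, 49 / 100 ≤ fθ (t s) (y s)) ∨
    ∀ s, 20 * fθ (t s) (y s) ≤ 21 * ((b s ^ 2 + c ^ 2 * fY (y s)) / fY (y s)) := by
  by_contra hcon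
  push Not at hcon
  obtain ⟨⟨r, hr⟩, ⟨s, hs⟩⟩ := hcon
  rcases orb_dich (s1 := min r s) (s2 := max r s) (fun s _ => h s) hc with h1 | h1
  · have := h1 r ⟨min_le_left _ _, le_max_left _ _⟩
    linarith
  · have h2 := h1 s ⟨min_le_right _ _, le_max_right _ _⟩
    have hp : 0 < fY (y s) := Real.exp_pos _
    rw [← mul_div_assoc, div_lt_iff₀ hp] at hs
    linarith

end Pool.Agent.Lib.MP_6b187a_gt.Div
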