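import Pool.Agent.Lib.MP_6b187a_gt.Div.Met

/-!
# An upper bound for the distance of two points with opposite coordinates `x`
-/

set_option autoImplicit false
set_option maxSynthPendingDepth 3

namespace Pool.Agent.Lib.MP_6b187a_gt.Div

open Filter Set
open scoped ContDiff Topology

noncomputable section

namespace Du

variable {n : ℕ} (M : RM n)

theorem length_nonneg (c : ℝ → EuclideanSpace ℝ (Fin n)) : 0 ≤ M.length c := by
  unfold RM.length
  exact intervalIntegral.integral_nonneg (by norm_num) fun t _ => Real.sqrt_nonneg _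

theorem dist_nonneg (x y : EuclideanSpace ℝ (Fin n)) : 0 ≤ M.dist x y := by
  unfold RM.dist
  refine Real.sInf_nonneg ?_
  rintro l ⟨c, -, -, -, rfl⟩
  exact length_nonneg M c

theorem dist_le_length (c : ℝ → EuclideanSpace ℝ (Fin n)) (hc : ContDiff ℝ 1 c) :
    M.dist (c 0) (c 1) ≤ M.length c := by
  unfold RM.dist
  refine csInf_le ⟨0, ?_⟩ ⟨c, hc, rfl, rfl, rfl⟩
  rintro l ⟨c, -, -, -, rfl⟩
  exact length_nonneg M c

/-- If the speed of a curve is at most `C` then the distance of its ends is at most `C`. -/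
theorem dist_le_of_speed_le (c : ℝ → EuclideanSpace ℝ (Fin n)) (hc : ContDiff ℝ 1 c) (C : ℝ)
    (h : ∀ t, √(M.g (c t) (deriv c t) (deriv c t)) ≤ C) : M.dist (c 0) (c 1) ≤ C := by
  refine (dist_le_length M c hc).trans ?_
  unfold RM.length
  have h1 : ‖∫ t in (0 : ℝ)..1, √(M.g (c t) (deriv c t) (deriv c t))‖ ≤ C * |(1 : ℝ) - 0| :=
    intervalIntegral.norm_integral_le_of_norm_le_const fun t _ => by
      rw [Real.norm_eq_abs, abs_of_nonneg (Real.sqrt_nonneg _)]
      exact h t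
  rw [sub_zero, abs_one, mul_one] at h1
  exact (le_abs_self _).trans h1

theorem hasDerivAt_pt {t y x : ℝ → ℝ} {t' y' x' s : ℝ} (ht : HasDerivAt t t' s)
    (hy : HasDerivAt y y' s) (hx : HasDerivAt x x' s) :
    HasDerivAt (fun s => pt (t s) (y s) (x s)) (pt t' y' x') s := by
  have h : HasDerivAt (fun s => ![t s, y s, x s]) ![t', y', x'] s := by
    rw [hasDerivAt_pi]
    intro i
    fin_cases i
    · exact ht
    · exact hy
    · exact hx
  exact (EuclideanSpace.equiv (Fin 3) ℝ).symm.hasFDerivAt.comp_hasDerivAt s h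

theorem contDiff_pt {n : WithTop ℕ∞} {t y x : ℝ → ℝ} (ht : ContDiff ℝ n t) (hy : ContDiff ℝ n y)
    (hx : ContDiff ℝ n x) : ContDiff ℝ n (fun s => pt (t s) (y s) (x s)) := by
  rw [contDiff_euclidean]
  intro i
  fin_cases i
  · exact ht
  · exact hy
  · exact hx

end Du

open Du

/-- The points with the coordinates `t, y, x` and `t, y, -x` are joined by a curve of length at most
`2 π (1 + |x|)` if `w ≤ 1` and `Y ≤ 1`. -/
theorem dist_mirror_le (t y x : ℝ) (hw : fw t y ≤ 1) (hy : fY y ≤ 1) :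
    gM.dist (pt t y x) (pt t y (-x)) ≤ 2 * Real.pi * (1 + |x|) := by
  set Y : ℝ → ℝ := fun s => Real.exp y + Real.sin (Real.pi * s) ^ 2 with hY
  have hY0 : ∀ s, 0 < Y s := fun s => by
    have := Real.exp_pos y
    simp only [hY]
    positivity
  have hYge : ∀ s, Real.exp y ≤ Y s := fun s => by
    have := sq_nonneg (Real.sin (Real.pi * s))
    simp only [hY]
    linarith
  have hsin : ∀ s, Real.sin (Real.pi * s) ^ 2 ≤ Y s := fun s => by
    have := Real.exp_pos y
    simp only [hY]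
    linarith
  have hY2 : ∀ s, Y s ≤ 2 := fun s => by
    have h1 := Real.sin_sq_le_one (Real.pi * s)
    simp only [fY] at hy
    simp only [hY]
    linarith
  set c : ℝ → R3 := fun s => pt t (Real.log (Y s)) (x * Real.cos (Real.pi * s)) with hc
  have hpi : ∀ s, HasDerivAt (fun s : ℝ => Real.pi * s) Real.pi s := fun s => by
    simpa using (hasDerivAt_id s).const_mul Real.pi
  have hYd : ∀ s, HasDerivAt Y (2 * Real.sin (Real.pi * s) * (Real.cos (Real.pi * s) * Real.pi)) s :=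
    fun s => by
      have h := ((hpi s).sin.pow 2).const_add (Real.exp y)
      refine h.congr_deriv ?_
      simp
  have hcd : ∀ s, HasDerivAt c (pt 0
      (2 * Real.sin (Real.pi * s) * (Real.cos (Real.pi * s) * Real.pi) / Y s)
      (x * (-Real.sin (Real.pi * s) * Real.pi))) s := fun s =>
    hasDerivAt_pt (hasDerivAt_const s t) ((hYd s).log (hY0 s).ne') ((hpi s).cos.const_mul x)
  have hcs : ContDiff ℝ 1 c := by
    refine contDiff_pt contDiff_const (ContDiff.log ?_ fun s => (hY0 s).ne') ?_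
    · exact contDiff_const.add ((contDiff_const.mul contDiff_id).sin.pow 2)
    · exact contDiff_const.mul (contDiff_const.mul contDiff_id).cos
  have h0 : c 0 = pt t y x := by
    simp [hc, hY]
  have h1 : c 1 = pt t y (-x) := by
    simp [hc, hY]
  rw [← h0, ← h1]
  refine dist_le_of_speed_le gM c hcs _ fun s => ?_
  rw [(hcd s).deriv]
  refine Real.sqrt_le_iff.2 ⟨by positivity, ?_⟩
  rw [gM_g]
  simp only [hc, pt_zero, pt_one, pt_two]
  have hexp : fY (Real.log (Y s)) = Y s := Real.exp_log (hY0 s)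
  have hX : fX (Real.log (Y s)) = 1 + Y s := by
    simp only [fX]
    rw [Real.exp_log (hY0 s)]
  have hE : fE t (Real.log (Y s)) ≤ 4 := by
    rw [fE_eq, hexp]
    have h2 : fw t (Real.log (Y s)) ≤ fw t y := by
      simp only [fw]
      refine Real.exp_le_exp.2 ?_
      have h3 : y ≤ Real.log (Y s) := (Real.le_log_iff_exp_le (hY0 s)).2 (hYge s)
      linarith
    have := hY2 s
    linarith
  have hE0 := fE_pos t (Real.log (Y s))
  rw [hexp, hX]
  set E := fE t (Real.log (Y s)) with hEdef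
  have hYs := hY0 s
  set S := Real.sin (Real.pi * s) with hS
  set C := Real.cos (Real.pi * s) with hC
  have hSC : S ^ 2 + C ^ 2 = 1 := Real.sin_sq_add_cos_sq _
  have hSY : S ^ 2 ≤ Y s := hsin s
  have hπ := Real.pi_pos
  -- first term
  have e1 : (Y s / (1 + Y s)) ^ 2 * (2 * S * (C * Real.pi) / Y s * (2 * S * (C * Real.pi) / Y s)) ≤
      Real.pi ^ 2 := by
    have h4 : (Y s / (1 + Y s)) ^ 2 * (2 * S * (C * Real.pi) / Y s * (2 * S * (C * Real.pi) / Y s)) =
        (2 * S * C) ^ 2 * Real.pi ^ 2 / (1 + Y s) ^ 2 := by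
      field_simp
    rw [h4, div_le_iff₀ (by positivity)]
    have h5 : (2 * S * C) ^ 2 ≤ 1 := by
      nlinarith [sq_nonneg (S ^ 2 - C ^ 2)]
    have h6 : 1 ≤ (1 + Y s) ^ 2 := by nlinarith
    have h7 : (2 * S * C) ^ 2 * Real.pi ^ 2 ≤ 1 * Real.pi ^ 2 :=
      mul_le_mul_of_nonneg_right h5 (by positivity)
    have h8 : Real.pi ^ 2 * 1 ≤ Real.pi ^ 2 * (1 + Y s) ^ 2 :=
      mul_le_mul_of_nonneg_left h6 (by positivity)
    linarith
  have e2 : x * (-S * Real.pi) * (x * (-S * Real.pi)) / Y s ≤ Real.pi ^ 2 * x ^ 2 := by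
    rw [div_le_iff₀ hYs]
    have h4 : x * (-S * Real.pi) * (x * (-S * Real.pi)) = Real.pi ^ 2 * x ^ 2 * S ^ 2 := by ring
    rw [h4]
    exact mul_le_mul_of_nonneg_left hSY (by positivity)
  have e3 : E * (0 * 0) + E * (Y s / (1 + Y s)) ^ 2 *
      (2 * S * (C * Real.pi) / Y s * (2 * S * (C * Real.pi) / Y s)) +
      E / Y s * (x * (-S * Real.pi) * (x * (-S * Real.pi))) =
      E * ((Y s / (1 + Y s)) ^ 2 * (2 * S * (C * Real.pi) / Y s * (2 * S * (C * Real.pi) / Y s)) +
      x * (-S * Real.pi) * (x * (-S * Real.pi)) / Y s) := by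
    ring
  rw [e3]
  have e4 : E * ((Y s / (1 + Y s)) ^ 2 * (2 * S * (C * Real.pi) / Y s * (2 * S * (C * Real.pi) / Y s)) +
      x * (-S * Real.pi) * (x * (-S * Real.pi)) / Y s) ≤
      E * (Real.pi ^ 2 + Real.pi ^ 2 * x ^ 2) :=
    mul_le_mul_of_nonneg_left (add_le_add e1 e2) hE0.le
  have e5 : E * (Real.pi ^ 2 + Real.pi ^ 2 * x ^ 2) ≤ 4 * (Real.pi ^ 2 + Real.pi ^ 2 * x ^ 2) :=
    mul_le_mul_of_nonneg_right hE (by positivity)
  have e6 : (2 * Real.pi * (1 + |x|)) ^ 2 = 4 * (Real.pi ^ 2 + Real.pi ^ 2 * x ^ 2) +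
      8 * Real.pi ^ 2 * |x| := by
    have : |x| ^ 2 = x ^ 2 := sq_abs x
    ring_nf
    rw [this]
  rw [e6]
  have e7 : 0 ≤ 8 * Real.pi ^ 2 * |x| := by positivity
  linarith

end

end Pool.Agent.Lib.MP_6b187a_gt.Div
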