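import Mathlib

/-!
# The flow of a `C¹` vector field with a priori bounds

A `C¹` vector field on a finite-dimensional space whose solutions starting in the set `K` are
bounded on bounded intervals of time has a solution for all times through each point of `K`, and
the solution depends continuously on time and on the initial value.
-/

set_option autoImplicit false

namespace Pool.Agent.Lib.MP_6b187a_gt.Div

open Set Filter Topology
open scoped NNReal

section Lip

variable {V : Type*} [NormedAddCommGroup V] [NormedSpace ℝ V]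

private theorem lip_local [CompleteSpace V] {f : V → V} {K : ℝ≥0} (hf : LipschitzWith K f)
    {B : ℝ} (hB : ∀ x, ‖f x‖ ≤ B) (x : V) {a : ℝ} (ha : 0 < a) :
    ∃ Z : ℝ → V, Z 0 = x ∧ ∀ t ∈ Ioo (-a) a, HasDerivAt Z (f (Z t)) t := by
  have hB0 : 0 ≤ B := (norm_nonneg _).trans (hB 0)
  have h0 : (0 : ℝ) ∈ Icc (-a) a := ⟨by linarith, ha.le⟩
  have hP : IsPicardLindelof (fun _ : ℝ => f) (tmin := -a) (tmax := a) ⟨0, h0⟩ x
      (Real.toNNReal (B * a)) 0 (Real.toNNReal B) K := by
    refine ⟨fun t _ => hf.lipschitzOnWith, fun y _ => continuousOn_const, fun t _ y _ => ?_, ?_⟩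
    · rw [Real.coe_toNNReal B hB0]
      exact hB y
    · rw [Real.coe_toNNReal B hB0, Real.coe_toNNReal _ (mul_nonneg hB0 ha.le)]
      simp
  obtain ⟨Z, hZ0, hZ⟩ := hP.exists_eq_forall_mem_Icc_hasDerivWithinAt₀
  exact ⟨Z, hZ0, fun t ht =>
    (hZ t (Ioo_subset_Icc_self ht)).hasDerivAt (Icc_mem_nhds ht.1 ht.2)⟩

/-- A bounded Lipschitz vector field has global solutions. -/
theorem lip_global [CompleteSpace V] {f : V → V} {K : ℝ≥0} (hf : LipschitzWith K f) {B : ℝ}
    (hB : ∀ x, ‖f x‖ ≤ B) (x : V) :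
    ∃ Z : ℝ → V, Z 0 = x ∧ ∀ t, HasDerivAt Z (f (Z t)) t := by
  have h1 : ∀ N : ℕ, ∃ Z : ℝ → V, Z 0 = x ∧
      ∀ t ∈ Ioo (-((N : ℝ) + 1)) ((N : ℝ) + 1), HasDerivAt Z (f (Z t)) t := fun N =>
    lip_local hf hB x (by positivity)
  choose Z hZ0 hZ using h1
  have huniq : ∀ (N M : ℕ) (t : ℝ), |t| < (N : ℝ) + 1 → |t| < (M : ℝ) + 1 → Z N t = Z M t := by
    have key : ∀ (N M : ℕ) (t : ℝ), N ≤ M → |t| < (N : ℝ) + 1 → Z N t = Z M t := by
      intro N M t hNM ht
      have hNM' : (N : ℝ) ≤ M := by exact_mod_cast hNM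
      have h0 : (0 : ℝ) ∈ Ioo (-((N : ℝ) + 1)) ((N : ℝ) + 1) := by
        constructor
        · have : (0 : ℝ) ≤ N := Nat.cast_nonneg N
          linarith
        · positivity
      have := ODE_solution_unique_of_mem_Ioo (v := fun _ => f) (s := fun _ => univ) (K := K)
        (a := -((N : ℝ) + 1)) (b := (N : ℝ) + 1) (f := Z N) (g := Z M) (t₀ := 0)
        (fun t _ => hf.lipschitzOnWith) h0
        (fun t ht => ⟨hZ N t ht, trivial⟩)
        (fun t ht => ⟨hZ M t ⟨by linarith [ht.1], by linarith [ht.2]⟩, trivial⟩)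
        ((hZ0 N).trans (hZ0 M).symm)
      exact this (abs_lt.1 ht)
    intro N M t h1 h2
    rcases le_total N M with h | h
    · exact key N M t h h1
    · exact (key M N t h h2).symm
  refine ⟨fun t => Z ⌈|t|⌉₊ t, ?_, fun t => ?_⟩
  · exact hZ0 _
  · have hlt : ∀ t : ℝ, |t| < (⌈|t|⌉₊ : ℝ) + 1 := fun t =>
      lt_of_le_of_lt (Nat.le_ceil _) (lt_add_one _)
    set M : ℕ := ⌈|t|⌉₊ with hM
    have hmem : t ∈ Ioo (-((M : ℝ) + 1)) ((M : ℝ) + 1) := abs_lt.1 (hlt t)
    have hd := hZ M t hmem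
    refine hd.congr_of_eventuallyEq ?_
    have hopen : Ioo (-((M : ℝ) + 1)) ((M : ℝ) + 1) ∈ 𝓝 t := isOpen_Ioo.mem_nhds hmem
    filter_upwards [hopen] with t' ht'
    exact huniq _ _ t' (hlt t') (abs_lt.2 ht')

/-- Two global solutions for a Lipschitz vector field diverge at most exponentially. -/
theorem lip_dist {f : V → V} {K : ℝ≥0} (hf : LipschitzWith K f) {y z : ℝ → V}
    (hy : ∀ t, HasDerivAt y (f (y t)) t) (hz : ∀ t, HasDerivAt z (f (z t)) t) (t : ℝ) :
    dist (y t) (z t) ≤ dist (y 0) (z 0) * Real.exp (K * |t|) := by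
  have fwd : ∀ (g : V → V) (p q : ℝ → V), LipschitzWith K g → (∀ t, HasDerivAt p (g (p t)) t) →
      (∀ t, HasDerivAt q (g (q t)) t) → ∀ t : ℝ, 0 ≤ t →
      dist (p t) (q t) ≤ dist (p 0) (q 0) * Real.exp (K * t) := by
    intro g p q hg hp hq t ht
    have := dist_le_of_trajectories_ODE (v := fun _ => g) (K := K) (f := p) (g := q) (a := 0)
      (b := t) (δ := dist (p 0) (q 0)) (fun _ => hg)
      (fun s _ => (hp s).continuousAt.continuousWithinAt)
      (fun s _ => (hp s).hasDerivWithinAt)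
      (fun s _ => (hq s).continuousAt.continuousWithinAt)
      (fun s _ => (hq s).hasDerivWithinAt) le_rfl t ⟨ht, le_rfl⟩
    simpa using this
  rcases le_total 0 t with h | h
  · rw [abs_of_nonneg h]
    exact fwd f y z hf hy hz t h
  · rw [abs_of_nonpos h]
    have rev : ∀ p : ℝ → V, (∀ t, HasDerivAt p (f (p t)) t) →
        ∀ t, HasDerivAt (fun s => p (-s)) (-f (p (-t))) t := by
      intro p hp t
      have h1 := (hp (-t)).scomp t (hasDerivAt_neg t)
      simpa [Function.comp_def] using h1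
    have hg : LipschitzWith K (fun x => -f x) := by
      intro a b
      simpa [edist_neg_neg] using hf a b
    have := fwd (fun x => -f x) (fun s => y (-s)) (fun s => z (-s)) hg (rev y hy) (rev z hz) (-t)
      (by linarith)
    simpa using this

end Lip

section Cut

variable {V : Type*} [NormedAddCommGroup V] [NormedSpace ℝ V] [FiniteDimensional ℝ V]

/-- A `C¹` vector field agrees on each ball with a bounded Lipschitz vector field. -/
theorem exists_cut {f : V → V} (hf : ContDiff ℝ 1 f) (R : ℝ) :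
    ∃ (g : V → V) (K : ℝ≥0) (B : ℝ), LipschitzWith K g ∧ (∀ x, ‖g x‖ ≤ B) ∧
      ∀ x, ‖x‖ ≤ R → g x = f x := by
  have : CompleteSpace V := FiniteDimensional.complete ℝ V
  have hR : 0 < |R| + 1 := by positivity
  let b : ContDiffBump (0 : V) := ⟨|R| + 1, |R| + 2, hR, by linarith⟩
  have hb : ContDiff ℝ 1 (fun x => b x • f x) := b.contDiff.smul hf
  have hc : HasCompactSupport (fun x => b x • f x) := b.hasCompactSupport.smul_right
  obtain ⟨K, hK⟩ := ContDiff.lipschitzWith_of_hasCompactSupport hc hb one_ne_zero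
  obtain ⟨B, hB⟩ := hc.exists_bound_of_continuous hb.continuous
  refine ⟨fun x => b x • f x, K, B, hK, hB, fun x hx => ?_⟩
  have h1 : b x = 1 := by
    apply b.one_of_mem_closedBall
    rw [mem_closedBall_zero_iff]
    have : R ≤ |R| := le_abs_self R
    show ‖x‖ ≤ |R| + 1
    linarith
  simp [h1]

/-- Uniqueness of the solutions for a `C¹` vector field on an open interval. -/
theorem unique_Ioo {f : V → V} (hf : ContDiff ℝ 1 f) {u v : ℝ → V} {a b t₀ : ℝ}
    (h₀ : t₀ ∈ Ioo a b) (hu : ∀ t ∈ Ioo a b, HasDerivAt u (f (u t)) t)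
    (hv : ∀ t ∈ Ioo a b, HasDerivAt v (f (v t)) t) (h : u t₀ = v t₀) :
    ∀ t ∈ Ioo a b, u t = v t := by
  intro t ht
  obtain ⟨a', ha1, ha2⟩ := exists_between (lt_min h₀.1 ht.1)
  obtain ⟨b', hb1, hb2⟩ := exists_between (max_lt h₀.2 ht.2)
  have ha3 : a' < t₀ := lt_of_lt_of_le ha2 (min_le_left _ _)
  have ha4 : a' < t := lt_of_lt_of_le ha2 (min_le_right _ _)
  have hb3 : t₀ < b' := lt_of_le_of_lt (le_max_left _ _) hb1
  have hb4 : t < b' := lt_of_le_of_lt (le_max_right _ _) hb1
  have hsub : Icc a' b' ⊆ Ioo a b := fun s hs => ⟨lt_of_lt_of_le ha1 hs.1, lt_of_le_of_lt hs.2 hb2⟩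
  have hcu : ContinuousOn u (Icc a' b') := fun s hs =>
    (hu s (hsub hs)).continuousAt.continuousWithinAt
  have hcv : ContinuousOn v (Icc a' b') := fun s hs =>
    (hv s (hsub hs)).continuousAt.continuousWithinAt
  obtain ⟨R1, hR1⟩ := isCompact_Icc.exists_bound_of_continuousOn hcu
  obtain ⟨R2, hR2⟩ := isCompact_Icc.exists_bound_of_continuousOn hcv
  obtain ⟨g, K, B, hK, -, hg⟩ := exists_cut hf (max R1 R2)
  have hgu : ∀ s ∈ Icc a' b', g (u s) = f (u s) := fun s hs =>
    hg _ ((hR1 s hs).trans (le_max_left _ _))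
  have hgv : ∀ s ∈ Icc a' b', g (v s) = f (v s) := fun s hs =>
    hg _ ((hR2 s hs).trans (le_max_right _ _))
  refine ODE_solution_unique_of_mem_Ioo (v := fun _ => g) (s := fun _ => univ) (K := K)
    (a := a') (b := b') (f := u) (g := v) (t₀ := t₀)
    (fun s _ => hK.lipschitzOnWith) ⟨ha3, hb3⟩ (fun s hs => ⟨?_, trivial⟩)
    (fun s hs => ⟨?_, trivial⟩) h ⟨ha4, hb4⟩
  · have hs' := Ioo_subset_Icc_self hs
    show HasDerivAt u (g (u s)) s
    rw [hgu s hs']
    exact hu s (hsub hs')
  · have hs' := Ioo_subset_Icc_self hs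
    show HasDerivAt v (g (v s)) s
    rw [hgv s hs']
    exact hv s (hsub hs')

/-- Uniqueness of the global solutions for a `C¹` vector field. -/
theorem unique_global {f : V → V} (hf : ContDiff ℝ 1 f) {u v : ℝ → V} {t₀ : ℝ}
    (hu : ∀ t, HasDerivAt u (f (u t)) t) (hv : ∀ t, HasDerivAt v (f (v t)) t)
    (h : u t₀ = v t₀) : u = v := by
  funext t
  refine unique_Ioo hf (a := min t₀ t - 1) (b := max t₀ t + 1) (t₀ := t₀) ?_ (fun s _ => hu s)
    (fun s _ => hv s) h t ?_
  · exact ⟨by linarith [min_le_left t₀ t], by linarith [le_max_left t₀ t]⟩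
  · exact ⟨by linarith [min_le_right t₀ t], by linarith [le_max_right t₀ t]⟩

/-- The flow on a bounded interval of time. -/
private theorem flow_bdd {f : V → V} (hf : ContDiff ℝ 1 f) {K : Set V} {T R : ℝ} (hT : 0 ≤ T)
    (hb : ∀ (S : ℝ) (u : ℝ → V), 0 ≤ S → S ≤ T → u 0 ∈ K →
      (∀ t ∈ Icc (-S) S, HasDerivAt u (f (u t)) t) → ∀ t ∈ Icc (-S) S, ‖u t‖ ≤ R) :
    ∃ Φ : V → ℝ → V, (∀ x, Φ x 0 = x) ∧
      (∀ x ∈ K, ∀ t ∈ Icc (-T) T, HasDerivAt (Φ x) (f (Φ x t)) t) ∧
      Continuous (fun p : V × ℝ => Φ p.1 p.2) := by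
  have : CompleteSpace V := FiniteDimensional.complete ℝ V
  obtain ⟨g, C, B, hC, hB, hg⟩ := exists_cut hf (R + 1)
  choose Φ hΦ0 hΦ using lip_global hC hB
  refine ⟨Φ, hΦ0, ?_, ?_⟩
  · intro x hx
    have hcont : Continuous (Φ x) := continuous_iff_continuousAt.2 fun t => (hΦ x t).continuousAt
    have hxR : ‖x‖ ≤ R := by
      have := hb 0 (fun t => x + t • f x) le_rfl hT (by simpa using hx) (by
        intro t ht
        have ht0 : t = 0 := le_antisymm ht.2 (by simpa using ht.1)
        subst ht0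
        have h1 : HasDerivAt (fun t : ℝ => x + t • f x) ((1 : ℝ) • f x) 0 :=
          ((hasDerivAt_id (0 : ℝ)).smul_const (f x)).const_add x
        simpa using h1) 0 ⟨by simp, le_rfl⟩
      simpa using this
    -- the set of good times
    let P : ℝ → Prop := fun S => ∀ t ∈ Icc (-S) S, ‖Φ x t‖ ≤ R
    have hsol : ∀ S : ℝ, (∀ t ∈ Icc (-S) S, ‖Φ x t‖ ≤ R + 1) →
        ∀ t ∈ Icc (-S) S, HasDerivAt (Φ x) (f (Φ x t)) t := by
      intro S hS t ht
      rw [← hg _ (hS t ht)]
      exact hΦ x t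
    have hP : P T := by
      -- the set `A = {S ∈ [0, T] | P S}` is closed, contains `0`, and is open to the right
      have hclosed : IsClosed ({S : ℝ | P S} ∩ Icc 0 T) := by
        refine isClosed_of_closure_subset ?_
        intro S hS
        have hS0 : S ∈ Icc 0 T := by
          have := closure_mono (inter_subset_right) hS
          rwa [isClosed_Icc.closure_eq] at this
        refine ⟨?_, hS0⟩
        intro t ht
        rw [mem_closure_iff_seq_limit] at hS
        obtain ⟨s, hs, hlim⟩ := hS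
        rcases hS0.1.eq_or_lt with h0 | h0
        · have ht0 : t = 0 := by
            rw [← h0] at ht
            exact le_antisymm ht.2 (by simpa using ht.1)
          rw [ht0, hΦ0]
          exact hxR
        · -- scale the time
          have hlim2 : Tendsto (fun n => Φ x (t / S * s n)) atTop (𝓝 (Φ x t)) := by
            have h1 : Tendsto (fun n => t / S * s n) atTop (𝓝 (t / S * S)) :=
              hlim.const_mul _
            rw [div_mul_cancel₀ _ h0.ne'] at h1
            exact (hcont.tendsto t).comp h1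
          refine le_of_tendsto' hlim2.norm fun n => ?_
          have hsn := (hs n).2
          refine (hs n).1 _ ?_
          have h2 : |t / S| ≤ 1 := by
            rw [abs_div, abs_of_pos h0, div_le_one h0]
            exact abs_le.2 ht
          have h3 : |t / S * s n| ≤ s n := by
            rw [abs_mul, abs_of_nonneg hsn.1]
            calc |t / S| * s n ≤ 1 * s n := mul_le_mul_of_nonneg_right h2 hsn.1
              _ = s n := one_mul _
          exact abs_le.1 h3
      have hmem : T ∈ {S : ℝ | P S} := by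
        have h0 : (0 : ℝ) ∈ {S : ℝ | P S} := by
          intro t ht
          have ht0 : t = 0 := le_antisymm ht.2 (by simpa using ht.1)
          rw [ht0, hΦ0]
          exact hxR
        refine IsClosed.Icc_subset_of_forall_mem_nhdsWithin hclosed h0 ?_ ⟨hT, le_rfl⟩
        intro S hS
        have hPS : P S := hS.1
        have hS2 : S ∈ Ico 0 T := hS.2
        -- near S the bound R + 1 holds
        have hev : ∀ᶠ S' in 𝓝[>] S, ∀ t ∈ Icc (-S') S', ‖Φ x t‖ ≤ R + 1 := by
          have h1 : ∀ᶠ t in 𝓝 S, ‖Φ x t‖ < R + 1 := by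
            have hlt : ‖Φ x S‖ < R + 1 := by
              have := hPS S ⟨by linarith [hS2.1], le_rfl⟩
              linarith
            exact (hcont.norm.tendsto S).eventually (gt_mem_nhds hlt)
          have h2 : ∀ᶠ t in 𝓝 (-S), ‖Φ x t‖ < R + 1 := by
            have hlt : ‖Φ x (-S)‖ < R + 1 := by
              have := hPS (-S) ⟨le_rfl, by linarith [hS2.1]⟩
              linarith
            exact (hcont.norm.tendsto (-S)).eventually (gt_mem_nhds hlt)
          rw [Metric.eventually_nhds_iff] at h1 h2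
          obtain ⟨e1, he1, H1⟩ := h1
          obtain ⟨e2, he2, H2⟩ := h2
          have : Ioo S (S + min e1 e2) ∈ 𝓝[>] S :=
            Ioo_mem_nhdsGT (by linarith [lt_min he1 he2])
          filter_upwards [this] with S' hS' t ht
          by_cases htS : t ∈ Icc (-S) S
          · linarith [hPS t htS]
          · rcases not_and_or.1 htS with h | h
            · push Not at h
              refine (H2 ?_).le
              rw [Real.dist_eq, abs_lt]
              have := min_le_right e1 e2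
              constructor <;> linarith [ht.1, hS'.2, he2]
            · push Not at h
              refine (H1 ?_).le
              rw [Real.dist_eq, abs_lt]
              have := min_le_left e1 e2
              constructor <;> linarith [ht.2, hS'.2, he1]
        have hT' : ∀ᶠ S' in 𝓝[>] S, S' ≤ T :=
          (eventually_nhdsWithin_of_eventually_nhds (ge_mem_nhds hS2.2))
        filter_upwards [hev, hT', self_mem_nhdsWithin] with S' h1 h2 h3
        have h3' : S < S' := h3
        exact hb S' (Φ x) (by linarith [hS2.1]) h2 (by rw [hΦ0]; exact hx) (hsol S' h1)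
      exact hmem
    intro t ht
    exact hsol T (fun s hs => by linarith [hP s hs]) t ht
  · rw [continuous_iff_continuousAt]
    rintro ⟨x, t⟩
    rw [Metric.continuousAt_iff]
    intro ε hε
    have hcont : ContinuousAt (Φ x) t := (hΦ x t).continuousAt
    rw [Metric.continuousAt_iff] at hcont
    obtain ⟨δ, hδ, H⟩ := hcont (ε / 2) (by linarith)
    refine ⟨min δ (min 1 (ε / 2 * Real.exp (-(C * (|t| + 1))))), ?_, ?_⟩
    · exact lt_min hδ (lt_min one_pos (mul_pos (by linarith) (Real.exp_pos _)))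
    · rintro ⟨y, s⟩ hys
      have hys1 : dist s t < δ := lt_of_le_of_lt (le_max_right _ _)
        (lt_of_lt_of_le hys (min_le_left _ _))
      have hys2 : dist s t < 1 := lt_of_le_of_lt (le_max_right _ _)
        (lt_of_lt_of_le hys ((min_le_right _ _).trans (min_le_left _ _)))
      have hys3 : dist y x < ε / 2 * Real.exp (-(C * (|t| + 1))) :=
        lt_of_le_of_lt (le_max_left _ _)
        (lt_of_lt_of_le hys ((min_le_right _ _).trans (min_le_right _ _)))
      have h1 := lip_dist hC (hΦ y) (hΦ x) s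
      rw [hΦ0, hΦ0] at h1
      have hs : |s| ≤ |t| + 1 := by
        rw [Real.dist_eq] at hys2
        have : |s| ≤ |s - t| + |t| := by
          have := abs_add_le (s - t) t
          simpa using this
        linarith
      have h2 : dist y x * Real.exp (C * |s|) < ε / 2 := by
        have h3 : Real.exp (C * |s|) ≤ Real.exp (C * (|t| + 1)) :=
          Real.exp_le_exp.2 (mul_le_mul_of_nonneg_left hs C.2)
        calc dist y x * Real.exp (C * |s|)
            ≤ dist y x * Real.exp (C * (|t| + 1)) := mul_le_mul_of_nonneg_left h3 dist_nonneg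
          _ < ε / 2 * Real.exp (-(C * (|t| + 1))) * Real.exp (C * (|t| + 1)) :=
              mul_lt_mul_of_pos_right hys3 (Real.exp_pos _)
          _ = ε / 2 := by
              rw [mul_assoc, ← Real.exp_add, neg_add_cancel, Real.exp_zero, mul_one]
      have h4 := H hys1
      calc dist (Φ y s) (Φ x t) ≤ dist (Φ y s) (Φ x s) + dist (Φ x s) (Φ x t) :=
            dist_triangle _ _ _
        _ < ε := by linarith

/-- **The flow of a `C¹` vector field with a priori bounds.** -/
theorem flow {f : V → V} (hf : ContDiff ℝ 1 f) {K : Set V}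
    (hb : ∀ T : ℝ, 0 ≤ T → ∃ R : ℝ, ∀ (S : ℝ) (u : ℝ → V), 0 ≤ S → S ≤ T → u 0 ∈ K →
      (∀ t ∈ Icc (-S) S, HasDerivAt u (f (u t)) t) → ∀ t ∈ Icc (-S) S, ‖u t‖ ≤ R) :
    ∃ Φ : V → ℝ → V, (∀ x ∈ K, Φ x 0 = x) ∧ (∀ x ∈ K, ∀ t, HasDerivAt (Φ x) (f (Φ x t)) t) ∧
      ContinuousOn (fun p : V × ℝ => Φ p.1 p.2) (K ×ˢ univ) := by
  have h1 : ∀ N : ℕ, ∃ Φ : V → ℝ → V, (∀ x, Φ x 0 = x) ∧
      (∀ x ∈ K, ∀ t ∈ Icc (-((N : ℝ) + 1)) ((N : ℝ) + 1), HasDerivAt (Φ x) (f (Φ x t)) t) ∧
      Continuous (fun p : V × ℝ => Φ p.1 p.2) := by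
    intro N
    obtain ⟨R, hR⟩ := hb ((N : ℝ) + 1) (by positivity)
    exact flow_bdd hf (by positivity) hR
  choose Φ hΦ0 hΦ hΦc using h1
  have agree : ∀ (N M : ℕ) (x : V) (t : ℝ), x ∈ K → |t| < (N : ℝ) + 1 → |t| < (M : ℝ) + 1 →
      Φ N x t = Φ M x t := by
    have key : ∀ (N M : ℕ) (x : V) (t : ℝ), x ∈ K → N ≤ M → |t| < (N : ℝ) + 1 →
        Φ N x t = Φ M x t := by
      intro N M x t hx hNM ht
      have hNM' : (N : ℝ) ≤ M := by exact_mod_cast hNM
      have hN0 : (0 : ℝ) ≤ N := Nat.cast_nonneg N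
      refine unique_Ioo hf (a := -((N : ℝ) + 1)) (b := (N : ℝ) + 1) (t₀ := 0)
        ⟨by linarith, by linarith⟩ (fun s hs => hΦ N x hx s (Ioo_subset_Icc_self hs))
        (fun s hs => hΦ M x hx s ⟨by linarith [hs.1], by linarith [hs.2]⟩)
        ((hΦ0 N x).trans (hΦ0 M x).symm) t (abs_lt.1 ht)
    intro N M x t hx h1 h2
    rcases le_total N M with h | h
    · exact key N M x t hx h h1
    · exact (key M N x t hx h h2).symm
  have hlt : ∀ t : ℝ, |t| < (⌈|t|⌉₊ : ℝ) + 1 := fun t =>
    lt_of_le_of_lt (Nat.le_ceil _) (lt_add_one _)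
  refine ⟨fun x t => Φ ⌈|t|⌉₊ x t, fun x _ => hΦ0 _ x, fun x hx t => ?_, ?_⟩
  · set M : ℕ := ⌈|t|⌉₊ with hM
    have hmem : t ∈ Ioo (-((M : ℝ) + 1)) ((M : ℝ) + 1) := abs_lt.1 (hlt t)
    have hd := hΦ M x hx t (Ioo_subset_Icc_self hmem)
    refine hd.congr_of_eventuallyEq ?_
    filter_upwards [isOpen_Ioo.mem_nhds hmem] with t' ht'
    exact agree _ _ x t' hx (hlt t') (abs_lt.2 ht')
  · rintro ⟨x, t⟩ ⟨hx, -⟩
    set M : ℕ := ⌈|t|⌉₊ with hM
    have hmem : t ∈ Ioo (-((M : ℝ) + 1)) ((M : ℝ) + 1) := abs_lt.1 (hlt t)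
    have hc : ContinuousWithinAt (fun p : V × ℝ => Φ M p.1 p.2) (K ×ˢ univ) (x, t) :=
      (hΦc M).continuousWithinAt
    refine hc.congr_of_eventuallyEq ?_ rfl
    have hnb : ∀ᶠ p : V × ℝ in 𝓝[K ×ˢ univ] (x, t), p.2 ∈ Ioo (-((M : ℝ) + 1)) ((M : ℝ) + 1) :=
      (eventually_nhdsWithin_of_eventually_nhds
        ((continuous_snd.tendsto (x, t)).eventually (isOpen_Ioo.mem_nhds hmem)))
    filter_upwards [hnb, self_mem_nhdsWithin] with p hp hpK
    exact agree _ _ p.1 p.2 hpK.1 (hlt p.2) (abs_lt.2 hp)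

end Cut

end Pool.Agent.Lib.MP_6b187a_gt.Div
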