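import Pool.Agent.Lib.MP_6b187a_gt.Div.Sys
import Pool.Agent.Lib.MP_6b187a_gt.Div.Flow

/-!
# The geodesic vector field: energy, a priori bounds, global flow
-/

set_option autoImplicit false

namespace Pool.Agent.Lib.MP_6b187a_gt.Div.Fld

open Set Filter Topology

noncomputable section

/-- The vector field of the geodesic equations in the coordinates `(t, y, x, a, b)`. -/
def vf (c : ℝ) (z : ℝ × ℝ × ℝ × ℝ × ℝ) : ℝ × ℝ × ℝ × ℝ × ℝ :=
  (z.2.2.2.1 / fE z.1 z.2.1, fX z.2.1 / fY z.2.1 * z.2.2.2.2 / fE z.1 z.2.1,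
    c * fY z.2.1 / fE z.1 z.2.1, -(fw z.1 z.2.1 / 100) / fE z.1 z.2.1,
    fX z.2.1 * (1 - c ^ 2 - 4 * fθ z.1 z.2.1) / 2 / fE z.1 z.2.1)

/-- The energy `a² + b² + c² Y - E`, which vanishes for unit speed. -/
def energy (c : ℝ) (z : ℝ × ℝ × ℝ × ℝ × ℝ) : ℝ :=
  z.2.2.2.1 ^ 2 + z.2.2.2.2 ^ 2 + c ^ 2 * fY z.2.1 - fE z.1 z.2.1

theorem fE_pos (t y : ℝ) : 0 < fE t y := by unfold fE; positivity

theorem one_le_fE (t y : ℝ) : 1 ≤ fE t y := by
  unfold fE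
  have h1 := Real.exp_pos y
  have h2 := Real.exp_pos (-t / 50 - 4 * y)
  linarith

theorem vf_contDiff (c : ℝ) : ContDiff ℝ 1 (vf c) := by
  have hE : ∀ z : ℝ × ℝ × ℝ × ℝ × ℝ,
      1 + Real.exp z.2.1 + Real.exp (-z.1 / 50 - 4 * z.2.1) ≠ 0 := fun z => by positivity
  have hY : ∀ z : ℝ × ℝ × ℝ × ℝ × ℝ, Real.exp z.2.1 ≠ 0 := fun z => by positivity
  have h1 : ContDiff ℝ 1 fun z : ℝ × ℝ × ℝ × ℝ × ℝ => z.1 := contDiff_fst
  have h2 : ContDiff ℝ 1 fun z : ℝ × ℝ × ℝ × ℝ × ℝ => z.2.1 := contDiff_snd.fst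
  have h4 : ContDiff ℝ 1 fun z : ℝ × ℝ × ℝ × ℝ × ℝ => z.2.2.2.1 := contDiff_snd.snd.snd.fst
  have h5 : ContDiff ℝ 1 fun z : ℝ × ℝ × ℝ × ℝ × ℝ => z.2.2.2.2 := contDiff_snd.snd.snd.snd
  have hy : ContDiff ℝ 1 fun z : ℝ × ℝ × ℝ × ℝ × ℝ => Real.exp z.2.1 := h2.exp
  have hw : ContDiff ℝ 1 fun z : ℝ × ℝ × ℝ × ℝ × ℝ => Real.exp (-z.1 / 50 - 4 * z.2.1) :=
    ((h1.neg.div_const 50).sub (contDiff_const.mul h2)).exp
  have hth : ContDiff ℝ 1 fun z : ℝ × ℝ × ℝ × ℝ × ℝ => Real.exp (-z.1 / 50 - 5 * z.2.1) :=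
    ((h1.neg.div_const 50).sub (contDiff_const.mul h2)).exp
  have hEc : ContDiff ℝ 1 fun z : ℝ × ℝ × ℝ × ℝ × ℝ =>
      1 + Real.exp z.2.1 + Real.exp (-z.1 / 50 - 4 * z.2.1) := (contDiff_const.add hy).add hw
  have hX : ContDiff ℝ 1 fun z : ℝ × ℝ × ℝ × ℝ × ℝ => 1 + Real.exp z.2.1 :=
    contDiff_const.add hy
  unfold vf fE fX fY fw fθ
  refine (h4.div hEc hE).prodMk ((((hX.div hy hY).mul h5).div hEc hE).prodMk
    (((contDiff_const.mul hy).div hEc hE).prodMk ((((hw.div_const 100).neg).div hEc hE).prodMk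
    (((hX.mul (contDiff_const.sub (contDiff_const.mul hth))).div_const 2).div hEc hE))))

/-- The five scalar equations. -/
theorem vf_comp {c : ℝ} {u : ℝ → ℝ × ℝ × ℝ × ℝ × ℝ} {s : ℝ} (h : HasDerivAt u (vf c (u s)) s) :
    HasDerivAt (fun r => (u r).1) ((u s).2.2.2.1 / fE (u s).1 (u s).2.1) s ∧
    HasDerivAt (fun r => (u r).2.1)
      (fX (u s).2.1 / fY (u s).2.1 * (u s).2.2.2.2 / fE (u s).1 (u s).2.1) s ∧
    HasDerivAt (fun r => (u r).2.2.1) (c * fY (u s).2.1 / fE (u s).1 (u s).2.1) s ∧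
    HasDerivAt (fun r => (u r).2.2.2.1) (-(fw (u s).1 (u s).2.1 / 100) / fE (u s).1 (u s).2.1) s ∧
    HasDerivAt (fun r => (u r).2.2.2.2)
      (fX (u s).2.1 * (1 - c ^ 2 - 4 * fθ (u s).1 (u s).2.1) / 2 / fE (u s).1 (u s).2.1) s := by
  have h1 := hasFDerivAt_fst.comp_hasDerivAt s h
  have h2 := hasFDerivAt_snd.comp_hasDerivAt s h
  have h21 := hasFDerivAt_fst.comp_hasDerivAt s h2
  have h22 := hasFDerivAt_snd.comp_hasDerivAt s h2
  have h221 := hasFDerivAt_fst.comp_hasDerivAt s h22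
  have h222 := hasFDerivAt_snd.comp_hasDerivAt s h22
  have h2221 := hasFDerivAt_fst.comp_hasDerivAt s h222
  have h2222 := hasFDerivAt_snd.comp_hasDerivAt s h222
  exact ⟨h1, h21, h221, h2221, h2222⟩

/-- The derivative of `E` along a curve. -/
theorem hasDerivAt_fE {t y : ℝ → ℝ} {t' y' s : ℝ} (ht : HasDerivAt t t' s)
    (hy : HasDerivAt y y' s) : HasDerivAt (fun r => fE (t r) (y r))
      (fY (y s) * y' + fw (t s) (y s) * (-t' / 50 - 4 * y')) s := by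
  have h1 := hy.exp
  have h2 := ((ht.neg.div_const 50).sub (hy.const_mul 4)).exp
  have h3 := (h1.const_add 1).add h2
  exact h3

/-- The energy is constant. -/
theorem energy_deriv {c : ℝ} {u : ℝ → ℝ × ℝ × ℝ × ℝ × ℝ} {s : ℝ}
    (h : HasDerivAt u (vf c (u s)) s) : HasDerivAt (fun r => energy c (u r)) 0 s := by
  obtain ⟨ht, hy, -, ha, hb⟩ := vf_comp h
  have hE := hasDerivAt_fE ht hy
  have hY : HasDerivAt (fun r => fY (u r).2.1) _ s := hy.exp
  have h1 := (((ha.pow 2).add (hb.pow 2)).add (hY.const_mul (c ^ 2))).sub hE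
  refine h1.congr_deriv ?_
  have e1 : fw (u s).1 (u s).2.1 = fθ (u s).1 (u s).2.1 * fY (u s).2.1 := by
    unfold fw fθ fY
    rw [← Real.exp_add]
    congr 1
    ring
  have e2 : Real.exp (u s).2.1 = fY (u s).2.1 := rfl
  have e3 : fX (u s).2.1 = 1 + fY (u s).2.1 := rfl
  have hE0 : fE (u s).1 (u s).2.1 ≠ 0 := (fE_pos _ _).ne'
  have hY0 : fY (u s).2.1 ≠ 0 := (Real.exp_pos _).ne'
  rw [e1, e2, e3]
  field_simp
  ring

private theorem mvt {f f' : ℝ → ℝ} {S C : ℝ} (h : ∀ r ∈ Icc (-S) S, HasDerivAt f (f' r) r)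
    (hC : ∀ r ∈ Icc (-S) S, |f' r| ≤ C) {s : ℝ} (hs : s ∈ Icc (-S) S) :
    |f s - f 0| ≤ C * |s| := by
  have h0 : (0 : ℝ) ∈ Icc (-S) S := ⟨by linarith [hs.1, hs.2], by linarith [hs.1, hs.2]⟩
  have := (convex_Icc (-S) S).norm_image_sub_le_of_norm_hasDerivWithin_le (f := f) (f' := f')
    (C := C) (fun r hr => (h r hr).hasDerivWithinAt) (fun r hr => hC r hr) h0 hs
  simpa using this

/-- The set of initial values of norm `≤ R` and of unit speed. -/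
def initSet (c R : ℝ) : Set (ℝ × ℝ × ℝ × ℝ × ℝ) := {z | ‖z‖ ≤ R ∧ energy c z = 0}

private theorem comp_le {z : ℝ × ℝ × ℝ × ℝ × ℝ} {R : ℝ} (h : ‖z‖ ≤ R) :
    |z.1| ≤ R ∧ |z.2.1| ≤ R ∧ |z.2.2.1| ≤ R ∧ |z.2.2.2.1| ≤ R ∧ |z.2.2.2.2| ≤ R := by
  have h1 := (norm_fst_le z).trans h
  have h2 := (norm_snd_le z).trans h
  have h21 := (norm_fst_le z.2).trans h2
  have h22 := (norm_snd_le z.2).trans h2
  have h221 := (norm_fst_le z.2.2).trans h22
  have h222 := (norm_snd_le z.2.2).trans h22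
  exact ⟨h1, h21, h221, (norm_fst_le z.2.2.2).trans h222, (norm_snd_le z.2.2.2).trans h222⟩

private theorem le_comp {z : ℝ × ℝ × ℝ × ℝ × ℝ} {R : ℝ} (h1 : |z.1| ≤ R) (h2 : |z.2.1| ≤ R)
    (h3 : |z.2.2.1| ≤ R) (h4 : |z.2.2.2.1| ≤ R) (h5 : |z.2.2.2.2| ≤ R) : ‖z‖ ≤ R := by
  simp only [Prod.norm_def, Real.norm_eq_abs]
  exact max_le h1 (max_le h2 (max_le h3 (max_le h4 h5)))

/-- The a priori bounds. -/
theorem apriori (c R T : ℝ) (hT : 0 ≤ T) : ∃ M : ℝ, ∀ (S : ℝ) (u : ℝ → ℝ × ℝ × ℝ × ℝ × ℝ),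
    0 ≤ S → S ≤ T → u 0 ∈ initSet c R → (∀ s ∈ Icc (-S) S, HasDerivAt u (vf c (u s)) s) →
    ∀ s ∈ Icc (-S) S, ‖u s‖ ≤ M := by
  set M₁ : ℝ := Real.log (1 + Real.exp R) + T with hM₁
  set M₂ : ℝ := Real.exp (R / 100 + R) + 2 * (1 + Real.exp M₁) * T + (R + T) with hM₂
  set M₃ : ℝ := 1 + Real.exp (|M₁| + |M₂|) + Real.exp ((R + T) / 50 + 4 * (|M₁| + |M₂|)) with hM₃
  refine ⟨|M₁| + |M₂| + M₃ + (R + |c| * T) + (R + T), ?_⟩
  intro S u hS hST hu0 hu s hs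
  obtain ⟨hR0, hen0⟩ := hu0
  have hRn : 0 ≤ R := (norm_nonneg _).trans hR0
  obtain ⟨h0t, h0y, h0x, h0a, h0b⟩ := comp_le hR0
  have hcomp := fun r hr => vf_comp (hu r hr)
  have habs : ∀ r ∈ Icc (-S) S, |r| ≤ T := fun r hr => (abs_le.2 hr).trans hST
  -- energy
  have hen : ∀ r ∈ Icc (-S) S, (u r).2.2.2.1 ^ 2 + (u r).2.2.2.2 ^ 2 + c ^ 2 * fY (u r).2.1 =
      fE (u r).1 (u r).2.1 := by
    intro r hr
    have h1 := mvt (f := fun r => energy c (u r)) (f' := fun _ => 0) (C := 0)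
      (fun r hr => energy_deriv (hu r hr)) (by simp) hr
    simp only [zero_mul] at h1
    have h2 := abs_nonpos_iff.1 h1
    rw [hen0, sub_zero] at h2
    unfold energy at h2
    linarith
  have hEpos : ∀ r, 0 < fE (u r).1 (u r).2.1 := fun r => fE_pos _ _
  have hE1 : ∀ r, 1 ≤ fE (u r).1 (u r).2.1 := fun r => one_le_fE _ _
  have hYpos : ∀ r, 0 < fY (u r).2.1 := fun r => Real.exp_pos _
  have ha2 : ∀ r ∈ Icc (-S) S, (u r).2.2.2.1 ^ 2 ≤ fE (u r).1 (u r).2.1 := by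
    intro r hr
    have h1 := hen r hr
    have h2 := sq_nonneg (u r).2.2.2.2
    have h3 : 0 ≤ c ^ 2 * fY (u r).2.1 := mul_nonneg (sq_nonneg c) (hYpos r).le
    linarith
  have hb2 : ∀ r ∈ Icc (-S) S, (u r).2.2.2.2 ^ 2 ≤ fE (u r).1 (u r).2.1 := by
    intro r hr
    have h1 := hen r hr
    have h2 := sq_nonneg (u r).2.2.2.1
    have h3 : 0 ≤ c ^ 2 * fY (u r).2.1 := mul_nonneg (sq_nonneg c) (hYpos r).le
    linarith
  have hsq : ∀ v E : ℝ, v ^ 2 ≤ E → 1 ≤ E → |v / E| ≤ 1 := by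
    intro v E h1 h2
    have hE : 0 < E := by linarith
    rw [abs_div, abs_of_pos hE, div_le_one hE]
    exact abs_le_of_sq_le_sq (by nlinarith) hE.le
  -- t
  have ht : ∀ r ∈ Icc (-S) S, |(u r).1| ≤ R + T := by
    intro r hr
    have h1 := mvt (f := fun r => (u r).1) (C := 1) (fun r hr => (hcomp r hr).1)
      (fun r hr => hsq _ _ (ha2 r hr) (hE1 r)) hr
    have h2 : |(u r).1| ≤ |(u r).1 - (u 0).1| + |(u 0).1| := by
      simpa using abs_add_le ((u r).1 - (u 0).1) (u 0).1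
    linarith [habs r hr]
  -- x
  have hx : ∀ r ∈ Icc (-S) S, |(u r).2.2.1| ≤ R + |c| * T := by
    intro r hr
    have h1 := mvt (f := fun r => (u r).2.2.1) (C := |c|) (fun r hr => (hcomp r hr).2.2.1)
      (fun r hr => by
        rw [abs_div, abs_mul, abs_of_pos (hEpos r), abs_of_pos (hYpos r),
          div_le_iff₀ (hEpos r)]
        refine mul_le_mul_of_nonneg_left ?_ (abs_nonneg c)
        unfold fY fE
        have := Real.exp_pos (-(u r).1 / 50 - 4 * (u r).2.1)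
        linarith) hr
    have h2 : |(u r).2.2.1| ≤ |(u r).2.2.1 - (u 0).2.2.1| + |(u 0).2.2.1| := by
      simpa using abs_add_le ((u r).2.2.1 - (u 0).2.2.1) (u 0).2.2.1
    have h3 : |c| * |r| ≤ |c| * T := mul_le_mul_of_nonneg_left (habs r hr) (abs_nonneg c)
    linarith
  -- y from above
  have hy1 : ∀ r ∈ Icc (-S) S, (u r).2.1 ≤ M₁ := by
    intro r hr
    have hd : ∀ r ∈ Icc (-S) S, HasDerivAt (fun r => Real.log (1 + Real.exp (u r).2.1))
        ((u r).2.2.2.2 / fE (u r).1 (u r).2.1) r := by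
      intro r hr
      have hX : (1 + Real.exp (u r).2.1) ≠ 0 := by positivity
      have h1 := (((hcomp r hr).2.1.exp).const_add 1).log hX
      refine h1.congr_deriv ?_
      have hE0 := (hEpos r).ne'
      have hY0 : Real.exp (u r).2.1 ≠ 0 := (Real.exp_pos _).ne'
      unfold fX fY
      field_simp
    have h1 := mvt hd (C := 1) (fun r hr => hsq _ _ (hb2 r hr) (hE1 r)) hr
    have h2 := abs_le.1 h1
    have h3 : Real.log (1 + Real.exp (u 0).2.1) ≤ Real.log (1 + Real.exp R) := by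
      refine Real.log_le_log (by positivity) ?_
      have := Real.exp_le_exp.2 ((le_abs_self _).trans h0y)
      linarith
    have h4 : (u r).2.1 ≤ Real.log (1 + Real.exp (u r).2.1) := by
      rw [Real.le_log_iff_exp_le (by positivity)]
      linarith
    rw [hM₁]
    linarith [habs r hr, h2.2]
  -- y from below
  have hy2 : ∀ r ∈ Icc (-S) S, -M₂ ≤ (u r).2.1 := by
    intro r hr
    have hd : ∀ r ∈ Icc (-S) S,
        HasDerivAt (fun r => Real.exp (-(u r).1 / 100 - (u r).2.1))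
        (Real.exp (-(u r).1 / 100 - (u r).2.1) * (-((u r).2.2.2.1 / fE (u r).1 (u r).2.1) / 100 -
          fX (u r).2.1 / fY (u r).2.1 * (u r).2.2.2.2 / fE (u r).1 (u r).2.1)) r := by
      intro r hr
      exact (((hcomp r hr).1.neg.div_const 100).sub (hcomp r hr).2.1).exp
    have hbd : ∀ r ∈ Icc (-S) S,
        |Real.exp (-(u r).1 / 100 - (u r).2.1) * (-((u r).2.2.2.1 / fE (u r).1 (u r).2.1) / 100 -
          fX (u r).2.1 / fY (u r).2.1 * (u r).2.2.2.2 / fE (u r).1 (u r).2.1)| ≤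
        2 * (1 + Real.exp M₁) := by
      intro r hr
      set q : ℝ := Real.exp (-(u r).1 / 100 - (u r).2.1) with hq
      set E : ℝ := fE (u r).1 (u r).2.1 with hE
      set Y : ℝ := fY (u r).2.1 with hY
      have hq0 : 0 < q := Real.exp_pos _
      have hE0 : 0 < E := hEpos r
      have hY0 : 0 < Y := hYpos r
      have hqw : q ^ 2 ≤ E * Y ^ 2 := by
        have h1 : q ^ 2 = fw (u r).1 (u r).2.1 * Y ^ 2 := by
          rw [hq, hY]
          unfold fw fY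
          rw [← Real.exp_nat_mul, ← Real.exp_nat_mul, ← Real.exp_add]
          congr 1
          push_cast
          ring
        rw [h1]
        refine mul_le_mul_of_nonneg_right ?_ (sq_nonneg Y)
        rw [hE]
        unfold fw fE
        have := Real.exp_pos (u r).2.1
        linarith
      have hqv : ∀ v : ℝ, v ^ 2 ≤ E → |q * v| ≤ E * Y := by
        intro v hv
        refine abs_le_of_sq_le_sq ?_ (by positivity)
        calc (q * v) ^ 2 = q ^ 2 * v ^ 2 := by ring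
          _ ≤ (E * Y ^ 2) * E := mul_le_mul hqw hv (sq_nonneg v) (by positivity)
          _ = (E * Y) ^ 2 := by ring
      have h1 := hqv _ (ha2 r hr)
      have h2 := hqv _ (hb2 r hr)
      have hX : fX (u r).2.1 = 1 + Y := rfl
      have e : q * (-((u r).2.2.2.1 / E) / 100 - fX (u r).2.1 / Y * (u r).2.2.2.2 / E) =
          -((q * (u r).2.2.2.1) / (100 * E)) - (1 + Y) * (q * (u r).2.2.2.2) / (E * Y) := by
        rw [hX]
        field_simp
      rw [e]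
      have h3 : |(q * (u r).2.2.2.1) / (100 * E)| ≤ Y / 100 := by
        rw [abs_div, abs_of_pos (by positivity : 0 < 100 * E), div_le_iff₀ (by positivity)]
        linarith
      have h4 : |(1 + Y) * (q * (u r).2.2.2.2) / (E * Y)| ≤ 1 + Y := by
        rw [abs_div, abs_mul, abs_of_pos (by positivity : 0 < E * Y),
          abs_of_pos (by positivity : 0 < 1 + Y), div_le_iff₀ (by positivity)]
        exact mul_le_mul_of_nonneg_left h2 (by positivity)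
      have h5 : Y ≤ Real.exp M₁ := Real.exp_le_exp.2 (hy1 r hr)
      have h6 := abs_sub (-((q * (u r).2.2.2.1) / (100 * E)))
        ((1 + Y) * (q * (u r).2.2.2.2) / (E * Y))
      rw [abs_neg] at h6
      linarith
    have h1 := (abs_le.1 (mvt hd hbd hr)).2
    have h2 : Real.exp (-(u 0).1 / 100 - (u 0).2.1) ≤ Real.exp (R / 100 + R) := by
      refine Real.exp_le_exp.2 ?_
      linarith [(abs_le.1 h0t).1, (abs_le.1 h0y).1]
    have h3 : 2 * (1 + Real.exp M₁) * |r| ≤ 2 * (1 + Real.exp M₁) * T :=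
      mul_le_mul_of_nonneg_left (habs r hr) (by positivity)
    have h4 := Real.add_one_le_exp (-(u r).1 / 100 - (u r).2.1)
    have h5 := (abs_le.1 (ht r hr)).2
    rw [hM₂]
    have h6 : 0 ≤ R + T := by linarith
    linarith
  have hM3 : 1 ≤ M₃ := by
    rw [hM₃]
    linarith [Real.exp_pos (|M₁| + |M₂|), Real.exp_pos ((R + T) / 50 + 4 * (|M₁| + |M₂|))]
  have hyabs : ∀ r ∈ Icc (-S) S, |(u r).2.1| ≤ |M₁| + |M₂| := by
    intro r hr
    rw [abs_le]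
    constructor
    · linarith [hy2 r hr, le_abs_self M₂, abs_nonneg M₁]
    · linarith [hy1 r hr, le_abs_self M₁, abs_nonneg M₂]
  have hEM : ∀ r ∈ Icc (-S) S, fE (u r).1 (u r).2.1 ≤ M₃ := by
    intro r hr
    have h1 := abs_le.1 (hyabs r hr)
    have h2 := abs_le.1 (ht r hr)
    have h3 : Real.exp (u r).2.1 ≤ Real.exp (|M₁| + |M₂|) := Real.exp_le_exp.2 h1.2
    have h4 : Real.exp (-(u r).1 / 50 - 4 * (u r).2.1) ≤
        Real.exp ((R + T) / 50 + 4 * (|M₁| + |M₂|)) := Real.exp_le_exp.2 (by linarith)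
    rw [hM₃]
    unfold fE
    linarith
  have hvM : ∀ v : ℝ, v ^ 2 ≤ M₃ → |v| ≤ M₃ := fun v hv =>
    abs_le_of_sq_le_sq (by nlinarith) (by linarith)
  have ha := hvM _ ((ha2 s hs).trans (hEM s hs))
  have hb := hvM _ ((hb2 s hs).trans (hEM s hs))
  have p1 : 0 ≤ |M₁| := abs_nonneg _
  have p2 : 0 ≤ |M₂| := abs_nonneg _
  have p3 : 0 ≤ |c| * T := mul_nonneg (abs_nonneg _) hT
  refine le_comp ?_ ?_ ?_ ?_ ?_
  · linarith [ht s hs]
  · linarith [hyabs s hs]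
  · linarith [hx s hs]
  · linarith
  · linarith

/-- **The global flow** on the initial values of norm `≤ R` and of unit speed. -/
theorem geoFlow (c R : ℝ) : ∃ Φ : ℝ × ℝ × ℝ × ℝ × ℝ → ℝ → ℝ × ℝ × ℝ × ℝ × ℝ,
    (∀ z ∈ initSet c R, Φ z 0 = z) ∧
    (∀ z ∈ initSet c R, ∀ s, Orb c (fun r => (Φ z r).1) (fun r => (Φ z r).2.1)
      (fun r => (Φ z r).2.2.1) (fun r => (Φ z r).2.2.2.1) (fun r => (Φ z r).2.2.2.2) s) ∧
    ContinuousOn (fun p : (ℝ × ℝ × ℝ × ℝ × ℝ) × ℝ => Φ p.1 p.2) (initSet c R ×ˢ univ) := by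
  obtain ⟨Φ, h0, hd, hc⟩ := flow (vf_contDiff c) (K := initSet c R) (fun T hT => apriori c R T hT)
  refine ⟨Φ, h0, fun z hz s => ?_, hc⟩
  obtain ⟨h1, h2, h3, h4, h5⟩ := vf_comp (hd z hz s)
  refine ⟨h1, h2, h3, h4, h5, ?_⟩
  have hdiff : Differentiable ℝ (fun r => energy c (Φ z r)) := fun r =>
    (energy_deriv (hd z hz r)).differentiableAt
  have hcst := is_const_of_deriv_eq_zero hdiff (fun r => (energy_deriv (hd z hz r)).deriv) s 0
  have h6 : energy c (Φ z s) = 0 := by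
    rw [hcst, h0 z hz]
    exact hz.2
  unfold energy at h6
  linarith

end

end Pool.Agent.Lib.MP_6b187a_gt.Div.Fld

namespace Pool.Agent.Lib.MP_6b187a_gt.Div

open Fld

/-- Global existence of the geodesics. -/
theorem exists_orb (c t₀ y₀ x₀ a₀ b₀ : ℝ)
    (h : a₀ ^ 2 + b₀ ^ 2 + c ^ 2 * fY y₀ = fE t₀ y₀) :
    ∃ t y x a b : ℝ → ℝ, (∀ s, Orb c t y x a b s) ∧ t 0 = t₀ ∧ y 0 = y₀ ∧ x 0 = x₀ ∧
      a 0 = a₀ ∧ b 0 = b₀ := by
  obtain ⟨Φ, h0, hd, -⟩ := geoFlow c ‖(t₀, y₀, x₀, a₀, b₀)‖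
  have hz : (t₀, y₀, x₀, a₀, b₀) ∈ initSet c ‖(t₀, y₀, x₀, a₀, b₀)‖ := by
    refine ⟨le_rfl, ?_⟩
    unfold energy
    linarith
  refine ⟨_, _, _, _, _, hd _ hz, ?_, ?_, ?_, ?_, ?_⟩ <;> simp [h0 _ hz]

end Pool.Agent.Lib.MP_6b187a_gt.Div
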