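import Mathlib

/-!
# Global solutions of ordinary differential equations with a priori bounds

Everything is generic: `v` is a `C^1` vector field on a finite dimensional real normed space.
-/

set_option autoImplicit false

namespace Pool.Agent.Lib.MP_6b187a_gt.Div

open Set Metric Filter Topology
open scoped NNReal

variable {V : Type} [NormedAddCommGroup V] [NormedSpace ℝ V] [FiniteDimensional ℝ V]

/-- a `C^1` field agrees on a ball with a bounded field which is globally Lipschitz -/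
theorem fl_cut {v : V → V} (hv : ContDiff ℝ 1 v) (M : ℝ) :
    ∃ (w : V → V) (K : ℝ≥0) (C : ℝ), LipschitzWith K w ∧ (∀ x, ‖w x‖ ≤ C) ∧ 0 ≤ C ∧
      ∀ x, ‖x‖ ≤ M → w x = v x := by
  let f : ContDiffBump (0 : V) := ⟨|M| + 1, |M| + 2, by positivity, by linarith⟩
  have hf : ContDiff ℝ 1 (fun x => f x • v x) := f.contDiff.smul hv
  have hc : HasCompactSupport (fun x => f x • v x) := f.hasCompactSupport.smul_right
  obtain ⟨K, hK⟩ := hf.lipschitzWith_of_hasCompactSupport hc one_ne_zero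
  obtain ⟨C, hC⟩ := hf.continuous.bounded_above_of_compact_support hc
  refine ⟨_, K, C, hK, hC, (norm_nonneg _).trans (hC 0), fun x hx => ?_⟩
  have h1 : f x = 1 := by
    apply f.one_of_mem_closedBall
    rw [mem_closedBall_zero_iff]
    exact (hx.trans (le_abs_self M)).trans (by change |M| ≤ |M| + 1; linarith)
  change f x • v x = v x
  rw [h1, one_smul]

/-- a `C^1` field is Lipschitz on balls -/
theorem fl_lip {v : V → V} (hv : ContDiff ℝ 1 v) (M : ℝ) :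
    ∃ K : ℝ≥0, LipschitzOnWith K v (closedBall 0 M) := by
  obtain ⟨w, K, C, hK, _, _, hw⟩ := fl_cut hv M
  refine ⟨K, fun x hx y hy => ?_⟩
  rw [← hw x (mem_closedBall_zero_iff.1 hx), ← hw y (mem_closedBall_zero_iff.1 hy)]
  exact hK x y

omit [NormedSpace ℝ V] [FiniteDimensional ℝ V] in
/-- a bound on a compact interval -/
theorem fl_bdd {f : ℝ → V} {a b : ℝ} (hf : ContinuousOn f (Icc a b)) :
    ∃ M : ℝ, 0 ≤ M ∧ ∀ s ∈ Icc a b, ‖f s‖ ≤ M := by
  obtain ⟨M, hM⟩ := isCompact_Icc.exists_bound_of_continuousOn hf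
  exact ⟨|M|, abs_nonneg M, fun s hs => (hM s hs).trans (le_abs_self M)⟩

/-- uniqueness -/
theorem fl_unique {v : V → V} (hv : ContDiff ℝ 1 v) {a b s₀ : ℝ} (h0 : s₀ ∈ Ioo a b)
    {f g : ℝ → V} (hf : ∀ s ∈ Ioo a b, HasDerivAt f (v (f s)) s)
    (hg : ∀ s ∈ Ioo a b, HasDerivAt g (v (g s)) s) (h : f s₀ = g s₀) :
    EqOn f g (Ioo a b) := by
  intro s hs
  obtain ⟨a', ha1, ha2⟩ := exists_between (lt_min h0.1 hs.1)
  obtain ⟨b', hb1, hb2⟩ := exists_between (max_lt h0.2 hs.2)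
  have hsub : Icc a' b' ⊆ Ioo a b := fun r hr => ⟨ha1.trans_le hr.1, hr.2.trans_lt hb2⟩
  have hcf : ContinuousOn f (Icc a' b') := fun r hr =>
    (hf r (hsub hr)).continuousAt.continuousWithinAt
  have hcg : ContinuousOn g (Icc a' b') := fun r hr =>
    (hg r (hsub hr)).continuousAt.continuousWithinAt
  obtain ⟨M1, h1, hM1⟩ := fl_bdd hcf
  obtain ⟨M2, h2, hM2⟩ := fl_bdd hcg
  obtain ⟨K, hK⟩ := fl_lip hv (M1 + M2)
  refine ODE_solution_unique_of_mem_Ioo (v := fun _ => v) (s := fun _ => closedBall 0 (M1 + M2))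
    (K := K) (a := a') (b := b') (t₀ := s₀) (fun _ _ => hK)
    ⟨ha2.trans_le (min_le_left _ _), (le_max_left _ _).trans_lt hb1⟩
    (fun r hr => ⟨hf r (hsub (Ioo_subset_Icc_self hr)), ?_⟩)
    (fun r hr => ⟨hg r (hsub (Ioo_subset_Icc_self hr)), ?_⟩) h
    ⟨ha2.trans_le (min_le_right _ _), (le_max_right _ _).trans_lt hb1⟩
  · rw [mem_closedBall_zero_iff]
    exact (hM1 r (Ioo_subset_Icc_self hr)).trans (by linarith)
  · rw [mem_closedBall_zero_iff]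
    exact (hM2 r (Ioo_subset_Icc_self hr)).trans (by linarith)

theorem fl_unique_univ {v : V → V} (hv : ContDiff ℝ 1 v) {s₀ : ℝ} {f g : ℝ → V}
    (hf : ∀ s, HasDerivAt f (v (f s)) s) (hg : ∀ s, HasDerivAt g (v (g s)) s)
    (h : f s₀ = g s₀) : f = g := by
  funext s
  refine fl_unique hv (a := min s s₀ - 1) (b := max s s₀ + 1) (s₀ := s₀)
    ⟨by linarith [min_le_right s s₀], by linarith [le_max_right s s₀]⟩ (fun r _ => hf r)
    (fun r _ => hg r) h ⟨by linarith [min_le_left s s₀], by linarith [le_max_left s s₀]⟩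

/-- the solution of the bounded Lipschitz field on a symmetric interval -/
theorem fl_lipschitz {w : V → V} {K : ℝ≥0} {C : ℝ} (hK : LipschitzWith K w)
    (hC : ∀ x, ‖w x‖ ≤ C) (hC0 : 0 ≤ C) (x : V) {T : ℝ} (hT : 0 < T) :
    ∃ g : ℝ → V, g 0 = x ∧ ContinuousOn g (Icc (-T) T) ∧
      ∀ s ∈ Ioo (-T) T, HasDerivAt g (w (g s)) s := by
  have h0 : (0 : ℝ) ∈ Icc (-T) T := ⟨by linarith, hT.le⟩
  have hP : IsPicardLindelof (fun _ => w) (⟨0, h0⟩ : Icc (-T) T) x (⟨C * T, by positivity⟩ : ℝ≥0)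
      0 ⟨C, hC0⟩ K := by
    refine IsPicardLindelof.of_time_independent (fun y _ => hC y) (hK.lipschitzOnWith) ?_
    change C * max (T - 0) (0 - -T) ≤ C * T - 0
    rw [sub_zero, zero_sub, neg_neg, max_self, sub_zero]
  obtain ⟨g, hg0, hg⟩ := hP.exists_eq_forall_mem_Icc_hasDerivWithinAt₀
  refine ⟨g, hg0, fun s hs => (hg s hs).continuousWithinAt, fun s hs => ?_⟩
  exact (hg s (Ioo_subset_Icc_self hs)).hasDerivAt (Icc_mem_nhds hs.1 hs.2)

/-- the least time of a closed nonempty set of times -/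
theorem fl_least {S : Set ℝ} {T : ℝ} (hS : IsClosed S) (hT : T ∈ S) (h0 : 0 ≤ T) :
    ∃ s, s ∈ S ∧ 0 ≤ s ∧ s ≤ T ∧ ∀ r, 0 ≤ r → r < s → r ∉ S := by
  have hcomp : IsCompact (S ∩ Icc 0 T) := isCompact_Icc.inter_left hS
  obtain ⟨s, hs⟩ := hcomp.exists_isLeast ⟨T, hT, h0, le_rfl⟩
  refine ⟨s, hs.1.1, hs.1.2.1, hs.1.2.2, fun r hr hrs hrS => ?_⟩
  have := hs.2 ⟨hrS, hr, hrs.le.trans hs.1.2.2⟩
  exact absurd hrs (not_lt.2 this)

/-- existence on a bounded interval -/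
theorem fl_fin {v : V → V} (hv : ContDiff ℝ 1 v) (x : V) {T : ℝ} (hT : 0 < T) {R : ℝ}
    (hR : ∀ T' ≤ T, ∀ g : ℝ → V, g 0 = x → (∀ s ∈ Ioo (-T') T', HasDerivAt g (v (g s)) s) →
      ∀ s ∈ Ioo (-T') T', ‖g s‖ ≤ R) :
    ∃ g : ℝ → V, g 0 = x ∧ ∀ s ∈ Ioo (-T) T, HasDerivAt g (v (g s)) s := by
  set R1 : ℝ := max R ‖x‖ with hR1
  obtain ⟨w, K, C, hK, hC, hC0, hw⟩ := fl_cut hv (R1 + 1)
  obtain ⟨g, hg0, hgc, hg⟩ := fl_lipschitz hK hC hC0 x hT
  have key : ∀ s ∈ Icc (-T) T, ‖g s‖ ≤ R1 + 1 := by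
    by_contra hcon
    push Not at hcon
    obtain ⟨s2, hs2, hs2'⟩ := hcon
    have hcont : ContinuousOn (fun s => max ‖g s‖ ‖g (-s)‖) (Icc 0 T) := by
      refine ContinuousOn.sup ?_ ?_
      · exact (hgc.mono (Icc_subset_Icc_left (by linarith))).norm
      · refine ContinuousOn.norm (hgc.comp continuousOn_neg fun s hs => ?_)
        exact ⟨by linarith [hs.2], by linarith [hs.1]⟩
    have hcl : IsClosed (Icc 0 T ∩ (fun s => max ‖g s‖ ‖g (-s)‖) ⁻¹' Ici (R1 + 1)) :=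
      hcont.preimage_isClosed_of_isClosed isClosed_Icc isClosed_Ici
    have hmem : |s2| ∈ Icc 0 T ∩ (fun s => max ‖g s‖ ‖g (-s)‖) ⁻¹' Ici (R1 + 1) := by
      refine ⟨⟨abs_nonneg _, abs_le.2 hs2⟩, ?_⟩
      change R1 + 1 ≤ max ‖g |s2|‖ ‖g (-|s2|)‖
      rcases abs_cases s2 with ⟨h, _⟩ | ⟨h, _⟩
      · rw [h]
        exact hs2'.le.trans (le_max_left _ _)
      · rw [h, neg_neg]
        exact hs2'.le.trans (le_max_right _ _)
    obtain ⟨s1, hs1, h1, h1T, hmin⟩ := fl_least hcl hmem (abs_nonneg _)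
    have hs1T : s1 ≤ T := hs1.1.2
    have hlt : ∀ r ∈ Ioo (-s1) s1, ‖g r‖ < R1 + 1 := by
      intro r hr
      have h2 : |r| < s1 := abs_lt.2 hr
      by_contra h3
      refine hmin |r| (abs_nonneg _) h2 ⟨⟨abs_nonneg _, h2.le.trans hs1T⟩, ?_⟩
      change R1 + 1 ≤ max ‖g |r|‖ ‖g (-|r|)‖
      rcases abs_cases r with ⟨h, _⟩ | ⟨h, _⟩
      · rw [h]
        exact (not_lt.1 h3).trans (le_max_left _ _)
      · rw [h, neg_neg]
        exact (not_lt.1 h3).trans (le_max_right _ _)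
    have hle : ∀ r ∈ Ioo (-s1) s1, ‖g r‖ ≤ R1 := by
      intro r hr
      refine (hR s1 hs1T g hg0 (fun q hq => ?_) r hr).trans (le_max_left _ _)
      rw [← hw (g q) (hlt q hq).le]
      exact hg q ⟨by linarith [hq.1], by linarith [hq.2]⟩
    rcases eq_or_lt_of_le h1 with h4 | h4
    · have h5 : R1 + 1 ≤ max ‖g s1‖ ‖g (-s1)‖ := hs1.2
      rw [← h4, neg_zero, hg0, max_self] at h5
      linarith [le_max_right R ‖x‖]
    · have h6 : ∀ r ∈ Icc (-s1) s1, ‖g r‖ ≤ R1 := by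
        intro r hr
        have h7 : closure (Ioo (-s1) s1) = Icc (-s1) s1 := closure_Ioo (by linarith)
        refine le_on_closure (f := fun r => ‖g r‖) (g := fun _ => R1) hle ?_ continuousOn_const
          (by rw [h7]; exact hr)
        rw [h7]
        exact (hgc.mono (Icc_subset_Icc (by linarith) hs1T)).norm
      have h5 : R1 + 1 ≤ max ‖g s1‖ ‖g (-s1)‖ := hs1.2
      have h8 := max_le (h6 s1 ⟨by linarith, le_rfl⟩) (h6 (-s1) ⟨le_rfl, by linarith⟩)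
      linarith
  refine ⟨g, hg0, fun s hs => ?_⟩
  rw [← hw (g s) (key s (Ioo_subset_Icc_self hs))]
  exact hg s hs

/-- global existence -/
theorem fl_global {v : V → V} (hv : ContDiff ℝ 1 v) (x : V)
    (hR : ∀ T : ℝ, ∃ R : ℝ, ∀ T' ≤ T, ∀ g : ℝ → V, g 0 = x →
      (∀ s ∈ Ioo (-T') T', HasDerivAt g (v (g s)) s) → ∀ s ∈ Ioo (-T') T', ‖g s‖ ≤ R) :
    ∃ g : ℝ → V, g 0 = x ∧ ∀ s, HasDerivAt g (v (g s)) s := by
  have h1 : ∀ n : ℕ, ∃ g : ℝ → V, g 0 = x ∧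
      ∀ s ∈ Ioo (-((n : ℝ) + 1)) ((n : ℝ) + 1), HasDerivAt g (v (g s)) s := by
    intro n
    obtain ⟨R, hR⟩ := hR ((n : ℝ) + 1)
    exact fl_fin hv x (by positivity) hR
  choose G hG0 hG using h1
  have hag : ∀ m n : ℕ, m ≤ n → ∀ s ∈ Ioo (-((m : ℝ) + 1)) ((m : ℝ) + 1), G m s = G n s := by
    intro m n hmn s hs
    have hmn' : (m : ℝ) ≤ n := by exact_mod_cast hmn
    refine fl_unique hv (s₀ := 0) ⟨by linarith [(Nat.cast_nonneg m : (0 : ℝ) ≤ m)],
      by positivity⟩ (hG m) (fun r hr => hG n r ⟨by linarith [hr.1], by linarith [hr.2]⟩)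
      ((hG0 m).trans (hG0 n).symm) hs
  refine ⟨fun s => G ⌈|s|⌉₊ s, ?_, fun s => ?_⟩
  · simp [hG0]
  · set n := ⌈|s|⌉₊ + 1 with hn
    have hev : (fun r => G ⌈|r|⌉₊ r) =ᶠ[𝓝 s] G n := by
      have hopen : Ioo (-(n : ℝ)) n ∈ 𝓝 s := by
        refine Ioo_mem_nhds ?_ ?_
        · have := Nat.le_ceil |s|
          have h3 := neg_abs_le s
          rw [hn]; push_cast; linarith
        · have := Nat.le_ceil |s|
          have h3 := le_abs_self s
          rw [hn]; push_cast; linarith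
      filter_upwards [hopen] with r hr
      have hr2 : |r| < n := abs_lt.2 hr
      have hr3 : ⌈|r|⌉₊ ≤ n := Nat.ceil_le.2 hr2.le
      refine hag _ _ hr3 r ?_
      have h5 := Nat.le_ceil |r|
      have h6 := neg_abs_le r
      have h7 := le_abs_self r
      exact ⟨by linarith, by linarith⟩
    have h8 : HasDerivAt (G n) (v (G n s)) s := by
      refine hG n s ?_
      have := Nat.le_ceil |s|
      have h3 := neg_abs_le s
      have h4 := le_abs_self s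
      constructor
      · rw [hn]; push_cast; linarith
      · rw [hn]; push_cast; linarith
    have h9 := h8.congr_of_eventuallyEq hev
    have h10 : G ⌈|s|⌉₊ s = G n s := hev.eq_of_nhds
    change HasDerivAt (fun s => G ⌈|s|⌉₊ s) (v (G ⌈|s|⌉₊ s)) s
    rw [h10]
    exact h9

/-- continuous dependence, forward in time -/
theorem fl_dep_fwd {v : V → V} (hv : ContDiff ℝ 1 v) {f : ℝ → V}
    (hf : ∀ s, HasDerivAt f (v (f s)) s) (T : ℝ) {ε : ℝ} (hε : 0 < ε) :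
    ∃ δ > 0, ∀ g : ℝ → V, (∀ s, HasDerivAt g (v (g s)) s) → dist (g 0) (f 0) < δ →
      ∀ s ∈ Icc 0 T, dist (g s) (f s) < ε := by
  have hfc : Continuous f := continuous_iff_continuousAt.2 fun s => (hf s).continuousAt
  obtain ⟨M, hM0, hM⟩ := fl_bdd (a := 0) (b := T) hfc.continuousOn
  obtain ⟨K, hK⟩ := fl_lip hv (M + 1)
  set ε' := min ε 1 with hε'
  have hε'0 : 0 < ε' := lt_min hε one_pos
  refine ⟨ε' * Real.exp (-(K * |T|)), by positivity, fun g hg h0 => ?_⟩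
  have hgc : Continuous g := continuous_iff_continuousAt.2 fun s => (hg s).continuousAt
  by_contra hcon
  push Not at hcon
  obtain ⟨s2, hs2, hs2'⟩ := hcon
  have hcl : IsClosed {s : ℝ | ε' ≤ dist (g s) (f s)} :=
    isClosed_le continuous_const (hgc.dist hfc)
  obtain ⟨s1, hs1, h1, h12, hmin⟩ := fl_least hcl
    (show s2 ∈ {s : ℝ | ε' ≤ dist (g s) (f s)} from (min_le_left _ _).trans hs2') hs2.1
  have hlt : ∀ r, 0 ≤ r → r < s1 → dist (g r) (f r) < ε' := fun r hr hr1 =>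
    not_le.1 (hmin r hr hr1)
  have hfm : ∀ r ∈ Ico 0 s1, f r ∈ closedBall (0 : V) (M + 1) := fun r hr => by
    rw [mem_closedBall_zero_iff]
    exact (hM r ⟨hr.1, (hr.2.le.trans h12).trans hs2.2⟩).trans (by linarith)
  have hgm : ∀ r ∈ Ico 0 s1, g r ∈ closedBall (0 : V) (M + 1) := fun r hr => by
    rw [mem_closedBall_zero_iff]
    have h3 := hM r ⟨hr.1, (hr.2.le.trans h12).trans hs2.2⟩
    have h4 := hlt r hr.1 hr.2
    rw [dist_eq_norm] at h4
    have h5 : ‖g r‖ ≤ ‖g r - f r‖ + ‖f r‖ := by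
      have := norm_add_le (g r - f r) (f r)
      rwa [sub_add_cancel] at this
    have h6 : ε' ≤ 1 := min_le_right _ _
    linarith
  have h7 := dist_le_of_trajectories_ODE_of_mem (v := fun _ => v)
    (s := fun _ => closedBall (0 : V) (M + 1)) (K := K) (a := 0) (b := s1)
    (fun _ _ => hK) hgc.continuousOn (fun r _ => (hg r).hasDerivWithinAt) hgm
    hfc.continuousOn (fun r _ => (hf r).hasDerivWithinAt) hfm h0.le s1 ⟨h1, le_rfl⟩
  have h8 : ε' * Real.exp (-(K * |T|)) * Real.exp (K * (s1 - 0)) ≤ ε' := by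
    rw [mul_assoc, ← Real.exp_add]
    have h9 : Real.exp (-(K * |T|) + K * (s1 - 0)) ≤ 1 := by
      rw [Real.exp_le_one_iff]
      have h10 : s1 ≤ |T| := (h12.trans hs2.2).trans (le_abs_self T)
      have h11 : (K : ℝ) * s1 ≤ K * |T| := mul_le_mul_of_nonneg_left h10 K.2
      linarith
    exact mul_le_of_le_one_right hε'0.le h9
  have h9 : dist (g 0) (f 0) * Real.exp (K * (s1 - 0)) <
      ε' * Real.exp (-(K * |T|)) * Real.exp (K * (s1 - 0)) :=
    mul_lt_mul_of_pos_right h0 (Real.exp_pos _)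
  have h10 := dist_le_of_trajectories_ODE_of_mem (v := fun _ => v)
    (s := fun _ => closedBall (0 : V) (M + 1)) (K := K) (a := 0) (b := s1)
    (fun _ _ => hK) hgc.continuousOn (fun r _ => (hg r).hasDerivWithinAt) hgm
    hfc.continuousOn (fun r _ => (hf r).hasDerivWithinAt) hfm le_rfl s1 ⟨h1, le_rfl⟩
  have h11 : ε' ≤ dist (g s1) (f s1) := hs1
  linarith

/-- continuous dependence on the initial value, uniformly on bounded intervals of time -/
theorem fl_dep {v : V → V} (hv : ContDiff ℝ 1 v) {f : ℝ → V}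
    (hf : ∀ s, HasDerivAt f (v (f s)) s) (T : ℝ) {ε : ℝ} (hε : 0 < ε) :
    ∃ δ > 0, ∀ g : ℝ → V, (∀ s, HasDerivAt g (v (g s)) s) → dist (g 0) (f 0) < δ →
      ∀ s, |s| ≤ T → dist (g s) (f s) < ε := by
  obtain ⟨δ1, h1, hd1⟩ := fl_dep_fwd hv hf T hε
  have hneg : ∀ h : ℝ → V, (∀ s, HasDerivAt h (v (h s)) s) →
      ∀ s, HasDerivAt (fun r => h (-r)) ((fun x => -v x) (h (-s))) s := by
    intro h hh s
    have h2 := (hh (-s)).scomp s (hasDerivAt_neg s)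
    rw [neg_smul, one_smul] at h2
    exact h2
  obtain ⟨δ2, h2, hd2⟩ := fl_dep_fwd (v := fun x => -v x) hv.neg (f := fun r => f (-r))
    (hneg f hf) T hε
  refine ⟨min δ1 δ2, lt_min h1 h2, fun g hg h0 s hs => ?_⟩
  rcases le_total 0 s with h3 | h3
  · exact hd1 g hg (h0.trans_le (min_le_left _ _)) s ⟨h3, (le_abs_self s).trans hs⟩
  · have h4 := hd2 (fun r => g (-r)) (hneg g hg) (by
      rw [neg_zero]
      exact h0.trans_le (min_le_right _ _)) (-s) ⟨by linarith, (neg_le_abs s).trans hs⟩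
    simpa using h4

/-- global solutions which depend continuously on the initial value -/
theorem exists_flow {v : V → V} (hv : ContDiff ℝ 1 v) (K : Set V)
    (hR : ∀ x ∈ K, ∀ T : ℝ, ∃ R : ℝ, ∀ T' ≤ T, ∀ g : ℝ → V, g 0 = x →
      (∀ s ∈ Ioo (-T') T', HasDerivAt g (v (g s)) s) → ∀ s ∈ Ioo (-T') T', ‖g s‖ ≤ R) :
    ∃ Φ : V → ℝ → V, (∀ x ∈ K, Φ x 0 = x ∧ ∀ s, HasDerivAt (Φ x) (v (Φ x s)) s) ∧
      (∀ x₀ ∈ K, ∀ T : ℝ, ∀ ε > 0, ∃ δ > 0, ∀ x ∈ K, dist x x₀ < δ →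
        ∀ s, |s| ≤ T → dist (Φ x s) (Φ x₀ s) < ε) ∧
      ContinuousOn (Function.uncurry Φ) (K ×ˢ univ) := by
  have h1 : ∀ x : V, ∃ g : ℝ → V, x ∈ K → g 0 = x ∧ ∀ s, HasDerivAt g (v (g s)) s := by
    intro x
    by_cases hx : x ∈ K
    · obtain ⟨g, hg0, hg⟩ := fl_global hv x (hR x hx)
      exact ⟨g, fun _ => ⟨hg0, hg⟩⟩
    · exact ⟨fun _ => x, fun h => absurd h hx⟩
  choose Φ hΦ using h1
  have hdep : ∀ x₀ ∈ K, ∀ T : ℝ, ∀ ε > 0, ∃ δ > 0, ∀ x ∈ K, dist x x₀ < δ →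
      ∀ s, |s| ≤ T → dist (Φ x s) (Φ x₀ s) < ε := by
    intro x₀ hx₀ T ε hε
    obtain ⟨δ, hδ, hd⟩ := fl_dep hv (hΦ x₀ hx₀).2 T hε
    refine ⟨δ, hδ, fun x hx hxd s hs => hd (Φ x) (hΦ x hx).2 ?_ s hs⟩
    rw [(hΦ x hx).1, (hΦ x₀ hx₀).1]
    exact hxd
  refine ⟨Φ, fun x hx => hΦ x hx, hdep, ?_⟩
  rintro ⟨x₀, s₀⟩ ⟨hx₀, _⟩
  rw [Metric.continuousWithinAt_iff]
  intro ε hε
  obtain ⟨δ1, h1, hd1⟩ := hdep x₀ hx₀ (|s₀| + 1) (ε / 2) (half_pos hε)
  have hc : ContinuousAt (Φ x₀) s₀ := ((hΦ x₀ hx₀).2 s₀).continuousAt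
  obtain ⟨δ2, h2, hd2⟩ := Metric.continuousAt_iff.1 hc (ε / 2) (half_pos hε)
  refine ⟨min δ1 (min δ2 1), lt_min h1 (lt_min h2 one_pos), ?_⟩
  rintro ⟨x, s⟩ ⟨hx, _⟩ hd
  rw [Prod.dist_eq, max_lt_iff] at hd
  have h3 : dist x x₀ < δ1 := hd.1.trans_le (min_le_left _ _)
  have h4 : dist s s₀ < δ2 := hd.2.trans_le ((min_le_right _ _).trans (min_le_left _ _))
  have h5 : dist s s₀ < 1 := hd.2.trans_le ((min_le_right _ _).trans (min_le_right _ _))
  have h6 : |s| ≤ |s₀| + 1 := by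
    rw [Real.dist_eq] at h5
    have h7 := abs_sub_abs_le_abs_sub s s₀
    linarith
  change dist (Φ x s) (Φ x₀ s₀) < ε
  calc dist (Φ x s) (Φ x₀ s₀) ≤ dist (Φ x s) (Φ x₀ s) + dist (Φ x₀ s) (Φ x₀ s₀) :=
        dist_triangle _ _ _
    _ < ε / 2 + ε / 2 := add_lt_add (hd1 x hx h3 s h6) (hd2 h4)
    _ = ε := add_halves ε

end Pool.Agent.Lib.MP_6b187a_gt.Div
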