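import Pool.Agent.Lib.MP_6b187a_gt.Div.Met

/-!
# The chain rule for the functions of the metric

`p = t'`, `q = ψ' = (Y/X) y'`.
-/

set_option autoImplicit false

namespace Pool.Agent.Lib.MP_6b187a_gt.Div

open Filter Set
open scoped ContDiff Topology

noncomputable section

section

variable {t y : ℝ → ℝ} {p q s : ℝ}

theorem hasDerivAt_fY' {v : ℝ} (hy : HasDerivAt y v s) :
    HasDerivAt (fun s => fY (y s)) (fY (y s) * v) s := hy.exp

theorem hasDerivAt_fX' {v : ℝ} (hy : HasDerivAt y v s) :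
    HasDerivAt (fun s => fX (y s)) (fY (y s) * v) s := hy.exp.const_add 1

theorem hasDerivAt_fw' {u v : ℝ} (ht : HasDerivAt t u s) (hy : HasDerivAt y v s) :
    HasDerivAt (fun s => fw (t s) (y s)) (fw (t s) (y s) * (-u / 50 - 4 * v)) s :=
  ((ht.neg.div_const 50).sub (hy.const_mul 4)).exp

theorem hasDerivAt_fE' {u v : ℝ} (ht : HasDerivAt t u s) (hy : HasDerivAt y v s) :
    HasDerivAt (fun s => fE (t s) (y s))
      (fY (y s) * v + fw (t s) (y s) * (-u / 50 - 4 * v)) s :=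
  (hy.exp.const_add 1).add (hasDerivAt_fw' ht hy)

theorem hasDerivAt_fY (hy : HasDerivAt y (fX (y s) / fY (y s) * q) s) :
    HasDerivAt (fun s => fY (y s)) (fX (y s) * q) s := by
  refine (hasDerivAt_fY' hy).congr_deriv ?_
  have := (fY_pos (y s)).ne'
  field_simp

theorem hasDerivAt_fX (hy : HasDerivAt y (fX (y s) / fY (y s) * q) s) :
    HasDerivAt (fun s => fX (y s)) (fX (y s) * q) s := by
  refine (hasDerivAt_fX' hy).congr_deriv ?_
  have := (fY_pos (y s)).ne'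
  field_simp

theorem hasDerivAt_fw (ht : HasDerivAt t p s) (hy : HasDerivAt y (fX (y s) / fY (y s) * q) s) :
    HasDerivAt (fun s => fw (t s) (y s))
      (-fw (t s) (y s) / 50 * p - 4 * fw (t s) (y s) * fX (y s) / fY (y s) * q) s := by
  refine (hasDerivAt_fw' ht hy).congr_deriv ?_
  have := (fY_pos (y s)).ne'
  field_simp

theorem hasDerivAt_fθ (ht : HasDerivAt t p s) (hy : HasDerivAt y (fX (y s) / fY (y s) * q) s) :
    HasDerivAt (fun s => fθ (t s) (y s))
      (fθ (t s) (y s) * (-p / 50 - 5 * (fX (y s) / fY (y s) * q))) s :=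
  ((ht.neg.div_const 50).sub (hy.const_mul 5)).exp

theorem hasDerivAt_fE (ht : HasDerivAt t p s) (hy : HasDerivAt y (fX (y s) / fY (y s) * q) s) :
    HasDerivAt (fun s => fE (t s) (y s))
      (fEt (t s) (y s) * p + fEp (t s) (y s) * q) s := by
  refine ((hasDerivAt_fX hy).add (hasDerivAt_fw ht hy)).congr_deriv ?_
  simp only [fEt, fEp]
  ring

theorem hasDerivAt_fEt (ht : HasDerivAt t p s) (hy : HasDerivAt y (fX (y s) / fY (y s) * q) s) :
    HasDerivAt (fun s => fEt (t s) (y s))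
      (fEtt (t s) (y s) * p + fEtp (t s) (y s) * q) s := by
  refine ((hasDerivAt_fw ht hy).neg.div_const 50).congr_deriv ?_
  simp only [fEtt, fEtp]
  ring

theorem hasDerivAt_fEp (ht : HasDerivAt t p s) (hy : HasDerivAt y (fX (y s) / fY (y s) * q) s) :
    HasDerivAt (fun s => fEp (t s) (y s))
      (fEtp (t s) (y s) * p + fEpp (t s) (y s) * q) s := by
  have hY := (fY_pos (y s)).ne'
  have h1 := (((hasDerivAt_fw ht hy).const_mul 4).mul (hasDerivAt_fX hy)).div (hasDerivAt_fY hy) hY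
  refine ((hasDerivAt_fX hy).sub h1).congr_deriv ?_
  simp only [fEtp, fEpp, Pi.mul_apply, fX_eq]
  field_simp
  ring

/-- The function `φ = Y/X`. -/
theorem hasDerivAt_φ (hy : HasDerivAt y (fX (y s) / fY (y s) * q) s) :
    HasDerivAt (fun s => fY (y s) / fX (y s)) (q / fX (y s)) s := by
  have hX := (fX_pos (y s)).ne'
  refine ((hasDerivAt_fY hy).div (hasDerivAt_fX hy) hX).congr_deriv ?_
  rw [fX_eq] at *
  field_simp
  ring

end

/-- The derivative of a function along a line. -/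
theorem fderiv_line {f : R3 → ℝ} (hf : Differentiable ℝ f) (p v : R3) {r : ℝ}
    (h : HasDerivAt (fun s : ℝ => f (p + s • v)) r 0) : fderiv ℝ f p v = r := by
  have hl : HasDerivAt (fun s : ℝ => p + s • v) v 0 := by
    simpa using ((hasDerivAt_id (0 : ℝ)).smul_const v).const_add p
  have h1 : HasFDerivAt f (fderiv ℝ f p) (p + (0 : ℝ) • v) := by
    simpa using (hf p).hasFDerivAt
  exact (h1.comp_hasDerivAt (0 : ℝ) hl).unique h

theorem hasDerivAt_line (p v : R3) (i : Fin 3) :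
    HasDerivAt (fun s : ℝ => (p + s • v) i) (v i) 0 := by
  have : HasDerivAt (fun s : ℝ => p i + s * v i) (1 * v i) 0 :=
    ((hasDerivAt_id (0 : ℝ)).mul_const (v i)).const_add (p i)
  simpa using this

/-- `φ_y`. -/
theorem fderiv_co_zero (p v : R3) : fderiv ℝ (co 0) p v =
    fEt (p 0) (p 1) * v 0 + (fY (p 1) - 4 * fw (p 0) (p 1)) * v 1 := by
  refine fderiv_line ((contDiff_co 0).differentiable (by simp)) p v ?_
  refine (hasDerivAt_fE' (hasDerivAt_line p v 0) (hasDerivAt_line p v 1)).congr_deriv ?_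
  simp only [zero_smul, add_zero, fEt]
  ring

theorem fderiv_co_one (p v : R3) : fderiv ℝ (co 1) p v =
    (fEt (p 0) (p 1) * v 0 + (fY (p 1) - 4 * fw (p 0) (p 1)) * v 1) * (fY (p 1) / fX (p 1)) ^ 2 +
      2 * fE (p 0) (p 1) * fY (p 1) ^ 2 / fX (p 1) ^ 3 * v 1 := by
  refine fderiv_line ((contDiff_co 1).differentiable (by simp)) p v ?_
  have h0 := hasDerivAt_line p v 0
  have h1 := hasDerivAt_line p v 1
  have hX := (fX_pos (p 1)).ne'
  have h2 := (hasDerivAt_fE' h0 h1).mul (((hasDerivAt_fY' h1).div (hasDerivAt_fX' h1)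
    (by simpa using hX)).pow 2)
  refine h2.congr_deriv ?_
  simp only [zero_smul, add_zero, fEt, Pi.div_apply, Pi.pow_apply, Nat.cast_ofNat, Nat.reduceSub,
    pow_one, fX_eq] at hX ⊢
  field_simp
  ring

theorem fderiv_co_two (p v : R3) : fderiv ℝ (co 2) p v =
    (fEt (p 0) (p 1) * v 0 + (fY (p 1) - 4 * fw (p 0) (p 1)) * v 1 - fE (p 0) (p 1) * v 1) /
      fY (p 1) := by
  refine fderiv_line ((contDiff_co 2).differentiable (by simp)) p v ?_
  have h0 := hasDerivAt_line p v 0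
  have h1 := hasDerivAt_line p v 1
  have hY := (fY_pos (p 1)).ne'
  have h2 := (hasDerivAt_fE' h0 h1).div (hasDerivAt_fY' h1) (by simpa using hY)
  refine h2.congr_deriv ?_
  simp only [zero_smul, add_zero, fEt]
  field_simp
  ring

theorem gM_Dg (p u v w : R3) : gM.Dg p u v w =
    (fEt (p 0) (p 1) * u 0 + (fY (p 1) - 4 * fw (p 0) (p 1)) * u 1) * (v 0 * w 0) +
    ((fEt (p 0) (p 1) * u 0 + (fY (p 1) - 4 * fw (p 0) (p 1)) * u 1) * (fY (p 1) / fX (p 1)) ^ 2 +
      2 * fE (p 0) (p 1) * fY (p 1) ^ 2 / fX (p 1) ^ 3 * u 1) * (v 1 * w 1) +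
    (fEt (p 0) (p 1) * u 0 + (fY (p 1) - 4 * fw (p 0) (p 1)) * u 1 - fE (p 0) (p 1) * u 1) /
      fY (p 1) * (v 2 * w 2) := by
  rw [gM, RM.diag_Dg, Fin.sum_univ_three, fderiv_co_zero, fderiv_co_one, fderiv_co_two]

/-- The second derivative of `E`. -/
def ddE (p s u : R3) : ℝ :=
  fw (p 0) (p 1) / 2500 * (s 0 * u 0) + 4 * fw (p 0) (p 1) / 50 * (s 0 * u 1 + s 1 * u 0) +
    (fY (p 1) + 16 * fw (p 0) (p 1)) * (s 1 * u 1)

theorem hasDerivAt_dE (p s u : R3) :
    HasDerivAt (fun r : ℝ => fEt ((p + r • s) 0) ((p + r • s) 1) * u 0 +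
      (fY ((p + r • s) 1) - 4 * fw ((p + r • s) 0) ((p + r • s) 1)) * u 1) (ddE p s u) 0 := by
  have h0 := hasDerivAt_line p s 0
  have h1 := hasDerivAt_line p s 1
  have h2 := hasDerivAt_fw' h0 h1
  have h3 := ((h2.neg.div_const 50).mul_const (u 0)).add
    (((hasDerivAt_fY' h1).sub (h2.const_mul 4)).mul_const (u 1))
  refine h3.congr_deriv ?_
  simp only [zero_smul, add_zero, ddE]
  ring

theorem gM_D2g (p s u v w : R3) : gM.D2g p s u v w =
    ddE p s u * (v 0 * w 0) +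
    (ddE p s u * (fY (p 1) / fX (p 1)) ^ 2 +
      (fEt (p 0) (p 1) * u 0 + (fY (p 1) - 4 * fw (p 0) (p 1)) * u 1) *
        (2 * fY (p 1) ^ 2 / fX (p 1) ^ 3 * s 1) +
      (fEt (p 0) (p 1) * s 0 + (fY (p 1) - 4 * fw (p 0) (p 1)) * s 1) *
        (2 * fY (p 1) ^ 2 / fX (p 1) ^ 3 * u 1) +
      2 * fE (p 0) (p 1) * fY (p 1) ^ 2 * (2 - fY (p 1)) / fX (p 1) ^ 4 * (s 1 * u 1)) *
      (v 1 * w 1) +
    (ddE p s u - (fEt (p 0) (p 1) * u 0 + (fY (p 1) - 4 * fw (p 0) (p 1)) * u 1) * s 1 -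
      (fEt (p 0) (p 1) * s 0 + (fY (p 1) - 4 * fw (p 0) (p 1)) * s 1) * u 1 +
      fE (p 0) (p 1) * (s 1 * u 1)) / fY (p 1) * (v 2 * w 2) := by
  have hd : ∀ i, Differentiable ℝ (fun y => fderiv ℝ (co i) y u) := fun i =>
    (((contDiff_infty_iff_fderiv.1 (contDiff_co i)).2.clm_apply contDiff_const).differentiable
      (by simp))
  have h0 := hasDerivAt_line p s 0
  have h1 := hasDerivAt_line p s 1
  have hX := (fX_pos (p 1)).ne'
  have hY := (fY_pos (p 1)).ne'
  have hw := hasDerivAt_fw' h0 h1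
  have hE := hasDerivAt_fE' h0 h1
  have hfY := hasDerivAt_fY' h1
  have hfX := hasDerivAt_fX' h1
  have hdE := hasDerivAt_dE p s u
  have e0 : fderiv ℝ (fun y => fderiv ℝ (co 0) y u) p s = ddE p s u := by
    refine fderiv_line (hd 0) p s ?_
    simp only [fderiv_co_zero]
    exact hdE
  have e1 : fderiv ℝ (fun y => fderiv ℝ (co 1) y u) p s = ddE p s u * (fY (p 1) / fX (p 1)) ^ 2 +
      (fEt (p 0) (p 1) * u 0 + (fY (p 1) - 4 * fw (p 0) (p 1)) * u 1) *
        (2 * fY (p 1) ^ 2 / fX (p 1) ^ 3 * s 1) +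
      (fEt (p 0) (p 1) * s 0 + (fY (p 1) - 4 * fw (p 0) (p 1)) * s 1) *
        (2 * fY (p 1) ^ 2 / fX (p 1) ^ 3 * u 1) +
      2 * fE (p 0) (p 1) * fY (p 1) ^ 2 * (2 - fY (p 1)) / fX (p 1) ^ 4 * (s 1 * u 1) := by
    refine fderiv_line (hd 1) p s ?_
    simp only [fderiv_co_one]
    have h2 := (hdE.mul ((hfY.div hfX (by simpa using hX)).pow 2)).add
      ((((hE.const_mul 2).mul (hfY.pow 2)).div (hfX.pow 3)
        (by simpa using hX)).mul_const (u 1))
    refine h2.congr_deriv ?_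
    simp only [zero_smul, add_zero, fEt, Pi.div_apply, Pi.mul_apply, Pi.pow_apply,
      Nat.cast_ofNat, Nat.reduceSub, pow_one, fX_eq] at hX ⊢
    field_simp
    ring
  have e2 : fderiv ℝ (fun y => fderiv ℝ (co 2) y u) p s =
      (ddE p s u - (fEt (p 0) (p 1) * u 0 + (fY (p 1) - 4 * fw (p 0) (p 1)) * u 1) * s 1 -
      (fEt (p 0) (p 1) * s 0 + (fY (p 1) - 4 * fw (p 0) (p 1)) * s 1) * u 1 +
      fE (p 0) (p 1) * (s 1 * u 1)) / fY (p 1) := by
    refine fderiv_line (hd 2) p s ?_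
    simp only [fderiv_co_two]
    have h2 := (hdE.sub (hE.mul_const (u 1))).div hfY (by simpa using hY)
    refine h2.congr_deriv ?_
    simp only [zero_smul, add_zero, fEt, Pi.sub_apply]
    field_simp
    ring
  rw [gM, RM.diag_D2g, Fin.sum_univ_three, e0, e1, e2]

end

end Pool.Agent.Lib.MP_6b187a_gt.Div
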