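import Pool.Agent.Lib.MP_6b187a_gt.Div.GeoRed
import Pool.Agent.Lib.MP_6b187a_gt.Div.Field

/-!
# All geodesics of `gM` are defined for all times
-/

set_option autoImplicit false
set_option maxSynthPendingDepth 3

namespace Pool.Agent.Lib.MP_6b187a_gt.Div

/-- **The metric `gM` is geodesically complete.** -/
theorem gM_geodesicallyComplete : gM.GeodesicallyComplete := by
  intro p v hv
  have hE := fE_pos (p 0) (p 1)
  have hY := fY_pos (p 1)
  have hX := fX_pos (p 1)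
  rw [gM_g] at hv
  have hen : (fE (p 0) (p 1) * v 0) ^ 2 +
      (fE (p 0) (p 1) * (fY (p 1) / fX (p 1)) * v 1) ^ 2 +
      (fE (p 0) (p 1) / fY (p 1) * v 2) ^ 2 * fY (p 1) = fE (p 0) (p 1) := by
    have h1 : (fE (p 0) (p 1) * v 0) ^ 2 +
      (fE (p 0) (p 1) * (fY (p 1) / fX (p 1)) * v 1) ^ 2 +
      (fE (p 0) (p 1) / fY (p 1) * v 2) ^ 2 * fY (p 1) =
      fE (p 0) (p 1) * (fE (p 0) (p 1) * (v 0 * v 0) +
      fE (p 0) (p 1) * (fY (p 1) / fX (p 1)) ^ 2 * (v 1 * v 1) +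
      fE (p 0) (p 1) / fY (p 1) * (v 2 * v 2)) := by
      field_simp
    rw [h1, hv, mul_one]
  obtain ⟨t, y, x, a, b, horb, ht, hy, hx, ha, hb⟩ :=
    exists_orb (fE (p 0) (p 1) / fY (p 1) * v 2) (p 0) (p 1) (p 2)
      (fE (p 0) (p 1) * v 0) (fE (p 0) (p 1) * (fY (p 1) / fX (p 1)) * v 1) hen
  obtain ⟨hgeo, hd⟩ := isGeodesic_of_orb horb
  refine ⟨_, hgeo, ?_, ?_⟩
  · show pt (t 0) (y 0) (x 0) = p
    rw [ht, hy, hx, pt_eta]
  · rw [hd 0, ht, hy, ha, hb]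
    have h0 : fE (p 0) (p 1) * v 0 / fE (p 0) (p 1) = v 0 := by field_simp
    have h1 : fX (p 1) / fY (p 1) * (fE (p 0) (p 1) * (fY (p 1) / fX (p 1)) * v 1) /
        fE (p 0) (p 1) = v 1 := by field_simp
    have h2 : fE (p 0) (p 1) / fY (p 1) * v 2 * fY (p 1) / fE (p 0) (p 1) = v 2 := by
      field_simp
    rw [h0, h1, h2, pt_eta]

end Pool.Agent.Lib.MP_6b187a_gt.Div
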