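import Pool.Agent.Lib.MP_6b187a_gt.Div.Fun

/-!
# The geodesics of `gM` are the solutions of the system `Orb`
-/

set_option autoImplicit false
set_option maxSynthPendingDepth 3

namespace Pool.Agent.Lib.MP_6b187a_gt.Div

open Filter Set
open scoped ContDiff Topology

noncomputable section

/-- `a = E t'`. -/
def cA (γ : ℝ → R3) (s : ℝ) : ℝ := fE (γ s 0) (γ s 1) * deriv γ s 0

/-- `b = E (Y/X) y'`. -/
def cB (γ : ℝ → R3) (s : ℝ) : ℝ := fE (γ s 0) (γ s 1) * (fY (γ s 1) / fX (γ s 1)) * deriv γ s 1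

/-- `c = E x' / Y`. -/
def cC (γ : ℝ → R3) (s : ℝ) : ℝ := fE (γ s 0) (γ s 1) / fY (γ s 1) * deriv γ s 2

theorem hasDerivAt_comp {γ : ℝ → R3} {v : R3} {s : ℝ} (h : HasDerivAt γ v s) (i : Fin 3) :
    HasDerivAt (fun s => γ s i) (v i) s := by
  have h1 : HasFDerivAt (RM.pr i : R3 →L[ℝ] ℝ) (RM.pr i : R3 →L[ℝ] ℝ) (γ s) :=
    (RM.pr i : R3 →L[ℝ] ℝ).hasFDerivAt
  exact h1.comp_hasDerivAt s h

theorem hasDerivAt_of_comp {γ : ℝ → R3} {v : R3} {s : ℝ}
    (h : ∀ i : Fin 3, HasDerivAt (fun s => γ s i) (v i) s) : HasDerivAt γ v s := by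
  have hd : DifferentiableAt ℝ γ s := differentiableAt_euclidean.2 fun i => (h i).differentiableAt
  have h1 : deriv γ s = v := by
    ext i
    exact (hasDerivAt_comp hd.hasDerivAt i).unique (h i)
  rw [← h1]
  exact hd.hasDerivAt

/-- The algebra for the derivative of `b`. -/
theorem geo_alg {E Y X w θ p q r : ℝ} (hE : 0 < E) (hY : 0 < Y) (hX : X = 1 + Y)
    (hw : w = θ * Y) (hu : E * (p * p) + E * (Y / X) ^ 2 * (q * q) + E / Y * (r * r) = 1) :
    (((Y - 4 * w) * (p * p) + ((Y - 4 * w) * (Y / X) ^ 2 + 2 * E * Y ^ 2 / X ^ 3) * (q * q) +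
      ((Y - 4 * w) - E) / Y * (r * r)) / 2 * (Y / X) -
      E * (Y / X) ^ 2 * q * (Y / X * q / X)) / (Y / X) ^ 2 =
    X * (1 - (E / Y * r) ^ 2 - 4 * θ) / 2 / E := by
  have hX' : 0 < X := by rw [hX]; linarith
  have h1 : (((Y - 4 * w) * (p * p) + ((Y - 4 * w) * (Y / X) ^ 2 + 2 * E * Y ^ 2 / X ^ 3) * (q * q) +
      ((Y - 4 * w) - E) / Y * (r * r)) / 2 * (Y / X) -
      E * (Y / X) ^ 2 * q * (Y / X * q / X)) / (Y / X) ^ 2 -
    X * (1 - (E / Y * r) ^ 2 - 4 * θ) / 2 / E = (Y - 4 * w) * X / (2 * Y * E) *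
      ((E * (p * p) + E * (Y / X) ^ 2 * (q * q) + E / Y * (r * r)) - 1) := by
    rw [hw]
    field_simp
    ring
  rw [hu, sub_self, mul_zero] at h1
  linarith

theorem orb_of_isGeodesic {γ : ℝ → R3} (h : gM.IsGeodesic γ) :
    ∃ c : ℝ, (∀ s, cC γ s = c) ∧
      ∀ s, Orb c (fun s => γ s 0) (fun s => γ s 1) (fun s => γ s 2) (cA γ) (cB γ) s := by
  have hd : ∀ s, HasDerivAt γ (deriv γ s) s := RM.hasDerivAt_of_contDiff h.smooth
  have h0 : ∀ s, HasDerivAt (fun s => γ s 0) (deriv γ s 0) s := fun s => hasDerivAt_comp (hd s) 0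
  have h1 : ∀ s, HasDerivAt (fun s => γ s 1) (deriv γ s 1) s := fun s => hasDerivAt_comp (hd s) 1
  have h2 : ∀ s, HasDerivAt (fun s => γ s 2) (deriv γ s 2) s := fun s => hasDerivAt_comp (hd s) 2
  have hu : ∀ s, fE (γ s 0) (γ s 1) * (deriv γ s 0 * deriv γ s 0) +
      fE (γ s 0) (γ s 1) * (fY (γ s 1) / fX (γ s 1)) ^ 2 * (deriv γ s 1 * deriv γ s 1) +
      fE (γ s 0) (γ s 1) / fY (γ s 1) * (deriv γ s 2 * deriv γ s 2) = 1 := by
    intro s
    rw [← gM_g]
    exact h.unit s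
  have m0 : ∀ s, HasDerivAt (cA γ) (gM.Dg (γ s) (pt 1 0 0) (deriv γ s) (deriv γ s) / 2) s := by
    intro s
    have := RM.hasDerivAt_mom_of_geo h.smooth h.eq s (pt 1 0 0)
    refine this.congr_of_eventuallyEq (Eventually.of_forall fun r => ?_)
    simp only [gM_g, cA, pt_zero, pt_one, pt_two]
    ring
  have m2 : ∀ s, HasDerivAt (cC γ) 0 s := by
    intro s
    have := RM.hasDerivAt_mom_of_geo h.smooth h.eq s (pt 0 0 1)
    refine (this.congr_of_eventuallyEq (Eventually.of_forall fun r => ?_)).congr_deriv ?_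
    · simp only [gM_g, cC, pt_zero, pt_one, pt_two]
      ring
    · rw [gM_Dg]
      simp only [pt_zero, pt_one]
      ring
  have m1 : ∀ s, HasDerivAt (fun s => fE (γ s 0) (γ s 1) * (fY (γ s 1) / fX (γ s 1)) ^ 2 *
      deriv γ s 1) (gM.Dg (γ s) (pt 0 1 0) (deriv γ s) (deriv γ s) / 2) s := by
    intro s
    have := RM.hasDerivAt_mom_of_geo h.smooth h.eq s (pt 0 1 0)
    refine this.congr_of_eventuallyEq (Eventually.of_forall fun r => ?_)
    simp only [gM_g, pt_zero, pt_one, pt_two]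
    ring
  have hc : ∀ s, cC γ s = cC γ 0 := fun s =>
    is_const_of_deriv_eq_zero (fun s => (m2 s).differentiableAt) (fun s => (m2 s).deriv) s 0
  refine ⟨cC γ 0, hc, fun s => ?_⟩
  have hE := fE_pos (γ s 0) (γ s 1)
  have hY := fY_pos (γ s 1)
  have hX := fX_pos (γ s 1)
  have hq : HasDerivAt (fun s => γ s 1)
      (fX (γ s 1) / fY (γ s 1) * (fY (γ s 1) / fX (γ s 1) * deriv γ s 1)) s := by
    refine (h1 s).congr_deriv ?_
    field_simp
  constructor
  · refine (h0 s).congr_deriv ?_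
    simp only [cA]
    field_simp
  · refine (h1 s).congr_deriv ?_
    simp only [cB]
    field_simp
  · refine (h2 s).congr_deriv ?_
    rw [← hc s]
    simp only [cC]
    field_simp
  · refine (m0 s).congr_deriv ?_
    rw [gM_Dg]
    simp only [pt_zero, pt_one, fEt]
    have h3 := hu s
    have h4 : (-fw (γ s 0) (γ s 1) / 50 * 1 + (fY (γ s 1) - 4 * fw (γ s 0) (γ s 1)) * 0) *
          (deriv γ s 0 * deriv γ s 0) +
        ((-fw (γ s 0) (γ s 1) / 50 * 1 + (fY (γ s 1) - 4 * fw (γ s 0) (γ s 1)) * 0) *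
          (fY (γ s 1) / fX (γ s 1)) ^ 2 +
          2 * fE (γ s 0) (γ s 1) * fY (γ s 1) ^ 2 / fX (γ s 1) ^ 3 * 0) *
          (deriv γ s 1 * deriv γ s 1) +
        (-fw (γ s 0) (γ s 1) / 50 * 1 + (fY (γ s 1) - 4 * fw (γ s 0) (γ s 1)) * 0 -
          fE (γ s 0) (γ s 1) * 0) / fY (γ s 1) * (deriv γ s 2 * deriv γ s 2) =
        -fw (γ s 0) (γ s 1) / 50 / fE (γ s 0) (γ s 1) *
          (fE (γ s 0) (γ s 1) * (deriv γ s 0 * deriv γ s 0) +
      fE (γ s 0) (γ s 1) * (fY (γ s 1) / fX (γ s 1)) ^ 2 * (deriv γ s 1 * deriv γ s 1) +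
      fE (γ s 0) (γ s 1) / fY (γ s 1) * (deriv γ s 2 * deriv γ s 2)) := by
      field_simp
      ring
    rw [h4, h3]
    ring
  · have hφ := hasDerivAt_φ hq
    have hφ0 : fY (γ s 1) / fX (γ s 1) ≠ 0 := (div_pos hY hX).ne'
    have h3 := (m1 s).div hφ hφ0
    have h4 : cB γ = (fun s => fE (γ s 0) (γ s 1) * (fY (γ s 1) / fX (γ s 1)) ^ 2 *
        deriv γ s 1) / fun s => fY (γ s 1) / fX (γ s 1) := by
      funext r
      have h5 : fY (γ r 1) / fX (γ r 1) ≠ 0 := (div_pos (fY_pos _) (fX_pos _)).ne'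
      simp only [cB, Pi.div_apply]
      rw [eq_div_iff h5]
      ring
    rw [h4]
    refine h3.congr_deriv ?_
    rw [gM_Dg, ← hc s]
    simp only [pt_zero, pt_one, cC]
    have h6 := geo_alg hE hY (fX_eq (γ s 1)) (fw_eq (γ s 0) (γ s 1)) (hu s)
    rw [← h6]
    ring
  · have h3 := hu s
    rw [← hc s]
    simp only [cA, cB, cC]
    have h4 : (fE (γ s 0) (γ s 1) * deriv γ s 0) ^ 2 +
        (fE (γ s 0) (γ s 1) * (fY (γ s 1) / fX (γ s 1)) * deriv γ s 1) ^ 2 +
        (fE (γ s 0) (γ s 1) / fY (γ s 1) * deriv γ s 2) ^ 2 * fY (γ s 1) =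
        fE (γ s 0) (γ s 1) * (fE (γ s 0) (γ s 1) * (deriv γ s 0 * deriv γ s 0) +
      fE (γ s 0) (γ s 1) * (fY (γ s 1) / fX (γ s 1)) ^ 2 * (deriv γ s 1 * deriv γ s 1) +
      fE (γ s 0) (γ s 1) / fY (γ s 1) * (deriv γ s 2 * deriv γ s 2)) := by
      field_simp
    rw [h4, h3, mul_one]

theorem contDiff_two_of_hasDerivAt {f f' : ℝ → ℝ} (h : ∀ s, HasDerivAt f (f' s) s)
    (h' : ContDiff ℝ 1 f') : ContDiff ℝ 2 f := by
  have h1 : deriv f = f' := funext fun s => (h s).deriv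
  have h2 : ContDiff ℝ (1 + 1) f := by
    rw [contDiff_succ_iff_deriv]
    refine ⟨fun s => (h s).differentiableAt, by simp, ?_⟩
    rw [h1]
    exact h'
  simpa [one_add_one_eq_two] using h2

theorem contDiff_one_of_hasDerivAt {f f' : ℝ → ℝ} (h : ∀ s, HasDerivAt f (f' s) s)
    (h' : Continuous f') : ContDiff ℝ 1 f := by
  have h1 : deriv f = f' := funext fun s => (h s).deriv
  rw [contDiff_one_iff_deriv]
  refine ⟨fun s => (h s).differentiableAt, ?_⟩
  rw [h1]
  exact h'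

/-- The functions of a solution of `Orb` are of class `C¹`, `t`, `y`, `x` of class `C²`. -/
theorem contDiff_of_orb {c : ℝ} {t y x a b : ℝ → ℝ} (h : ∀ s, Orb c t y x a b s) :
    ContDiff ℝ 2 t ∧ ContDiff ℝ 2 y ∧ ContDiff ℝ 2 x ∧ ContDiff ℝ 1 a ∧ ContDiff ℝ 1 b := by
  have ct : Continuous t := continuous_iff_continuousAt.2 fun s => (h s).ht.continuousAt
  have cy : Continuous y := continuous_iff_continuousAt.2 fun s => (h s).hy.continuousAt
  have ca : Continuous a := continuous_iff_continuousAt.2 fun s => (h s).ha.continuousAt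
  have cb : Continuous b := continuous_iff_continuousAt.2 fun s => (h s).hb.continuousAt
  have cE : Continuous fun s => fE (t s) (y s) := by
    unfold fE
    fun_prop
  have cY : Continuous fun s => fY (y s) := by
    unfold fY
    fun_prop
  have cX : Continuous fun s => fX (y s) := by
    unfold fX
    fun_prop
  have cw : Continuous fun s => fw (t s) (y s) := by
    unfold fw
    fun_prop
  have cθ : Continuous fun s => fθ (t s) (y s) := by
    unfold fθ
    fun_prop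
  have t1 : ContDiff ℝ 1 t := contDiff_one_of_hasDerivAt (fun s => (h s).ht)
    (ca.div cE fun s => (fE_pos _ _).ne')
  have y1 : ContDiff ℝ 1 y := contDiff_one_of_hasDerivAt (fun s => (h s).hy)
    (((cX.div cY fun s => (fY_pos _).ne').mul cb).div cE fun s => (fE_pos _ _).ne')
  have a1 : ContDiff ℝ 1 a := contDiff_one_of_hasDerivAt (fun s => (h s).ha)
    ((cw.div_const 100).neg.div cE fun s => (fE_pos _ _).ne')
  have b1 : ContDiff ℝ 1 b := contDiff_one_of_hasDerivAt (fun s => (h s).hb)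
    (((cX.mul (continuous_const.sub (continuous_const.mul cθ))).div_const 2).div cE
      fun s => (fE_pos _ _).ne')
  have eE : ContDiff ℝ 1 fun s => fE (t s) (y s) :=
    (contDiff_const.add y1.exp).add ((t1.neg.div_const 50).sub (contDiff_const.mul y1)).exp
  have eY : ContDiff ℝ 1 fun s => fY (y s) := y1.exp
  have eX : ContDiff ℝ 1 fun s => fX (y s) := contDiff_const.add y1.exp
  refine ⟨?_, ?_, ?_, a1, b1⟩
  · exact contDiff_two_of_hasDerivAt (fun s => (h s).ht) (a1.div eE fun s => (fE_pos _ _).ne')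
  · exact contDiff_two_of_hasDerivAt (fun s => (h s).hy)
      (((eX.div eY fun s => (fY_pos _).ne').mul b1).div eE fun s => (fE_pos _ _).ne')
  · exact contDiff_two_of_hasDerivAt (fun s => (h s).hx)
      ((contDiff_const.mul eY).div eE fun s => (fE_pos _ _).ne')

/-- The algebra for the converse. -/
theorem geo_alg2 {E Y X w θ a b c : ℝ} (hE : 0 < E) (hY : 0 < Y) (hX : X = 1 + Y)
    (hw : w = θ * Y) (hu : a ^ 2 + b ^ 2 + c ^ 2 * Y = E) :
    b / E / X * b + Y / X * (X * (1 - c ^ 2 - 4 * θ) / 2 / E) =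
    ((Y - 4 * w) * (a / E * (a / E)) + ((Y - 4 * w) * (Y / X) ^ 2 + 2 * E * Y ^ 2 / X ^ 3) *
      (X / Y * b / E * (X / Y * b / E)) +
      ((Y - 4 * w) - E) / Y * (c * Y / E * (c * Y / E))) / 2 := by
  have hX' : 0 < X := by rw [hX]; linarith
  have h1 : (b / E / X * b + Y / X * (X * (1 - c ^ 2 - 4 * θ) / 2 / E)) -
    ((Y - 4 * w) * (a / E * (a / E)) + ((Y - 4 * w) * (Y / X) ^ 2 + 2 * E * Y ^ 2 / X ^ 3) *
      (X / Y * b / E * (X / Y * b / E)) +
      ((Y - 4 * w) - E) / Y * (c * Y / E * (c * Y / E))) / 2 =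
    (Y - 4 * w) / (2 * E ^ 2) * (E - (a ^ 2 + b ^ 2 + c ^ 2 * Y)) := by
    rw [hw]
    field_simp
    ring
  rw [hu, sub_self, mul_zero] at h1
  linarith

/-- A solution of `Orb` on the whole line is a geodesic. -/
theorem isGeodesic_of_orb {c : ℝ} {t y x a b : ℝ → ℝ} (h : ∀ s, Orb c t y x a b s) :
    gM.IsGeodesic (fun s => pt (t s) (y s) (x s)) ∧
      ∀ s, deriv (fun s => pt (t s) (y s) (x s)) s = pt (a s / fE (t s) (y s))
        (fX (y s) / fY (y s) * b s / fE (t s) (y s)) (c * fY (y s) / fE (t s) (y s)) := by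
  obtain ⟨t2, y2, x2, -, -⟩ := contDiff_of_orb h
  have hsm : ContDiff ℝ 2 (fun s => pt (t s) (y s) (x s)) := by
    rw [contDiff_euclidean]
    intro i
    fin_cases i
    · exact t2
    · exact y2
    · exact x2
  have hd : ∀ s, HasDerivAt (fun s => pt (t s) (y s) (x s)) (pt (a s / fE (t s) (y s))
        (fX (y s) / fY (y s) * b s / fE (t s) (y s)) (c * fY (y s) / fE (t s) (y s))) s := by
    intro s
    refine hasDerivAt_of_comp fun i => ?_
    fin_cases i
    · exact (h s).ht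
    · exact (h s).hy
    · exact (h s).hx
  have hd' := fun s => (hd s).deriv
  refine ⟨⟨hsm, fun s => ?_, fun s v => ?_⟩, hd'⟩
  · rw [hd', gM_g]
    simp only [pt_zero, pt_one, pt_two]
    have hE := fE_pos (t s) (y s)
    have hY := fY_pos (y s)
    have hX := fX_pos (y s)
    have h1 := (h s).en
    have h2 : fE (t s) (y s) * (a s / fE (t s) (y s) * (a s / fE (t s) (y s))) +
      fE (t s) (y s) * (fY (y s) / fX (y s)) ^ 2 *
        (fX (y s) / fY (y s) * b s / fE (t s) (y s) *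
          (fX (y s) / fY (y s) * b s / fE (t s) (y s))) +
      fE (t s) (y s) / fY (y s) * (c * fY (y s) / fE (t s) (y s) *
        (c * fY (y s) / fE (t s) (y s))) =
      (a s ^ 2 + b s ^ 2 + c ^ 2 * fY (y s)) / fE (t s) (y s) := by
      field_simp
    rw [h2, h1, div_self hE.ne']
  · refine RM.geo_of_hasDerivAt_mom hsm s v ?_
    have hE := fE_pos (t s) (y s)
    have hY := fY_pos (y s)
    have hX := fX_pos (y s)
    have hq : HasDerivAt y (fX (y s) / fY (y s) * (b s / fE (t s) (y s))) s := by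
      refine (h s).hy.congr_deriv ?_
      ring
    have hφ := hasDerivAt_φ hq
    have h1 : HasDerivAt (fun s => a s * v 0 + fY (y s) / fX (y s) * b s * v 1 + c * v 2)
        (-(fw (t s) (y s) / 100) / fE (t s) (y s) * v 0 +
          (b s / fE (t s) (y s) / fX (y s) * b s + fY (y s) / fX (y s) *
            (fX (y s) * (1 - c ^ 2 - 4 * fθ (t s) (y s)) / 2 / fE (t s) (y s))) * v 1) s :=
      (((h s).ha.mul_const (v 0)).add ((hφ.mul (h s).hb).mul_const (v 1))).add_const (c * v 2)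
    refine (h1.congr_of_eventuallyEq (Eventually.of_forall fun r => ?_)).congr_deriv ?_
    · have hE := fE_pos (t r) (y r)
      have hY := fY_pos (y r)
      have hX := fX_pos (y r)
      show gM.g (pt (t r) (y r) (x r)) (deriv (fun s => pt (t s) (y s) (x s)) r) v = _
      rw [hd', gM_g]
      simp only [pt_zero, pt_one, pt_two]
      field_simp
    · rw [hd', gM_Dg]
      simp only [pt_zero, pt_one, pt_two, fEt]
      rw [geo_alg2 hE hY (fX_eq (y s)) (fw_eq (t s) (y s)) (h s).en]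
      have h2 : -(fw (t s) (y s) / 100) / fE (t s) (y s) = -fw (t s) (y s) / 100 *
        (a s ^ 2 + b s ^ 2 + c ^ 2 * fY (y s)) / fE (t s) (y s) ^ 2 := by
        rw [(h s).en]
        field_simp
      rw [h2]
      field_simp
      ring

end

end Pool.Agent.Lib.MP_6b187a_gt.Div
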