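import Pool.Agent.Lib.MP_6b187a_gt.Div.Sys

/-!
# The monotone quantity for `|c| ≥ 1`, second case
-/

set_option autoImplicit false

namespace Pool.Agent.Lib.MP_6b187a_gt.Div

noncomputable section

section

variable (c dc : ℝ) (E Et Ep G Gp a b τ u ξ A B : ℝ → ℝ)

/-- `D = (a E_t + b E_ψ) / E`. -/
def mD (s : ℝ) : ℝ := (a s * Et s + b s * Ep s) / E s

/-- `S = e π / E - (τ² + u² + ξ² / G) D / 2 + (Gp / G²) b ξ² / 2 - (Gp / G) c u ξ`. -/
def mS (s : ℝ) : ℝ :=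
  (Et s * τ s + Ep s * u s) * (a s * τ s + b s * u s + c * ξ s) / E s -
    (τ s ^ 2 + u s ^ 2 + ξ s ^ 2 / G s) * mD E Et Ep a b s / 2 +
    Gp s / G s ^ 2 * b s * ξ s ^ 2 / 2 - Gp s / G s * c * u s * ξ s

/-- The monotone quantity for `|c| ≥ 1`, second case. -/
def psiM (s : ℝ) : ℝ :=
  τ s * A s + u s * B s + ξ s * dc - mS c E Et Ep G Gp a b τ u ξ s

/-- `r_t`. -/
def mRt (s : ℝ) : ℝ :=
  A s - ((Et s * τ s + Ep s * u s) * a s + Et s * (a s * τ s + b s * u s + c * ξ s)) / (2 * E s) +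
    τ s * mD E Et Ep a b s / 2

/-- `r_ψ`. -/
def mRp (s : ℝ) : ℝ :=
  B s - ((Et s * τ s + Ep s * u s) * b s + Ep s * (a s * τ s + b s * u s + c * ξ s)) / (2 * E s) +
    u s * mD E Et Ep a b s / 2 + Gp s / G s * c * ξ s / 2

/-- The coefficient `G (Q_tt - Q_t² / Q + E_ψ Q_ψ / (2 E))`, `Q = E / G`, as a function of the jets
of `E` and `G`. -/
def mTT (E Et Ep Ett G Gp : ℝ) : ℝ := Ett - Et ^ 2 / E + Ep ^ 2 / (2 * E) - Ep * Gp / (2 * G)

/-- The coefficient `G (Q_tψ - 3 Q_t Q_ψ / (2 Q) - G' Q_t / (2 G))`. -/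
def mTP (E Et Ep Etp : ℝ) : ℝ := Etp - 3 / 2 * Et * Ep / E

/-- The coefficient `G (Q_ψψ - Q_ψ² / Q - G' Q_ψ / (2 G) + Q_t² / (2 Q))`. -/
def mPP (E Et Ep Epp G Gp Gpp : ℝ) : ℝ :=
  Epp - Ep ^ 2 / E + Et ^ 2 / (2 * E) - Ep * Gp / (2 * G) - E * Gpp / G +
    3 / 2 * E * Gp ^ 2 / G ^ 2

/-- `r_x`. -/
def mRx (s : ℝ) : ℝ :=
  dc - (Et s * τ s + Ep s * u s) * c / (2 * E s) + ξ s / G s * mD E Et Ep a b s / 2 -
    Gp s / G s ^ 2 * b s * ξ s / 2 + Gp s / G s * c * u s / 2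

end

variable {c dc k : ℝ} {E Et Ep G Gp a b τ u ξ A B : ℝ → ℝ} {Ett Etp Epp Gpp : ℝ} {s : ℝ}

theorem Lin.mD_deriv (h : Lin c dc k E Et Ep G Gp a b τ u ξ A B Ett Etp Epp Gpp s) :
    HasDerivAt (mD E Et Ep a b)
      (((Et s ^ 2 / 2 + (Ep s - c ^ 2 * Gp s) / 2 * Ep s + a s ^ 2 * Ett + 2 * a s * b s * Etp +
        b s ^ 2 * Epp) / E s - mD E Et Ep a b s ^ 2) / E s) s := by
  have hE := h.Epos.ne'
  have := ((h.ha.mul h.hEt).add (h.hb.mul h.hEp)).div h.hE hE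
  refine this.congr_deriv ?_
  simp only [Pi.mul_apply, Pi.add_apply, mD]
  field_simp
  ring

theorem Lin.mS_deriv (h : Lin c dc k E Et Ep G Gp a b τ u ξ A B Ett Etp Epp Gpp s) :
    HasDerivAt (mS c E Et Ep G Gp a b τ u ξ)
      ((((Ett * a s + Etp * b s) * τ s + (Etp * a s + Epp * b s) * u s) *
          (a s * τ s + b s * u s + c * ξ s) / E s +
        (Et s * A s + Ep s * B s + k * E s * mD E Et Ep a b s) *
          (a s * τ s + b s * u s + c * ξ s) / E s +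
        (Et s * τ s + Ep s * u s) *
          (Et s * τ s / 2 + (Ep s - c ^ 2 * Gp s) / 2 * u s + a s * A s + b s * B s +
            c * (G s * dc + c * Gp s * u s) + k * (a s ^ 2 + b s ^ 2 + c ^ 2 * G s)) / E s -
        (Et s * τ s + Ep s * u s) * (a s * τ s + b s * u s + c * ξ s) * mD E Et Ep a b s / E s -
        (τ s * A s + u s * B s + ξ s * dc + c * Gp s / G s * u s * ξ s +
          k * (a s * τ s + b s * u s + c * ξ s) - ξ s ^ 2 * Gp s * b s / (2 * G s ^ 2)) *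
            mD E Et Ep a b s -
        (τ s ^ 2 + u s ^ 2 + ξ s ^ 2 / G s) * ((Et s ^ 2 / 2 + (Ep s - c ^ 2 * Gp s) / 2 * Ep s +
          a s ^ 2 * Ett + 2 * a s * b s * Etp + b s ^ 2 * Epp) / E s -
            mD E Et Ep a b s ^ 2) / 2 +
        (Gpp / G s ^ 2 - 2 * Gp s ^ 2 / G s ^ 3) * b s ^ 2 * ξ s ^ 2 / 2 +
        Gp s / G s ^ 2 * ((Ep s - c ^ 2 * Gp s) / 2) * ξ s ^ 2 / 2 +
        Gp s / G s ^ 2 * b s * ξ s * (G s * dc + c * Gp s * u s + k * (c * G s)) -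
        (Gpp / G s - Gp s ^ 2 / G s ^ 2) * b s * c * u s * ξ s -
        Gp s / G s * c * (B s + k * b s) * ξ s -
        Gp s / G s * c * u s * (G s * dc + c * Gp s * u s + k * (c * G s))) / E s) s := by
  have hE := h.Epos.ne'
  have hG := h.Gpos.ne'
  have hG2 : G s ^ 2 ≠ 0 := pow_ne_zero 2 hG
  have h1 := ((((h.hEt.mul h.hτ).add (h.hEp.mul h.hu)).mul
    (((h.ha.mul h.hτ).add (h.hb.mul h.hu)).add (h.hξ.const_mul c))).div h.hE hE)
  have h2 := ((((h.hτ.pow 2).add (h.hu.pow 2)).add ((h.hξ.pow 2).div h.hG hG)).mul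
    h.mD_deriv).div_const 2
  have h3 := ((((h.hGp.div (h.hG.pow 2) hG2).mul h.hb).mul (h.hξ.pow 2)).div_const 2)
  have h4 := ((((h.hGp.div h.hG hG).mul_const c).mul h.hu).mul h.hξ)
  have := ((h1.sub h2).add h3).sub h4
  refine this.congr_deriv ?_
  simp only [Pi.mul_apply, Pi.add_apply, Pi.div_apply, Pi.pow_apply, mD]
  field_simp
  norm_num
  ring

/-- The derivative of the monotone quantity for `|c| ≥ 1`, second case. -/
theorem Lin.psiM_deriv (h : Lin c dc k E Et Ep G Gp a b τ u ξ A B Ett Etp Epp Gpp s) :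
    HasDerivAt (psiM c dc E Et Ep G Gp a b τ u ξ A B)
      ((mRt c E Et Ep a b τ u ξ A s ^ 2 + mRp c E Et Ep G Gp a b τ u ξ B s ^ 2 +
        G s * mRx c dc E Et Ep G Gp a b τ u ξ s ^ 2 +
        (E s * (Ett + Epp) - Et s ^ 2 - Ep s ^ 2) / (2 * E s ^ 2) *
          (a s * u s - b s * τ s) ^ 2 +
        (mTT (E s) (Et s) (Ep s) Ett (G s) (Gp s) * (a s * ξ s - c * G s * τ s) ^ 2 +
          2 * mTP (E s) (Et s) (Ep s) Etp * ((a s * ξ s - c * G s * τ s) *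
            (b s * ξ s - c * G s * u s)) +
          mPP (E s) (Et s) (Ep s) Epp (G s) (Gp s) Gpp * (b s * ξ s - c * G s * u s) ^ 2) /
            (2 * E s * G s)) / E s) s := by
  have hE := h.Epos.ne'
  have hG := h.Gpos.ne'
  have := (((h.hτ.mul h.hA).add (h.hu.mul h.hB)).add (h.hξ.mul_const dc)).sub h.mS_deriv
  refine this.congr_deriv ?_
  have hz := h.cons
  have hen : a s ^ 2 + b s ^ 2 + c ^ 2 * G s - E s = 0 := sub_eq_zero.2 h.en
  rw [← sub_eq_zero]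
  have hz' : (k * (a s * A s + b s * B s + c * dc * G s + c ^ 2 * Gp s * u s / 2 -
      (Et s * τ s + Ep s * u s) / 2) + (a s ^ 2 + b s ^ 2 + c ^ 2 * G s - E s) *
    (1 / 4 * ξ s ^ 2 * Ep s * Gp s / (E s * G s ^ 2) +
    (-1 / 4) * ξ s ^ 2 * Ep s ^ 2 / (E s ^ 2 * G s) +
    (-1 / 4) * ξ s ^ 2 * Et s ^ 2 / (E s ^ 2 * G s) +
    (-1 / 2) * u s ^ 2 * Epp / (E s) +
    (1 / 4) * u s ^ 2 * Ep s ^ 2 / (E s ^ 2) +
    (-1 / 4) * u s ^ 2 * Et s ^ 2 / (E s ^ 2) +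
    (-1) * τ s * u s * Etp / (E s) +
    τ s * u s * Et s * Ep s / (E s ^ 2) +
    (-1 / 2) * τ s ^ 2 * Ett / (E s) +
    (-1 / 4) * τ s ^ 2 * Ep s ^ 2 / (E s ^ 2) +
    (1 / 4) * τ s ^ 2 * Et s ^ 2 / (E s ^ 2) +
    (-1) * k * u s * Ep s / (E s) +
    (-1) * k * τ s * Et s / (E s))) / E s = 0 := by
    rw [hz, hen, mul_zero, zero_mul, add_zero, zero_div]
  rw [← hz']
  simp only [mRt, mRp, mRx, mD, mTT, mTP, mPP]
  field_simp
  ring

end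

end Pool.Agent.Lib.MP_6b187a_gt.Div
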