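import Pool.Agent.Lib.MP_6b187a_gt.Div.Sys

/-!
# The monotone quantity for `|c| ≥ 1`, first case
-/

set_option autoImplicit false

namespace Pool.Agent.Lib.MP_6b187a_gt.Div

noncomputable section

section

variable (c dc : ℝ) (Et Ep G Gp a b τ u ξ A B : ℝ → ℝ)

/-- `Λ = b² + c² G = E - a²`. -/
def pL (s : ℝ) : ℝ := b s ^ 2 + c ^ 2 * G s

/-- The component `m = b ξ - c G u`. -/
def pM (s : ℝ) : ℝ := b s * ξ s - c * G s * u s

/-- `q = E m'`. -/
def pQ (s : ℝ) : ℝ := (Ep s - c ^ 2 * Gp s) / 2 * ξ s + b s * G s * dc - c * G s * B s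

/-- `l = (b u + c ξ) / Λ`. -/
def pl (s : ℝ) : ℝ := (b s * u s + c * ξ s) / pL c G b s

/-- `N = a l - τ`. -/
def pN (s : ℝ) : ℝ := a s * pl c G b u ξ s - τ s

/-- The momentum of `N`. -/
def pP (s : ℝ) : ℝ := Et s / 2 * pl c G b u ξ s - A s

/-- `r = q - (Gp / G) b m / 2`. -/
def pR (s : ℝ) : ℝ :=
  pQ c dc Ep G Gp b ξ B s - Gp s / G s * b s * pM c G b u ξ s / 2

/-- The monotone quantity for `|c| ≥ 1`, first case. -/
def psiP (s : ℝ) : ℝ :=
  pN c G a b τ u ξ s * pP c Et G b u ξ A s +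
    pM c G b u ξ s * pR c dc Ep G Gp b u ξ B s / (pL c G b s * G s)

end

variable {c dc k : ℝ} {E Et Ep G Gp a b τ u ξ A B : ℝ → ℝ} {Ett Etp Epp Gpp : ℝ} {s : ℝ}

theorem Lin.pL_deriv (h : Lin c dc k E Et Ep G Gp a b τ u ξ A B Ett Etp Epp Gpp s) :
    HasDerivAt (pL c G b) (Ep s * b s / E s) s := by
  have hE := h.Epos.ne'
  have := (h.hb.pow 2).add (h.hG.const_mul (c ^ 2))
  refine this.congr_deriv ?_
  field_simp
  norm_num
  ring

theorem Lin.pM_deriv (h : Lin c dc k E Et Ep G Gp a b τ u ξ A B Ett Etp Epp Gpp s) :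
    HasDerivAt (pM c G b u ξ) (pQ c dc Ep G Gp b ξ B s / E s) s := by
  have hE := h.Epos.ne'
  have := (h.hb.mul h.hξ).sub ((h.hG.const_mul c).mul h.hu)
  refine this.congr_deriv ?_
  simp only [pQ]
  field_simp
  ring

theorem Lin.pQ_deriv (h : Lin c dc k E Et Ep G Gp a b τ u ξ A B Ett Etp Epp Gpp s) :
    HasDerivAt (pQ c dc Ep G Gp b ξ B)
      (((Epp - c ^ 2 * Gpp) / 2 * pM c G b u ξ s + Etp / 2 * (a s * ξ s - c * G s * τ s) +
        (Ep s - c ^ 2 * Gp s) * G s * dc + pL c G b s * Gp s * dc +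
        c * ((Ep s - c ^ 2 * Gp s) / 2) * Gp s * u s - c * b s * Gp s * B s) / E s) s := by
  have hE := h.Epos.ne'
  have := ((((h.hEp.sub (h.hGp.const_mul (c ^ 2))).div_const 2).mul h.hξ).add
    ((h.hb.mul h.hG).mul_const dc)).sub ((h.hG.const_mul c).mul h.hB)
  refine this.congr_deriv ?_
  simp only [Pi.sub_apply, pM, pL]
  field_simp
  ring

/-- The derivative of `l`. -/
theorem Lin.pl_deriv (h : Lin c dc k E Et Ep G Gp a b τ u ξ A B Ett Etp Epp Gpp s)
    (hL : pL c G b s ≠ 0) :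
    HasDerivAt (pl c G b u ξ)
      ((k + (-(c * Ep s * pM c G b u ξ s / pL c G b s) - a s * A s + Et s / 2 * τ s) /
        pL c G b s) / E s) s := by
  have hE := h.Epos.ne'
  have := ((h.hb.mul h.hu).add (h.hξ.const_mul c)).div h.pL_deriv hL
  refine this.congr_deriv ?_
  simp only [Pi.mul_apply, Pi.add_apply]
  have hL' : b s ^ 2 + c ^ 2 * G s ≠ 0 := hL
  simp only [pL, pM]
  field_simp
  linear_combination (2 * (b s ^ 2 + c ^ 2 * G s)) * h.cons

/-- The derivative of `N`. -/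
theorem Lin.pN_deriv (h : Lin c dc k E Et Ep G Gp a b τ u ξ A B Ett Etp Epp Gpp s)
    (hL : pL c G b s ≠ 0) :
    HasDerivAt (pN c G a b τ u ξ)
      ((E s / pL c G b s * pP c Et G b u ξ A s - a s / pL c G b s *
        (c * Ep s * pM c G b u ξ s / pL c G b s + Et s / 2 * pN c G a b τ u ξ s)) / E s) s := by
  have hE := h.Epos.ne'
  have := (h.ha.mul (h.pl_deriv hL)).sub h.hτ
  refine this.congr_deriv ?_
  have hen : E s = a s ^ 2 + pL c G b s := by rw [← h.en, pL]; ring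
  simp only [pN, pP]
  generalize pl c G b u ξ s = l at *
  generalize pM c G b u ξ s = m at *
  generalize pL c G b s = L at *
  rw [hen] at hE ⊢
  field_simp
  ring

/-- The derivative of `P`. -/
theorem Lin.pP_deriv (h : Lin c dc k E Et Ep G Gp a b τ u ξ A B Ett Etp Epp Gpp s)
    (hL : pL c G b s ≠ 0) :
    HasDerivAt (pP c Et G b u ξ A)
      ((Ett / 2 * pN c G a b τ u ξ s + c * Etp * pM c G b u ξ s / (2 * pL c G b s) +
        Et s / (2 * pL c G b s) * (-(c * Ep s * pM c G b u ξ s / pL c G b s) +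
          a s * pP c Et G b u ξ A s - Et s / 2 * pN c G a b τ u ξ s)) / E s) s := by
  have hE := h.Epos.ne'
  have := ((h.hEt.div_const 2).mul (h.pl_deriv hL)).sub h.hA
  refine this.congr_deriv ?_
  have hu : u s = b s * pl c G b u ξ s - c * pM c G b u ξ s / pL c G b s := by
    have hL' : b s ^ 2 + c ^ 2 * G s ≠ 0 := hL
    simp only [pl, pM, pL]
    field_simp
    ring
  simp only [pN, pP]
  rw [hu]
  generalize pl c G b u ξ s = l at *
  generalize pM c G b u ξ s = m at *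
  generalize pL c G b s = L at *
  field_simp
  ring

/-- The derivative of `r`. -/
theorem Lin.pR_deriv (h : Lin c dc k E Et Ep G Gp a b τ u ξ A B Ett Etp Epp Gpp s)
    (hL : pL c G b s ≠ 0) :
    HasDerivAt (pR c dc Ep G Gp b u ξ B)
      ((b s * pR c dc Ep G Gp b u ξ B s * (Ep s / pL c G b s + Gp s / (2 * G s)) +
        a s * c * G s * Ep s / pL c G b s * pP c Et G b u ξ A s +
        c * G s * Etp / 2 * pN c G a b τ u ξ s -
        c * G s * Et s * Ep s / (2 * pL c G b s) * pN c G a b τ u ξ s +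
        (((Epp - Ep s ^ 2 / pL c G b s - Gp s / G s * Ep s / 2 +
          pL c G b s * (3 / 2 * (Gp s / G s) ^ 2 - Gpp / G s)) / 2) +
          a s * b s * Etp / (2 * pL c G b s)) * pM c G b u ξ s) / E s) s := by
  have hE := h.Epos.ne'
  have hG := h.Gpos.ne'
  have := h.pQ_deriv.sub (((((h.hGp.div h.hG hG).mul h.hb).mul h.pM_deriv)).div_const 2)
  refine this.congr_deriv ?_
  simp only [Pi.mul_apply, Pi.div_apply]
  have hL' : b s ^ 2 + c ^ 2 * G s ≠ 0 := hL
  have hz := h.cons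
  rw [← sub_eq_zero]
  have hz' : (c * G s * Ep s / (b s ^ 2 + c ^ 2 * G s) / E s) *
    (a s * A s + b s * B s + c * dc * G s + c ^ 2 * Gp s * u s / 2 -
      (Et s * τ s + Ep s * u s) / 2) = 0 := by rw [hz, mul_zero]
  rw [← hz']
  simp only [pR, pP, pN, pl, pQ, pL, pM]
  field_simp
  ring

/-- The derivative of the monotone quantity for `|c| ≥ 1`, first case. -/
theorem Lin.psiP_deriv (h : Lin c dc k E Et Ep G Gp a b τ u ξ A B Ett Etp Epp Gpp s)
    (hL : pL c G b s ≠ 0) :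
    HasDerivAt (psiP c dc Et Ep G Gp a b τ u ξ A B)
      ((E s / pL c G b s * pP c Et G b u ξ A s ^ 2 +
        pR c dc Ep G Gp b u ξ B s ^ 2 / (pL c G b s * G s) +
        (Ett / 2 - Et s ^ 2 / (4 * pL c G b s)) * pN c G a b τ u ξ s ^ 2 +
        c * (Etp * pL c G b s - Et s * Ep s) / pL c G b s ^ 2 *
          (pM c G b u ξ s * pN c G a b τ u ξ s) +
        (((Epp - Ep s ^ 2 / pL c G b s - Gp s / G s * Ep s / 2 +
          pL c G b s * (3 / 2 * (Gp s / G s) ^ 2 - Gpp / G s)) / 2) +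
          a s * b s * Etp / (2 * pL c G b s)) / (pL c G b s * G s) *
            pM c G b u ξ s ^ 2) / E s) s := by
  have hE := h.Epos.ne'
  have hG := h.Gpos.ne'
  have hLG : pL c G b s * G s ≠ 0 := mul_ne_zero hL hG
  have := ((h.pN_deriv hL).mul (h.pP_deriv hL)).add
    ((h.pM_deriv.mul (h.pR_deriv hL)).div (h.pL_deriv.mul h.hG) hLG)
  refine this.congr_deriv ?_
  have hq : pQ c dc Ep G Gp b ξ B s = pR c dc Ep G Gp b u ξ B s +
      Gp s / G s * b s * pM c G b u ξ s / 2 := by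
    simp only [pR]; ring
  simp only [Pi.mul_apply]
  rw [hq]
  generalize pN c G a b τ u ξ s = N at *
  generalize pP c Et G b u ξ A s = P at *
  generalize pR c dc Ep G Gp b u ξ B s = r at *
  generalize pM c G b u ξ s = m at *
  generalize pL c G b s = L at *
  field_simp
  ring

end

end Pool.Agent.Lib.MP_6b187a_gt.Div
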