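import Pool.Agent.Lib.MP_6b187a_gt.Div.PsiN
import Pool.Agent.Lib.MP_6b187a_gt.Div.PsiP
import Pool.Agent.Lib.MP_6b187a_gt.Div.PsiM

/-!
# A Jacobi field which vanishes at two points vanishes between them
-/

set_option autoImplicit false

namespace Pool.Agent.Lib.MP_6b187a_gt.Div

open Set

noncomputable section

/-- A function with a nonnegative derivative and the same value at both ends has derivative zero. -/
theorem deriv_zero_of_ends {f D : ℝ → ℝ} {s1 s2 : ℝ}
    (hf : ∀ s ∈ Icc s1 s2, HasDerivAt f (D s) s) (hD : ∀ s ∈ Icc s1 s2, 0 ≤ D s)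
    (h1 : f s1 = 0) (h2 : f s2 = 0) : ∀ s ∈ Ioo s1 s2, D s = 0 := by
  intro s hs
  have hmono : MonotoneOn f (Icc s1 s2) := by
    apply monotoneOn_of_deriv_nonneg (convex_Icc s1 s2)
    · exact fun x hx => (hf x hx).continuousAt.continuousWithinAt
    · intro x hx
      exact (hf x (interior_subset hx)).differentiableAt.differentiableWithinAt
    · intro x hx
      rw [(hf x (interior_subset hx)).deriv]
      exact hD x (interior_subset hx)
  have hlt : s1 < s2 := hs.1.trans hs.2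
  have hz : ∀ x ∈ Icc s1 s2, f x = 0 := by
    intro x hx
    apply le_antisymm
    · rw [← h2]; exact hmono hx (right_mem_Icc.2 hlt.le) hx.2
    · rw [← h1]; exact hmono (left_mem_Icc.2 hlt.le) hx hx.1
  have hev : f =ᶠ[nhds s] fun _ => (0 : ℝ) := by
    filter_upwards [Icc_mem_nhds hs.1 hs.2] with x hx using hz x hx
  have := (hf s (Ioo_subset_Icc_self hs)).congr_of_eventuallyEq hev.symm
  exact this.unique (hasDerivAt_const s (0 : ℝ))

variable {c dc : ℝ} {k t y x a b τ u ξ A B : ℝ → ℝ} {s1 s2 : ℝ}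

/-- The linearised equations along a geodesic of the metric `g`. -/
abbrev LinAt (c dc : ℝ) (k t y a b τ u ξ A B : ℝ → ℝ) (s : ℝ) : Prop :=
  Lin c dc (k s) (fun s => fE (t s) (y s)) (fun s => fEt (t s) (y s)) (fun s => fEp (t s) (y s))
    (fun s => fY (y s)) (fun s => fX (y s)) a b τ u ξ A B (fEtt (t s) (y s)) (fEtp (t s) (y s))
    (fEpp (t s) (y s)) (fX (y s)) s

/-- If `J` is a multiple of the velocity and orthogonal to it, it is zero. -/
theorem zero_of_parallel {a b c G E l τ u ξ : ℝ} (hE : 0 < E) (hen : a ^ 2 + b ^ 2 + c ^ 2 * G = E)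
    (hT : a * τ + b * u + c * ξ = 0) (h1 : τ = a * l) (h2 : u = b * l) (h3 : ξ = c * G * l) :
    τ = 0 ∧ u = 0 ∧ ξ = 0 := by
  have : E * l = 0 := by rw [← hen]; rw [h1, h2, h3] at hT; linear_combination hT
  have hl : l = 0 := (mul_eq_zero.1 this).resolve_left hE.ne'
  rw [h1, h2, h3, hl]
  simp

/-- The case `c² ≤ 1`. -/
theorem zero_of_le_one (hs : s1 < s2)
    (hpos : ∀ s ∈ Icc s1 s2, 0 < nF a b s ∧
      0 < nF a b s * (fEtt (t s) (y s) + fEpp (t s) (y s) - c ^ 2 * fX (y s)) -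
        fEt (t s) (y s) ^ 2 - (fEp (t s) (y s) - c ^ 2 * fX (y s)) ^ 2)
    (hlin : ∀ s ∈ Icc s1 s2, LinAt c dc k t y a b τ u ξ A B s)
    (hT : ∀ s ∈ Icc s1 s2, a s * τ s + b s * u s + c * ξ s = 0)
    (h1 : τ s1 = 0 ∧ u s1 = 0 ∧ ξ s1 = 0) (h2 : τ s2 = 0 ∧ u s2 = 0 ∧ ξ s2 = 0) :
    ∀ s ∈ Icc s1 s2, τ s = 0 ∧ u s = 0 ∧ ξ s = 0 := by
  have hd := fun s hs => (hlin s hs).psiN_deriv (hpos s hs).1.ne'
  have hval : ∀ s, τ s = 0 ∧ u s = 0 ∧ ξ s = 0 →
      psiN c dc (fun s => fEt (t s) (y s)) (fun s => fEp (t s) (y s)) (fun s => fY (y s))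
        (fun s => fX (y s)) a b τ u ξ A B s = 0 := by
    rintro s ⟨h1, h2, h3⟩
    simp [psiN, nM, nN, h1, h2, h3]
  have hnn : ∀ s ∈ Icc s1 s2, 0 ≤ (nQ c (fun s => fEt (t s) (y s)) (fun s => fEp (t s) (y s))
        (fun s => fX (y s)) a b τ u A B s ^ 2 / nF a b s +
        (nF a b s * (fEtt (t s) (y s) + fEpp (t s) (y s) - c ^ 2 * fX (y s)) -
          fEt (t s) (y s) ^ 2 - (fEp (t s) (y s) - c ^ 2 * fX (y s)) ^ 2) /
          (2 * nF a b s ^ 2) * nM a b τ u s ^ 2 +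
        fY (y s) * fE (t s) (y s) / nF a b s * dc ^ 2) / fE (t s) (y s) := by
    intro s hs
    have hE : 0 < fE (t s) (y s) := (hlin s hs).Epos
    have hG : 0 < fY (y s) := (hlin s hs).Gpos
    have hF := (hpos s hs).1
    have hP := (hpos s hs).2
    positivity
  have hz := deriv_zero_of_ends hd hnn (hval s1 h1) (hval s2 h2)
  have hm : ∀ s ∈ Ioo s1 s2, nM a b τ u s = 0 ∧ dc = 0 := by
    intro s hs'
    have hs'' := Ioo_subset_Icc_self hs'
    have hE : 0 < fE (t s) (y s) := (hlin s hs'').Epos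
    have hG : 0 < fY (y s) := (hlin s hs'').Gpos
    have hF := (hpos s hs'').1
    have hP := (hpos s hs'').2
    have h0 := hz s hs'
    rw [div_eq_zero_iff] at h0
    have h0 := h0.resolve_right hE.ne'
    have e1 : 0 ≤ nQ c (fun s => fEt (t s) (y s)) (fun s => fEp (t s) (y s))
        (fun s => fX (y s)) a b τ u A B s ^ 2 / nF a b s := by positivity
    have e2 : 0 < (nF a b s * (fEtt (t s) (y s) + fEpp (t s) (y s) - c ^ 2 * fX (y s)) -
          fEt (t s) (y s) ^ 2 - (fEp (t s) (y s) - c ^ 2 * fX (y s)) ^ 2) /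
          (2 * nF a b s ^ 2) := by positivity
    have e3 : 0 < fY (y s) * fE (t s) (y s) / nF a b s := by positivity
    constructor
    · by_contra hne
      have : 0 < nM a b τ u s ^ 2 := by positivity
      have := mul_pos e2 this
      have := mul_nonneg e3.le (sq_nonneg dc)
      linarith
    · by_contra hne
      have : 0 < dc ^ 2 := by positivity
      have := mul_pos e3 this
      have := mul_nonneg e2.le (sq_nonneg (nM a b τ u s))
      linarith
  have hdc : dc = 0 := (hm ((s1 + s2) / 2) ⟨by linarith, by linarith⟩).2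
  have hm' : ∀ s ∈ Icc s1 s2, nM a b τ u s = 0 := by
    intro s hs'
    rcases eq_or_lt_of_le hs'.1 with e | e
    · rw [← e]; simp [nM, h1.1, h1.2.1]
    rcases eq_or_lt_of_le hs'.2 with e' | e'
    · rw [e']; simp [nM, h2.1, h2.2.1]
    exact (hm s ⟨e, e'⟩).1
  have hN : ∀ s ∈ Icc s1 s2, nN c (fun s => fY (y s)) a b τ u ξ s = 0 := by
    have hder : ∀ s ∈ Icc s1 s2, HasDerivAt (nN c (fun s => fY (y s)) a b τ u ξ) 0 s := by
      intro s hs'
      refine ((hlin s hs').nN_deriv (hpos s hs').1.ne').congr_deriv ?_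
      rw [hm' s hs', hdc]
      simp
    have hc := constant_of_has_deriv_right_zero
      (fun s hs' => (hder s hs').continuousAt.continuousWithinAt)
      (fun s hs' => (hder s (Ico_subset_Icc_self hs')).hasDerivWithinAt)
    intro s hs'
    rw [hc s hs']
    simp [nN, h1.1, h1.2.1, h1.2.2]
  intro s hs'
  have hF := (hpos s hs').1
  have hm0 := hm' s hs'
  have hN0 := hN s hs'
  have hT0 := hT s hs'
  have hlin0 := hlin s hs'
  simp only [nM] at hm0
  simp only [nN] at hN0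
  have hFd : nF a b s = a s ^ 2 + b s ^ 2 := rfl
  apply zero_of_parallel (l := (a s * τ s + b s * u s) / nF a b s) hlin0.Epos hlin0.en hT0
  · field_simp
    rw [hFd]
    linear_combination (b s) * hm0
  · field_simp
    rw [hFd]
    linear_combination (-a s) * hm0
  · linarith

/-- The case `c² ≥ 1`, first subcase. -/
theorem zero_of_form
    (hL : ∀ s ∈ Icc s1 s2, 0 < pL c (fun s => fY (y s)) b s)
    (hpos : ∀ s ∈ Icc s1 s2, ∀ N m : ℝ, (N ≠ 0 ∨ m ≠ 0) →
      0 < (fEtt (t s) (y s) / 2 - fEt (t s) (y s) ^ 2 / (4 * pL c (fun s => fY (y s)) b s)) *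
        N ^ 2 +
      c * (fEtp (t s) (y s) * pL c (fun s => fY (y s)) b s - fEt (t s) (y s) * fEp (t s) (y s)) /
        pL c (fun s => fY (y s)) b s ^ 2 * (m * N) +
      (((fEpp (t s) (y s) - fEp (t s) (y s) ^ 2 / pL c (fun s => fY (y s)) b s -
          fX (y s) / fY (y s) * fEp (t s) (y s) / 2 + pL c (fun s => fY (y s)) b s *
            (3 / 2 * (fX (y s) / fY (y s)) ^ 2 - fX (y s) / fY (y s))) / 2) +
          a s * b s * fEtp (t s) (y s) / (2 * pL c (fun s => fY (y s)) b s)) /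
            (pL c (fun s => fY (y s)) b s * fY (y s)) * m ^ 2)
    (hlin : ∀ s ∈ Icc s1 s2, LinAt c dc k t y a b τ u ξ A B s)
    (hT : ∀ s ∈ Icc s1 s2, a s * τ s + b s * u s + c * ξ s = 0)
    (h1 : τ s1 = 0 ∧ u s1 = 0 ∧ ξ s1 = 0) (h2 : τ s2 = 0 ∧ u s2 = 0 ∧ ξ s2 = 0) :
    ∀ s ∈ Icc s1 s2, τ s = 0 ∧ u s = 0 ∧ ξ s = 0 := by
  have hd := fun s hs => (hlin s hs).psiP_deriv (hL s hs).ne'
  have hval : ∀ s, τ s = 0 ∧ u s = 0 ∧ ξ s = 0 →
      psiP c dc (fun s => fEt (t s) (y s)) (fun s => fEp (t s) (y s)) (fun s => fY (y s))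
        (fun s => fX (y s)) a b τ u ξ A B s = 0 := by
    rintro s ⟨h1, h2, h3⟩
    simp [psiP, pM, pN, pl, h1, h2, h3]
  have hE : ∀ s ∈ Icc s1 s2, 0 < fE (t s) (y s) := fun s hs' => (hlin s hs').Epos
  have hG : ∀ s ∈ Icc s1 s2, 0 < fY (y s) := fun s hs' => (hlin s hs').Gpos
  set K : ℝ → ℝ := fun s => fE (t s) (y s) / pL c (fun s => fY (y s)) b s *
      pP c (fun s => fEt (t s) (y s)) (fun s => fY (y s)) b u ξ A s ^ 2 +
    pR c dc (fun s => fEp (t s) (y s)) (fun s => fY (y s)) (fun s => fX (y s)) b u ξ B s ^ 2 /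
      (pL c (fun s => fY (y s)) b s * fY (y s)) with hK
  have hKn : ∀ s ∈ Icc s1 s2, 0 ≤ K s := by
    intro s hs'
    have h1 := hE s hs'
    have h2 := hG s hs'
    have h3 := hL s hs'
    simp only [hK]
    positivity
  set α : ℝ → ℝ := fun s => fEtt (t s) (y s) / 2 - fEt (t s) (y s) ^ 2 /
        (4 * pL c (fun s => fY (y s)) b s) with hα
  set β : ℝ → ℝ := fun s =>
    c * (fEtp (t s) (y s) * pL c (fun s => fY (y s)) b s - fEt (t s) (y s) * fEp (t s) (y s)) /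
        pL c (fun s => fY (y s)) b s ^ 2 with hβ
  set γ : ℝ → ℝ := fun s =>
    ((((fEpp (t s) (y s) - fEp (t s) (y s) ^ 2 / pL c (fun s => fY (y s)) b s -
          fX (y s) / fY (y s) * fEp (t s) (y s) / 2 + pL c (fun s => fY (y s)) b s *
            (3 / 2 * (fX (y s) / fY (y s)) ^ 2 - fX (y s) / fY (y s))) / 2) +
          a s * b s * fEtp (t s) (y s) / (2 * pL c (fun s => fY (y s)) b s)) /
            (pL c (fun s => fY (y s)) b s * fY (y s))) with hγ
  set N : ℝ → ℝ := pN c (fun s => fY (y s)) a b τ u ξ with hN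
  set m : ℝ → ℝ := pM c (fun s => fY (y s)) b u ξ with hm
  have hpos' : ∀ s ∈ Icc s1 s2, ∀ N m : ℝ, (N ≠ 0 ∨ m ≠ 0) →
      0 < α s * N ^ 2 + β s * (m * N) + γ s * m ^ 2 := hpos
  have hd' : ∀ s ∈ Icc s1 s2, HasDerivAt (psiP c dc (fun s => fEt (t s) (y s))
      (fun s => fEp (t s) (y s)) (fun s => fY (y s)) (fun s => fX (y s)) a b τ u ξ A B)
      ((K s + (α s * N s ^ 2 + β s * (m s * N s) + γ s * m s ^ 2)) / fE (t s) (y s)) s := by
    intro s hs'
    refine (hd s hs').congr_deriv ?_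
    simp only [hK, hα, hβ, hγ]
    ring
  have hform : ∀ s ∈ Icc s1 s2, 0 ≤ α s * N s ^ 2 + β s * (m s * N s) + γ s * m s ^ 2 := by
    intro s hs'
    by_cases hNm : N s ≠ 0 ∨ m s ≠ 0
    · exact (hpos' s hs' _ _ hNm).le
    · push Not at hNm
      rw [hNm.1, hNm.2]
      simp
  have hz := deriv_zero_of_ends hd' (fun s hs' => div_nonneg (add_nonneg (hKn s hs')
    (hform s hs')) (hE s hs').le) (hval s1 h1) (hval s2 h2)
  intro s hs'
  rcases eq_or_lt_of_le hs'.1 with e | e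
  · rw [← e]; exact h1
  rcases eq_or_lt_of_le hs'.2 with e' | e'
  · rw [e']; exact h2
  have h0 := hz s ⟨e, e'⟩
  rw [div_eq_zero_iff] at h0
  have h0 := h0.resolve_right (hE s hs').ne'
  have g1 := hKn s hs'
  have hNm : N s = 0 ∧ m s = 0 := by
    by_contra hne
    rw [not_and_or] at hne
    have := hpos' s hs' _ _ hne
    linarith
  obtain ⟨hN0, hm0⟩ := hNm
  have hL' : 0 < b s ^ 2 + c ^ 2 * fY (y s) := hL s hs'
  have hlin0 := hlin s hs'
  simp only [hN, pN, pl, pL] at hN0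
  simp only [hm, pM] at hm0
  apply zero_of_parallel (l := (b s * u s + c * ξ s) / (b s ^ 2 + c ^ 2 * fY (y s)))
    hlin0.Epos hlin0.en (hT s hs')
  · linarith
  · field_simp
    linear_combination (-c) * hm0
  · field_simp
    linear_combination (b s) * hm0

/-- The case `c² ≥ 1`, second subcase. -/
theorem zero_of_curv (hc : c ≠ 0)
    (hpos : ∀ s ∈ Icc s1 s2,
      0 < fE (t s) (y s) * (fEtt (t s) (y s) + fEpp (t s) (y s)) - fEt (t s) (y s) ^ 2 -
        fEp (t s) (y s) ^ 2)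
    (hform : ∀ s ∈ Icc s1 s2, ∀ z w : ℝ, (z ≠ 0 ∨ w ≠ 0) → 0 <
      mTT (fE (t s) (y s)) (fEt (t s) (y s)) (fEp (t s) (y s)) (fEtt (t s) (y s))
        (fY (y s)) (fX (y s)) * z ^ 2 +
      2 * mTP (fE (t s) (y s)) (fEt (t s) (y s)) (fEp (t s) (y s)) (fEtp (t s) (y s)) * (z * w) +
      mPP (fE (t s) (y s)) (fEt (t s) (y s)) (fEp (t s) (y s)) (fEpp (t s) (y s))
          (fY (y s)) (fX (y s)) (fX (y s)) * w ^ 2)
    (hlin : ∀ s ∈ Icc s1 s2, LinAt c dc k t y a b τ u ξ A B s)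
    (hT : ∀ s ∈ Icc s1 s2, a s * τ s + b s * u s + c * ξ s = 0)
    (h1 : τ s1 = 0 ∧ u s1 = 0 ∧ ξ s1 = 0) (h2 : τ s2 = 0 ∧ u s2 = 0 ∧ ξ s2 = 0) :
    ∀ s ∈ Icc s1 s2, τ s = 0 ∧ u s = 0 ∧ ξ s = 0 := by
  have hd := fun s hs => (hlin s hs).psiM_deriv
  have hval : ∀ s, τ s = 0 ∧ u s = 0 ∧ ξ s = 0 →
      psiM c dc (fun s => fE (t s) (y s)) (fun s => fEt (t s) (y s)) (fun s => fEp (t s) (y s))
        (fun s => fY (y s)) (fun s => fX (y s)) a b τ u ξ A B s = 0 := by
    rintro s ⟨h1, h2, h3⟩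
    simp [psiM, mS, h1, h2, h3]
  have hE : ∀ s ∈ Icc s1 s2, 0 < fE (t s) (y s) := fun s hs' => (hlin s hs').Epos
  have hG : ∀ s ∈ Icc s1 s2, 0 < fY (y s) := fun s hs' => (hlin s hs').Gpos
  -- the three parts
  set K : ℝ → ℝ := fun s => mRt c (fun s => fE (t s) (y s)) (fun s => fEt (t s) (y s))
      (fun s => fEp (t s) (y s)) a b τ u ξ A s ^ 2 +
    mRp c (fun s => fE (t s) (y s)) (fun s => fEt (t s) (y s))
      (fun s => fEp (t s) (y s)) (fun s => fY (y s)) (fun s => fX (y s)) a b τ u ξ B s ^ 2 +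
    fY (y s) * mRx c dc (fun s => fE (t s) (y s)) (fun s => fEt (t s) (y s))
      (fun s => fEp (t s) (y s)) (fun s => fY (y s)) (fun s => fX (y s)) a b τ u ξ s ^ 2 with hK
  have hKn : ∀ s ∈ Icc s1 s2, 0 ≤ K s := by
    intro s hs'
    have := hG s hs'
    simp only [hK]
    positivity
  set P1 : ℝ → ℝ := fun s => (fE (t s) (y s) * (fEtt (t s) (y s) + fEpp (t s) (y s)) -
    fEt (t s) (y s) ^ 2 - fEp (t s) (y s) ^ 2) / (2 * fE (t s) (y s) ^ 2) with hP1
  have hP1n : ∀ s ∈ Icc s1 s2, 0 < P1 s := by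
    intro s hs'
    have h1 := hpos s hs'
    have h2 := hE s hs'
    simp only [hP1]
    positivity
  set P2 : ℝ → ℝ := fun s => mTT (fE (t s) (y s)) (fEt (t s) (y s)) (fEp (t s) (y s))
        (fEtt (t s) (y s)) (fY (y s)) (fX (y s)) * (a s * ξ s - c * fY (y s) * τ s) ^ 2 +
      2 * mTP (fE (t s) (y s)) (fEt (t s) (y s)) (fEp (t s) (y s)) (fEtp (t s) (y s)) *
        ((a s * ξ s - c * fY (y s) * τ s) * (b s * ξ s - c * fY (y s) * u s)) +
      mPP (fE (t s) (y s)) (fEt (t s) (y s)) (fEp (t s) (y s)) (fEpp (t s) (y s))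
          (fY (y s)) (fX (y s)) (fX (y s)) * (b s * ξ s - c * fY (y s) * u s) ^ 2 with hP2
  have hP2n : ∀ s ∈ Icc s1 s2, 0 ≤ P2 s := by
    intro s hs'
    by_cases hzw : a s * ξ s - c * fY (y s) * τ s ≠ 0 ∨ b s * ξ s - c * fY (y s) * u s ≠ 0
    · exact (hform s hs' _ _ hzw).le
    · push Not at hzw
      simp only [hP2]
      rw [hzw.1, hzw.2]
      simp
  have hd' : ∀ s ∈ Icc s1 s2, HasDerivAt (psiM c dc (fun s => fE (t s) (y s))
      (fun s => fEt (t s) (y s)) (fun s => fEp (t s) (y s)) (fun s => fY (y s))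
      (fun s => fX (y s)) a b τ u ξ A B)
      ((K s + P1 s * (a s * u s - b s * τ s) ^ 2 +
        P2 s / (2 * fE (t s) (y s) * fY (y s))) / fE (t s) (y s)) s := hd
  have hnn : ∀ s ∈ Icc s1 s2, 0 ≤ (K s + P1 s * (a s * u s - b s * τ s) ^ 2 +
        P2 s / (2 * fE (t s) (y s) * fY (y s))) / fE (t s) (y s) := by
    intro s hs'
    have h1 := hKn s hs'
    have h2 := hP1n s hs'
    have h3 := hP2n s hs'
    have h4 := hE s hs'
    have h5 := hG s hs'
    positivity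
  have hz := deriv_zero_of_ends hd' hnn (hval s1 h1) (hval s2 h2)
  intro s hs'
  rcases eq_or_lt_of_le hs'.1 with e | e
  · rw [← e]; exact h1
  rcases eq_or_lt_of_le hs'.2 with e' | e'
  · rw [e']; exact h2
  have h0 := hz s ⟨e, e'⟩
  have g1 := hKn s hs'
  have g2 := hP1n s hs'
  have g3 := hP2n s hs'
  have g4 := hE s hs'
  have g5 := hG s hs'
  rw [div_eq_zero_iff] at h0
  have h0 := h0.resolve_right g4.ne'
  have g6 : 0 ≤ P1 s * (a s * u s - b s * τ s) ^ 2 := by positivity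
  have g7 : 0 ≤ P2 s / (2 * fE (t s) (y s) * fY (y s)) := by positivity
  have k1 : a s * u s - b s * τ s = 0 := by
    have : P1 s * (a s * u s - b s * τ s) ^ 2 = 0 := by linarith
    have := (mul_eq_zero.1 this).resolve_left g2.ne'
    exact pow_eq_zero_iff (by norm_num) |>.1 this
  have k2 : P2 s = 0 := by
    have : P2 s / (2 * fE (t s) (y s) * fY (y s)) = 0 := by linarith
    rw [div_eq_zero_iff] at this
    exact this.resolve_right (by positivity)
  have k3 : a s * ξ s - c * fY (y s) * τ s = 0 ∧ b s * ξ s - c * fY (y s) * u s = 0 := by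
    by_contra hne
    rw [not_and_or] at hne
    have := hform s hs' _ _ hne
    simp only [hP2] at k2
    linarith
  have hlin0 := hlin s hs'
  apply zero_of_parallel (l := ξ s / (c * fY (y s))) hlin0.Epos hlin0.en (hT s hs')
  · field_simp
    linarith [k3.1]
  · field_simp
    linarith [k3.2]
  · field_simp

end

end Pool.Agent.Lib.MP_6b187a_gt.Div
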