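import Pool.Agent.Lib.MP_6b187a_gt.Div.GeoRed
import Pool.Agent.Lib.MP_6b187a_gt.Div.NoConj

/-!
# The Jacobi fields of `gM` satisfy the linearised system `Lin`
-/

set_option autoImplicit false
set_option maxSynthPendingDepth 3

namespace Pool.Agent.Lib.MP_6b187a_gt.Div

open Filter Set
open scoped ContDiff Topology

noncomputable section

/-- `u = (Y/X) υ`. -/
def jU (γ J : ℝ → R3) (s : ℝ) : ℝ := fY (γ s 1) / fX (γ s 1) * J s 1

/-- `dE = E_t τ + E_ψ u`. -/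
def jE (γ J : ℝ → R3) (s : ℝ) : ℝ :=
  fEt (γ s 0) (γ s 1) * J s 0 + fEp (γ s 0) (γ s 1) * jU γ J s

/-- `k = - dE / E`. -/
def jK (γ J : ℝ → R3) (s : ℝ) : ℝ := -jE γ J s / fE (γ s 0) (γ s 1)

/-- `A = δa = E τ' + dE t'`. -/
def jA (γ J : ℝ → R3) (s : ℝ) : ℝ :=
  fE (γ s 0) (γ s 1) * deriv J s 0 + jE γ J s * deriv γ s 0

/-- `B = δb = E u' + dE ψ'`. -/
def jB (γ J : ℝ → R3) (s : ℝ) : ℝ :=
  fE (γ s 0) (γ s 1) * (fY (γ s 1) / fX (γ s 1) * deriv J s 1 +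
    fY (γ s 1) / fX (γ s 1) * deriv γ s 1 / fX (γ s 1) * J s 1) +
    jE γ J s * (fY (γ s 1) / fX (γ s 1) * deriv γ s 1)

/-- `dc = δc`. -/
def jC (γ J : ℝ → R3) (s : ℝ) : ℝ :=
  fE (γ s 0) (γ s 1) / fY (γ s 1) * deriv J s 2 +
    (jE γ J s - fE (γ s 0) (γ s 1) * J s 1) / fY (γ s 1) * deriv γ s 2

section algebra

variable {E Y X w θ p q r τ υ ξ τ' υ' ξ' dE : ℝ}

/-- The constraint `e = 0`. -/
def eH (E Y X p q r υ τ' υ' ξ' dE : ℝ) : ℝ :=
  E * (τ' * p) + E * (Y / X) ^ 2 * (υ' * q) + E / Y * (ξ' * r) +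
    (dE * (p * p) + (dE * (Y / X) ^ 2 + 2 * E * Y ^ 2 / X ^ 3 * υ) * (q * q) +
      (dE - E * υ) / Y * (r * r)) / 2

theorem jac_alg_cons (hY : 0 < Y) (hX : 0 < X)
    (hu : E * (p * p) + E * (Y / X) ^ 2 * (q * q) + E / Y * (r * r) = 1)
    (hH : eH E Y X p q r υ τ' υ' ξ' dE = 0) :
    E * p * (E * τ' + dE * p) + E * (Y / X) * q * (E * (Y / X * υ' + Y / X * q / X * υ) +
      dE * (Y / X * q)) + E / Y * r * (E / Y * ξ' + (dE - E * υ) / Y * r) * Y +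
      (E / Y * r) ^ 2 * X * (Y / X * υ) / 2 - dE / 2 = 0 := by
  have h1 : E * p * (E * τ' + dE * p) + E * (Y / X) * q * (E * (Y / X * υ' + Y / X * q / X * υ) +
      dE * (Y / X * q)) + E / Y * r * (E / Y * ξ' + (dE - E * υ) / Y * r) * Y +
      (E / Y * r) ^ 2 * X * (Y / X * υ) / 2 - dE / 2 =
      E * eH E Y X p q r υ τ' υ' ξ' dE +
      dE / 2 * ((E * (p * p) + E * (Y / X) ^ 2 * (q * q) + E / Y * (r * r)) - 1) := by
    unfold eH
    field_simp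
    ring
  rw [h1, hH, hu]
  ring

theorem jac_alg_A (hE : 0 < E) (hY : 0 < Y) (hX : 0 < X)
    (hu : E * (p * p) + E * (Y / X) ^ 2 * (q * q) + E / Y * (r * r) = 1)
    (hH : eH E Y X p q r υ τ' υ' ξ' dE = 0) (Et dd : ℝ) :
    Et * (p * τ') + Et * (Y / X) ^ 2 * (q * υ') + Et / Y * (r * ξ') +
      (dd * (p * p) + (dd * (Y / X) ^ 2 + Et * (2 * Y ^ 2 / X ^ 3 * υ)) * (q * q) +
        (dd - Et * υ) / Y * (r * r)) / 2 =
    (dd / 2 + -dE / E * (Et / 2)) / E := by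
  have h1 : Et * (p * τ') + Et * (Y / X) ^ 2 * (q * υ') + Et / Y * (r * ξ') +
      (dd * (p * p) + (dd * (Y / X) ^ 2 + Et * (2 * Y ^ 2 / X ^ 3 * υ)) * (q * q) +
        (dd - Et * υ) / Y * (r * r)) / 2 -
    (dd / 2 + -dE / E * (Et / 2)) / E = Et / E * eH E Y X p q r υ τ' υ' ξ' dE +
      (dd - Et * dE / E) / (2 * E) *
        ((E * (p * p) + E * (Y / X) ^ 2 * (q * q) + E / Y * (r * r)) - 1) := by
    unfold eH
    field_simp
    ring
  rw [hH, hu, sub_self, mul_zero, mul_zero, add_zero] at h1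
  linarith

/-- `Ey = Y - 4 w`, `dd = ddE (J, e₁)`. -/
theorem jac_alg_B (hE : 0 < E) (hY : 0 < Y) (hX : X = 1 + Y) (hw : w = θ * Y)
    (hu : E * (p * p) + E * (Y / X) ^ 2 * (q * q) + E / Y * (r * r) = 1)
    (hH : eH E Y X p q r υ τ' υ' ξ' dE = 0) {dd : ℝ}
    (hdd : dd = 4 * w / 50 * τ + (Y + 16 * w) * υ) :
    (((Y - 4 * w) * (p * τ') + ((Y - 4 * w) * (Y / X) ^ 2 + 2 * E * Y ^ 2 / X ^ 3) * (q * υ') +
      ((Y - 4 * w) - E) / Y * (r * ξ') +
      (dd * (p * p) + (dd * (Y / X) ^ 2 + (Y - 4 * w) * (2 * Y ^ 2 / X ^ 3 * υ) +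
        dE * (2 * Y ^ 2 / X ^ 3) + 2 * E * Y ^ 2 * (2 - Y) / X ^ 4 * υ) * (q * q) +
        (dd - (Y - 4 * w) * υ - dE + E * υ) / Y * (r * r)) / 2 -
      (Y * (1 - Y) / X ^ 3 * q * υ * (E * (Y / X) * q) + Y / X ^ 2 * υ' * (E * (Y / X) * q) +
        Y / X ^ 2 * υ * (X * (1 - (E / Y * r) ^ 2 - 4 * θ) / 2 / E))) * (Y / X) -
      (E * (Y / X) ^ 2 * υ' + (dE * (Y / X) ^ 2 + 2 * E * Y ^ 2 / X ^ 3 * υ) * q -
        Y / X ^ 2 * υ * (E * (Y / X) * q)) * (Y / X * q / X)) / (Y / X) ^ 2 =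
    ((2 / 25 * w * X / Y * τ + (X + 16 * w * X ^ 2 / Y ^ 2 + 4 * w * X / Y ^ 2) * (Y / X * υ) -
      (E / Y * r) ^ 2 * X * (Y / X * υ) -
      2 * (E / Y * r) * (E / Y * ξ' + (dE - E * υ) / Y * r) * X) / 2 +
      -dE / E * ((X - 4 * w * X / Y - (E / Y * r) ^ 2 * X) / 2)) / E := by
  have hX' : 0 < X := by rw [hX]; linarith
  have h1 : (((Y - 4 * w) * (p * τ') + ((Y - 4 * w) * (Y / X) ^ 2 + 2 * E * Y ^ 2 / X ^ 3) *
      (q * υ') + ((Y - 4 * w) - E) / Y * (r * ξ') +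
      (dd * (p * p) + (dd * (Y / X) ^ 2 + (Y - 4 * w) * (2 * Y ^ 2 / X ^ 3 * υ) +
        dE * (2 * Y ^ 2 / X ^ 3) + 2 * E * Y ^ 2 * (2 - Y) / X ^ 4 * υ) * (q * q) +
        (dd - (Y - 4 * w) * υ - dE + E * υ) / Y * (r * r)) / 2 -
      (Y * (1 - Y) / X ^ 3 * q * υ * (E * (Y / X) * q) + Y / X ^ 2 * υ' * (E * (Y / X) * q) +
        Y / X ^ 2 * υ * (X * (1 - (E / Y * r) ^ 2 - 4 * θ) / 2 / E))) * (Y / X) -
      (E * (Y / X) ^ 2 * υ' + (dE * (Y / X) ^ 2 + 2 * E * Y ^ 2 / X ^ 3 * υ) * q -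
        Y / X ^ 2 * υ * (E * (Y / X) * q)) * (Y / X * q / X)) / (Y / X) ^ 2 -
    ((2 / 25 * w * X / Y * τ + (X + 16 * w * X ^ 2 / Y ^ 2 + 4 * w * X / Y ^ 2) * (Y / X * υ) -
      (E / Y * r) ^ 2 * X * (Y / X * υ) -
      2 * (E / Y * r) * (E / Y * ξ' + (dE - E * υ) / Y * r) * X) / 2 +
      -dE / E * ((X - 4 * w * X / Y - (E / Y * r) ^ 2 * X) / 2)) / E =
      (Y - 4 * w) * X / (E * Y) * eH E Y X p q r υ τ' υ' ξ' dE +
      (dd - (Y - 4 * w) * dE / E) * X / (2 * Y * E) *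
        ((E * (p * p) + E * (Y / X) ^ 2 * (q * q) + E / Y * (r * r)) - 1) := by
    unfold eH
    rw [hdd, hw]
    subst hX
    field_simp
    ring
  rw [hH, hu, sub_self, mul_zero, mul_zero, add_zero] at h1
  linarith

end algebra

theorem jE_eq (γ J : ℝ → R3) (s : ℝ) : jE γ J s = fEt (γ s 0) (γ s 1) * J s 0 +
    (fY (γ s 1) - 4 * fw (γ s 0) (γ s 1)) * J s 1 := by
  have hY := fY_pos (γ s 1)
  have hX := fX_pos (γ s 1)
  simp only [jE, jU, fEp]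
  field_simp

theorem lin_of_isJacobi {γ J : ℝ → R3} {c : ℝ} (hγ : gM.IsGeodesic γ) (hJ : gM.IsJacobi γ J)
    (hc : ∀ s, cC γ s = c)
    (ho : ∀ s, Orb c (fun s => γ s 0) (fun s => γ s 1) (fun s => γ s 2) (cA γ) (cB γ) s)
    {s1 s2 : ℝ} (h12 : s1 ≠ s2) (h1 : J s1 = 0) (h2 : J s2 = 0) :
    ∃ dc : ℝ, ∀ s, LinAt c dc (jK γ J) (fun s => γ s 0) (fun s => γ s 1) (cA γ) (cB γ)
      (fun s => J s 0) (jU γ J) (fun s => J s 2) (jA γ J) (jB γ J) s ∧
      cA γ s * J s 0 + cB γ s * jU γ J s + c * J s 2 = 0 := by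
  have hd : ∀ s, HasDerivAt γ (deriv γ s) s := RM.hasDerivAt_of_contDiff hγ.smooth
  have hdJ : ∀ s, HasDerivAt J (deriv J s) s := RM.hasDerivAt_of_contDiff hJ.smooth
  have hdJ' : ∀ s, HasDerivAt (deriv J) (deriv (deriv J) s) s :=
    RM.hasDerivAt_deriv_of_contDiff hJ.smooth
  have ht : ∀ s, HasDerivAt (fun s => γ s 0) (deriv γ s 0) s := fun s => hasDerivAt_comp (hd s) 0
  have hy : ∀ s, HasDerivAt (fun s => γ s 1) (deriv γ s 1) s := fun s => hasDerivAt_comp (hd s) 1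
  have hτ : ∀ s, HasDerivAt (fun s => J s 0) (deriv J s 0) s := fun s => hasDerivAt_comp (hdJ s) 0
  have hυ : ∀ s, HasDerivAt (fun s => J s 1) (deriv J s 1) s := fun s => hasDerivAt_comp (hdJ s) 1
  have hξ : ∀ s, HasDerivAt (fun s => J s 2) (deriv J s 2) s := fun s => hasDerivAt_comp (hdJ s) 2
  have hu : ∀ s, fE (γ s 0) (γ s 1) * (deriv γ s 0 * deriv γ s 0) +
      fE (γ s 0) (γ s 1) * (fY (γ s 1) / fX (γ s 1)) ^ 2 * (deriv γ s 1 * deriv γ s 1) +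
      fE (γ s 0) (γ s 1) / fY (γ s 1) * (deriv γ s 2 * deriv γ s 2) = 1 := by
    intro s
    rw [← gM_g]
    exact hγ.unit s
  have horth := hJ.orthogonal hγ.smooth hγ.eq h12 h1 h2
  have hH : ∀ s, eH (fE (γ s 0) (γ s 1)) (fY (γ s 1)) (fX (γ s 1)) (deriv γ s 0) (deriv γ s 1)
      (deriv γ s 2) (J s 1) (deriv J s 0) (deriv J s 1) (deriv J s 2) (jE γ J s) = 0 := by
    intro s
    have h3 := (horth s).2
    rw [gM_g, gM_Dg] at h3
    rw [← h3]
    unfold eH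
    rw [jE_eq]
  have m0 : ∀ s, HasDerivAt (jA γ J) (gM.Dg (γ s) (pt 1 0 0) (deriv γ s) (deriv J s) +
      gM.D2g (γ s) (J s) (pt 1 0 0) (deriv γ s) (deriv γ s) / 2) s := by
    intro s
    have := hJ.hasDerivAt_mom hγ.smooth s (pt 1 0 0)
    refine this.congr_of_eventuallyEq (Eventually.of_forall fun r => ?_)
    simp only [gM_g, gM_Dg, jA, jE_eq, pt_zero, pt_one, pt_two]
    ring
  have m1 : ∀ s, HasDerivAt (fun s => fE (γ s 0) (γ s 1) * (fY (γ s 1) / fX (γ s 1)) ^ 2 *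
      deriv J s 1 + (jE γ J s * (fY (γ s 1) / fX (γ s 1)) ^ 2 + 2 * fE (γ s 0) (γ s 1) *
        fY (γ s 1) ^ 2 / fX (γ s 1) ^ 3 * J s 1) * deriv γ s 1)
      (gM.Dg (γ s) (pt 0 1 0) (deriv γ s) (deriv J s) +
      gM.D2g (γ s) (J s) (pt 0 1 0) (deriv γ s) (deriv γ s) / 2) s := by
    intro s
    have := hJ.hasDerivAt_mom hγ.smooth s (pt 0 1 0)
    refine this.congr_of_eventuallyEq (Eventually.of_forall fun r => ?_)
    simp only [gM_g, gM_Dg, jE_eq, pt_zero, pt_one, pt_two]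
    ring
  have m2 : ∀ s, HasDerivAt (jC γ J) 0 s := by
    intro s
    have := hJ.hasDerivAt_mom hγ.smooth s (pt 0 0 1)
    refine (this.congr_of_eventuallyEq (Eventually.of_forall fun r => ?_)).congr_deriv ?_
    · simp only [gM_g, gM_Dg, jC, jE_eq, pt_zero, pt_one, pt_two]
      ring
    · rw [gM_Dg, gM_D2g]
      simp only [pt_zero, pt_one, ddE]
      ring
  have hdc : ∀ s, jC γ J s = jC γ J 0 := fun s =>
    is_const_of_deriv_eq_zero (fun s => (m2 s).differentiableAt) (fun s => (m2 s).deriv) s 0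
  refine ⟨jC γ J 0, fun s => ?_⟩
  have hE := fE_pos (γ s 0) (γ s 1)
  have hY := fY_pos (γ s 1)
  have hX := fX_pos (γ s 1)
  have hq : ∀ s, HasDerivAt (fun s => γ s 1)
      (fX (γ s 1) / fY (γ s 1) * (fY (γ s 1) / fX (γ s 1) * deriv γ s 1)) s := by
    intro s
    have hY := fY_pos (γ s 1)
    have hX := fX_pos (γ s 1)
    refine (hy s).congr_deriv ?_
    field_simp
  have hφ := hasDerivAt_φ (hq s)
  have ea : cA γ s / fE (γ s 0) (γ s 1) = deriv γ s 0 := by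
    simp only [cA]
    field_simp
  have eb : cB γ s / fE (γ s 0) (γ s 1) = fY (γ s 1) / fX (γ s 1) * deriv γ s 1 := by
    simp only [cB]
    field_simp
  have hfE := hasDerivAt_fE (ht s) (hq s)
  have hfEt := hasDerivAt_fEt (ht s) (hq s)
  have hfEp := hasDerivAt_fEp (ht s) (hq s)
  have hfY := hasDerivAt_fY (hq s)
  have hfX := hasDerivAt_fX (hq s)
  have hJE := jE_eq γ J s
  refine ⟨?_, ?_⟩
  · constructor
    · exact hE
    · exact hY
    · refine hfE.congr_deriv ?_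
      rw [← ea, ← eb]
      ring
    · refine hfEt.congr_deriv ?_
      rw [← ea, ← eb]
      ring
    · refine hfEp.congr_deriv ?_
      rw [← ea, ← eb]
      ring
    · refine hfY.congr_deriv ?_
      rw [← eb]
      ring
    · refine hfX.congr_deriv ?_
      rw [← eb]
      ring
    · refine (ho s).ha.congr_deriv ?_
      simp only [fEt]
      ring
    · refine (ho s).hb.congr_deriv ?_
      simp only [fEp]
      rw [fw_eq]
      field_simp
      ring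
    · refine (hτ s).congr_deriv ?_
      simp only [jA, jK, cA]
      field_simp
      ring
    · have h3 := hφ.mul (hυ s)
      refine h3.congr_deriv ?_
      simp only [jB, jK, cB]
      field_simp
      ring
    · refine (hξ s).congr_deriv ?_
      rw [← hc s, ← hdc s]
      simp only [jC, jK, jU, cC]
      field_simp
      ring
    · refine (m0 s).congr_deriv ?_
      rw [gM_Dg, gM_D2g]
      simp only [pt_zero, pt_one, ddE]
      have h3 := jac_alg_A hE hY hX (hu s) (hH s) (fEt (γ s 0) (γ s 1))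
        (fEtt (γ s 0) (γ s 1) * J s 0 + fEtp (γ s 0) (γ s 1) * jU γ J s)
      simp only [jK]
      rw [← h3]
      simp only [fEtt, fEtp, jU]
      field_simp
      ring
    · have hYX : HasDerivAt (fun s => fY (γ s 1) / fX (γ s 1) ^ 2)
          (fY (γ s 1) * (1 - fY (γ s 1)) / fX (γ s 1) ^ 3 * deriv γ s 1) s := by
        refine ((hasDerivAt_fY' (hy s)).div ((hasDerivAt_fX' (hy s)).pow 2)
          (pow_pos hX 2).ne').congr_deriv ?_
        simp only [Pi.pow_apply, Nat.cast_ofNat, Nat.reduceSub, pow_one, fX_eq] at hX ⊢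
        field_simp
        ring
      have hφ0 : fY (γ s 1) / fX (γ s 1) ≠ 0 := (div_pos hY hX).ne'
      have h5 := ((m1 s).sub ((hYX.mul (hυ s)).mul (ho s).hb)).div hφ hφ0
      have h6 : ∀ r, jB γ J r = (fE (γ r 0) (γ r 1) * (fY (γ r 1) / fX (γ r 1)) ^ 2 *
          deriv J r 1 + (jE γ J r * (fY (γ r 1) / fX (γ r 1)) ^ 2 + 2 * fE (γ r 0) (γ r 1) *
          fY (γ r 1) ^ 2 / fX (γ r 1) ^ 3 * J r 1) * deriv γ r 1 -
          fY (γ r 1) / fX (γ r 1) ^ 2 * J r 1 * cB γ r) / (fY (γ r 1) / fX (γ r 1)) := by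
        intro r
        have hY := fY_pos (γ r 1)
        have hX := fX_pos (γ r 1)
        simp only [jB, cB]
        field_simp
        ring
      refine (h5.congr_of_eventuallyEq (Eventually.of_forall fun r => ?_)).congr_deriv ?_
      · simp only [h6 r, Pi.div_apply, Pi.sub_apply, Pi.mul_apply]
      · have h7 := jac_alg_B hE hY (fX_eq (γ s 1)) (fw_eq (γ s 0) (γ s 1)) (hu s) (hH s)
          (τ := J s 0) (dd := 4 * fw (γ s 0) (γ s 1) / 50 * J s 0 +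
            (fY (γ s 1) + 16 * fw (γ s 0) (γ s 1)) * J s 1) rfl
        have h8 : ((fEtp (γ s 0) (γ s 1) * J s 0 + fEpp (γ s 0) (γ s 1) * jU γ J s -
            c ^ 2 * fX (γ s 1) * jU γ J s - 2 * c * jC γ J 0 * fX (γ s 1)) / 2 +
            jK γ J s * ((fEp (γ s 0) (γ s 1) - c ^ 2 * fX (γ s 1)) / 2)) / fE (γ s 0) (γ s 1) =
            ((2 / 25 * fw (γ s 0) (γ s 1) * fX (γ s 1) / fY (γ s 1) * J s 0 + (fX (γ s 1) +
              16 * fw (γ s 0) (γ s 1) * fX (γ s 1) ^ 2 / fY (γ s 1) ^ 2 +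
              4 * fw (γ s 0) (γ s 1) * fX (γ s 1) / fY (γ s 1) ^ 2) *
                (fY (γ s 1) / fX (γ s 1) * J s 1) -
              (fE (γ s 0) (γ s 1) / fY (γ s 1) * deriv γ s 2) ^ 2 * fX (γ s 1) *
                (fY (γ s 1) / fX (γ s 1) * J s 1) -
              2 * (fE (γ s 0) (γ s 1) / fY (γ s 1) * deriv γ s 2) *
                (fE (γ s 0) (γ s 1) / fY (γ s 1) * deriv J s 2 +
                (jE γ J s - fE (γ s 0) (γ s 1) * J s 1) / fY (γ s 1) * deriv γ s 2) *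
                fX (γ s 1)) / 2 +
              -jE γ J s / fE (γ s 0) (γ s 1) * ((fX (γ s 1) - 4 * fw (γ s 0) (γ s 1) *
                fX (γ s 1) / fY (γ s 1) - (fE (γ s 0) (γ s 1) / fY (γ s 1) *
                deriv γ s 2) ^ 2 * fX (γ s 1)) / 2)) / fE (γ s 0) (γ s 1) := by
          rw [← hc s, ← hdc s]
          simp only [fEtp, fEpp, fEp, jU, jK, jC, cC]
        rw [h8, ← h7, gM_Dg, gM_D2g]
        simp only [pt_zero, pt_one, ddE, Pi.sub_apply, Pi.mul_apply, cB, ← hc s, cC, jE_eq]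
        ring
    · exact (ho s).en
    · have h3 := jac_alg_cons hY hX (hu s) (hH s)
      rw [← hc s, ← hdc s]
      simp only [cA, cB, cC, jA, jB, jC, jU]
      have h4 : fEt (γ s 0) (γ s 1) * J s 0 +
        fEp (γ s 0) (γ s 1) * (fY (γ s 1) / fX (γ s 1) * J s 1) = jE γ J s := rfl
      rw [h4, ← h3]
  · have h3 := (horth s).1
    rw [gM_g] at h3
    rw [← hc s, ← h3]
    simp only [cA, cB, cC, jU]
    ring

end

end Pool.Agent.Lib.MP_6b187a_gt.Div
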