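import Mathlib

/-!
# Lemma G: the dynamics for `c ^ 2 ≥ 1` (piece F12)

`t, y, a, b` are real functions of the arc length `s`, `Y = exp y`, `X = 1 + Y`,
`w = exp (- t / 50 - 4 y)`, `θ = exp (- t / 50 - 5 y)`, `E = 1 + Y + w`.
-/

set_option autoImplicit false

namespace Pool.Agent.Lib.MP_6b187a_gt.Div.Lg

open Real Set

/-- the energy factor -/
noncomputable def eE (t y : ℝ) : ℝ := 1 + exp y + exp (-t / 50 - 4 * y)

/-- the function `θ` -/
noncomputable def eTh (t y : ℝ) : ℝ := exp (-t / 50 - 5 * y)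

theorem eTh_pos (t y : ℝ) : 0 < eTh t y := exp_pos _

theorem eW_eq (t y : ℝ) : exp (-t / 50 - 4 * y) = eTh t y * exp y := by
  rw [eTh, ← exp_add]
  congr 1
  ring

theorem eE_eq (t y : ℝ) : eE t y = 1 + exp y + eTh t y * exp y := by
  rw [eE, eW_eq]

theorem eE_pos (t y : ℝ) : 0 < eE t y := by
  unfold eE
  positivity

/-- the equations (O) and (E), in arc length, on the interval `[p, q]` -/
structure SOrb (c : ℝ) (t y a b : ℝ → ℝ) (p q : ℝ) : Prop where
  ht : ∀ s ∈ Icc p q, HasDerivAt t (a s / eE (t s) (y s)) s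
  hy : ∀ s ∈ Icc p q, HasDerivAt y ((1 + exp (y s)) / exp (y s) * b s / eE (t s) (y s)) s
  ha : ∀ s ∈ Icc p q,
    HasDerivAt a (-(eTh (t s) (y s) * exp (y s) / 100) / eE (t s) (y s)) s
  hb : ∀ s ∈ Icc p q, HasDerivAt b ((1 + exp (y s)) * (1 - c ^ 2 - 4 * eTh (t s) (y s)) /
    (2 * eE (t s) (y s))) s
  he : ∀ s ∈ Icc p q, a s ^ 2 + b s ^ 2 + c ^ 2 * exp (y s) = eE (t s) (y s)

/-- a function with nonnegative derivative is monotone -/
theorem mono_aux {f f' : ℝ → ℝ} {p q : ℝ} (hf : ∀ s ∈ Icc p q, HasDerivAt f (f' s) s)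
    (h : ∀ s ∈ Icc p q, 0 ≤ f' s) {r s : ℝ} (hr : p ≤ r) (hrs : r ≤ s) (hs : s ≤ q) :
    f r ≤ f s := by
  have hm : MonotoneOn f (Icc p q) := by
    apply monotoneOn_of_deriv_nonneg (convex_Icc p q)
    · exact fun x hx => (hf x hx).continuousAt.continuousWithinAt
    · exact fun x hx => (hf x (interior_subset hx)).differentiableAt.differentiableWithinAt
    · intro x hx
      rw [(hf x (interior_subset hx)).deriv]
      exact h x (interior_subset hx)
  exact hm ⟨hr, hrs.trans hs⟩ ⟨hr.trans hrs, hs⟩ hrs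

variable {c : ℝ} {t y a b : ℝ → ℝ}

theorem SOrb.cont_E {p q : ℝ} (O : SOrb c t y a b p q) :
    ContinuousOn (fun s => eE (t s) (y s)) (Icc p q) := by
  have h1 : ContinuousOn t (Icc p q) := fun s hs => (O.ht s hs).continuousAt.continuousWithinAt
  have h2 : ContinuousOn y (Icc p q) := fun s hs => (O.hy s hs).continuousAt.continuousWithinAt
  unfold eE
  fun_prop

/-- the time `σ` -/
theorem SOrb.exists_sigma {p q : ℝ} (hpq : p ≤ q) (O : SOrb c t y a b p q) :
    ∃ S : ℝ → ℝ, S p = 0 ∧ ∀ s ∈ Icc p q, HasDerivAt S (1 / eE (t s) (y s)) s := by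
  have h0 : ContinuousOn (fun s => 1 / eE (t s) (y s)) (Icc p q) :=
    continuousOn_const.div O.cont_E fun s _ => (eE_pos _ _).ne'
  have hc : Continuous (IccExtend hpq ((Icc p q).domRestrict fun s => 1 / eE (t s) (y s))) :=
    (continuousOn_iff_continuous_domRestrict.1 h0).Icc_extend'
  refine ⟨fun s => ∫ r in p..s, IccExtend hpq ((Icc p q).domRestrict
    fun s => 1 / eE (t s) (y s)) r, by simp, fun s hs => ?_⟩
  have h1 := intervalIntegral.integral_hasDerivAt_right (hc.intervalIntegrable p s)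
    (hc.stronglyMeasurableAtFilter _ _) hc.continuousAt
  rwa [IccExtend_of_mem hpq _ hs] at h1

/-- `ψ = log (1 + exp y)` -/
theorem SOrb.hpsi {p q : ℝ} (O : SOrb c t y a b p q) (s : ℝ) (hs : s ∈ Icc p q) :
    HasDerivAt (fun s => log (1 + exp (y s))) (b s / eE (t s) (y s)) s := by
  have h1 : HasDerivAt (fun s => 1 + exp (y s))
      (exp (y s) * ((1 + exp (y s)) / exp (y s) * b s / eE (t s) (y s))) s :=
    (O.hy s hs).exp.const_add 1
  have hp : (1 + exp (y s)) ≠ 0 := by positivity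
  refine (h1.log hp).congr_deriv ?_
  have := (eE_pos (t s) (y s)).ne'
  have := (exp_pos (y s)).ne'
  field_simp

/-- the energy equation in the form used below -/
theorem SOrb.a_sq {p q : ℝ} (O : SOrb c t y a b p q) (hc : 1 ≤ c ^ 2) (s : ℝ)
    (hs : s ∈ Icc p q) : a s ^ 2 + b s ^ 2 ≤ 1 + eTh (t s) (y s) * exp (y s) := by
  have h := O.he s hs
  rw [eE_eq] at h
  nlinarith [exp_pos (y s)]

/-- the conclusion of Lemma G -/
structure GCon (t y a b S : ℝ → ℝ) (s0 s : ℝ) : Prop where
  hb : b s ≤ 0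
  hy : y s ≤ y s0
  hd0 : 0 ≤ log (1 + exp (y s0)) - log (1 + exp (y s))
  hd1 : log (1 + exp (y s0)) - log (1 + exp (y s)) ≤ y s0 - y s
  ha : |a s - a s0| ≤ 1 / 200 * (exp (y s0) / (1 + exp (y s0))) * (-b s)
  hS : 0 ≤ S s
  ht : |t s - t s0| ≤ |a s0| * S s + 1 / 200 * (log (1 + exp (y s0)) - log (1 + exp (y s)))
  hth : 9999 / 10000 * eTh (t s0) (y s0) ≤ eTh (t s) (y s)
  hdS : 49995 / 100000 * a s0 ^ 2 * S s ^ 2 ≤ log (1 + exp (y s0)) - log (1 + exp (y s))

theorem SOrb.lemG {s0 s1 : ℝ} (O : SOrb c t y a b s0 s1) (hc : 1 ≤ c ^ 2)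
    (hb0 : b s0 ≤ 0) (hth0 : 1 / 2 ≤ eTh (t s0) (y s0)) (S : ℝ → ℝ) (hS0 : S s0 = 0)
    (hS : ∀ s ∈ Icc s0 s1, HasDerivAt S (1 / eE (t s) (y s)) s) {s : ℝ}
    (hs : s ∈ Icc s0 s1) : GCon t y a b S s0 s := by
  have hs00 : s0 ∈ Icc s0 s1 := ⟨le_rfl, hs.1.trans hs.2⟩
  have hE : ∀ s, 0 < eE (t s) (y s) := fun s => eE_pos _ _
  have hth : ∀ s, 0 < eTh (t s) (y s) := fun s => eTh_pos _ _
  have hY : ∀ s, 0 < exp (y s) := fun s => exp_pos _
  -- `b` decreases
  have hbm : ∀ p q, s0 ≤ p → p ≤ q → q ≤ s1 → b q ≤ b p := by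
    intro p q hp hpq hq
    have h1 := mono_aux (f := fun s => -b s) (p := s0) (q := s1)
      (fun s hs => (O.hb s hs).neg) (fun s _ => by
        rw [← neg_div]
        apply div_nonneg _ (by have := hE s; positivity)
        have h2 : (1 - c ^ 2 - 4 * eTh (t s) (y s)) ≤ 0 := by linarith [hth s]
        have h3 : 0 < 1 + exp (y s) := by linarith [hY s]
        nlinarith) hp hpq hq
    simpa using h1
  have hbn : ∀ r ∈ Icc s0 s1, b r ≤ 0 := fun r hr => (hbm s0 r le_rfl hr.1 hr.2).trans hb0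
  -- `y` decreases
  have hym : ∀ r ∈ Icc s0 s1, y r ≤ y s0 := by
    intro r hr
    have h1 := mono_aux (f := fun s => -y s) (fun s hs => (O.hy s hs).neg) (p := s0) (q := s1)
      (fun s hs => by
        rw [← neg_div]
        apply div_nonneg _ (hE s).le
        have h2 := hbn s hs
        have h3 : 0 < (1 + exp (y s)) / exp (y s) := by have := hY s; positivity
        nlinarith) le_rfl hr.1 hr.2
    simpa using h1
  have hS_mono : ∀ r ∈ Icc s0 s1, 0 ≤ S r := by
    intro r hr
    have h1 := mono_aux hS (p := s0) (q := s1) (fun s _ => by have := hE s; positivity)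
      le_rfl hr.1 hr.2
    rwa [hS0] at h1
  obtain ⟨Y0, hY0⟩ : ∃ Y0, Y0 = exp (y s0) := ⟨_, rfl⟩
  have hY0p : 0 < Y0 := by rw [hY0]; exact exp_pos _
  have hYY : ∀ r ∈ Icc s0 s1, exp (y r) ≤ Y0 := fun r hr => by
    rw [hY0]; exact exp_le_exp.2 (hym r hr)
  have hq0 : 0 < Y0 / (1 + Y0) := by positivity
  have hq1 : Y0 / (1 + Y0) ≤ 1 := by rw [div_le_one (by positivity)]; linarith
  -- `a` decreases, but slowly
  have ha1 : ∀ r ∈ Icc s0 s1, a r ≤ a s0 := by
    intro r hr
    have h1 := mono_aux (f := fun s => -a s) (fun s hs => (O.ha s hs).neg) (p := s0) (q := s1)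
      (fun s _ => by
        rw [← neg_div, neg_neg]
        have := hE s; have := hth s; have := hY s
        positivity) le_rfl hr.1 hr.2
    simpa using h1
  have ha2 : ∀ r ∈ Icc s0 s1, a s0 - a r ≤ 1 / 200 * (Y0 / (1 + Y0)) * (-b r) := by
    intro r hr
    have h1 := mono_aux (f := fun s => a s - 1 / 200 * (Y0 / (1 + Y0)) * b s)
      (fun s hs => (O.ha s hs).sub ((O.hb s hs).const_mul (1 / 200 * (Y0 / (1 + Y0))))) (p := s0)
      (q := s1) (fun s hs => by
        have e1 := hE s; have e2 := hth s; have e3 := hY s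
        have e4 := hYY s hs
        have e5 : exp (y s) ≤ Y0 / (1 + Y0) * (1 + exp (y s)) := by
          rw [div_mul_eq_mul_div, le_div_iff₀ (by positivity)]
          nlinarith
        have e6 : -(eTh (t s) (y s) * exp (y s) / 100) / eE (t s) (y s) -
            1 / 200 * (Y0 / (1 + Y0)) * ((1 + exp (y s)) * (1 - c ^ 2 - 4 * eTh (t s) (y s)) /
              (2 * eE (t s) (y s))) =
            (1 / 100 * eTh (t s) (y s) * (Y0 / (1 + Y0) * (1 + exp (y s)) - exp (y s)) +
              1 / 400 * (Y0 / (1 + Y0) * (1 + exp (y s))) * (c ^ 2 - 1)) / eE (t s) (y s) := by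
          field_simp
          ring
        rw [e6]
        apply div_nonneg _ e1.le
        have e7 : 0 ≤ eTh (t s) (y s) * (Y0 / (1 + Y0) * (1 + exp (y s)) - exp (y s)) :=
          mul_nonneg e2.le (by linarith)
        have e8 : 0 ≤ (Y0 / (1 + Y0) * (1 + exp (y s))) * (c ^ 2 - 1) :=
          mul_nonneg (by positivity) (by linarith)
        nlinarith) le_rfl hr.1 hr.2
    have h2 : 0 ≤ 1 / 200 * (Y0 / (1 + Y0)) * (-b s0) :=
      mul_nonneg (by positivity) (by linarith)
    linarith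
  have ha3 : ∀ r ∈ Icc s0 s1, |a r - a s0| ≤ 1 / 200 * (Y0 / (1 + Y0)) * (-b r) := by
    intro r hr
    rw [abs_le]
    have h1 := ha1 r hr
    have h2 := ha2 r hr
    have h3 : 0 ≤ 1 / 200 * (Y0 / (1 + Y0)) * (-b r) :=
      mul_nonneg (by positivity) (by linarith [hbn r hr])
    constructor <;> linarith
  have ha4 : ∀ r ∈ Icc s0 s1, |a r| ≤ |a s0| + 1 / 200 * (-b r) := by
    intro r hr
    have h1 := ha3 r hr
    have h2 : 1 / 200 * (Y0 / (1 + Y0)) * (-b r) ≤ 1 / 200 * (-b r) := by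
      have h3 : 0 ≤ -b r := by linarith [hbn r hr]
      nlinarith
    have h4 : |a r| ≤ |a s0| + |a r - a s0| := by
      have := abs_add_le (a s0) (a r - a s0)
      simpa using this
    linarith
  -- the function `δ`
  obtain ⟨D, hD⟩ : ∃ D : ℝ → ℝ, D = fun r => log (1 + exp (y s0)) - log (1 + exp (y r)) :=
    ⟨_, rfl⟩
  have hDd : ∀ r ∈ Icc s0 s1, HasDerivAt D (-(b r / eE (t r) (y r))) r := by
    intro r hr
    rw [hD]
    exact (O.hpsi r hr).const_sub _
  have hD0 : D s0 = 0 := by rw [hD]; simp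
  have hDn : ∀ r ∈ Icc s0 s1, 0 ≤ D r := by
    intro r hr
    have h1 := mono_aux hDd (p := s0) (q := s1) (fun s hs => by
      rw [← neg_div]
      exact div_nonneg (by linarith [hbn s hs]) (hE s).le) le_rfl hr.1 hr.2
    rwa [hD0] at h1
  have hDy : ∀ r ∈ Icc s0 s1, D r ≤ y s0 - y r := by
    intro r hr
    rw [hD]
    have h1 : log (1 + exp (y s0)) ≤ log (exp (y s0 - y r) * (1 + exp (y r))) := by
      apply log_le_log (by positivity)
      rw [mul_add, ← exp_add, mul_one, sub_add_cancel]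
      have := one_le_exp (sub_nonneg.2 (hym r hr))
      linarith
    rw [log_mul (exp_pos _).ne' (by positivity), log_exp] at h1
    change log (1 + exp (y s0)) - log (1 + exp (y r)) ≤ _
    linarith
  -- the function `t`
  have ht1 : ∀ r ∈ Icc s0 s1, |t r - t s0| ≤ |a s0| * S r + 1 / 200 * D r := by
    intro r hr
    have h1 := mono_aux (f := fun s => |a s0| * S s + 1 / 200 * D s - t s)
      (fun s hs => (((hS s hs).const_mul (|a s0|)).add
        ((hDd s hs).const_mul (1 / 200))).sub (O.ht s hs))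
      (p := s0) (q := s1) (fun s hs => by
        have e1 := hE s
        have e2 := ha4 s hs
        have e3 := (abs_le.1 e2).2
        have e4 : |a s0| * (1 / eE (t s) (y s)) + 1 / 200 * -(b s / eE (t s) (y s)) -
            a s / eE (t s) (y s) = (|a s0| + 1 / 200 * (-b s) - a s) / eE (t s) (y s) := by
          ring
        rw [e4]
        exact div_nonneg (by linarith) e1.le) le_rfl hr.1 hr.2
    have h2 := mono_aux (f := fun s => |a s0| * S s + 1 / 200 * D s + t s)
      (fun s hs => (((hS s hs).const_mul (|a s0|)).add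
        ((hDd s hs).const_mul (1 / 200))).add (O.ht s hs))
      (p := s0) (q := s1) (fun s hs => by
        have e1 := hE s
        have e2 := ha4 s hs
        have e3 := (abs_le.1 e2).1
        have e4 : |a s0| * (1 / eE (t s) (y s)) + 1 / 200 * -(b s / eE (t s) (y s)) +
            a s / eE (t s) (y s) = (|a s0| + 1 / 200 * (-b s) + a s) / eE (t s) (y s) := by
          ring
        rw [e4]
        exact div_nonneg (by linarith) e1.le) le_rfl hr.1 hr.2
    simp only [hS0, hD0, mul_zero, zero_add, add_zero, zero_sub] at h1 h2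
    rw [abs_le]
    constructor <;> linarith
  -- the function `G`
  obtain ⟨g, hg⟩ : ∃ g : ℝ → ℝ, g = fun r => 1 + 39999 / 10000 * D r - 1 / 50 * |a s0| * S r :=
    ⟨_, rfl⟩
  obtain ⟨h, hh⟩ : ∃ h : ℝ → ℝ, h = fun r => 39999 / 10000 * (-b r) - 1 / 50 * |a s0| :=
    ⟨_, rfl⟩
  obtain ⟨x0, hx0⟩ : ∃ x0, x0 = eTh (t s0) (y s0) * (1 + Y0) := ⟨_, rfl⟩
  have hx0p : 0 < x0 := by rw [hx0]; have := hth s0; positivity
  have hg0 : g s0 = 1 := by rw [hg]; simp [hD0, hS0]
  have hgd : ∀ r ∈ Icc s0 s1, HasDerivAt g (h r / eE (t r) (y r)) r := by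
    intro r hr
    rw [hg, hh]
    refine ((((hDd r hr).const_mul (39999 / 10000)).const_add 1).sub
      ((hS r hr).const_mul (1 / 50 * |a s0|))).congr_deriv ?_
    ring
  -- lower bounds for `θ X` and `θ`
  have hlow : ∀ r ∈ Icc s0 s1, x0 * exp (g r - 1) ≤ eTh (t r) (y r) * (1 + exp (y r)) ∧
      eTh (t s0) (y s0) * exp (g r - 1) ≤ eTh (t r) (y r) := by
    intro r hr
    have e1 := ht1 r hr
    have e2 := (abs_le.1 e1).2
    have e3 := hDy r hr
    have e4 := hDn r hr
    have e5 : g r - 1 ≤ 4 * D r - (t r - t s0) / 50 := by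
      rw [hg]
      simp only
      have : 0 ≤ |a s0| := abs_nonneg _
      nlinarith
    have e6 : 5 * D r ≤ 5 * (y s0 - y r) := by linarith
    constructor
    · have e7 : 1 + exp (y r) = exp (log (1 + exp (y r))) := (exp_log (by positivity)).symm
      have e8 : 1 + Y0 = exp (log (1 + exp (y s0))) := by
        rw [hY0]; exact (exp_log (by positivity)).symm
      rw [hx0, e7, e8, eTh, eTh, ← exp_add, ← exp_add, ← exp_add, exp_le_exp]
      have e9 : D r = log (1 + exp (y s0)) - log (1 + exp (y r)) := by rw [hD]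
      linarith
    · rw [eTh, eTh, ← exp_add, exp_le_exp]
      linarith
  -- the second derivative
  have hlow2 : ∀ r ∈ Icc s0 s1, x0 * g r ≤ eTh (t r) (y r) * (1 + exp (y r)) := by
    intro r hr
    refine le_trans ?_ (hlow r hr).1
    have e1 := add_one_le_exp (g r - 1)
    exact mul_le_mul_of_nonneg_left (by linarith) hx0p.le
  have henergy : a s0 ^ 2 ≤ 2 * x0 := by
    have e1 := O.a_sq hc s0 hs00
    rw [← hY0] at e1
    rw [hx0]
    nlinarith [sq_nonneg (b s0), hth s0]
  obtain ⟨hp, hhp⟩ : ∃ hp : ℝ → ℝ, hp = fun r => 39999 / 10000 *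
      ((1 + exp (y r)) * (c ^ 2 - 1 + 4 * eTh (t r) (y r)) / (2 * eE (t r) (y r))) := ⟨_, rfl⟩
  have hhd : ∀ r ∈ Icc s0 s1, HasDerivAt h (hp r) r := by
    intro r hr
    rw [hh, hhp]
    refine (((O.hb r hr).neg.const_mul (39999 / 10000)).sub_const _).congr_deriv ?_
    ring
  have hhm : ∀ p q, s0 ≤ p → p ≤ q → q ≤ s1 → h p ≤ h q := by
    intro p q hp hpq hq
    rw [hh]
    have := hbm p q hp hpq hq
    simp only
    linarith
  have hkey : ∀ r ∈ Icc s0 s1, 39999 / 5000 * x0 * g r ≤ eE (t r) (y r) * hp r := by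
    intro r hr
    have e1 := hE r
    have e2 : eE (t r) (y r) * hp r =
        39999 / 10000 * ((1 + exp (y r)) * (c ^ 2 - 1 + 4 * eTh (t r) (y r)) / 2) := by
      rw [hhp]
      field_simp
    rw [e2]
    have e3 := hlow2 r hr
    have e4 : 0 ≤ (1 + exp (y r)) * (c ^ 2 - 1) :=
      mul_nonneg (by have := hY r; positivity) (by linarith)
    nlinarith
  -- the lower bound for `G` while its derivative is not positive
  have hG1 : ∀ r ∈ Icc s0 s1, h r ≤ 0 → 9999 / 10000 ≤ g r := by
    intro r hr hhr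
    have hP : ∀ q ∈ Icc s0 r, 1 - h s0 ^ 2 / (39999 / 5000 * x0) ≤ g q ^ 2 := by
      intro q hq
      have hkp : 0 < 39999 / 5000 * x0 := by positivity
      have h1 := mono_aux (f := fun s => g s * g s - h s * h s / (39999 / 5000 * x0))
        (p := s0) (q := r) (fun s hs => by
          have hs' : s ∈ Icc s0 s1 := ⟨hs.1, hs.2.trans hr.2⟩
          exact ((hgd s hs').mul (hgd s hs')).sub (((hhd s hs').mul (hhd s hs')).div_const _))
        (fun s hs => by
          have hs' : s ∈ Icc s0 s1 := ⟨hs.1, hs.2.trans hr.2⟩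
          have e1 := hE s
          have e2 := hkey s hs'
          have e3 : h s ≤ 0 := (hhm s r hs.1 hs.2 hr.2).trans hhr
          have e4 : h s / eE (t s) (y s) * g s + g s * (h s / eE (t s) (y s)) -
              (hp s * h s + h s * hp s) / (39999 / 5000 * x0) =
              2 * (-h s) / eE (t s) (y s) * ((eE (t s) (y s) * hp s) / (39999 / 5000 * x0) -
                g s) := by
            field_simp
            ring
          rw [e4]
          apply mul_nonneg
          · exact div_nonneg (by linarith) e1.le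
          · rw [sub_nonneg, le_div_iff₀ hkp]
            linarith) le_rfl hq.1 hq.2
      simp only [hg0, mul_one] at h1
      have h2 : 0 ≤ h q * h q / (39999 / 5000 * x0) :=
        div_nonneg (mul_self_nonneg _) hkp.le
      rw [pow_two, pow_two]
      linarith
    have hh0 : h s0 ^ 2 ≤ 1 / 2500 * a s0 ^ 2 := by
      have e1 : h s0 ≤ 0 := (hhm s0 r le_rfl hr.1 hr.2).trans hhr
      have e2 : -(1 / 50 * |a s0|) ≤ h s0 := by
        rw [hh]
        simp only
        linarith
      have e3 : |a s0| ^ 2 = a s0 ^ 2 := sq_abs _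
      nlinarith [abs_nonneg (a s0)]
    have hlb : 9998 / 10000 + 1 / 1000000 ≤ 1 - h s0 ^ 2 / (39999 / 5000 * x0) := by
      have hkp : 0 < 39999 / 5000 * x0 := by positivity
      have e1 : h s0 ^ 2 / (39999 / 5000 * x0) ≤ 199 / 1000000 := by
        rw [div_le_iff₀ hkp]
        nlinarith
      linarith
    have hpos : 0 < g r := by
      by_contra hneg
      push Not at hneg
      have hcont : ContinuousOn g (Icc s0 r) := fun x hx =>
        (hgd x ⟨hx.1, hx.2.trans hr.2⟩).continuousAt.continuousWithinAt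
      have hiv := intermediate_value_Icc' hr.1 hcont
      obtain ⟨q, hq, hq0⟩ := hiv (show (0 : ℝ) ∈ Icc (g r) (g s0) from ⟨hneg, by
        rw [hg0]; norm_num⟩)
      have := hP q hq
      rw [hq0] at this
      linarith
    have h3 := hP r ⟨hr.1, le_rfl⟩
    by_contra hlt
    push Not at hlt
    nlinarith
  have hG : ∀ r ∈ Icc s0 s1, 9999 / 10000 ≤ g r := by
    intro r hr
    rcases le_total (h r) 0 with hr0 | hr0
    · exact hG1 r hr hr0
    · obtain ⟨q, hq, hq1, hq2⟩ : ∃ q ∈ Icc s0 r, 9999 / 10000 ≤ g q ∧ 0 ≤ h q := by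
        rcases le_total (h s0) 0 with h0 | h0
        · have hcont : ContinuousOn h (Icc s0 r) :=
            fun x hx => (hhd x ⟨hx.1, hx.2.trans hr.2⟩).continuousAt.continuousWithinAt
          obtain ⟨q, hq, hq0⟩ := intermediate_value_Icc hr.1 hcont
            (show (0 : ℝ) ∈ Icc (h s0) (h r) from ⟨h0, hr0⟩)
          exact ⟨q, hq, hG1 q ⟨hq.1, hq.2.trans hr.2⟩ hq0.le, hq0.ge⟩
        · exact ⟨s0, ⟨le_rfl, hr.1⟩, by rw [hg0]; norm_num, h0⟩
      have h1 := mono_aux (f := g) (p := q) (q := r)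
        (fun s hs => hgd s ⟨hq.1.trans hs.1, hs.2.trans hr.2⟩) (fun s hs =>
        div_nonneg (hq2.trans (hhm q s hq.1 hs.1 (hs.2.trans hr.2))) (hE s).le)
        le_rfl hq.2 le_rfl
      linarith
  -- conclusions
  have hthr : ∀ r ∈ Icc s0 s1, 9999 / 10000 * eTh (t s0) (y s0) ≤ eTh (t r) (y r) := by
    intro r hr
    refine le_trans ?_ (hlow r hr).2
    have e1 := add_one_le_exp (g r - 1)
    have e2 := hG r hr
    have e3 := hth s0
    nlinarith
  have hb2 : ∀ r ∈ Icc s0 s1, 9999 / 10000 * a s0 ^ 2 * S r ≤ -b r := by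
    intro r hr
    have h1 := mono_aux (f := fun s => -b s - 9999 / 10000 * a s0 ^ 2 * S s)
      (fun s hs => (O.hb s hs).neg.sub ((hS s hs).const_mul (9999 / 10000 * a s0 ^ 2))) (p := s0)
      (q := s1) (fun s hs => by
        have e1 := hE s
        have e2 := hlow2 s hs
        have e3 := hG s hs
        have e4 : -((1 + exp (y s)) * (1 - c ^ 2 - 4 * eTh (t s) (y s)) /
            (2 * eE (t s) (y s))) - 9999 / 10000 * a s0 ^ 2 * (1 / eE (t s) (y s)) =
            ((1 + exp (y s)) * (c ^ 2 - 1) / 2 + (2 * (eTh (t s) (y s) * (1 + exp (y s))) -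
              9999 / 10000 * a s0 ^ 2)) / eE (t s) (y s) := by
          field_simp
          ring
        rw [e4]
        apply div_nonneg _ e1.le
        have e5 : 0 ≤ (1 + exp (y s)) * (c ^ 2 - 1) :=
          mul_nonneg (by have := hY s; positivity) (by linarith)
        nlinarith) le_rfl hr.1 hr.2
    simp only [hS0, mul_zero, sub_zero] at h1
    linarith
  have hD2 : ∀ r ∈ Icc s0 s1, 49995 / 100000 * a s0 ^ 2 * S r ^ 2 ≤ D r := by
    intro r hr
    have h1 := mono_aux (f := fun s => D s - 49995 / 100000 * a s0 ^ 2 * (S s * S s))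
      (fun s hs => (hDd s hs).sub (((hS s hs).mul (hS s hs)).const_mul
        (49995 / 100000 * a s0 ^ 2)))
      (p := s0) (q := s1) (fun s hs => by
        have e1 := hE s
        have e2 := hb2 s hs
        have e4 : -(b s / eE (t s) (y s)) - 49995 / 100000 * a s0 ^ 2 *
            (1 / eE (t s) (y s) * S s + S s * (1 / eE (t s) (y s))) =
            (-b s - 9999 / 10000 * a s0 ^ 2 * S s) / eE (t s) (y s) := by
          field_simp
          ring
        rw [e4]
        exact div_nonneg (by linarith) e1.le) le_rfl hr.1 hr.2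
    simp only [hS0, hD0, mul_zero, sub_zero] at h1
    rw [pow_two (S r)]
    linarith
  have hDs : D s = log (1 + exp (y s0)) - log (1 + exp (y s)) := by rw [hD]
  exact
    { hb := hbn s hs
      hy := hym s hs
      hd0 := hDs ▸ hDn s hs
      hd1 := hDs ▸ hDy s hs
      ha := by rw [← hY0]; exact ha3 s hs
      hS := hS_mono s hs
      ht := hDs ▸ ht1 s hs
      hth := hthr s hs
      hdS := hDs ▸ hD2 s hs }

end Pool.Agent.Lib.MP_6b187a_gt.Div.Lg
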