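import Pool.Agent.Lib.MP_6b187a_gt.Div.Diag
import Pool.Agent.Lib.MP_6b187a_gt.Div.Sys

/-!
# The metric `g = E (dt² + (Y/X)² dy² + dx² / Y)` on `ℝ³`
-/

set_option autoImplicit false
set_option maxSynthPendingDepth 3

namespace Pool.Agent.Lib.MP_6b187a_gt.Div

open Filter Set
open scoped ContDiff Topology

noncomputable section

/-- The space `ℝ³`. -/
abbrev R3 : Type := EuclideanSpace ℝ (Fin 3)

/-- The point with the coordinates `t`, `y`, `x`. -/
def pt (t y x : ℝ) : R3 := !₂[t, y, x]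

@[simp] theorem pt_zero (t y x : ℝ) : pt t y x 0 = t := rfl
@[simp] theorem pt_one (t y x : ℝ) : pt t y x 1 = y := rfl
@[simp] theorem pt_two (t y x : ℝ) : pt t y x 2 = x := rfl

theorem pt_eta (p : R3) : pt (p 0) (p 1) (p 2) = p := by
  ext i
  fin_cases i <;> rfl

theorem fY_pos (y : ℝ) : 0 < fY y := Real.exp_pos y
theorem fX_pos (y : ℝ) : 0 < fX y := by
  have := Real.exp_pos y
  simp only [fX]
  linarith
theorem fw_pos (t y : ℝ) : 0 < fw t y := Real.exp_pos _
theorem fθ_pos (t y : ℝ) : 0 < fθ t y := Real.exp_pos _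
theorem fE_pos (t y : ℝ) : 0 < fE t y := by
  have h1 := Real.exp_pos y
  have h2 := Real.exp_pos (-t / 50 - 4 * y)
  simp only [fE]
  linarith
theorem one_lt_fX (y : ℝ) : 1 < fX y := by
  have := Real.exp_pos y
  simp only [fX]
  linarith
theorem one_lt_fE (t y : ℝ) : 1 < fE t y := by
  have h1 := Real.exp_pos y
  have h2 := Real.exp_pos (-t / 50 - 4 * y)
  simp only [fE]
  linarith
theorem fX_eq (y : ℝ) : fX y = 1 + fY y := rfl
theorem fE_eq (t y : ℝ) : fE t y = 1 + fY y + fw t y := rfl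
theorem fE_eq' (t y : ℝ) : fE t y = fX y + fw t y := rfl
theorem fw_eq (t y : ℝ) : fw t y = fθ t y * fY y := by
  simp only [fw, fθ, fY, ← Real.exp_add]
  ring_nf

/-- The coefficients of the metric. -/
def co (i : Fin 3) (p : R3) : ℝ :=
  match i with
  | 0 => fE (p 0) (p 1)
  | 1 => fE (p 0) (p 1) * (fY (p 1) / fX (p 1)) ^ 2
  | 2 => fE (p 0) (p 1) / fY (p 1)

theorem co_zero (p : R3) : co 0 p = fE (p 0) (p 1) := rfl
theorem co_one (p : R3) : co 1 p = fE (p 0) (p 1) * (fY (p 1) / fX (p 1)) ^ 2 := rfl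
theorem co_two (p : R3) : co 2 p = fE (p 0) (p 1) / fY (p 1) := rfl

theorem contDiff_coord (i : Fin 3) : ContDiff ℝ ∞ fun p : R3 => p i :=
  (RM.pr i).contDiff

theorem contDiff_fE : ContDiff ℝ ∞ fun p : R3 => fE (p 0) (p 1) := by
  unfold fE
  exact (contDiff_const.add (contDiff_coord 1).exp).add
    ((((contDiff_coord 0).neg.div_const 50).sub (contDiff_const.mul (contDiff_coord 1))).exp)

theorem contDiff_fY : ContDiff ℝ ∞ fun p : R3 => fY (p 1) := (contDiff_coord 1).exp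

theorem contDiff_fX : ContDiff ℝ ∞ fun p : R3 => fX (p 1) :=
  contDiff_const.add (contDiff_coord 1).exp

theorem contDiff_co (i : Fin 3) : ContDiff ℝ ∞ (co i) := by
  fin_cases i
  · exact contDiff_fE
  · exact contDiff_fE.mul ((contDiff_fY.div contDiff_fX fun p => (fX_pos _).ne').pow 2)
  · exact contDiff_fE.div contDiff_fY fun p => (fY_pos _).ne'

theorem co_pos (i : Fin 3) (p : R3) : 0 < co i p := by
  fin_cases i
  · exact fE_pos _ _
  · exact mul_pos (fE_pos _ _) (pow_pos (div_pos (fY_pos _) (fX_pos _)) 2)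
  · exact div_pos (fE_pos _ _) (fY_pos _)

/-- The metric `g = E (dt² + (Y/X)² dy² + dx² / Y)`. -/
def gM : RM 3 := RM.diag co contDiff_co co_pos

theorem gM_g (p v w : R3) : gM.g p v w = fE (p 0) (p 1) * (v 0 * w 0) +
    fE (p 0) (p 1) * (fY (p 1) / fX (p 1)) ^ 2 * (v 1 * w 1) +
    fE (p 0) (p 1) / fY (p 1) * (v 2 * w 2) := by
  rw [gM, RM.diag_g, Fin.sum_univ_three]
  rfl

end

end Pool.Agent.Lib.MP_6b187a_gt.Div
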