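import Pool.Agent.Lib.MP_6b187a_gt.Div.PosP
import Pool.Agent.Lib.MP_6b187a_gt.Div.PsiM

/-!
# Positivity of the coefficients for `|c| ≥ 1`, `θ ≥ 0.49`
-/

set_option autoImplicit false

namespace Pool.Agent.Lib.MP_6b187a_gt.Div.Pos

/-- `log E` is subharmonic in the `(t, ψ)`-plane. -/
theorem posM0 (t y : ℝ) :
    0 < fE t y * (fEtt t y + fEpp t y) - fEt t y ^ 2 - fEp t y ^ 2 := by
  have h1 := posN (c := 0) (t := t) (y := y) (a := √(fE t y)) (b := 0) (by norm_num)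
    (by rw [Real.sq_sqrt (fE_pos t y).le]; ring)
  rw [Real.sq_sqrt (fE_pos t y).le] at h1
  have h2 : (fE t y + 0 ^ 2) * (fEtt t y + fEpp t y - 0 ^ 2 * fX y) - fEt t y ^ 2 -
      (fEp t y - 0 ^ 2 * fX y) ^ 2 =
      fE t y * (fEtt t y + fEpp t y) - fEt t y ^ 2 - fEp t y ^ 2 := by ring
  rw [h2] at h1
  exact h1

/-- The three coefficients, multiplied by `E`, as functions of `Y` and `θ`. -/
theorem mTT_mul (t y : ℝ) : mTT (fE t y) (fEt t y) (fEp t y) (fEtt t y) (fY y) (fX y) * fE t y =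
    fθ t y * fX y * fY y / 2500 +
      (4 * fθ t y - 1) * fX y ^ 2 * (1 + 5 * fθ t y * fY y) / (2 * fY y) := by
  have hY := (fY_pos y).ne'
  have hE := (fE_pos t y).ne'
  have hXY : fX y = 1 + fY y := fX_eq y
  have hEE : fE t y = fX y + fθ t y * fY y := by rw [fE_eq, fw_eq]
  rw [mTT, fEt_eq, fEp_eq, fEtt_eq]
  have hE' := hE
  rw [hEE, hXY] at hE'
  rw [hEE, hXY]
  field_simp
  ring

theorem mTP_mul (t y : ℝ) : mTP (fE t y) (fEt t y) (fEp t y) (fEtp t y) * fE t y =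
    fθ t y * fX y * (11 * fY y + 8 - 4 * fθ t y * fY y) / 100 := by
  have hY := (fY_pos y).ne'
  have hE := (fE_pos t y).ne'
  have hXY : fX y = 1 + fY y := fX_eq y
  have hEE : fE t y = fX y + fθ t y * fY y := by rw [fE_eq, fw_eq]
  rw [mTP, fEt_eq, fEp_eq, fEtp_eq]
  have hE' := hE
  rw [hEE, hXY] at hE'
  rw [hEE, hXY]
  field_simp
  ring

theorem mPP_mul (t y : ℝ) :
    mPP (fE t y) (fEt t y) (fEp t y) (fEpp t y) (fY y) (fX y) (fX y) * fE t y =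
    fX y ^ 2 * (3 / 2 * (fX y / fY y ^ 2) + fθ t y * (55 / 2 + 25 / fY y - 1 / fX y) +
      fθ t y ^ 2 * (5 / 2 + 5 / fX y)) + fY y ^ 2 * fθ t y ^ 2 / 5000 := by
  have hY := (fY_pos y).ne'
  have hX := (fX_pos y).ne'
  have hE := (fE_pos t y).ne'
  have hXY : fX y = 1 + fY y := fX_eq y
  have hEE : fE t y = fX y + fθ t y * fY y := by rw [fE_eq, fw_eq]
  have h1 : mPP (fE t y) (fEt t y) (fEp t y) (fEpp t y) (fY y) (fX y) (fX y) * fE t y =
      fEpp t y * fE t y - fEp t y ^ 2 + fEt t y ^ 2 / 2 -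
        fEp t y * fX y / (2 * fY y) * fE t y - fE t y ^ 2 * fX y / fY y +
        3 / 2 * fE t y ^ 2 * fX y ^ 2 / fY y ^ 2 := by
    rw [mPP]
    field_simp
  rw [h1, fEt_eq, fEp_eq, fEpp_eq, hEE]
  rw [hXY] at hX ⊢
  field_simp
  ring

/-- The quadratic form in the derivative of the monotone quantity of the second case is positive
definite. -/
theorem posM {t y : ℝ} (hθ2 : 49 / 100 ≤ fθ t y) (z₁ z₂ : ℝ) (hz : z₁ ≠ 0 ∨ z₂ ≠ 0) :
    0 < mTT (fE t y) (fEt t y) (fEp t y) (fEtt t y) (fY y) (fX y) * z₁ ^ 2 +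
      2 * mTP (fE t y) (fEt t y) (fEp t y) (fEtp t y) * (z₁ * z₂) +
      mPP (fE t y) (fEt t y) (fEp t y) (fEpp t y) (fY y) (fX y) (fX y) * z₂ ^ 2 := by
  have hY := fY_pos y
  have hX := fX_pos y
  have hE := fE_pos t y
  have hθ := fθ_pos t y
  have hXY : fX y = 1 + fY y := fX_eq y
  have h1 := mTT_mul t y
  have h2 := mTP_mul t y
  have h3 := mPP_mul t y
  generalize mTT (fE t y) (fEt t y) (fEp t y) (fEtt t y) (fY y) (fX y) = P at *
  generalize mTP (fE t y) (fEt t y) (fEp t y) (fEtp t y) = R at *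
  generalize mPP (fE t y) (fEt t y) (fEp t y) (fEpp t y) (fY y) (fX y) (fX y) = S at *
  generalize fE t y = E at *
  generalize fθ t y = θ at *
  generalize fX y = X at *
  generalize fY y = Y at *
  have h4θ : 0 < 4 * θ - 1 := by linarith
  -- lower bounds
  have hP : 5 / 2 * (4 * θ - 1) * θ * X ^ 2 ≤ P * E := by
    rw [h1]
    have e1 : (4 * θ - 1) * X ^ 2 * (1 + 5 * θ * Y) / (2 * Y) =
        5 / 2 * (4 * θ - 1) * θ * X ^ 2 + (4 * θ - 1) * X ^ 2 / (2 * Y) := by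
      field_simp
      ring
    rw [e1]
    have e2 : 0 ≤ θ * X * Y / 2500 := by positivity
    have e3 : 0 ≤ (4 * θ - 1) * X ^ 2 / (2 * Y) := by positivity
    linarith
  have hS : X ^ 2 * (5 / 2 * θ * (11 + θ)) ≤ S * E := by
    rw [h3]
    have e1 : 1 / X ≤ 1 / Y := one_div_le_one_div_of_le hY (by linarith)
    have e2 : 0 ≤ 1 / Y := by positivity
    have e3 : 55 / 2 ≤ 55 / 2 + 25 / Y - 1 / X := by
      have : 25 / Y = 25 * (1 / Y) := by ring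
      rw [this]
      linarith
    have e4 : 5 / 2 ≤ 5 / 2 + 5 / X := by
      have : 0 ≤ 5 / X := by positivity
      linarith
    have e5 : 5 / 2 * θ * (11 + θ) ≤ 3 / 2 * (X / Y ^ 2) + θ * (55 / 2 + 25 / Y - 1 / X) +
        θ ^ 2 * (5 / 2 + 5 / X) := by
      have f1 : θ * (55 / 2) ≤ θ * (55 / 2 + 25 / Y - 1 / X) :=
        mul_le_mul_of_nonneg_left e3 hθ.le
      have f2 : θ ^ 2 * (5 / 2) ≤ θ ^ 2 * (5 / 2 + 5 / X) :=
        mul_le_mul_of_nonneg_left e4 (sq_nonneg θ)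
      have f3 : 0 ≤ 3 / 2 * (X / Y ^ 2) := by positivity
      nlinarith
    have e6 := mul_le_mul_of_nonneg_left e5 (sq_nonneg X)
    have e7 : 0 ≤ Y ^ 2 * θ ^ 2 / 5000 := by positivity
    linarith
  have hR : (R * E) ^ 2 ≤ θ ^ 2 * X ^ 4 * (11 + 4 * θ) ^ 2 / 10000 := by
    rw [h2]
    have e1 : |11 * Y + 8 - 4 * θ * Y| ≤ (11 + 4 * θ) * X := by
      rw [abs_le, hXY]
      have : 0 ≤ θ * Y := by positivity
      constructor <;> nlinarith
    have e2 : (11 * Y + 8 - 4 * θ * Y) ^ 2 ≤ ((11 + 4 * θ) * X) ^ 2 := by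
      rw [← sq_abs (11 * Y + 8 - 4 * θ * Y)]
      exact pow_le_pow_left₀ (abs_nonneg _) e1 2
    have e3 : (θ * X * (11 * Y + 8 - 4 * θ * Y) / 100) ^ 2 =
        θ ^ 2 * X ^ 2 / 10000 * (11 * Y + 8 - 4 * θ * Y) ^ 2 := by ring
    have e4 : θ ^ 2 * X ^ 4 * (11 + 4 * θ) ^ 2 / 10000 =
        θ ^ 2 * X ^ 2 / 10000 * ((11 + 4 * θ) * X) ^ 2 := by ring
    rw [e3, e4]
    exact mul_le_mul_of_nonneg_left e2 (by positivity)
  have hnum : (11 + 4 * θ) ^ 2 / 10000 < 25 / 4 * (4 * θ - 1) * (11 + θ) := by nlinarith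
  have hPS : 25 / 4 * (4 * θ - 1) * θ ^ 2 * X ^ 4 * (11 + θ) ≤ (P * E) * (S * E) := by
    have e1 : 0 ≤ 5 / 2 * (4 * θ - 1) * θ * X ^ 2 := by positivity
    have e2 : 0 ≤ X ^ 2 * (5 / 2 * θ * (11 + θ)) := by positivity
    have := mul_le_mul hP hS e2 (e1.trans hP)
    calc 25 / 4 * (4 * θ - 1) * θ ^ 2 * X ^ 4 * (11 + θ)
        = 5 / 2 * (4 * θ - 1) * θ * X ^ 2 * (X ^ 2 * (5 / 2 * θ * (11 + θ))) := by ring
      _ ≤ _ := this
  have hdisc : (R * E) ^ 2 < (P * E) * (S * E) := by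
    have e1 : θ ^ 2 * X ^ 4 * (11 + 4 * θ) ^ 2 / 10000 <
        25 / 4 * (4 * θ - 1) * θ ^ 2 * X ^ 4 * (11 + θ) := by
      have e2 : 0 < θ ^ 2 * X ^ 4 := by positivity
      have := mul_lt_mul_of_pos_left hnum e2
      calc θ ^ 2 * X ^ 4 * (11 + 4 * θ) ^ 2 / 10000
          = θ ^ 2 * X ^ 4 * ((11 + 4 * θ) ^ 2 / 10000) := by ring
        _ < θ ^ 2 * X ^ 4 * (25 / 4 * (4 * θ - 1) * (11 + θ)) := this
        _ = 25 / 4 * (4 * θ - 1) * θ ^ 2 * X ^ 4 * (11 + θ) := by ring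
    linarith
  have hPpos : 0 < P := by
    have e1 : 0 < 5 / 2 * (4 * θ - 1) * θ * X ^ 2 := by positivity
    have e2 : 0 < P * E := lt_of_lt_of_le e1 hP
    exact (mul_pos_iff_of_pos_right hE).1 e2
  have hd : (2 * R) ^ 2 < 4 * P * S := by
    have e1 : E ^ 2 * R ^ 2 < E ^ 2 * (P * S) := by
      calc E ^ 2 * R ^ 2 = (R * E) ^ 2 := by ring
        _ < (P * E) * (S * E) := hdisc
        _ = E ^ 2 * (P * S) := by ring
    have e2 : R ^ 2 < P * S := lt_of_mul_lt_mul_left e1 (sq_nonneg E)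
    linarith
  have := quad_pos hPpos hd z₁ z₂ hz
  calc (0 : ℝ) < P * z₁ ^ 2 + 2 * R * (z₂ * z₁) + S * z₂ ^ 2 := this
    _ = P * z₁ ^ 2 + 2 * R * (z₁ * z₂) + S * z₂ ^ 2 := by ring

end Pool.Agent.Lib.MP_6b187a_gt.Div.Pos
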