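import Pool.Agent.Lib.MP_6b187a_gt.Div.NoConj
import Pool.Agent.Lib.MP_6b187a_gt.Div.PosM

/-!
# A Jacobi field which vanishes at two points vanishes between them: assembly
-/

set_option autoImplicit false

namespace Pool.Agent.Lib.MP_6b187a_gt.Div

open Set Pos

noncomputable section

variable {c dc : ℝ} {k t y a b τ u ξ A B : ℝ → ℝ} {s1 s2 : ℝ}

/-- A solution of the linearised equations, orthogonal to the geodesic, which vanishes at `s1` and
`s2` vanishes between them. `hdich` is the dichotomy for `c² ≥ 1`. -/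
theorem lin_zero (hs : s1 < s2)
    (hdich : 1 ≤ c ^ 2 → (∀ s ∈ Icc s1 s2, 49 / 100 ≤ fθ (t s) (y s)) ∨
      (∀ s ∈ Icc s1 s2, 20 * fθ (t s) (y s) * fY (y s) ≤ 21 * (b s ^ 2 + c ^ 2 * fY (y s))))
    (hlin : ∀ s ∈ Icc s1 s2, LinAt c dc k t y a b τ u ξ A B s)
    (hT : ∀ s ∈ Icc s1 s2, a s * τ s + b s * u s + c * ξ s = 0)
    (h1 : τ s1 = 0 ∧ u s1 = 0 ∧ ξ s1 = 0) (h2 : τ s2 = 0 ∧ u s2 = 0 ∧ ξ s2 = 0) :
    ∀ s ∈ Icc s1 s2, τ s = 0 ∧ u s = 0 ∧ ξ s = 0 := by
  have hen : ∀ s ∈ Icc s1 s2, a s ^ 2 + b s ^ 2 + c ^ 2 * fY (y s) = fE (t s) (y s) :=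
    fun s hs' => (hlin s hs').en
  rcases le_total (c ^ 2) 1 with hc | hc
  · exact zero_of_le_one hs (fun s hs' => ⟨posN_F hc (hen s hs'), posN hc (hen s hs')⟩)
      hlin hT h1 h2
  · rcases hdich hc with hd | hd
    · have hc0 : c ≠ 0 := by
        rintro rfl
        norm_num at hc
      exact zero_of_curv hc0 (fun s hs' => posM0 _ _) (fun s hs' z w hzw => posM (hd s hs') z w hzw)
        hlin hT h1 h2
    · have hL : ∀ s ∈ Icc s1 s2, 0 < pL c (fun s => fY (y s)) b s := by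
        intro s hs'
        have hY : 0 < fY (y s) := (hlin s hs').Gpos
        have : 0 < c ^ 2 * fY (y s) := mul_pos (by linarith) hY
        simp only [pL]
        positivity
      refine zero_of_form hL (fun s hs' N m hNm => ?_) hlin hT h1 h2
      have hY : 0 < fY (y s) := (hlin s hs').Gpos
      refine posP hc (hen s hs') ?_ N m hNm
      rw [mul_div_assoc', le_div_iff₀ hY]
      exact hd s hs'

end

end Pool.Agent.Lib.MP_6b187a_gt.Div
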