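import Pool.Agent.Lib.MP_6b187a_gt.Div.NoConj2
import Pool.Agent.Lib.MP_6b187a_gt.Div.Dich
import Pool.Agent.Lib.MP_6b187a_gt.Div.JacRed
import Pool.Agent.Lib.MP_6b187a_gt.Div.Bound

/-!
# The metric `gM` has no conjugate points
-/

set_option autoImplicit false
set_option maxSynthPendingDepth 3

namespace Pool.Agent.Lib.MP_6b187a_gt.Div

open Set

noncomputable section

/-- The metric `gM` has no conjugate points. -/
theorem gM_noConjugatePoints : gM.NoConjugatePoints := by
  have key : ∀ γ J : ℝ → R3, gM.IsGeodesic γ → gM.IsJacobi γ J → ∀ a b : ℝ, a < b → J a = 0 →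
      J b = 0 → ∀ t, J t = 0 := by
    intro γ J hγ hJ s1 s2 hs h1 h2
    obtain ⟨c, hc, horb⟩ := orb_of_isGeodesic hγ
    obtain ⟨dc, hlin⟩ := lin_of_isJacobi hγ hJ hc horb hs.ne h1 h2
    have hz : ∀ s, J s = 0 → J s 0 = 0 ∧ jU γ J s = 0 ∧ J s 2 = 0 := by
      intro s h
      simp [jU, h]
    have hzero := lin_zero hs (fun hc => orb_dich (fun s _ => horb s) hc)
      (fun s _ => (hlin s).1) (fun s _ => (hlin s).2) (hz s1 h1) (hz s2 h2)
    have hJ0 : ∀ s ∈ Icc s1 s2, J s = 0 := by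
      intro s hs'
      obtain ⟨e0, e1, e2⟩ := hzero s hs'
      have hφ : fY (γ s 1) / fX (γ s 1) ≠ 0 := (div_pos (fY_pos _) (fX_pos _)).ne'
      have e1' : J s 1 = 0 := by
        simp only [jU] at e1
        exact (mul_eq_zero.1 e1).resolve_left hφ
      ext i
      fin_cases i
      · exact e0
      · exact e1'
      · exact e2
    have hmid : (s1 + s2) / 2 ∈ Ioo s1 s2 := ⟨by linarith, by linarith⟩
    have hev : J =ᶠ[nhds ((s1 + s2) / 2)] fun _ => (0 : R3) := by
      filter_upwards [Icc_mem_nhds hmid.1 hmid.2] with x hx using hJ0 x hx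
    have hd : deriv J ((s1 + s2) / 2) = 0 := by
      rw [hev.deriv_eq, deriv_const]
    exact RM.IsJacobi.eq_zero hγ.smooth hJ (hJ0 _ (Ioo_subset_Icc_self hmid)) hd
  intro γ J hγ hJ a b hab h1 h2
  rcases lt_or_gt_of_ne hab with h | h
  · exact key γ J hγ hJ a b h h1 h2
  · exact key γ J hγ hJ b a h h2 h1

end

end Pool.Agent.Lib.MP_6b187a_gt.Div
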