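import Mathlib

/-!
# Ordinary differential equations: uniqueness and global existence under an a priori bound
-/

set_option autoImplicit false

namespace Pool.Agent.Lib.MP_6b187a_gt.Div

open Set Metric
open scoped NNReal

/-- Uniqueness for an autonomous equation of class `C¹` on an open interval. -/
theorem ode_unique {X : Type*} [NormedAddCommGroup X] [NormedSpace ℝ X] [FiniteDimensional ℝ X]
    {F : X → X} (hF : ContDiff ℝ 1 F) {a b t₀ : ℝ} (ht : t₀ ∈ Ioo a b) {f g : ℝ → X}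
    (hf : ∀ t ∈ Ioo a b, HasDerivAt f (F (f t)) t)
    (hg : ∀ t ∈ Ioo a b, HasDerivAt g (F (g t)) t)
    (h0 : f t₀ = g t₀) : EqOn f g (Ioo a b) := by
  intro s hs
  obtain ⟨a', ha1, ha2⟩ := exists_between (lt_min ht.1 hs.1)
  obtain ⟨b', hb1, hb2⟩ := exists_between (max_lt ht.2 hs.2)
  have hsub : Icc a' b' ⊆ Ioo a b := fun t h => ⟨ha1.trans_le h.1, h.2.trans_lt hb2⟩
  have hfc : ContinuousOn f (Icc a' b') := fun t h => (hf t (hsub h)).continuousAt.continuousWithinAt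
  have hgc : ContinuousOn g (Icc a' b') := fun t h => (hg t (hsub h)).continuousAt.continuousWithinAt
  obtain ⟨R₁, hR₁⟩ := isCompact_Icc.exists_bound_of_continuousOn hfc
  obtain ⟨R₂, hR₂⟩ := isCompact_Icc.exists_bound_of_continuousOn hgc
  obtain ⟨K, hK⟩ := hF.contDiffOn.exists_lipschitzOnWith (s := closedBall (0 : X) (max R₁ R₂))
    one_ne_zero (convex_closedBall _ _) (isCompact_closedBall _ _)
  have hmem : ∀ t ∈ Ioo a' b', f t ∈ closedBall (0 : X) (max R₁ R₂) ∧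
      g t ∈ closedBall (0 : X) (max R₁ R₂) := by
    intro t h
    have h' : t ∈ Icc a' b' := Ioo_subset_Icc_self h
    exact ⟨mem_closedBall_zero_iff.2 ((hR₁ t h').trans (le_max_left _ _)),
      mem_closedBall_zero_iff.2 ((hR₂ t h').trans (le_max_right _ _))⟩
  have ht' : t₀ ∈ Ioo a' b' := ⟨ha2.trans_le (min_le_left _ _), (le_max_left _ _).trans_lt hb1⟩
  have hs' : s ∈ Ioo a' b' := ⟨ha2.trans_le (min_le_right _ _), (le_max_right _ _).trans_lt hb1⟩
  exact ODE_solution_unique_of_mem_Ioo (v := fun _ => F)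
    (s := fun _ => closedBall (0 : X) (max R₁ R₂)) (fun _ _ => hK) ht'
    (fun t h => ⟨hf t (hsub (Ioo_subset_Icc_self h)), (hmem t h).1⟩)
    (fun t h => ⟨hg t (hsub (Ioo_subset_Icc_self h)), (hmem t h).2⟩) h0 hs'

/-- Uniqueness for an autonomous equation of class `C¹` on the whole line. -/
theorem ode_unique_univ {X : Type*} [NormedAddCommGroup X] [NormedSpace ℝ X]
    [FiniteDimensional ℝ X] {F : X → X} (hF : ContDiff ℝ 1 F) {t₀ : ℝ} {f g : ℝ → X}
    (hf : ∀ t, HasDerivAt f (F (f t)) t) (hg : ∀ t, HasDerivAt g (F (g t)) t)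
    (h0 : f t₀ = g t₀) : f = g := by
  funext t
  have h1 : t₀ ∈ Ioo (min t t₀ - 1) (max t t₀ + 1) := by
    constructor
    · linarith [min_le_right t t₀]
    · linarith [le_max_right t t₀]
  have h2 : t ∈ Ioo (min t t₀ - 1) (max t t₀ + 1) := by
    constructor
    · linarith [min_le_left t t₀]
    · linarith [le_max_left t t₀]
  exact ode_unique hF h1 (fun t _ => hf t) (fun t _ => hg t) h0 h2

/-- The solution of a cut-off equation on a given interval. -/
theorem ode_cutoff {X : Type*} [NormedAddCommGroup X] [NormedSpace ℝ X]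
    [FiniteDimensional ℝ X] {G : X → X} (hG : ContDiff ℝ 1 G) (hs : HasCompactSupport G)
    (z₀ : X) {T : ℝ} (hT : 0 < T) :
    ∃ z : ℝ → X, z 0 = z₀ ∧ ∀ t ∈ Ioo (-T) T, HasDerivAt z (G (z t)) t := by
  obtain ⟨K, hK⟩ := hG.lipschitzWith_of_hasCompactSupport hs one_ne_zero
  obtain ⟨L, hL⟩ := hs.exists_bound_of_continuous hG.continuous
  have h0 : (0 : ℝ) ∈ Icc (-T) T := ⟨by linarith, hT.le⟩
  have hpl : IsPicardLindelof (fun _ => G) (tmin := -T) (tmax := T) ⟨0, h0⟩ z₀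
      (Real.toNNReal (max L 0 * T)) 0 (Real.toNNReal (max L 0)) K := by
    refine IsPicardLindelof.of_time_independent (fun x _ => ?_) (hK.lipschitzOnWith) ?_
    · rw [Real.coe_toNNReal _ (le_max_right _ _)]
      exact (hL x).trans (le_max_left _ _)
    · rw [Real.coe_toNNReal _ (le_max_right _ _),
        Real.coe_toNNReal _ (mul_nonneg (le_max_right _ _) hT.le)]
      simp
  obtain ⟨z, hz0, hz⟩ := hpl.exists_eq_forall_mem_Icc_hasDerivWithinAt₀
  exact ⟨z, hz0, fun t ht => (hz t (Ioo_subset_Icc_self ht)).hasDerivAt (Icc_mem_nhds ht.1 ht.2)⟩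

/-- Global existence under an a priori bound valid for every cut-off of the vector field. -/
theorem ode_global {X : Type*} [NormedAddCommGroup X] [NormedSpace ℝ X]
    [FiniteDimensional ℝ X] {F : X → X} (hF : ContDiff ℝ 1 F) (z₀ : X)
    (hb : ∀ T : ℝ, 0 < T → ∃ R : ℝ, ∀ χ : X → ℝ, (∀ x, 0 ≤ χ x) → (∀ x, χ x ≤ 1) →
      ∀ z : ℝ → X, z 0 = z₀ → (∀ t ∈ Ioo (-T) T, HasDerivAt z (χ (z t) • F (z t)) t) →
      ∀ t ∈ Ioo (-T) T, ‖z t‖ ≤ R) :
    ∃ z : ℝ → X, z 0 = z₀ ∧ ∀ t, HasDerivAt z (F (z t)) t := by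
  have hloc : ∀ T : ℝ, 0 < T → ∃ z : ℝ → X, z 0 = z₀ ∧
      ∀ t ∈ Ioo (-T) T, HasDerivAt z (F (z t)) t := by
    intro T hT
    obtain ⟨R, hR⟩ := hb T hT
    let χ : ContDiffBump (0 : X) := ⟨max R 0 + 1, max R 0 + 2, by positivity, by linarith⟩
    have hG : ContDiff ℝ 1 (fun x => χ x • F x) := χ.contDiff.smul hF
    have hs : HasCompactSupport (fun x => χ x • F x) := χ.hasCompactSupport.smul_right
    obtain ⟨z, hz0, hz⟩ := ode_cutoff hG hs z₀ hT
    refine ⟨z, hz0, fun t ht => ?_⟩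
    have h1 := hR χ (fun x => χ.nonneg) (fun x => χ.le_one) z hz0 hz t ht
    have h2 : χ (z t) = 1 := by
      apply χ.one_of_mem_closedBall
      rw [mem_closedBall_zero_iff]
      have h3 : χ.rIn = max R 0 + 1 := rfl
      rw [h3]
      linarith [le_max_left R 0]
    have h3 := hz t ht
    rw [h2, one_smul] at h3
    exact h3
  choose z hz0 hz using fun N : ℕ => hloc ((N : ℝ) + 1) (by positivity)
  have heq : ∀ N M : ℕ, N ≤ M → ∀ t ∈ Ioo (-((N : ℝ) + 1)) ((N : ℝ) + 1), z N t = z M t := by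
    intro N M h
    have hNM : (N : ℝ) ≤ M := by exact_mod_cast h
    refine ode_unique hF (t₀ := 0) ⟨by linarith [Nat.cast_nonneg (α := ℝ) N], by positivity⟩
      (hz N) (fun t ht => hz M t ⟨by linarith [ht.1], by linarith [ht.2]⟩) ?_
    rw [hz0, hz0]
  have hmem : ∀ t : ℝ, t ∈ Ioo (-((⌈|t|⌉₊ : ℝ) + 1)) ((⌈|t|⌉₊ : ℝ) + 1) := by
    intro t
    have h1 := Nat.le_ceil |t|
    have h2 := neg_abs_le t
    have h3 := le_abs_self t
    exact ⟨by linarith, by linarith⟩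
  have heq' : ∀ N : ℕ, ∀ t ∈ Ioo (-((N : ℝ) + 1)) ((N : ℝ) + 1), z ⌈|t|⌉₊ t = z N t := by
    intro N t ht
    rcases le_total ⌈|t|⌉₊ N with h | h
    · exact heq _ _ h t (hmem t)
    · exact (heq _ _ h t ht).symm
  refine ⟨fun t => z ⌈|t|⌉₊ t, ?_, fun t => ?_⟩
  · exact hz0 _
  · have h1 := hz ⌈|t|⌉₊ t (hmem t)
    refine h1.congr_of_eventuallyEq ?_
    filter_upwards [Ioo_mem_nhds (hmem t).1 (hmem t).2] with s hs
    exact heq' _ s hs

end Pool.Agent.Lib.MP_6b187a_gt.Div
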