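import Pool.Agent.Lib.MP_6b187a_gt.Div.Ridge

/-!
# The ridge geodesic: `a ≥ 1/2`, and `x` is bounded
-/

set_option autoImplicit false

namespace Pool.Agent.Lib.MP_6b187a_gt.Div.Rg

open Set Filter Topology Fld Sh

noncomputable section

private theorem y_le {t y : ℝ} (hθ : 1 / 8 ≤ fθ t y) : y ≤ -t / 250 + 7 / 5 := by
  have h1 : Real.exp (-7) ≤ 1 / 8 := by
    rw [Real.exp_neg, inv_le_comm₀ (Real.exp_pos _) (by norm_num)]
    have := Real.add_one_le_exp (7 : ℝ)
    norm_num at this ⊢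
    linarith
  have h2 : Real.exp (-7) ≤ Real.exp (-t / 50 - 5 * y) := h1.trans hθ
  have h3 := Real.exp_le_exp.1 h2
  linarith

private theorem fY_le {y : ℝ} (hy : y ≤ -99) : fY y ≤ 1 / 100 := by
  have h1 := Real.add_one_le_exp (-y)
  have h2 : fY y = (Real.exp (-y))⁻¹ := by
    unfold fY
    rw [Real.exp_neg, inv_inv]
  rw [h2, inv_le_comm₀ (Real.exp_pos _) (by norm_num)]
  norm_num
  linarith

private theorem mvtOn {f f' : ℝ → ℝ} {S C : ℝ} (h : ∀ r ∈ Icc S (S + 1), HasDerivAt f (f' r) r)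
    (hC : ∀ r ∈ Icc S (S + 1), |f' r| ≤ C) {r : ℝ} (hr : r ∈ Icc S (S + 1)) :
    |f r - f S| ≤ C := by
  have hS : S ∈ Icc S (S + 1) := ⟨le_rfl, by linarith⟩
  have h1 := (convex_Icc S (S + 1)).norm_image_sub_le_of_norm_hasDerivWithin_le (f := f) (f' := f')
    (C := C) (fun r hr => (h r hr).hasDerivWithinAt) (fun r hr => hC r hr) hS hr
  have hC0 : 0 ≤ C := (abs_nonneg _).trans (hC S hS)
  have h2 : ‖r - S‖ ≤ 1 := by
    rw [Real.norm_eq_abs, abs_le]
    constructor <;> linarith [hr.1, hr.2]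
  calc |f r - f S| ≤ C * ‖r - S‖ := h1
    _ ≤ C * 1 := mul_le_mul_of_nonneg_left h2 hC0
    _ = C := mul_one C

theorem orb_a_sq {c : ℝ} {t y x a b : ℝ → ℝ} {s : ℝ} (h : Orb c t y x a b s) :
    a s ^ 2 ≤ fE (t s) (y s) := by
  have h1 := h.en
  have h2 := sq_nonneg (b s)
  have h3 : 0 ≤ c ^ 2 * fY (y s) := mul_nonneg (sq_nonneg c) (Real.exp_pos _).le
  linarith

theorem orb_ht {c : ℝ} {t y x a b : ℝ → ℝ} {s : ℝ} (h : Orb c t y x a b s) :
    |a s / fE (t s) (y s)| ≤ 1 := by
  have hE := fE_pos (t s) (y s)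
  have hE1 := one_le_fE (t s) (y s)
  have h1 := orb_a_sq h
  rw [abs_div, abs_of_pos hE, div_le_one hE]
  exact abs_le_of_sq_le_sq (by nlinarith) hE.le

/-- Along the trapped geodesic `a ≥ 1/2` for all times `s ≥ 0`. -/
theorem half_le_a {t y x a b : ℝ → ℝ} (horb : ∀ s, Orb (1 / 2) t y x a b s)
    (hθ : ∀ s, 0 ≤ s → fθ (t s) (y s) ∈ Icc (1 / 8) (1 / 4)) (ht0 : t 0 = 50000)
    (ha0 : 1 / 2 ≤ a 0) : ∀ s, 0 ≤ s → 1 / 2 ≤ a s := by
  intro s₁ hs₁
  by_contra hlt
  push Not at hlt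
  have hac : Continuous a := continuous_iff_continuousAt.2 fun s => (horb s).ha.continuousAt
  have hanti : Antitone a := by
    refine antitone_of_deriv_nonpos (fun s => (horb s).ha.differentiableAt) fun s => ?_
    rw [(horb s).ha.deriv]
    have h1 : 0 < fw (t s) (y s) := Real.exp_pos _
    exact div_nonpos_of_nonpos_of_nonneg (by linarith) (fE_pos _ _).le
  obtain ⟨S, hS, haS⟩ := intermediate_value_Icc' hs₁ hac.continuousOn
    (show (1 / 2 : ℝ) ∈ Icc (a s₁) (a 0) from ⟨hlt.le, ha0⟩)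
  -- `t ≥ 50000` up to the time `S`
  have htS : 50000 ≤ t S := by
    have hmono : MonotoneOn t (Icc 0 S) := by
      refine monotoneOn_of_deriv_nonneg (convex_Icc 0 S)
        (fun r _ => (horb r).ht.continuousAt.continuousWithinAt)
        (fun r _ => (horb r).ht.differentiableAt.differentiableWithinAt) fun r hr => ?_
      rw [interior_Icc] at hr
      rw [(horb r).ht.deriv]
      have h1 := hanti hr.2.le
      rw [haS] at h1
      exact div_nonneg (by linarith) (fE_pos _ _).le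
    have := hmono ⟨le_rfl, hS.1⟩ ⟨hS.1, le_rfl⟩ hS.1
    linarith
  have ht1 : ∀ r ∈ Icc S (S + 1), 49999 ≤ t r := by
    intro r hr
    have h1 := mvtOn (f := t) (C := 1) (fun r _ => (horb r).ht) (fun r _ => orb_ht (horb r)) hr
    have h2 := (abs_le.1 h1).1
    linarith
  have hθ1 : ∀ r ∈ Icc S (S + 1), fθ (t r) (y r) ∈ Icc (1 / 8) (1 / 4) := fun r hr =>
    hθ r (hS.1.trans hr.1)
  have hY : ∀ r ∈ Icc S (S + 1), fY (y r) ≤ 1 / 100 := by
    intro r hr
    refine fY_le ?_
    have := y_le (hθ1 r hr).1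
    linarith [ht1 r hr]
  have hYpos : ∀ r, 0 < fY (y r) := fun r => Real.exp_pos _
  have hE : ∀ r ∈ Icc S (S + 1), fE (t r) (y r) ≤ 102 / 100 := by
    intro r hr
    have h1 : fE (t r) (y r) = 1 + fY (y r) + fw (t r) (y r) := rfl
    have h2 : fw (t r) (y r) ≤ 1 / 4 * fY (y r) := by
      rw [fw_eq]
      exact mul_le_mul_of_nonneg_right (hθ1 r hr).2 (hYpos r).le
    linarith [hY r hr]
  -- the mean value theorem for `log X`
  have hψ : ∀ r, HasDerivAt (fun r => Real.log (1 + Real.exp (y r))) (b r / fE (t r) (y r)) r := by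
    intro r
    have hX : (1 + Real.exp (y r)) ≠ 0 := by positivity
    refine (((horb r).hy.exp.const_add 1).log hX).congr_deriv ?_
    have hE0 := (fE_pos (t r) (y r)).ne'
    have hY0 : Real.exp (y r) ≠ 0 := (Real.exp_pos _).ne'
    unfold fX fY
    field_simp
  obtain ⟨r, hr, hrs⟩ := exists_hasDerivAt_eq_slope (fun r => Real.log (1 + Real.exp (y r)))
    (fun r => b r / fE (t r) (y r)) (show S < S + 1 by linarith)
    (fun r _ => (hψ r).continuousAt.continuousWithinAt) (fun r _ => hψ r)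
  have hr' : r ∈ Icc S (S + 1) := Ioo_subset_Icc_self hr
  have hlog : ∀ r ∈ Icc S (S + 1), 0 ≤ Real.log (1 + Real.exp (y r)) ∧
      Real.log (1 + Real.exp (y r)) ≤ 1 / 100 := by
    intro r hr
    have h1 : 0 < Real.exp (y r) := Real.exp_pos _
    refine ⟨Real.log_nonneg (by linarith), ?_⟩
    have h2 := Real.log_le_sub_one_of_pos (show 0 < 1 + Real.exp (y r) by linarith)
    have h3 : Real.exp (y r) ≤ 1 / 100 := hY r hr
    linarith
  have hbr : |b r| ≤ 102 / 10000 := by
    have hE0 := fE_pos (t r) (y r)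
    have h1 : |b r / fE (t r) (y r)| ≤ 1 / 100 := by
      rw [hrs, add_sub_cancel_left, div_one, abs_le]
      have h2 := hlog S ⟨le_rfl, by linarith⟩
      have h3 := hlog (S + 1) ⟨by linarith, le_rfl⟩
      constructor <;> linarith [h2.1, h2.2, h3.1, h3.2]
    rw [abs_div, abs_of_pos hE0, div_le_iff₀ hE0] at h1
    linarith [hE r hr']
  have hbS : |b r - b S| ≤ 1 / 8 := by
    refine mvtOn (f := b) (fun r _ => (horb r).hb) (fun r hr => ?_) hr'
    have hE0 := fE_pos (t r) (y r)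
    have h1 := hθ1 r hr
    have hX0 : 0 < fX (y r) := by unfold fX; positivity
    have hXE : fX (y r) ≤ fE (t r) (y r) := by
      have h2 : fE (t r) (y r) = fX (y r) + fw (t r) (y r) := rfl
      have h3 : 0 < fw (t r) (y r) := Real.exp_pos _
      linarith
    have h4 : |1 - (1 / 2 : ℝ) ^ 2 - 4 * fθ (t r) (y r)| ≤ 1 / 4 := by
      rw [abs_le]
      constructor <;> linarith [h1.1, h1.2]
    rw [abs_div, abs_div, abs_mul, abs_of_pos hX0, abs_of_pos hE0,
      abs_of_pos (by norm_num : (0 : ℝ) < 2), div_le_iff₀ hE0]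
    have h5 := mul_le_mul_of_nonneg_left h4 hX0.le
    linarith
  have hb : |b S| ≤ 14 / 100 := by
    have h1 : |b S| ≤ |b r| + |b r - b S| := by
      have := abs_sub (b r) (b r - b S)
      simpa using this
    linarith
  have hb2 : b S ^ 2 ≤ 196 / 10000 := by
    have h1 := abs_le.1 hb
    nlinarith [h1.1, h1.2]
  have hen := (horb S).en
  rw [haS] at hen
  have hE2 : fE (t S) (y S) = 1 + fY (y S) + fw (t S) (y S) := rfl
  have hw : 0 < fw (t S) (y S) := Real.exp_pos _
  linarith [hYpos S]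

end

end Pool.Agent.Lib.MP_6b187a_gt.Div.Rg

namespace Pool.Agent.Lib.MP_6b187a_gt.Div

open Set Filter Topology Fld Sh Rg

/-- **The ridge geodesic.** -/
theorem exists_ridge : ∃ (t y x a b : ℝ → ℝ) (C : ℝ), (∀ s, Orb (1 / 2) t y x a b s) ∧ x 0 = 0 ∧
    ∀ s, 0 ≤ s → y s ≤ 0 ∧ 1 / 8 ≤ fθ (t s) (y s) ∧ fθ (t s) (y s) ≤ 1 / 4 ∧ 0 ≤ x s ∧ x s ≤ C ∧
      1 / 2 ≤ a s := by
  obtain ⟨t, y, x, a, b, horb, hθ, ht0, hx0, ha0⟩ := exists_trapped
  have ha := half_le_a horb hθ ht0 ha0
  refine ⟨t, y, x, a, b, 250 * Real.exp (7 / 5) * Real.exp (-t 0 / 250), horb, hx0,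
    fun s hs => ?_⟩
  have hxmono : Monotone x := by
    refine monotone_of_deriv_nonneg (fun r => (horb r).hx.differentiableAt) fun r => ?_
    rw [(horb r).hx.deriv]
    have h1 : 0 < fY (y r) := Real.exp_pos _
    have h2 := fE_pos (t r) (y r)
    positivity
  have htmono : MonotoneOn t (Ici 0) := by
    refine monotoneOn_of_deriv_nonneg (convex_Ici 0)
      (fun r _ => (horb r).ht.continuousAt.continuousWithinAt)
      (fun r _ => (horb r).ht.differentiableAt.differentiableWithinAt) fun r hr => ?_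
    rw [interior_Ici] at hr
    rw [(horb r).ht.deriv]
    exact div_nonneg (by linarith [ha r (le_of_lt hr)]) (fE_pos _ _).le
  have ht : 50000 ≤ t s := by
    have := htmono (mem_Ici.2 le_rfl : (0 : ℝ) ∈ Ici 0) hs hs
    linarith
  have hd : ∀ r, HasDerivAt (fun r => x r + 250 * Real.exp (7 / 5) * Real.exp (-t r / 250))
      (1 / 2 * fY (y r) / fE (t r) (y r) + 250 * Real.exp (7 / 5) * (Real.exp (-t r / 250) *
        (-(a r / fE (t r) (y r)) / 250))) r := fun r =>
    (horb r).hx.add (((horb r).ht.neg.div_const 250).exp.const_mul _)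
  have hG : AntitoneOn (fun r => x r + 250 * Real.exp (7 / 5) * Real.exp (-t r / 250)) (Ici 0) := by
    refine antitoneOn_of_deriv_nonpos (convex_Ici 0)
      (fun r _ => (hd r).continuousAt.continuousWithinAt)
      (fun r _ => (hd r).differentiableAt.differentiableWithinAt) fun r hr => ?_
    rw [interior_Ici] at hr
    rw [(hd r).deriv]
    have hr0 : 0 ≤ r := le_of_lt hr
    have hE := fE_pos (t r) (y r)
    have h1 : fY (y r) ≤ Real.exp (7 / 5) * Real.exp (-t r / 250) := by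
      rw [← Real.exp_add]
      unfold fY
      refine Real.exp_le_exp.2 ?_
      have := y_le (hθ r hr0).1
      linarith
    have h2 : 1 / 2 * fY (y r) / fE (t r) (y r) + 250 * Real.exp (7 / 5) *
        (Real.exp (-t r / 250) * (-(a r / fE (t r) (y r)) / 250)) =
        (1 / 2 * fY (y r) - a r * (Real.exp (7 / 5) * Real.exp (-t r / 250))) /
          fE (t r) (y r) := by
      field_simp
      ring
    rw [h2]
    refine div_nonpos_of_nonpos_of_nonneg ?_ hE.le
    have h3 : 0 < Real.exp (7 / 5) * Real.exp (-t r / 250) := by positivity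
    have h4 := mul_le_mul_of_nonneg_right (ha r hr0) h3.le
    linarith
  have hx := hG (mem_Ici.2 le_rfl : (0 : ℝ) ∈ Ici 0) hs hs
  simp only [hx0, zero_add] at hx
  refine ⟨?_, (hθ s hs).1, (hθ s hs).2, ?_, ?_, ha s hs⟩
  · have := y_le (hθ s hs).1
    linarith
  · have := hxmono hs
    linarith
  · have h3 : 0 < 250 * Real.exp (7 / 5) * Real.exp (-t s / 250) := by positivity
    linarith

end Pool.Agent.Lib.MP_6b187a_gt.Div
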