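import Pool.Agent.Lib.MP_6b187a_gt.Div.GeoRed
import Pool.Agent.Lib.MP_6b187a_gt.Div.Ridge2
import Pool.Agent.Lib.MP_6b187a_gt.Div.DistUp

/-!
# Two geodesics of `gM` from one point which stay at bounded distance
-/

set_option autoImplicit false
set_option maxSynthPendingDepth 3

namespace Pool.Agent.Lib.MP_6b187a_gt.Div

noncomputable section

/-- The mirror image `x ↦ -x` of a geodesic. -/
theorem Orb.mirror {c : ℝ} {t y x a b : ℝ → ℝ} {s : ℝ} (h : Orb c t y x a b s) :
    Orb (-c) t y (fun s => -x s) a b s where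
  ht := h.ht
  hy := h.hy
  hx := h.hx.neg.congr_deriv (by ring)
  ha := h.ha
  hb := h.hb.congr_deriv (by rw [neg_sq])
  en := by rw [neg_sq]; exact h.en

/-- Two unit speed geodesics of `gM` from one point with different velocities, whose distance is
bounded for all times `s ≥ 0`. -/
theorem gM_pair : ∃ α β : ℝ → R3, gM.IsGeodesic α ∧ gM.IsGeodesic β ∧ α 0 = β 0 ∧
    deriv α 0 ≠ deriv β 0 ∧ ∃ C : ℝ, ∀ s, 0 ≤ s → gM.dist (α s) (β s) ≤ C := by
  obtain ⟨t, y, x, a, b, C, horb, hx0, hs⟩ := exists_ridge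
  have hα := isGeodesic_of_orb horb
  have hβ := isGeodesic_of_orb (fun s => (horb s).mirror)
  refine ⟨_, _, hα.1, hβ.1, ?_, ?_, 2 * Real.pi * (1 + C), ?_⟩
  · simp [hx0]
  · rw [hα.2 0, hβ.2 0]
    intro h
    have h1 := congrArg (fun v : R3 => v 2) h
    simp only [pt_two] at h1
    have hY := fY_pos (y 0)
    have hE := fE_pos (t 0) (y 0)
    have h2 : 0 < 1 / 2 * fY (y 0) / fE (t 0) (y 0) := by positivity
    have h3 : -(1 / 2) * fY (y 0) / fE (t 0) (y 0) = -(1 / 2 * fY (y 0) / fE (t 0) (y 0)) := by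
      ring
    rw [h3] at h1
    linarith
  · intro s hs0
    obtain ⟨hy, -, hθ, hx1, hx2, -⟩ := hs s hs0
    have hY1 : fY (y s) ≤ 1 := Real.exp_le_one_iff.2 hy
    have hY := fY_pos (y s)
    have hθ0 := fθ_pos (t s) (y s)
    have hw : fw (t s) (y s) ≤ 1 := by
      rw [fw_eq]
      nlinarith
    refine (dist_mirror_le (t s) (y s) (x s) hw hY1).trans ?_
    rw [abs_of_nonneg hx1]
    have := Real.pi_pos
    gcongr

end

end Pool.Agent.Lib.MP_6b187a_gt.Div
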