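import Pool.Agent.Lib.MP_6b187a_gt.Div.Sys

/-!
# Positivity of the coefficients for `|c| ≤ 1`
-/

set_option autoImplicit false

namespace Pool.Agent.Lib.MP_6b187a_gt.Div.Pos

theorem fY_pos (y : ℝ) : 0 < fY y := Real.exp_pos y

theorem fX_eq (y : ℝ) : fX y = 1 + fY y := rfl

theorem fX_pos (y : ℝ) : 0 < fX y := by
  have := fY_pos y
  rw [fX_eq]
  linarith

theorem fw_pos (t y : ℝ) : 0 < fw t y := Real.exp_pos _

theorem fθ_pos (t y : ℝ) : 0 < fθ t y := Real.exp_pos _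

theorem fE_eq (t y : ℝ) : fE t y = fX y + fw t y := rfl

theorem fE_pos (t y : ℝ) : 0 < fE t y := by
  have h1 := fX_pos y
  have h2 := fw_pos t y
  rw [fE_eq]
  linarith

/-- `w = θ Y`. -/
theorem fw_eq (t y : ℝ) : fw t y = fθ t y * fY y := by
  unfold fw fθ fY
  rw [← Real.exp_add]
  congr 1
  ring

theorem fEt_eq (t y : ℝ) : fEt t y = -(fθ t y * fY y) / 50 := by
  rw [fEt, fw_eq]

theorem fEp_eq (t y : ℝ) : fEp t y = fX y * (1 - 4 * fθ t y) := by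
  have := (fY_pos y).ne'
  rw [fEp, fw_eq]
  field_simp

theorem fEtt_eq (t y : ℝ) : fEtt t y = fθ t y * fY y / 2500 := by
  rw [fEtt, fw_eq]

theorem fEtp_eq (t y : ℝ) : fEtp t y = 2 / 25 * fθ t y * fX y := by
  have := (fY_pos y).ne'
  rw [fEtp, fw_eq]
  field_simp

theorem fEpp_eq (t y : ℝ) : fEpp t y =
    fX y + 16 * fθ t y * fX y ^ 2 / fY y + 4 * fθ t y * fX y / fY y := by
  have := (fY_pos y).ne'
  rw [fEpp, fw_eq]
  field_simp

/-- `F = a² + b²` is positive for `|c| ≤ 1`. -/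
theorem posN_F {c t y a b : ℝ} (hc : c ^ 2 ≤ 1) (en : a ^ 2 + b ^ 2 + c ^ 2 * fY y = fE t y) :
    0 < a ^ 2 + b ^ 2 := by
  have hY := fY_pos y
  have hw := fw_pos t y
  have h1 : a ^ 2 + b ^ 2 = 1 + (1 - c ^ 2) * fY y + fw t y := by
    have h := en
    rw [fE_eq, fX_eq] at h
    linear_combination h
  rw [h1]
  have : 0 ≤ (1 - c ^ 2) * fY y := mul_nonneg (by linarith) hY.le
  linarith

/-- `F (F_tt + F_ψψ) - F_t² - F_ψ²` is positive for `|c| ≤ 1`. -/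
theorem posN {c t y a b : ℝ} (hc : c ^ 2 ≤ 1) (en : a ^ 2 + b ^ 2 + c ^ 2 * fY y = fE t y) :
    0 < (a ^ 2 + b ^ 2) * (fEtt t y + fEpp t y - c ^ 2 * fX y) - fEt t y ^ 2 -
      (fEp t y - c ^ 2 * fX y) ^ 2 := by
  have hY := fY_pos y
  have hX := fX_pos y
  have hw := fw_pos t y
  have h1 : a ^ 2 + b ^ 2 = c ^ 2 + (1 - c ^ 2) * fX y + fw t y := by
    have h := en
    rw [fE_eq, fX_eq] at h
    rw [fX_eq]
    linear_combination h
  have h2 : (a ^ 2 + b ^ 2) * (fEtt t y + fEpp t y - c ^ 2 * fX y) - fEt t y ^ 2 -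
      (fEp t y - c ^ 2 * fX y) ^ 2 =
      c ^ 2 * (fw t y / 2500 + (1 - c ^ 2) * fX y + 16 * fw t y * fX y ^ 2 / fY y ^ 2 +
        4 * fw t y * fX y / fY y ^ 2) +
      (1 - c ^ 2) * (fX y * fw t y * (1 / 2500 + 16 * fX y ^ 2 / fY y ^ 2 +
        4 * fX y / fY y ^ 2 + 1 + 8 * fX y / fY y)) + 4 * fw t y ^ 2 * fX y / fY y ^ 2 := by
    rw [h1]
    unfold fEtt fEpp fEt fEp
    field_simp
    ring
  rw [h2]
  have hd : 0 ≤ 1 - c ^ 2 := by linarith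
  positivity

end Pool.Agent.Lib.MP_6b187a_gt.Div.Pos
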