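import Pool.Agent.Lib.MP_6b187a_gt.Div.PosN

/-!
# Positivity of the quadratic form for `|c| ≥ 1`, `20 θ ≤ 21 L`
-/

set_option autoImplicit false

namespace Pool.Agent.Lib.MP_6b187a_gt.Div.Pos

/-- A quadratic form with negative discriminant is positive definite. -/
theorem quad_pos {α β γ : ℝ} (hα : 0 < α) (h : β ^ 2 < 4 * α * γ) (N m : ℝ)
    (hNm : N ≠ 0 ∨ m ≠ 0) : 0 < α * N ^ 2 + β * (m * N) + γ * m ^ 2 := by
  have h1 : 4 * α * (α * N ^ 2 + β * (m * N) + γ * m ^ 2) =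
      (2 * α * N + β * m) ^ 2 + (4 * α * γ - β ^ 2) * m ^ 2 := by ring
  have h2 : 0 < 4 * α * (α * N ^ 2 + β * (m * N) + γ * m ^ 2) := by
    rw [h1]
    by_cases hm : m = 0
    · have hN : N ≠ 0 := by
        rcases hNm with h | h
        · exact h
        · exact absurd hm h
      subst hm
      have : 2 * α * N + β * 0 ≠ 0 := by
        simp [hα.ne', hN]
      positivity
    · have h3 : 0 < 4 * α * γ - β ^ 2 := by linarith
      positivity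
  have h4 : 0 < 4 * α := by linarith
  exact (mul_pos_iff_of_pos_left h4).1 h2

/-- The polynomial inequality of the first case. -/
theorem coreD {θ L : ℝ} (hθ : 0 < θ) (hL : 1 ≤ L) (h : 20 * θ ≤ 21 * L) :
    2 * θ * (1 + 4 * L - 4 * θ) ^ 2 < (2 * L - θ) *
      ((L - 1) * (L / 2 + 1) + θ * (18 * L + 8) - 16 * θ ^ 2 - 4 / 100 * θ * (1 + θ)) := by
  have hid : (2 * L - θ) *
      ((L - 1) * (L / 2 + 1) + θ * (18 * L + 8) - 16 * θ ^ 2 - 4 / 100 * θ * (1 + θ)) -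
      2 * θ * (1 + 4 * L - 4 * θ) ^ 2 = L * (L - 1) * (L + 2) +
      θ * ((7 / 2 * L ^ 2 - 58 / 100 * L - 1) + θ * (1392 / 100 * L + 804 / 100) -
        1596 / 100 * θ ^ 2) := by ring
  have hT : 0 < 21 / 20 * L := by linarith
  have hTθ : 0 ≤ 21 / 20 * L - θ := by linarith
  have hB0 : 0 < 7 / 2 * L ^ 2 - 58 / 100 * L - 1 := by nlinarith
  have hB1 : 0 < 7 / 2 * L ^ 2 - 58 / 100 * L - 1 +
      21 / 20 * L * (1392 / 100 * L + 804 / 100) - 1596 / 100 * (21 / 20 * L) ^ 2 := by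
    nlinarith
  have hB : 21 / 20 * L * ((7 / 2 * L ^ 2 - 58 / 100 * L - 1) +
      θ * (1392 / 100 * L + 804 / 100) - 1596 / 100 * θ ^ 2) =
      (21 / 20 * L - θ) * (7 / 2 * L ^ 2 - 58 / 100 * L - 1) +
      θ * (7 / 2 * L ^ 2 - 58 / 100 * L - 1 +
        21 / 20 * L * (1392 / 100 * L + 804 / 100) - 1596 / 100 * (21 / 20 * L) ^ 2) +
      1596 / 100 * (21 / 20 * L) * θ * (21 / 20 * L - θ) := by ring
  have hBpos : 0 < 21 / 20 * L * ((7 / 2 * L ^ 2 - 58 / 100 * L - 1) +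
      θ * (1392 / 100 * L + 804 / 100) - 1596 / 100 * θ ^ 2) := by
    rw [hB]
    positivity
  have hBpos' := (mul_pos_iff_of_pos_left hT).1 hBpos
  have hLL : 0 ≤ L * (L - 1) * (L + 2) :=
    mul_nonneg (mul_nonneg (by linarith) (by linarith)) (by linarith)
  have : 0 < θ * ((7 / 2 * L ^ 2 - 58 / 100 * L - 1) + θ * (1392 / 100 * L + 804 / 100) -
        1596 / 100 * θ ^ 2) := mul_pos hθ hBpos'
  linarith

/-- The discriminant inequality of the first case, in the variables `Y`, `θ`, `L`. -/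
theorem coreP {Y θ L a b C : ℝ} (hY : 0 < Y) (hθ : 0 < θ) (hL : 1 ≤ L) (h : 20 * θ ≤ 21 * L)
    (hC : C ≤ L) (hab : a ^ 2 + b ^ 2 ≤ 1 + θ * Y) :
    2 * (C / L) * θ * (1 + 4 * L - 4 * θ) ^ 2 < (2 * L - θ) *
      ((L - 1) * ((1 / 2 + 1 / (1 + Y)) * L + 1) +
        4 * θ * (L * (9 / 2 + 1 / (1 + Y)) + 2) - 16 * θ ^ 2 + 2 / 25 * θ * (a * b) / (1 + Y)) := by
  have hX : 0 < 1 + Y := by linarith
  have hL0 : 0 < L := by linarith
  have hκ : 0 < 1 / (1 + Y) := by positivity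
  have h1 : 2 * (C / L) * θ * (1 + 4 * L - 4 * θ) ^ 2 ≤ 2 * θ * (1 + 4 * L - 4 * θ) ^ 2 := by
    have h2 : C / L ≤ 1 := (div_le_one hL0).2 hC
    have h3 : 0 ≤ 2 * θ * (1 + 4 * L - 4 * θ) ^ 2 := by positivity
    calc 2 * (C / L) * θ * (1 + 4 * L - 4 * θ) ^ 2
        = (C / L) * (2 * θ * (1 + 4 * L - 4 * θ) ^ 2) := by ring
      _ ≤ 1 * (2 * θ * (1 + 4 * L - 4 * θ) ^ 2) := mul_le_mul_of_nonneg_right h2 h3
      _ = 2 * θ * (1 + 4 * L - 4 * θ) ^ 2 := one_mul _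
  have h2 : -(4 / 100 * θ * (1 + θ)) ≤ 2 / 25 * θ * (a * b) / (1 + Y) := by
    have h3 : -((1 + θ * Y) / 2) ≤ a * b := by nlinarith [sq_nonneg (a + b)]
    have h4 : -(4 / 100 * θ * (1 + θ)) * (1 + Y) ≤ 2 / 25 * θ * (a * b) := by
      have h5 : -(2 / 25 * θ * ((1 + θ * Y) / 2)) ≤ 2 / 25 * θ * (a * b) := by nlinarith
      have h6 : -(4 / 100 * θ * (1 + θ)) * (1 + Y) ≤ -(2 / 25 * θ * ((1 + θ * Y) / 2)) := by
        have : 0 ≤ 4 / 100 * θ * (Y + θ) := by positivity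
        nlinarith
      linarith
    rw [le_div_iff₀ hX]
    exact h4
  have h3 := coreD hθ hL h
  have h4 : (L - 1) * (L / 2 + 1) + θ * (18 * L + 8) - 16 * θ ^ 2 ≤
      (L - 1) * ((1 / 2 + 1 / (1 + Y)) * L + 1) +
        4 * θ * (L * (9 / 2 + 1 / (1 + Y)) + 2) - 16 * θ ^ 2 := by
    have h5 : 0 ≤ (L - 1) * (1 / (1 + Y) * L) :=
      mul_nonneg (by linarith) (mul_nonneg hκ.le hL0.le)
    have h6 : 0 ≤ 4 * θ * (L * (1 / (1 + Y))) := by positivity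
    nlinarith
  have h5 : 0 < 2 * L - θ := by linarith
  have h6 : (2 * L - θ) *
      ((L - 1) * (L / 2 + 1) + θ * (18 * L + 8) - 16 * θ ^ 2 - 4 / 100 * θ * (1 + θ)) ≤
      (2 * L - θ) *
      ((L - 1) * ((1 / 2 + 1 / (1 + Y)) * L + 1) +
        4 * θ * (L * (9 / 2 + 1 / (1 + Y)) + 2) - 16 * θ ^ 2 +
        2 / 25 * θ * (a * b) / (1 + Y)) :=
    mul_le_mul_of_nonneg_left (by linarith) h5.le
  linarith

/-- The quadratic form in the derivative of the monotone quantity of the first case is positive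
definite. -/
theorem posP {c t y a b : ℝ} (hc : 1 ≤ c ^ 2)
    (en : a ^ 2 + b ^ 2 + c ^ 2 * fY y = fE t y)
    (hL : 20 * fθ t y ≤ 21 * ((b ^ 2 + c ^ 2 * fY y) / fY y)) (N m : ℝ)
    (hNm : N ≠ 0 ∨ m ≠ 0) :
    0 < (fEtt t y / 2 - fEt t y ^ 2 / (4 * (b ^ 2 + c ^ 2 * fY y))) * N ^ 2 +
      c * (fEtp t y * (b ^ 2 + c ^ 2 * fY y) - fEt t y * fEp t y) /
        (b ^ 2 + c ^ 2 * fY y) ^ 2 * (m * N) +
      (((fEpp t y - fEp t y ^ 2 / (b ^ 2 + c ^ 2 * fY y) - fX y / fY y * fEp t y / 2 +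
          (b ^ 2 + c ^ 2 * fY y) * (3 / 2 * (fX y / fY y) ^ 2 - fX y / fY y)) / 2) +
          a * b * fEtp t y / (2 * (b ^ 2 + c ^ 2 * fY y))) / ((b ^ 2 + c ^ 2 * fY y) * fY y) *
            m ^ 2 := by
  have hY := fY_pos y
  have hX := fX_pos y
  have hθ := fθ_pos t y
  have hΛ : 0 < b ^ 2 + c ^ 2 * fY y := by
    have : 0 < c ^ 2 * fY y := mul_pos (by linarith) hY
    positivity
  rw [fEt_eq, fEtt_eq, fEtp_eq, fEpp_eq, fEp_eq]
  rw [fE_eq, fw_eq] at en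
  have hXY : fX y = 1 + fY y := fX_eq y
  -- the variable `L`
  obtain ⟨L, hLdef⟩ : ∃ L, L = (b ^ 2 + c ^ 2 * fY y) / fY y := ⟨_, rfl⟩
  have hΛL : b ^ 2 + c ^ 2 * fY y = L * fY y := by
    rw [hLdef]; field_simp
  rw [← hLdef] at hL
  have hL1 : 1 ≤ L := by
    rw [hLdef, le_div_iff₀ hY]
    nlinarith [sq_nonneg b]
  have hCL : c ^ 2 ≤ L := by
    rw [hLdef, le_div_iff₀ hY]
    nlinarith [sq_nonneg b]
  have hab : a ^ 2 + b ^ 2 ≤ 1 + fθ t y * fY y := by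
    rw [hXY] at en
    nlinarith
  rw [hΛL, hXY]
  generalize fY y = Y at *
  generalize fθ t y = θ at *
  have hL0 : 0 < L := by linarith
  have hX1 : 0 < 1 + Y := by linarith
  refine quad_pos ?_ ?_ N m hNm
  · have h1 : θ * Y / 2500 / 2 - (-(θ * Y) / 50) ^ 2 / (4 * (L * Y)) =
        θ * Y * (2 * L - θ) / (10000 * L) := by
      field_simp
      ring
    rw [h1]
    have : 0 < 2 * L - θ := by linarith
    positivity
  · have hcore := coreP (a := a) (b := b) hY hθ hL1 hL hCL hab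
    have hkey : (c * (2 / 25 * θ * (1 + Y) * (L * Y) - -(θ * Y) / 50 * ((1 + Y) * (1 - 4 * θ))) /
        (L * Y) ^ 2) ^ 2 =
        (θ * (1 + Y) ^ 2 / (5000 * L ^ 3 * Y ^ 2)) *
          (2 * (c ^ 2 / L) * θ * (1 + 4 * L - 4 * θ) ^ 2) := by
      field_simp
      ring
    have hkey2 : 4 * (θ * Y / 2500 / 2 - (-(θ * Y) / 50) ^ 2 / (4 * (L * Y))) *
        (((1 + Y + 16 * θ * (1 + Y) ^ 2 / Y + 4 * θ * (1 + Y) / Y -
          ((1 + Y) * (1 - 4 * θ)) ^ 2 / (L * Y) - (1 + Y) / Y * ((1 + Y) * (1 - 4 * θ)) / 2 +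
          L * Y * (3 / 2 * ((1 + Y) / Y) ^ 2 - (1 + Y) / Y)) / 2 +
          a * b * (2 / 25 * θ * (1 + Y)) / (2 * (L * Y))) / (L * Y * Y)) =
        (θ * (1 + Y) ^ 2 / (5000 * L ^ 3 * Y ^ 2)) * ((2 * L - θ) *
      ((L - 1) * ((1 / 2 + 1 / (1 + Y)) * L + 1) +
        4 * θ * (L * (9 / 2 + 1 / (1 + Y)) + 2) - 16 * θ ^ 2 +
          2 / 25 * θ * (a * b) / (1 + Y))) := by
      field_simp
      ring
    rw [hkey, hkey2]
    exact mul_lt_mul_of_pos_left hcore (by positivity)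

/-- The same with the hypothesis in the form `20 θ Y ≤ 21 Λ`. -/
theorem posP' {c t y a b : ℝ} (hc : 1 ≤ c ^ 2)
    (en : a ^ 2 + b ^ 2 + c ^ 2 * fY y = fE t y)
    (hL : 20 * fθ t y * fY y ≤ 21 * (b ^ 2 + c ^ 2 * fY y)) (N m : ℝ)
    (hNm : N ≠ 0 ∨ m ≠ 0) :
    0 < (fEtt t y / 2 - fEt t y ^ 2 / (4 * (b ^ 2 + c ^ 2 * fY y))) * N ^ 2 +
      c * (fEtp t y * (b ^ 2 + c ^ 2 * fY y) - fEt t y * fEp t y) /
        (b ^ 2 + c ^ 2 * fY y) ^ 2 * (m * N) +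
      (((fEpp t y - fEp t y ^ 2 / (b ^ 2 + c ^ 2 * fY y) - fX y / fY y * fEp t y / 2 +
          (b ^ 2 + c ^ 2 * fY y) * (3 / 2 * (fX y / fY y) ^ 2 - fX y / fY y)) / 2) +
          a * b * fEtp t y / (2 * (b ^ 2 + c ^ 2 * fY y))) / ((b ^ 2 + c ^ 2 * fY y) * fY y) *
            m ^ 2 := by
  refine posP hc en ?_ N m hNm
  rw [← mul_div_assoc, le_div_iff₀ (fY_pos y)]
  exact hL

end Pool.Agent.Lib.MP_6b187a_gt.Div.Pos
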