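import Pool.Agent.Lib.MP_6b187a_gt.Div.Bound

/-!
# The product of a Riemannian metric on `ℝⁿ` with the flat metric of `ℝᵏ`
-/

set_option autoImplicit false
set_option maxSynthPendingDepth 3

namespace Pool.Agent.Lib.MP_6b187a_gt.Div

open Filter Set
open scoped ContDiff Topology

noncomputable section

/-- The projection of `ℝⁿ⁺ᵏ` on the first `n` coordinates. -/
def prP1 (n k : ℕ) : EuclideanSpace ℝ (Fin (n + k)) →L[ℝ] EuclideanSpace ℝ (Fin n) :=
  LinearMap.toContinuousLinearMap
    { toFun := fun x => WithLp.toLp 2 fun i => x (Fin.castAdd k i)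
      map_add' := fun x y => by ext i; simp
      map_smul' := fun c x => by ext i; simp }

/-- The projection of `ℝⁿ⁺ᵏ` on the last `k` coordinates. -/
def prP2 (n k : ℕ) : EuclideanSpace ℝ (Fin (n + k)) →L[ℝ] EuclideanSpace ℝ (Fin k) :=
  LinearMap.toContinuousLinearMap
    { toFun := fun x => WithLp.toLp 2 fun i => x (Fin.natAdd n i)
      map_add' := fun x y => by ext i; simp
      map_smul' := fun c x => by ext i; simp }

/-- The inclusion of `ℝⁿ` in `ℝⁿ⁺ᵏ`. -/
def prI1 (n k : ℕ) : EuclideanSpace ℝ (Fin n) →L[ℝ] EuclideanSpace ℝ (Fin (n + k)) :=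
  LinearMap.toContinuousLinearMap
    { toFun := fun x => WithLp.toLp 2 fun i => Fin.addCases (fun i => x i) (fun _ => (0 : ℝ)) i
      map_add' := fun x y => by
        ext i
        refine Fin.addCases (fun i => ?_) (fun i => ?_) i <;> simp
      map_smul' := fun c x => by
        ext i
        refine Fin.addCases (fun i => ?_) (fun i => ?_) i <;> simp }

/-- The inclusion of `ℝᵏ` in `ℝⁿ⁺ᵏ`. -/
def prI2 (n k : ℕ) : EuclideanSpace ℝ (Fin k) →L[ℝ] EuclideanSpace ℝ (Fin (n + k)) :=
  LinearMap.toContinuousLinearMap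
    { toFun := fun x => WithLp.toLp 2 fun i => Fin.addCases (fun _ => (0 : ℝ)) (fun i => x i) i
      map_add' := fun x y => by
        ext i
        refine Fin.addCases (fun i => ?_) (fun i => ?_) i <;> simp
      map_smul' := fun c x => by
        ext i
        refine Fin.addCases (fun i => ?_) (fun i => ?_) i <;> simp }

variable {n k : ℕ}

@[simp] theorem prP1_apply (x : EuclideanSpace ℝ (Fin (n + k))) (i : Fin n) :
    prP1 n k x i = x (Fin.castAdd k i) := rfl

@[simp] theorem prP2_apply (x : EuclideanSpace ℝ (Fin (n + k))) (i : Fin k) :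
    prP2 n k x i = x (Fin.natAdd n i) := rfl

@[simp] theorem prI1_apply_cast (x : EuclideanSpace ℝ (Fin n)) (i : Fin n) :
    prI1 n k x (Fin.castAdd k i) = x i := by
  simp [prI1]

@[simp] theorem prI1_apply_nat (x : EuclideanSpace ℝ (Fin n)) (i : Fin k) :
    prI1 n k x (Fin.natAdd n i) = 0 := by
  simp [prI1]

@[simp] theorem prI2_apply_cast (x : EuclideanSpace ℝ (Fin k)) (i : Fin n) :
    prI2 n k x (Fin.castAdd k i) = 0 := by
  simp [prI2]

@[simp] theorem prI2_apply_nat (x : EuclideanSpace ℝ (Fin k)) (i : Fin k) :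
    prI2 n k x (Fin.natAdd n i) = x i := by
  simp [prI2]

@[simp] theorem prP1_I1 (x : EuclideanSpace ℝ (Fin n)) : prP1 n k (prI1 n k x) = x := by
  ext i; simp

@[simp] theorem prP2_I1 (x : EuclideanSpace ℝ (Fin n)) : prP2 n k (prI1 n k x) = 0 := by
  ext i; simp

@[simp] theorem prP1_I2 (x : EuclideanSpace ℝ (Fin k)) : prP1 n k (prI2 n k x) = 0 := by
  ext i; simp

@[simp] theorem prP2_I2 (x : EuclideanSpace ℝ (Fin k)) : prP2 n k (prI2 n k x) = x := by
  ext i; simp

theorem pr_add (x : EuclideanSpace ℝ (Fin (n + k))) :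
    prI1 n k (prP1 n k x) + prI2 n k (prP2 n k x) = x := by
  ext i
  refine Fin.addCases (fun i => ?_) (fun i => ?_) i <;> simp

theorem pr_ext {x y : EuclideanSpace ℝ (Fin (n + k))} (h1 : prP1 n k x = prP1 n k y)
    (h2 : prP2 n k x = prP2 n k y) : x = y := by
  rw [← pr_add x, ← pr_add y, h1, h2]

namespace RM

variable (M : RM n) (k)

/-- The product metric on `ℝⁿ⁺ᵏ = ℝⁿ × ℝᵏ`. -/
def prodFlat : RM (n + k) where
  g x := (M.g (prP1 n k x)).bilinearComp (prP1 n k) (prP1 n k) +
    (innerₗ (EuclideanSpace ℝ (Fin k))).toContinuousBilinearMap.bilinearComp (prP2 n k) (prP2 n k)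
  smooth := by
    refine contDiff_clm_apply_iff.2 fun v => contDiff_clm_apply_iff.2 fun w => ?_
    simp only [add_apply, ContinuousLinearMap.bilinearComp_apply]
    exact (((M.smooth.comp (prP1 n k).contDiff).clm_apply contDiff_const).clm_apply
      contDiff_const).add contDiff_const
  symm x v w := by
    simp only [add_apply, ContinuousLinearMap.bilinearComp_apply, LinearMap.toContinuousBilinearMap_apply, innerₗ_apply_apply]
    rw [M.symm, real_inner_comm]
  pos x v hv := by
    simp only [add_apply, ContinuousLinearMap.bilinearComp_apply, LinearMap.toContinuousBilinearMap_apply, innerₗ_apply_apply,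
      real_inner_self_eq_norm_sq]
    by_cases h1 : prP1 n k v = 0
    · have h2 : prP2 n k v ≠ 0 := fun h2 => hv (pr_ext (by simpa using h1) (by simpa using h2))
      have h3 : 0 < ‖prP2 n k v‖ := norm_pos_iff.2 h2
      rw [h1]
      simp only [map_zero, zero_add]
      positivity
    · have h3 := M.pos (prP1 n k x) _ h1
      positivity

variable {k}

theorem prodFlat_g (x v w : EuclideanSpace ℝ (Fin (n + k))) :
    (M.prodFlat k).g x v w = M.g (prP1 n k x) (prP1 n k v) (prP1 n k w) +
      inner ℝ (prP2 n k v) (prP2 n k w) := by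
  simp [prodFlat]

theorem prodFlat_Dg (x u v w : EuclideanSpace ℝ (Fin (n + k))) :
    (M.prodFlat k).Dg x u v w = M.Dg (prP1 n k x) (prP1 n k u) (prP1 n k v) (prP1 n k w) := by
  have h1 : HasFDerivAt (fun y => (M.prodFlat k).g y v w)
      ((((M.prodFlat k).Dg x).flip v).flip w) x := by
    have := (((M.prodFlat k).hasFDerivAt_g x).clm_apply (hasFDerivAt_const v x)).clm_apply
      (hasFDerivAt_const w x)
    refine this.congr_fderiv ?_
    ext y
    simp
  have h2 : HasFDerivAt (fun y => (M.prodFlat k).g y v w)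
      ((((M.Dg (prP1 n k x)).flip (prP1 n k v)).flip (prP1 n k w)).comp (prP1 n k)) x := by
    have h3 : (fun y => (M.prodFlat k).g y v w) = fun y =>
        M.g (prP1 n k y) (prP1 n k v) (prP1 n k w) + inner ℝ (prP2 n k v) (prP2 n k w) := by
      funext y
      exact M.prodFlat_g y v w
    rw [h3]
    have h4 : HasFDerivAt (fun y => M.g (prP1 n k y)) ((M.Dg (prP1 n k x)).comp (prP1 n k)) x :=
      (M.hasFDerivAt_g (prP1 n k x)).comp x (prP1 n k).hasFDerivAt
    have h5 := ((h4.clm_apply (hasFDerivAt_const (prP1 n k v) x)).clm_apply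
      (hasFDerivAt_const (prP1 n k w) x)).add_const (inner ℝ (prP2 n k v) (prP2 n k w))
    refine h5.congr_fderiv ?_
    ext y
    simp
  have := congrArg (fun L => L u) (h1.unique h2)
  simpa using this

theorem prodFlat_geo (x v a w : EuclideanSpace ℝ (Fin (n + k))) :
    (M.prodFlat k).geo x v a w = M.geo (prP1 n k x) (prP1 n k v) (prP1 n k a) (prP1 n k w) +
      inner ℝ (prP2 n k a) (prP2 n k w) := by
  rw [geo_eq, geo_eq, prodFlat_g, prodFlat_Dg, prodFlat_Dg]
  ring

theorem prod_geo_zero (x v a : EuclideanSpace ℝ (Fin n)) : M.geo x v a 0 = 0 := by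
  simp [geo_eq]

theorem prod_geo_smul (x v a w : EuclideanSpace ℝ (Fin n)) (c : ℝ) :
    M.geo x (c • v) ((c * c) • a) w = c * c * M.geo x v a w := by
  simp only [geo_eq, map_smul, smul_apply, smul_eq_mul]
  ring

end RM

end

end Pool.Agent.Lib.MP_6b187a_gt.Div
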