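import Pool.Agent.Lib.MP_6b187a_gt.Div.ProdGeo

/-!
# The distance of the product with a flat factor
-/

set_option autoImplicit false
set_option maxSynthPendingDepth 3

namespace Pool.Agent.Lib.MP_6b187a_gt.Div

open Filter Set MeasureTheory intervalIntegral
open scoped ContDiff Topology

noncomputable section

variable {n k : ℕ}

namespace RM

variable (M : RM n)

theorem prod_continuous_speed {c : ℝ → EuclideanSpace ℝ (Fin n)} (hc : ContDiff ℝ 1 c) :
    Continuous fun t => √(M.g (c t) (deriv c t) (deriv c t)) := by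
  have h1 : Continuous c := hc.continuous
  have h2 : Continuous (deriv c) := hc.continuous_deriv (by norm_num)
  exact Real.continuous_sqrt.comp
    (((M.smooth.continuous.comp h1).clm_apply h2).clm_apply h2)

theorem prod_length_nonneg (c : ℝ → EuclideanSpace ℝ (Fin n)) : 0 ≤ M.length c :=
  intervalIntegral.integral_nonneg (by norm_num) fun _ _ => Real.sqrt_nonneg _

theorem prod_dist_le_length {c : ℝ → EuclideanSpace ℝ (Fin n)} (hc : ContDiff ℝ 1 c)
    {x y : EuclideanSpace ℝ (Fin n)} (h0 : c 0 = x) (h1 : c 1 = y) : M.dist x y ≤ M.length c := by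
  refine csInf_le ⟨0, ?_⟩ ⟨c, hc, h0, h1, rfl⟩
  rintro l ⟨c', -, -, -, rfl⟩
  exact M.prod_length_nonneg c'

theorem prod_le_dist {x y : EuclideanSpace ℝ (Fin n)} {l : ℝ}
    (h : ∀ c : ℝ → EuclideanSpace ℝ (Fin n), ContDiff ℝ 1 c → c 0 = x → c 1 = y →
      l ≤ M.length c) : l ≤ M.dist x y := by
  refine le_csInf ⟨_, fun t => x + t • (y - x), contDiff_const.add
    (contDiff_id.smul contDiff_const), by simp, by simp, rfl⟩ ?_
  rintro _ ⟨c, hc, h0, h1, rfl⟩
  exact h c hc h0 h1

theorem prod_dist_nonneg (x y : EuclideanSpace ℝ (Fin n)) : 0 ≤ M.dist x y :=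
  M.prod_le_dist fun c _ _ _ => M.prod_length_nonneg c

variable {M}

/-- The projection on the first factor does not increase distances. -/
theorem prod_dist_fst_le (x y : EuclideanSpace ℝ (Fin (n + k))) :
    M.dist (prP1 n k x) (prP1 n k y) ≤ (M.prodFlat k).dist x y := by
  refine (M.prodFlat k).prod_le_dist fun c hc h0 h1 => ?_
  have hc1 : ContDiff ℝ 1 fun t => prP1 n k (c t) := (prP1 n k).contDiff.comp hc
  refine (M.prod_dist_le_length hc1 (by rw [h0]) (by rw [h1])).trans ?_
  refine intervalIntegral.integral_mono_on (by norm_num)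
    ((M.prod_continuous_speed hc1).intervalIntegrable _ _)
    (((M.prodFlat k).prod_continuous_speed hc).intervalIntegrable _ _) fun t _ => ?_
  refine Real.sqrt_le_sqrt ?_
  rw [pr_deriv_clm _ (hc.differentiable (by norm_num)), prodFlat_g]
  have := real_inner_self_nonneg (x := prP2 n k (deriv c t))
  linarith

/-- The projection on the flat factor does not increase distances. -/
theorem prod_norm_snd_le (x y : EuclideanSpace ℝ (Fin (n + k))) :
    ‖prP2 n k x - prP2 n k y‖ ≤ (M.prodFlat k).dist x y := by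
  refine (M.prodFlat k).prod_le_dist fun c hc h0 h1 => ?_
  have hd : ∀ t, HasDerivAt (fun t => prP2 n k (c t)) (prP2 n k (deriv c t)) t := fun t =>
    (prP2 n k).hasFDerivAt.comp_hasDerivAt t ((hc.differentiable (by norm_num)) t).hasDerivAt
  have hcont : Continuous fun t => prP2 n k (deriv c t) :=
    (prP2 n k).continuous.comp (hc.continuous_deriv (by norm_num))
  have h2 : ∫ t in (0 : ℝ)..1, prP2 n k (deriv c t) = prP2 n k y - prP2 n k x := by
    rw [integral_eq_sub_of_hasDerivAt (fun t _ => hd t) (hcont.intervalIntegrable _ _), h0, h1]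
  rw [norm_sub_rev, ← h2]
  refine (intervalIntegral.norm_integral_le_integral_norm (by norm_num)).trans ?_
  refine intervalIntegral.integral_mono_on (by norm_num) (hcont.norm.intervalIntegrable _ _)
    (((M.prodFlat k).prod_continuous_speed hc).intervalIntegrable _ _) fun t _ => ?_
  refine Real.le_sqrt_of_sq_le ?_
  rw [prodFlat_g, real_inner_self_eq_norm_sq]
  have := M.g_nonneg (prP1 n k (c t)) (prP1 n k (deriv c t))
  linarith

/-- The distance of the product is at most the sum of the distances. -/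
theorem prod_dist_le (x y : EuclideanSpace ℝ (Fin (n + k))) :
    (M.prodFlat k).dist x y ≤ M.dist (prP1 n k x) (prP1 n k y) + ‖prP2 n k x - prP2 n k y‖ := by
  rw [← sub_le_iff_le_add]
  refine M.prod_le_dist fun c hc h0 h1 => ?_
  rw [sub_le_iff_le_add]
  set q := prP2 n k y - prP2 n k x with hq
  have hd : ∀ t, HasDerivAt (fun t => prI1 n k (c t) + prI2 n k (prP2 n k x + t • q))
      (prI1 n k (deriv c t) + prI2 n k q) t := by
    intro t
    have h3 := (prI1 n k).hasFDerivAt.comp_hasDerivAt t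
      ((hc.differentiable (by norm_num)) t).hasDerivAt
    have h2 : HasDerivAt (fun t : ℝ => prP2 n k x + t • q) q t := by
      simpa using ((hasDerivAt_id t).smul_const q).const_add (prP2 n k x)
    exact h3.add ((prI2 n k).hasFDerivAt.comp_hasDerivAt t h2)
  have hC : ContDiff ℝ 1 fun t => prI1 n k (c t) + prI2 n k (prP2 n k x + t • q) :=
    ((prI1 n k).contDiff.comp hc).add ((prI2 n k).contDiff.comp
      (contDiff_const.add (contDiff_id.smul contDiff_const)))
  refine ((M.prodFlat k).prod_dist_le_length hC (x := x) (y := y) ?_ ?_).trans ?_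
  · simp only [zero_smul, add_zero, h0]
    exact pr_add x
  · simp only [one_smul, h1, hq, add_sub_cancel]
    exact pr_add y
  · have h4 : M.length c + ‖prP2 n k x - prP2 n k y‖ =
        ∫ t in (0 : ℝ)..1, (√(M.g (c t) (deriv c t) (deriv c t)) + ‖q‖) := by
      rw [intervalIntegral.integral_add ((M.prod_continuous_speed hc).intervalIntegrable _ _)
        intervalIntegrable_const, intervalIntegral.integral_const, hq, norm_sub_rev]
      simp [length]
    rw [h4]
    refine intervalIntegral.integral_mono_on (by norm_num)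
      (((M.prodFlat k).prod_continuous_speed hC).intervalIntegrable _ _)
      (((M.prod_continuous_speed hc).add continuous_const).intervalIntegrable _ _) fun t _ => ?_
    rw [(hd t).deriv, prodFlat_g]
    simp only [map_add, prP1_I1, prP1_I2, prP2_I1, prP2_I2, add_zero, zero_add]
    rw [real_inner_self_eq_norm_sq]
    refine Real.sqrt_le_iff.2 ⟨by positivity, ?_⟩
    have h5 := Real.sq_sqrt (M.g_nonneg (c t) (deriv c t))
    have h6 := mul_nonneg (Real.sqrt_nonneg (M.g (c t) (deriv c t) (deriv c t))) (norm_nonneg q)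
    nlinarith

theorem MetricallyComplete.prodFlat (h : M.MetricallyComplete) :
    (M.prodFlat k).MetricallyComplete := by
  intro x hx
  obtain ⟨y1, hy1⟩ := h (fun i => prP1 n k (x i)) (fun ε hε => by
    obtain ⟨N, hN⟩ := hx ε hε
    exact ⟨N, fun i j hi hj => (prod_dist_fst_le _ _).trans_lt (hN i j hi hj)⟩)
  have hc : CauchySeq fun i => prP2 n k (x i) := by
    refine Metric.cauchySeq_iff.2 fun ε hε => ?_
    obtain ⟨N, hN⟩ := hx ε hε
    refine ⟨N, fun i hi j hj => ?_⟩
    rw [dist_eq_norm]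
    exact (prod_norm_snd_le (M := M) _ _).trans_lt (hN i j hi hj)
  obtain ⟨y2, hy2⟩ := cauchySeq_tendsto_of_complete hc
  refine ⟨prI1 n k y1 + prI2 n k y2, ?_⟩
  have h1 : Tendsto (fun i => M.dist (prP1 n k (x i)) y1 + ‖prP2 n k (x i) - y2‖) atTop (𝓝 0) := by
    have h2 : Tendsto (fun i => ‖prP2 n k (x i) - y2‖) atTop (𝓝 0) := by
      have := (tendsto_iff_norm_sub_tendsto_zero.1 hy2)
      exact this
    simpa using hy1.add h2
  refine squeeze_zero (fun i => (M.prodFlat k).prod_dist_nonneg _ _) (fun i => ?_) h1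
  refine (prod_dist_le _ _).trans (le_of_eq ?_)
  simp

/-- Two geodesics from one point, which do not diverge, in dimension `n + k`. -/
theorem prod_example {α β : ℝ → EuclideanSpace ℝ (Fin n)} {C : ℝ} (hα : M.IsGeodesic α)
    (hβ : M.IsGeodesic β) (h0 : α 0 = β 0) (h1 : deriv α 0 ≠ deriv β 0)
    (hC : ∀ t, 0 ≤ t → M.dist (α t) (β t) ≤ C) :
    ∃ α' β' : ℝ → EuclideanSpace ℝ (Fin (n + k)), (M.prodFlat k).IsGeodesic α' ∧
      (M.prodFlat k).IsGeodesic β' ∧ α' 0 = β' 0 ∧ deriv α' 0 ≠ deriv β' 0 ∧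
      ∀ t, 0 ≤ t → (M.prodFlat k).dist (α' t) (β' t) ≤ C := by
  obtain ⟨a1, a2⟩ := hα.isGeo.prod (0 : EuclideanSpace ℝ (Fin k)) 0
  obtain ⟨b1, b2⟩ := hβ.isGeo.prod (0 : EuclideanSpace ℝ (Fin k)) 0
  rw [norm_zero, zero_pow two_ne_zero, add_zero] at a1 b1
  refine ⟨_, _, a1.isGeodesic, b1.isGeodesic, by simp [h0], fun h2 => h1 ?_, fun t ht => ?_⟩
  · rw [a2 0, b2 0] at h2
    have h3 := congrArg (prP1 n k) h2
    simpa using h3
  · refine (prod_dist_le _ _).trans ?_
    simpa using hC t ht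

end RM

/-- **The step to all higher dimensions.** -/
theorem prod_exists_add
    (h : ∃ M : RM n, M.GeodesicallyComplete ∧ M.MetricallyComplete ∧ M.NoConjugatePoints ∧
      ∃ α β : ℝ → EuclideanSpace ℝ (Fin n), M.IsGeodesic α ∧ M.IsGeodesic β ∧ α 0 = β 0 ∧
        deriv α 0 ≠ deriv β 0 ∧ ∃ C : ℝ, ∀ t, 0 ≤ t → M.dist (α t) (β t) ≤ C) (k : ℕ) :
    ∃ M : RM (n + k), M.GeodesicallyComplete ∧ M.MetricallyComplete ∧ M.NoConjugatePoints ∧
      ∃ α β : ℝ → EuclideanSpace ℝ (Fin (n + k)), M.IsGeodesic α ∧ M.IsGeodesic β ∧ α 0 = β 0 ∧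
        deriv α 0 ≠ deriv β 0 ∧ ∃ C : ℝ, ∀ t, 0 ≤ t → M.dist (α t) (β t) ≤ C := by
  obtain ⟨M, h1, h2, h3, α, β, hα, hβ, h4, h5, C, hC⟩ := h
  obtain ⟨α', β', h6, h7, h8, h9, h10⟩ := RM.prod_example (k := k) hα hβ h4 h5 hC
  exact ⟨M.prodFlat k, h1.prodFlat, h2.prodFlat, h3.prodFlat, α', β', h6, h7, h8, h9, C, h10⟩

/-- The statement in dimension three gives the statement in every dimension `n ≥ 3`. -/
theorem exists_of_three
    (h : ∃ M : RM 3, M.GeodesicallyComplete ∧ M.MetricallyComplete ∧ M.NoConjugatePoints ∧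
      ∃ α β : ℝ → EuclideanSpace ℝ (Fin 3), M.IsGeodesic α ∧ M.IsGeodesic β ∧ α 0 = β 0 ∧
        deriv α 0 ≠ deriv β 0 ∧ ∃ C : ℝ, ∀ t, 0 ≤ t → M.dist (α t) (β t) ≤ C) {n : ℕ}
    (hn : 3 ≤ n) :
    ∃ M : RM n, M.GeodesicallyComplete ∧ M.MetricallyComplete ∧ M.NoConjugatePoints ∧
      ∃ α β : ℝ → EuclideanSpace ℝ (Fin n), M.IsGeodesic α ∧ M.IsGeodesic β ∧ α 0 = β 0 ∧
        deriv α 0 ≠ deriv β 0 ∧ ∃ C : ℝ, ∀ t, 0 ≤ t → M.dist (α t) (β t) ≤ C := by
  obtain ⟨k, rfl⟩ := Nat.exists_eq_add_of_le hn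
  exact prod_exists_add h k

end

end Pool.Agent.Lib.MP_6b187a_gt.Div
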