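import Pool.Agent.Lib.MP_6b187a_gt.Div.Prod

/-!
# Geodesics and Jacobi fields of the product with a flat factor
-/

set_option autoImplicit false
set_option maxSynthPendingDepth 3

namespace Pool.Agent.Lib.MP_6b187a_gt.Div

open Filter Set
open scoped ContDiff Topology

noncomputable section

theorem pr_deriv_clm {m m' : ℕ} (L : EuclideanSpace ℝ (Fin m) →L[ℝ] EuclideanSpace ℝ (Fin m'))
    {γ : ℝ → EuclideanSpace ℝ (Fin m)} (h : Differentiable ℝ γ) :
    deriv (fun t => L (γ t)) = fun t => L (deriv γ t) := by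
  funext t
  exact (L.hasFDerivAt.comp_hasDerivAt t (h t).hasDerivAt).deriv

theorem pr_differentiable_deriv {m : ℕ} {γ : ℝ → EuclideanSpace ℝ (Fin m)} (h : ContDiff ℝ 2 γ) :
    Differentiable ℝ (deriv γ) := fun t =>
  (RM.hasDerivAt_deriv_of_contDiff h t).differentiableAt

theorem pr_deriv2_clm {m m' : ℕ} (L : EuclideanSpace ℝ (Fin m) →L[ℝ] EuclideanSpace ℝ (Fin m'))
    {γ : ℝ → EuclideanSpace ℝ (Fin m)} (h : ContDiff ℝ 2 γ) :
    deriv (deriv (fun t => L (γ t))) = fun t => L (deriv (deriv γ) t) := by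
  rw [pr_deriv_clm L (h.differentiable (by norm_num))]
  exact pr_deriv_clm L (pr_differentiable_deriv h)

/-- A curve with zero acceleration which vanishes at two points vanishes. -/
theorem pr_eq_zero {m : ℕ} {f : ℝ → EuclideanSpace ℝ (Fin m)} (h : ContDiff ℝ 2 f)
    (h2 : ∀ t, deriv (deriv f) t = 0) {a b : ℝ} (hab : a ≠ b) (ha : f a = 0) (hb : f b = 0) (t : ℝ) :
    f t = 0 := by
  have hd : ∀ s, deriv f s = deriv f a := fun s =>
    is_const_of_deriv_eq_zero (pr_differentiable_deriv h) h2 s a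
  have hf : ∀ s, f s - (s - a) • deriv f a = f a - (a - a) • deriv f a := by
    intro s
    refine is_const_of_deriv_eq_zero (f := fun s => f s - (s - a) • deriv f a) ?_ ?_ s a
    · intro r
      exact ((h.differentiable (by norm_num)) r).sub
        (((differentiableAt_id).sub_const a).smul_const (deriv f a))
    · intro r
      have h1 : HasDerivAt f (deriv f r) r := RM.hasDerivAt_of_contDiff h r
      have h3 : HasDerivAt (fun s : ℝ => (s - a) • deriv f a) ((1 : ℝ) • deriv f a) r :=
        ((hasDerivAt_id r).sub_const a).smul_const (deriv f a)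
      have h4 := (h1.sub h3).deriv
      simp only [hd r, one_smul, sub_self] at h4
      exact h4
  have h5 : ∀ s, f s = (s - a) • deriv f a := by
    intro s
    have := hf s
    rw [ha, sub_self, zero_smul, sub_zero, sub_eq_zero] at this
    exact this
  have h6 : deriv f a = 0 := by
    have := h5 b
    rw [hb] at this
    rcases smul_eq_zero.1 this.symm with h7 | h7
    · exact absurd (sub_eq_zero.1 h7).symm hab
    · exact h7
  rw [h5 t, h6, smul_zero]

theorem pr_deriv_scale {m : ℕ} (γ : ℝ → EuclideanSpace ℝ (Fin m)) (c : ℝ) :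
    deriv (fun t => γ (c * t)) = fun t => c • deriv γ (c * t) := by
  funext t
  exact deriv_comp_mul_left c γ t

theorem pr_deriv2_scale {m : ℕ} (γ : ℝ → EuclideanSpace ℝ (Fin m)) (h : ContDiff ℝ 2 γ) (c : ℝ) :
    deriv (deriv (fun t => γ (c * t))) = fun t => (c * c) • deriv (deriv γ) (c * t) := by
  rw [pr_deriv_scale]
  funext t
  have h1 : HasDerivAt (fun t => deriv γ (c * t)) (c • deriv (deriv γ) (c * t)) t := by
    have h2 : HasDerivAt (fun t : ℝ => c * t) c t := by
      simpa using (hasDerivAt_id t).const_mul c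
    exact (RM.hasDerivAt_deriv_of_contDiff h (c * t)).scomp t h2
  have h3 := (h1.const_smul c).deriv
  rw [smul_smul] at h3
  exact h3

theorem pr_contDiff_scale {m : ℕ} {γ : ℝ → EuclideanSpace ℝ (Fin m)} (h : ContDiff ℝ 2 γ)
    (c : ℝ) : ContDiff ℝ 2 (fun t => γ (c * t)) :=
  h.comp (contDiff_const.mul contDiff_id)

variable {n k : ℕ}

namespace RM

variable (M : RM n)

/-- A geodesic of constant speed `√σ`. -/
structure IsGeo (γ : ℝ → EuclideanSpace ℝ (Fin n)) (σ : ℝ) : Prop where
  smooth : ContDiff ℝ 2 γ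
  speed : ∀ t, M.g (γ t) (deriv γ t) (deriv γ t) = σ
  eq : ∀ t w, M.geo (γ t) (deriv γ t) (deriv (deriv γ) t) w = 0

variable {M}

theorem IsGeodesic.isGeo {γ : ℝ → EuclideanSpace ℝ (Fin n)} (h : M.IsGeodesic γ) :
    M.IsGeo γ 1 := ⟨h.smooth, h.unit, h.eq⟩

theorem IsGeo.isGeodesic {γ : ℝ → EuclideanSpace ℝ (Fin n)} (h : M.IsGeo γ 1) :
    M.IsGeodesic γ := ⟨h.smooth, h.speed, h.eq⟩

theorem IsGeo.scale {γ : ℝ → EuclideanSpace ℝ (Fin n)} {σ : ℝ} (h : M.IsGeo γ σ) (c : ℝ) :
    M.IsGeo (fun t => γ (c * t)) (c * c * σ) := by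
  refine ⟨pr_contDiff_scale h.smooth c, fun t => ?_, fun t w => ?_⟩
  · rw [pr_deriv_scale]
    simp only [map_smul, smul_apply, smul_eq_mul]
    rw [h.speed (c * t)]
    ring
  · rw [pr_deriv2_scale γ h.smooth, pr_deriv_scale]
    simp only
    rw [prod_geo_smul, h.eq, mul_zero]

theorem IsJacobi.scale {γ J : ℝ → EuclideanSpace ℝ (Fin n)} (hγ : ContDiff ℝ 2 γ)
    (h : M.IsJacobi γ J) (c : ℝ) : M.IsJacobi (fun t => γ (c * t)) (fun t => J (c * t)) := by
  refine ⟨pr_contDiff_scale h.smooth c, fun t w => ?_⟩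
  rw [pr_deriv2_scale γ hγ, pr_deriv2_scale J h.smooth, pr_deriv_scale, pr_deriv_scale]
  simp only
  have h1 : (fun s : ℝ => M.geo (γ (c * t) + s • J (c * t))
      (c • deriv γ (c * t) + s • c • deriv J (c * t))
      ((c * c) • deriv (deriv γ) (c * t) + s • (c * c) • deriv (deriv J) (c * t)) w) =
      fun s : ℝ => c * c * M.geo (γ (c * t) + s • J (c * t))
        (deriv γ (c * t) + s • deriv J (c * t))
        (deriv (deriv γ) (c * t) + s • deriv (deriv J) (c * t)) w := by
    funext s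
    rw [← prod_geo_smul]
    congr 1
    · rw [smul_add, smul_comm s c]
    · rw [smul_add, smul_comm s (c * c)]
  rw [h1, deriv_const_mul_field, h.eq (c * t) w, mul_zero]

theorem NoConjugatePoints.of_isGeo (h : M.NoConjugatePoints) {γ J : ℝ → EuclideanSpace ℝ (Fin n)}
    {σ : ℝ} (hγ : M.IsGeo γ σ) (hJ : M.IsJacobi γ J) {a b : ℝ} (hab : a ≠ b) (ha : J a = 0)
    (hb : J b = 0) (t : ℝ) : J t = 0 := by
  have hσ : 0 ≤ σ := by
    rw [← hγ.speed 0]
    exact M.g_nonneg _ _
  rcases hσ.eq_or_lt with h0 | h0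
  · have h1 : ∀ t, deriv γ t = 0 := by
      intro t
      by_contra h2
      have h3 := M.pos (γ t) _ h2
      rw [hγ.speed t] at h3
      exact absurd h3 (by rw [← h0]; exact lt_irrefl _)
    have h2 : ∀ t, deriv (deriv γ) t = 0 := by
      intro t
      have h3 : deriv γ = fun _ => 0 := funext h1
      rw [h3]
      simp
    have h3 : ∀ t, deriv (deriv J) t = 0 := by
      intro t
      by_contra h4
      have h5 := M.pos (γ t) _ h4
      have h6 := hJ.dgeo_eq t (deriv (deriv J) t)
      rw [h1 t, h2 t] at h6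
      simp only [dgeo, map_zero, zero_apply, add_zero, zero_add, sub_zero, zero_div] at h6
      exact absurd h5 (by rw [h6]; exact lt_irrefl _)
    exact pr_eq_zero hJ.smooth h3 hab ha hb t
  · have hs : 0 < √σ := Real.sqrt_pos.2 h0
    have hs2 : √σ * √σ = σ := Real.mul_self_sqrt hσ
    have hc : (√σ)⁻¹ * (√σ)⁻¹ * σ = 1 := by
      rw [← mul_inv, hs2]
      exact inv_mul_cancel₀ h0.ne'
    have h1 := hγ.scale (√σ)⁻¹
    rw [hc] at h1
    have h2 := hJ.scale hγ.smooth (√σ)⁻¹
    have h3 : ∀ r : ℝ, (√σ)⁻¹ * (√σ * r) = r := fun r => by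
      rw [← mul_assoc, inv_mul_cancel₀ hs.ne', one_mul]
    have h4 := h _ _ h1.isGeodesic h2 (√σ * a) (√σ * b)
      (fun h5 => hab (mul_left_cancel₀ hs.ne' h5)) (by rw [h3]; exact ha) (by rw [h3]; exact hb)
      (√σ * t)
    rw [h3] at h4
    exact h4

/-- The components of a geodesic of the product. -/
theorem IsGeo.fst {γ : ℝ → EuclideanSpace ℝ (Fin (n + k))} {σ : ℝ}
    (h : (M.prodFlat k).IsGeo γ σ) :
    (∀ t, prP2 n k (deriv (deriv γ) t) = 0) ∧ ∃ τ, M.IsGeo (fun t => prP1 n k (γ t)) τ := by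
  have h1 : ∀ t, prP2 n k (deriv (deriv γ) t) = 0 := by
    intro t
    have h2 := h.eq t (prI2 n k (prP2 n k (deriv (deriv γ) t)))
    rw [prodFlat_geo, prP1_I2, prod_geo_zero, zero_add, prP2_I2] at h2
    exact inner_self_eq_zero.1 h2
  refine ⟨h1, σ - inner ℝ (prP2 n k (deriv γ 0)) (prP2 n k (deriv γ 0)),
    (prP1 n k).contDiff.comp h.smooth, fun t => ?_, fun t w => ?_⟩
  · rw [pr_deriv_clm _ (h.smooth.differentiable (by norm_num))]
    have h3 : prP2 n k (deriv γ t) = prP2 n k (deriv γ 0) := by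
      refine is_const_of_deriv_eq_zero (f := fun t => prP2 n k (deriv γ t))
        ((prP2 n k).differentiable.comp (pr_differentiable_deriv h.smooth)) (fun s => ?_) t 0
      rw [pr_deriv_clm _ (pr_differentiable_deriv h.smooth)]
      exact h1 s
    have h4 := h.speed t
    rw [prodFlat_g, h3] at h4
    simp only
    linarith
  · rw [pr_deriv2_clm _ h.smooth, pr_deriv_clm _ (h.smooth.differentiable (by norm_num))]
    have h2 := h.eq t (prI1 n k w)
    rw [prodFlat_geo, prP1_I1, prP2_I1, inner_zero_right, add_zero] at h2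
    exact h2

/-- The components of a Jacobi field of the product. -/
theorem IsJacobi.fst {γ J : ℝ → EuclideanSpace ℝ (Fin (n + k))} (hγ : ContDiff ℝ 2 γ)
    (h : (M.prodFlat k).IsJacobi γ J) :
    (∀ t, prP2 n k (deriv (deriv J) t) = 0) ∧
      M.IsJacobi (fun t => prP1 n k (γ t)) (fun t => prP1 n k (J t)) := by
  refine ⟨fun t => ?_, (prP1 n k).contDiff.comp h.smooth, fun t w => ?_⟩
  · have h2 := h.eq t (prI2 n k (prP2 n k (deriv (deriv J) t)))
    have h3 : (fun s : ℝ => (M.prodFlat k).geo (γ t + s • J t) (deriv γ t + s • deriv J t)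
        (deriv (deriv γ) t + s • deriv (deriv J) t) (prI2 n k (prP2 n k (deriv (deriv J) t)))) =
        fun s : ℝ => inner ℝ (prP2 n k (deriv (deriv γ) t)) (prP2 n k (deriv (deriv J) t)) +
          s * inner ℝ (prP2 n k (deriv (deriv J) t)) (prP2 n k (deriv (deriv J) t)) := by
      funext s
      rw [prodFlat_geo, prP1_I2, prod_geo_zero, zero_add, prP2_I2, map_add, map_smul, inner_add_left,
        inner_smul_left]
      simp
    rw [h3] at h2
    have h4 : HasDerivAt (fun s : ℝ => inner ℝ (prP2 n k (deriv (deriv γ) t))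
        (prP2 n k (deriv (deriv J) t)) +
          s * inner ℝ (prP2 n k (deriv (deriv J) t)) (prP2 n k (deriv (deriv J) t)))
        (1 * inner ℝ (prP2 n k (deriv (deriv J) t)) (prP2 n k (deriv (deriv J) t))) 0 :=
      ((hasDerivAt_id (0 : ℝ)).mul_const _).const_add _
    rw [h4.deriv, one_mul] at h2
    exact inner_self_eq_zero.1 h2
  · rw [pr_deriv2_clm _ hγ, pr_deriv_clm _ (hγ.differentiable (by norm_num)),
      pr_deriv2_clm _ h.smooth, pr_deriv_clm _ (h.smooth.differentiable (by norm_num))]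
    have h2 := h.eq t (prI1 n k w)
    have h3 : (fun s : ℝ => (M.prodFlat k).geo (γ t + s • J t) (deriv γ t + s • deriv J t)
        (deriv (deriv γ) t + s • deriv (deriv J) t) (prI1 n k w)) =
        fun s : ℝ => M.geo (prP1 n k (γ t) + s • prP1 n k (J t))
          (prP1 n k (deriv γ t) + s • prP1 n k (deriv J t))
          (prP1 n k (deriv (deriv γ) t) + s • prP1 n k (deriv (deriv J) t)) w := by
      funext s
      rw [prodFlat_geo, prP1_I1, prP2_I1, inner_zero_right, add_zero]
      simp only [map_add, map_smul]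
    rw [h3] at h2
    exact h2

/-- A product with a flat factor has no conjugate points if the first factor has none. -/
theorem NoConjugatePoints.prodFlat (h : M.NoConjugatePoints) :
    (M.prodFlat k).NoConjugatePoints := by
  intro γ J hγ hJ a b hab ha hb t
  obtain ⟨-, τ, h1⟩ := hγ.isGeo.fst
  obtain ⟨h2, h3⟩ := hJ.fst hγ.smooth
  refine pr_ext ?_ ?_
  · rw [map_zero]
    exact h.of_isGeo h1 h3 hab (by rw [ha, map_zero]) (by rw [hb, map_zero]) t
  · rw [map_zero]
    refine pr_eq_zero (f := fun t => prP2 n k (J t)) ((prP2 n k).contDiff.comp hJ.smooth)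
      (fun s => ?_) hab (by rw [ha, map_zero]) (by rw [hb, map_zero]) t
    rw [pr_deriv2_clm _ hJ.smooth]
    exact h2 s

/-- The product of a geodesic with a straight line. -/
theorem IsGeo.prod {γ : ℝ → EuclideanSpace ℝ (Fin n)} {σ : ℝ} (h : M.IsGeo γ σ)
    (p q : EuclideanSpace ℝ (Fin k)) :
    (M.prodFlat k).IsGeo (fun t => prI1 n k (γ t) + prI2 n k (p + t • q)) (σ + ‖q‖ ^ 2) ∧
      ∀ t, deriv (fun t => prI1 n k (γ t) + prI2 n k (p + t • q)) t =
        prI1 n k (deriv γ t) + prI2 n k q := by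
  have hd : ∀ t, HasDerivAt (fun t => prI1 n k (γ t) + prI2 n k (p + t • q))
      (prI1 n k (deriv γ t) + prI2 n k q) t := by
    intro t
    have h1 := (prI1 n k).hasFDerivAt.comp_hasDerivAt t (hasDerivAt_of_contDiff h.smooth t)
    have h2 : HasDerivAt (fun t : ℝ => p + t • q) q t := by
      simpa using ((hasDerivAt_id t).smul_const q).const_add p
    exact h1.add ((prI2 n k).hasFDerivAt.comp_hasDerivAt t h2)
  have hd1 : deriv (fun t => prI1 n k (γ t) + prI2 n k (p + t • q)) =
      fun t => prI1 n k (deriv γ t) + prI2 n k q := funext fun t => (hd t).deriv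
  have hd2 : deriv (fun t => prI1 n k (deriv γ t) + prI2 n k q) =
      fun t => prI1 n k (deriv (deriv γ) t) := by
    funext t
    exact (((prI1 n k).hasFDerivAt.comp_hasDerivAt t
      (hasDerivAt_deriv_of_contDiff h.smooth t)).add_const _).deriv
  refine ⟨⟨?_, fun t => ?_, fun t w => ?_⟩, fun t => (hd t).deriv⟩
  · exact ((prI1 n k).contDiff.comp h.smooth).add ((prI2 n k).contDiff.comp
      (contDiff_const.add (contDiff_id.smul contDiff_const)))
  · rw [hd1, prodFlat_g]
    simp only [map_add, prP1_I1, prP1_I2, prP2_I1, prP2_I2, add_zero, zero_add]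
    rw [h.speed t, real_inner_self_eq_norm_sq]
  · rw [hd1, hd2, prodFlat_geo]
    simp only [map_add, prP1_I1, prP1_I2, prP2_I1, add_zero, inner_zero_left]
    exact h.eq t _

theorem GeodesicallyComplete.prodFlat (h : M.GeodesicallyComplete) :
    (M.prodFlat k).GeodesicallyComplete := by
  intro x v hv
  rw [prodFlat_g, real_inner_self_eq_norm_sq] at hv
  by_cases h1 : prP1 n k v = 0
  · have h2 : M.IsGeo (fun _ => prP1 n k x) 0 := by
      refine ⟨contDiff_const, fun t => ?_, fun t w => ?_⟩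
      · simp
      · simp [geo_eq]
    obtain ⟨h3, h4⟩ := h2.prod (prP2 n k x) (prP2 n k v)
    rw [h1, map_zero, zero_add] at hv
    rw [zero_add, hv] at h3
    refine ⟨_, h3.isGeodesic, ?_, ?_⟩
    · simp only [zero_smul, add_zero]
      exact pr_add x
    · rw [h4 0]
      refine pr_ext ?_ ?_
      · simp [h1]
      · simp
  · have h2 : 0 < M.g (prP1 n k x) (prP1 n k v) (prP1 n k v) := M.pos _ _ h1
    set σ := M.g (prP1 n k x) (prP1 n k v) (prP1 n k v) with hσ
    have hs : 0 < √σ := Real.sqrt_pos.2 h2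
    have hs2 : √σ * √σ = σ := Real.mul_self_sqrt h2.le
    obtain ⟨γ, h3, h4, h5⟩ := h (prP1 n k x) ((√σ)⁻¹ • prP1 n k v) (by
      simp only [map_smul, smul_apply, smul_eq_mul]
      rw [← hσ, ← mul_assoc, ← mul_inv, hs2]
      exact inv_mul_cancel₀ h2.ne')
    have h6 := h3.isGeo.scale (√σ)
    rw [mul_one, hs2] at h6
    obtain ⟨h7, h8⟩ := h6.prod (prP2 n k x) (prP2 n k v)
    rw [hv] at h7
    refine ⟨_, h7.isGeodesic, ?_, ?_⟩
    · simp only [zero_smul, add_zero, mul_zero, h4]
      exact pr_add x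
    · rw [h8 0, pr_deriv_scale]
      simp only [mul_zero, h5, smul_smul, mul_inv_cancel₀ hs.ne', one_smul]
      exact pr_add v

end RM

end

end Pool.Agent.Lib.MP_6b187a_gt.Div
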