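import Pool.Agent.Lib.MP_6b187a_gt.Div.Sys

/-!
# The monotone quantity for `|c| ≤ 1`
-/

set_option autoImplicit false

namespace Pool.Agent.Lib.MP_6b187a_gt.Div

noncomputable section

section

variable (c dc : ℝ) (Et Ep G Gp a b τ u ξ A B : ℝ → ℝ)

/-- The normal component `m = b τ - a u` in the `(t, ψ)`-plane. -/
def nM (s : ℝ) : ℝ := b s * τ s - a s * u s

/-- `q = E m'`. -/
def nQ (s : ℝ) : ℝ := (Ep s - c ^ 2 * Gp s) / 2 * τ s + b s * A s - Et s / 2 * u s - a s * B s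

/-- `F = a² + b²`. -/
def nF (s : ℝ) : ℝ := a s ^ 2 + b s ^ 2

/-- `N5 = c Y l - ξ`, `l = (a τ + b u) / F`. -/
def nN (s : ℝ) : ℝ := c * G s * ((a s * τ s + b s * u s) / nF a b s) - ξ s

/-- The monotone quantity for `|c| ≤ 1`. -/
def psiN (s : ℝ) : ℝ :=
  nM a b τ u s * nQ c Et Ep Gp a b τ u A B s / nF a b s - dc * nN c G a b τ u ξ s

end

variable {c dc k : ℝ} {E Et Ep G Gp a b τ u ξ A B : ℝ → ℝ} {Ett Etp Epp Gpp : ℝ} {s : ℝ}

theorem Lin.nM_deriv (h : Lin c dc k E Et Ep G Gp a b τ u ξ A B Ett Etp Epp Gpp s) :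
    HasDerivAt (nM a b τ u) (nQ c Et Ep Gp a b τ u A B s / E s) s := by
  have hE := h.Epos.ne'
  have := (h.hb.mul h.hτ).sub (h.ha.mul h.hu)
  refine this.congr_deriv ?_
  unfold nQ
  field_simp
  ring

theorem Lin.nF_deriv (h : Lin c dc k E Et Ep G Gp a b τ u ξ A B Ett Etp Epp Gpp s) :
    HasDerivAt (nF a b) ((a s * Et s + b s * (Ep s - c ^ 2 * Gp s)) / E s) s := by
  have hE := h.Epos.ne'
  have := (h.ha.pow 2).add (h.hb.pow 2)
  refine this.congr_deriv ?_
  field_simp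
  norm_num
  ring

theorem Lin.nQ_deriv (h : Lin c dc k E Et Ep G Gp a b τ u ξ A B Ett Etp Epp Gpp s) :
    HasDerivAt (nQ c Et Ep Gp a b τ u A B)
      (((Ett + Epp - c ^ 2 * Gpp) / 2 * nM a b τ u s + (Ep s - c ^ 2 * Gp s) * A s - Et s * B s +
        a s * c * dc * Gp s) / E s) s := by
  have hE := h.Epos.ne'
  have := (((((h.hEp.sub (h.hGp.const_mul (c ^ 2))).div_const 2).mul h.hτ).add
    (h.hb.mul h.hA)).sub ((h.hEt.div_const 2).mul h.hu)).sub (h.ha.mul h.hB)
  refine this.congr_deriv ?_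
  simp only [Pi.sub_apply, nM]
  field_simp
  ring

theorem Lin.nN_deriv (h : Lin c dc k E Et Ep G Gp a b τ u ξ A B Ett Etp Epp Gpp s)
    (hF : nF a b s ≠ 0) :
    HasDerivAt (nN c G a b τ u ξ)
      ((c * a s * Gp s * nM a b τ u s / nF a b s - G s * dc +
        c * G s * ((b s * Et s - a s * (Ep s - c ^ 2 * Gp s)) * nM a b τ u s / nF a b s -
          c * G s * dc) / nF a b s) / E s) s := by
  have hE := h.Epos.ne'
  have h1 := ((h.ha.mul h.hτ).add (h.hb.mul h.hu)).div h.nF_deriv hF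
  have := ((h.hG.const_mul c).mul h1).sub h.hξ
  refine this.congr_deriv ?_
  have hF' : a s ^ 2 + b s ^ 2 ≠ 0 := hF
  simp only [Pi.mul_apply, Pi.add_apply, Pi.div_apply, nM, nF]
  have hc := h.cons
  field_simp
  linear_combination (2 * c * G s) * (a s ^ 2 + b s ^ 2) * hc

/-- The derivative of the monotone quantity for `|c| ≤ 1`. -/
theorem Lin.psiN_deriv (h : Lin c dc k E Et Ep G Gp a b τ u ξ A B Ett Etp Epp Gpp s)
    (hF : nF a b s ≠ 0) :
    HasDerivAt (psiN c dc Et Ep G Gp a b τ u ξ A B)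
      ((nQ c Et Ep Gp a b τ u A B s ^ 2 / nF a b s +
        (nF a b s * (Ett + Epp - c ^ 2 * Gpp) - Et s ^ 2 - (Ep s - c ^ 2 * Gp s) ^ 2) /
          (2 * nF a b s ^ 2) * nM a b τ u s ^ 2 +
        G s * E s / nF a b s * dc ^ 2) / E s) s := by
  have hE := h.Epos.ne'
  have h1 := ((h.nM_deriv.mul h.nQ_deriv).div h.nF_deriv hF).sub ((h.nN_deriv hF).const_mul dc)
  refine h1.congr_deriv ?_
  have hen : E s = nF a b s + c ^ 2 * G s := by rw [← h.en]; rfl
  have hA : nF a b s * A s = a s * ((Et s * τ s + Ep s * u s) / 2 - c * dc * G s -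
      c ^ 2 * Gp s * u s / 2) + b s * (nQ c Et Ep Gp a b τ u A B s -
        (Ep s - c ^ 2 * Gp s) / 2 * τ s + Et s / 2 * u s) := by
    simp only [nF, nQ]
    linear_combination (a s) * h.cons
  have hB : nF a b s * B s = b s * ((Et s * τ s + Ep s * u s) / 2 - c * dc * G s -
      c ^ 2 * Gp s * u s / 2) - a s * (nQ c Et Ep Gp a b τ u A B s -
        (Ep s - c ^ 2 * Gp s) / 2 * τ s + Et s / 2 * u s) := by
    simp only [nF, nQ]
    linear_combination (b s) * h.cons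
  have hm : nM a b τ u s = b s * τ s - a s * u s := rfl
  have hFd : nF a b s = a s ^ 2 + b s ^ 2 := rfl
  simp only [Pi.mul_apply]
  generalize nQ c Et Ep Gp a b τ u A B s = q at *
  generalize nF a b s = F at *
  have hA' : A s = (a s * ((Et s * τ s + Ep s * u s) / 2 - c * dc * G s -
      c ^ 2 * Gp s * u s / 2) + b s * (q -
        (Ep s - c ^ 2 * Gp s) / 2 * τ s + Et s / 2 * u s)) / F := by
    field_simp
    linear_combination 2 * hA
  have hB' : B s = (b s * ((Et s * τ s + Ep s * u s) / 2 - c * dc * G s -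
      c ^ 2 * Gp s * u s / 2) - a s * (q -
        (Ep s - c ^ 2 * Gp s) / 2 * τ s + Et s / 2 * u s)) / F := by
    field_simp
    linear_combination 2 * hB
  rw [hA', hB', hm, hen]
  have hE' : F + c ^ 2 * G s ≠ 0 := hen ▸ hE
  field_simp
  ring

end

end Pool.Agent.Lib.MP_6b187a_gt.Div
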