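import Mathlib

/-!
# The shooting argument

A continuous family of functions `Θ l`, `l ∈ [p, q]`, with `Θ l 0 = l` such that no function
touches the level `q` from below or the level `p` from above at a positive time, and which leave
`[p, q]` at once for `l = q` (upwards) and for `l = p` (downwards), contains a function with values
in `[p, q]` for all times `s ≥ 0`.
-/

set_option autoImplicit false

namespace Pool.Agent.Lib.MP_6b187a_gt.Div.Sh

open Set Filter Topology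

private theorem open_up {Λ : Type*} [TopologicalSpace Λ] {F : Λ × ℝ → ℝ} (hF : Continuous F)
    (p q : ℝ) : IsOpen {l : Λ | ∃ s, 0 < s ∧ q < F (l, s) ∧ ∀ r ∈ Icc 0 s, p < F (l, r)} := by
  rw [isOpen_iff_eventually]
  rintro l ⟨s, hs, h1, h2⟩
  have e1 : ∀ᶠ l' in 𝓝 l, q < F (l', s) := by
    have hc : Continuous fun l' : Λ => F (l', s) := hF.comp (by fun_prop)
    exact (hc.tendsto l).eventually (lt_mem_nhds h1)
  have e2 : ∀ᶠ l' in 𝓝 l, ∀ r ∈ Icc 0 s, p < F (l', r) := by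
    refine isCompact_Icc.eventually_forall_of_forall_eventually fun r hr => ?_
    exact (hF.tendsto (l, r)).eventually (lt_mem_nhds (h2 r hr))
  filter_upwards [e1, e2] with l' h3 h4
  exact ⟨s, hs, h3, h4⟩

/-- A function which starts in `(p, q)` and leaves `[p, q]` at some time leaves it at the top (after
staying above `p`) or at the bottom (after staying below `q`). -/
private theorem exit {p q : ℝ} {f : ℝ → ℝ} (hf : Continuous f) (h0 : f 0 ∈ Ioo p q)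
    (hq : ∀ s, 0 < s → f s = q → ∃ᶠ r in 𝓝 s, q < f r)
    (hp : ∀ s, 0 < s → f s = p → ∃ᶠ r in 𝓝 s, f r < p) {s₁ : ℝ} (hs₁ : 0 ≤ s₁)
    (hout : f s₁ ∉ Icc p q) :
    (∃ s, 0 < s ∧ q < f s ∧ ∀ r ∈ Icc 0 s, p < f r) ∨
      (∃ s, 0 < s ∧ f s < p ∧ ∀ r ∈ Icc 0 s, f r < q) := by
  have hA : IsCompact (Icc 0 s₁ ∩ f ⁻¹' (Ioo p q)ᶜ) :=
    isCompact_Icc.inter_right (isOpen_Ioo.isClosed_compl.preimage hf)
  have hne : (Icc 0 s₁ ∩ f ⁻¹' (Ioo p q)ᶜ).Nonempty :=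
    ⟨s₁, ⟨hs₁, le_rfl⟩, fun h => hout (Ioo_subset_Icc_self h)⟩
  obtain ⟨σ, ⟨hσ1, hσ2⟩, hmin⟩ := hA.exists_isMinOn hne (f := id) continuousOn_id
  have hσ0 : 0 < σ := by
    rcases hσ1.1.eq_or_lt with h | h
    · exact absurd (h ▸ h0) hσ2
    · exact h
  have hbefore : ∀ r ∈ Ico 0 σ, f r ∈ Ioo p q := by
    intro r hr
    by_contra h
    have := hmin (show r ∈ Icc 0 s₁ ∩ f ⁻¹' (Ioo p q)ᶜ from
      ⟨⟨hr.1, (hr.2.trans_le hσ1.2).le⟩, h⟩)
    have h' : σ ≤ r := this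
    linarith [hr.2]
  have hcl : f σ ∈ Icc p q := by
    have h1 : Tendsto f (𝓝[<] σ) (𝓝 (f σ)) := (hf.tendsto σ).mono_left nhdsWithin_le_nhds
    have h2 : ∀ᶠ r in 𝓝[<] σ, f r ∈ Icc p q := by
      filter_upwards [Ioo_mem_nhdsLT hσ0] with r hr
      exact Ioo_subset_Icc_self (hbefore r ⟨hr.1.le, hr.2⟩)
    exact isClosed_Icc.mem_of_tendsto h1 h2
  rcases hcl.1.eq_or_lt with h | h
  · -- exit at the bottom
    right
    have hfr := hp σ hσ0 h.symm
    have hpq : p < q := h0.1.trans h0.2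
    have hev : ∀ᶠ r in 𝓝 σ, 0 < r ∧ f r < q := by
      refine (lt_mem_nhds hσ0).and ((hf.tendsto σ).eventually (gt_mem_nhds ?_))
      rw [← h]
      exact hpq
    rw [Metric.eventually_nhds_iff] at hev
    obtain ⟨ε, hε, H⟩ := hev
    obtain ⟨r, hr1, hr2⟩ := (hfr.and_eventually (Metric.ball_mem_nhds σ hε)).exists
    have hr2' : dist r σ < ε := hr2
    have hr3 := H hr2'
    have hσr : σ ≤ r := by
      by_contra hlt
      push Not at hlt
      exact absurd (hbefore r ⟨hr3.1.le, hlt⟩).1 (not_lt.2 hr1.le)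
    refine ⟨r, hr3.1, hr1, fun z hz => ?_⟩
    rcases lt_or_ge z σ with hzσ | hzσ
    · exact (hbefore z ⟨hz.1, hzσ⟩).2
    · refine (H ?_).2
      rw [Real.dist_eq, abs_of_nonneg (sub_nonneg.2 hzσ)]
      rw [Real.dist_eq, abs_of_nonneg (sub_nonneg.2 hσr)] at hr2'
      linarith [hz.2]
  · -- exit at the top
    left
    have hfq : f σ = q := by
      by_contra hne
      exact hσ2 ⟨h, lt_of_le_of_ne hcl.2 hne⟩
    have hfr := hq σ hσ0 hfq
    have hev : ∀ᶠ r in 𝓝 σ, 0 < r ∧ p < f r :=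
      (lt_mem_nhds hσ0).and ((hf.tendsto σ).eventually (lt_mem_nhds h))
    rw [Metric.eventually_nhds_iff] at hev
    obtain ⟨ε, hε, H⟩ := hev
    obtain ⟨r, hr1, hr2⟩ := (hfr.and_eventually (Metric.ball_mem_nhds σ hε)).exists
    have hr2' : dist r σ < ε := hr2
    have hr3 := H hr2'
    have hσr : σ ≤ r := by
      by_contra hlt
      push Not at hlt
      exact absurd (hbefore r ⟨hr3.1.le, hlt⟩).2 (not_lt.2 hr1.le)
    refine ⟨r, hr3.1, hr1, fun z hz => ?_⟩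
    rcases lt_or_ge z σ with hzσ | hzσ
    · exact (hbefore z ⟨hz.1, hzσ⟩).1
    · refine (H ?_).2
      rw [Real.dist_eq, abs_of_nonneg (sub_nonneg.2 hzσ)]
      rw [Real.dist_eq, abs_of_nonneg (sub_nonneg.2 hσr)] at hr2'
      linarith [hz.2]

/-- **Shooting.** -/
theorem shoot {p q : ℝ} (hpq : p < q) (Θ : ℝ → ℝ → ℝ)
    (hc : ContinuousOn (fun z : ℝ × ℝ => Θ z.1 z.2) (Icc p q ×ˢ univ))
    (h0 : ∀ l ∈ Icc p q, Θ l 0 = l)
    (hq : ∀ l ∈ Icc p q, ∀ s, 0 < s → Θ l s = q → ∃ᶠ r in 𝓝 s, q < Θ l r)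
    (hp : ∀ l ∈ Icc p q, ∀ s, 0 < s → Θ l s = p → ∃ᶠ r in 𝓝 s, Θ l r < p)
    (hq0 : ∃ᶠ r in 𝓝[>] (0 : ℝ), q < Θ q r)
    (hp0 : ∃ᶠ r in 𝓝[>] (0 : ℝ), Θ p r < p) :
    ∃ l ∈ Icc p q, ∀ s, 0 ≤ s → Θ l s ∈ Icc p q := by
  let F : Icc p q × ℝ → ℝ := fun z => Θ z.1 z.2
  have hF : Continuous F := by
    refine hc.comp_continuous (f := fun z : Icc p q × ℝ => ((z.1 : ℝ), z.2)) (by fun_prop) ?_
    exact fun z => ⟨z.1.2, trivial⟩
  have hFl : ∀ l : Icc p q, Continuous fun s => F (l, s) := fun l => hF.comp (by fun_prop)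
  let U : Set (Icc p q) := {l | ∃ s, 0 < s ∧ q < F (l, s) ∧ ∀ r ∈ Icc 0 s, p < F (l, r)}
  let W : Set (Icc p q) := {l | ∃ s, 0 < s ∧ -p < -F (l, s) ∧ ∀ r ∈ Icc 0 s, -q < -F (l, r)}
  have hU : IsOpen U := open_up hF p q
  have hW : IsOpen W := open_up (F := fun z => -F z) hF.neg (-q) (-p)
  have hqm : q ∈ Icc p q := ⟨hpq.le, le_rfl⟩
  have hpm : p ∈ Icc p q := ⟨le_rfl, hpq.le⟩
  have hdis : ∀ l, l ∈ U → l ∈ W → False := by
    rintro l ⟨s, hs, h1, h2⟩ ⟨r, hr, h3, h4⟩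
    rcases le_total s r with h | h
    · have := h4 s ⟨hs.le, h⟩
      linarith
    · have := h2 r ⟨hr.le, h⟩
      linarith
  have hUq : (⟨q, hqm⟩ : Icc p q) ∈ U := by
    have hev : ∀ᶠ r in 𝓝 (0 : ℝ), p < F (⟨q, hqm⟩, r) := by
      refine ((hFl ⟨q, hqm⟩).tendsto 0).eventually (lt_mem_nhds ?_)
      show p < Θ q 0
      rw [h0 q hqm]
      exact hpq
    rw [Metric.eventually_nhds_iff] at hev
    obtain ⟨ε, hε, H⟩ := hev
    obtain ⟨r, hr1, hr2⟩ := (hq0.and_eventually (Ioo_mem_nhdsGT hε)).exists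
    refine ⟨r, hr2.1, hr1, fun z hz => H ?_⟩
    rw [Real.dist_eq, sub_zero, abs_of_nonneg hz.1]
    exact hz.2.trans_lt hr2.2
  have hWp : (⟨p, hpm⟩ : Icc p q) ∈ W := by
    have hev : ∀ᶠ r in 𝓝 (0 : ℝ), F (⟨p, hpm⟩, r) < q := by
      refine ((hFl ⟨p, hpm⟩).tendsto 0).eventually (gt_mem_nhds ?_)
      show Θ p 0 < q
      rw [h0 p hpm]
      exact hpq
    rw [Metric.eventually_nhds_iff] at hev
    obtain ⟨ε, hε, H⟩ := hev
    obtain ⟨r, hr1, hr2⟩ := (hp0.and_eventually (Ioo_mem_nhdsGT hε)).exists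
    refine ⟨r, hr2.1, neg_lt_neg hr1, fun z hz => neg_lt_neg (H ?_)⟩
    rw [Real.dist_eq, sub_zero, abs_of_nonneg hz.1]
    exact hz.2.trans_lt hr2.2
  have hne : ∃ l : Icc p q, l ∉ U ∪ W := by
    by_contra hall
    push Not at hall
    have : PreconnectedSpace (Icc p q) := Subtype.preconnectedSpace isPreconnected_Icc
    obtain ⟨l, -, hl⟩ := (isPreconnected_univ : IsPreconnected (univ : Set (Icc p q))) U W hU hW
      (fun l _ => hall l) ⟨⟨q, hqm⟩, trivial, hUq⟩ ⟨⟨p, hpm⟩, trivial, hWp⟩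
    exact hdis l hl.1 hl.2
  obtain ⟨l, hl⟩ := hne
  refine ⟨l, l.2, fun s hs => ?_⟩
  by_contra hout
  have hlq : (l : ℝ) ≠ q := fun h => hl (Or.inl (by
    have : l = ⟨q, hqm⟩ := Subtype.ext h
    rw [this]
    exact hUq))
  have hlp : (l : ℝ) ≠ p := fun h => hl (Or.inr (by
    have : l = ⟨p, hpm⟩ := Subtype.ext h
    rw [this]
    exact hWp))
  have h0' : Θ l 0 ∈ Ioo p q := by
    rw [h0 l l.2]
    exact ⟨lt_of_le_of_ne l.2.1 (Ne.symm hlp), lt_of_le_of_ne l.2.2 hlq⟩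
  rcases exit (f := fun s => Θ l s) (hFl l) h0' (hq l l.2) (hp l l.2) hs hout with h | h
  · exact hl (Or.inl h)
  · obtain ⟨r, hr, h1, h2⟩ := h
    exact hl (Or.inr ⟨r, hr, neg_lt_neg h1, fun z hz => neg_lt_neg (h2 z hz)⟩)

/-- A function with positive derivative at `s` is larger immediately after `s`. -/
theorem ev_right {f : ℝ → ℝ} {s d : ℝ} (h : HasDerivAt f d s) (hd : 0 < d) :
    ∀ᶠ r in 𝓝[>] s, f s < f r := by
  have h1 : Tendsto (slope f s) (𝓝[>] s) (𝓝 d) :=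
    (hasDerivAt_iff_tendsto_slope.1 h).mono_left (nhdsWithin_mono s fun r hr => ne_of_gt hr)
  filter_upwards [h1.eventually (lt_mem_nhds hd), self_mem_nhdsWithin] with r h2 h3
  rw [slope_def_field] at h2
  have h4 : 0 < r - s := sub_pos.2 h3
  have h5 := (div_pos_iff_of_pos_right h4).1 h2
  linarith

/-- A function with negative derivative at `s` is larger immediately before `s`. -/
theorem ev_left {f : ℝ → ℝ} {s d : ℝ} (h : HasDerivAt f d s) (hd : d < 0) :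
    ∀ᶠ r in 𝓝[<] s, f s < f r := by
  have h1 : Tendsto (slope f s) (𝓝[<] s) (𝓝 d) :=
    (hasDerivAt_iff_tendsto_slope.1 h).mono_left (nhdsWithin_mono s fun r hr => ne_of_lt hr)
  filter_upwards [h1.eventually (gt_mem_nhds hd), self_mem_nhdsWithin] with r h2 h3
  rw [slope_def_field] at h2
  have h4 : r - s < 0 := sub_neg.2 h3
  rcases div_neg_iff.1 h2 with h5 | h5
  · linarith [h5.1]
  · linarith [h5.2]

/-- A function whose derivative is positive immediately after `s` is larger immediately after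
`s`. -/
theorem ev_right_of_deriv {f f' : ℝ → ℝ} {s : ℝ} (h : ∀ r, HasDerivAt f (f' r) r)
    (hg : ∀ᶠ r in 𝓝[>] s, 0 < f' r) : ∀ᶠ r in 𝓝[>] s, f s < f r := by
  obtain ⟨u, hu, hsub⟩ := mem_nhdsGT_iff_exists_Ioo_subset.1 hg
  filter_upwards [Ioo_mem_nhdsGT hu] with r hr
  have hmono : StrictMonoOn f (Icc s r) := by
    refine strictMonoOn_of_deriv_pos (convex_Icc s r)
      (fun z _ => (h z).continuousAt.continuousWithinAt) (fun z hz => ?_)
    rw [interior_Icc] at hz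
    rw [(h z).deriv]
    exact hsub ⟨hz.1, hz.2.trans hr.2⟩
  exact hmono ⟨le_rfl, hr.1.le⟩ ⟨hr.1.le, le_rfl⟩ hr.1

/-- If `ℓ' = h / E`, `E > 0`, and `h' > 0` where `h = 0`, then `ℓ` takes larger values
near `s`. -/
theorem frequently_gt {ℓ h E : ℝ → ℝ} {s h' : ℝ} (hE : ∀ r, 0 < E r)
    (hℓ : ∀ r, HasDerivAt ℓ (h r / E r) r) (hh : HasDerivAt h h' s) (hpos : h s = 0 → 0 < h') :
    ∃ᶠ r in 𝓝 s, ℓ s < ℓ r := by
  rcases lt_trichotomy (h s) 0 with hs | hs | hs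
  · have := ev_left (hℓ s) (div_neg_of_neg_of_pos hs (hE s))
    exact this.frequently.filter_mono nhdsWithin_le_nhds
  · have h1 := ev_right hh (hpos hs)
    have h2 : ∀ᶠ r in 𝓝[>] s, 0 < h r / E r := by
      filter_upwards [h1] with r hr
      rw [hs] at hr
      exact div_pos hr (hE r)
    exact (ev_right_of_deriv hℓ h2).frequently.filter_mono nhdsWithin_le_nhds
  · have := ev_right (hℓ s) (div_pos hs (hE s))
    exact this.frequently.filter_mono nhdsWithin_le_nhds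

/-- If `ℓ' = h / E`, `E > 0`, `h = 0` and `h' > 0` at `s`, then `ℓ` is larger immediately after
`s`. -/
theorem frequently_gt_right {ℓ h E : ℝ → ℝ} {s h' : ℝ} (hE : ∀ r, 0 < E r)
    (hℓ : ∀ r, HasDerivAt ℓ (h r / E r) r) (hh : HasDerivAt h h' s) (hs : h s = 0)
    (hpos : 0 < h') : ∃ᶠ r in 𝓝[>] s, ℓ s < ℓ r := by
  have h1 := ev_right hh hpos
  have h2 : ∀ᶠ r in 𝓝[>] s, 0 < h r / E r := by
    filter_upwards [h1] with r hr
    rw [hs] at hr
    exact div_pos hr (hE r)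
  exact (ev_right_of_deriv hℓ h2).frequently

end Pool.Agent.Lib.MP_6b187a_gt.Div.Sh
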