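import Pool.Agent.Lib.MP_6b187a_gt.Div.Field
import Pool.Agent.Lib.MP_6b187a_gt.Div.Shoot

/-!
# The ridge geodesic

For `c = 1/2` there is a geodesic of unit speed along which `1/8 ≤ θ ≤ 1/4` for all times `s ≥ 0`,
and for which `x` remains bounded.
-/

set_option autoImplicit false

namespace Pool.Agent.Lib.MP_6b187a_gt.Div.Rg

open Set Filter Topology Fld Sh

noncomputable section

/-- `h = E (log θ)'`. -/
def hh (y a b : ℝ) : ℝ := -a / 50 - 5 * (fX y / fY y) * b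

theorem fw_eq (t y : ℝ) : fw t y = fθ t y * fY y := by
  unfold fw fθ fY
  rw [← Real.exp_add]
  congr 1
  ring

/-- `(-t/50 - 5 y)' = h / E`. -/
theorem orb_log {c : ℝ} {t y x a b : ℝ → ℝ} {s : ℝ} (h : Orb c t y x a b s) :
    HasDerivAt (fun r => -t r / 50 - 5 * y r) (hh (y s) (a s) (b s) / fE (t s) (y s)) s := by
  refine ((h.ht.neg.div_const 50).sub (h.hy.const_mul 5)).congr_deriv ?_
  unfold hh
  ring

/-- The derivative of `h`. -/
theorem orb_hh {c : ℝ} {t y x a b : ℝ → ℝ} {s : ℝ} (h : Orb c t y x a b s) :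
    HasDerivAt (fun r => hh (y r) (a r) (b r))
      ((fw (t s) (y s) / 5000 - 5 / 2 * (fX (y s) ^ 2 / fY (y s)) *
        (1 - c ^ 2 - 4 * fθ (t s) (y s)) + 5 * (fX (y s) / fY (y s) ^ 2) * b s ^ 2) /
        fE (t s) (y s)) s := by
  have hY0 : fY (y s) ≠ 0 := (Real.exp_pos _).ne'
  have hY : HasDerivAt (fun r => fY (y r)) _ s := h.hy.exp
  have hX : HasDerivAt (fun r => fX (y r)) _ s := h.hy.exp.const_add 1
  have h1 := (h.ha.neg.div_const 50).sub (((hX.div hY hY0).const_mul 5).mul h.hb)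
  refine h1.congr_deriv ?_
  have e1 : Real.exp (y s) = fY (y s) := rfl
  have e2 : fX (y s) = 1 + fY (y s) := rfl
  have hE0 : fE (t s) (y s) ≠ 0 := (fE_pos _ _).ne'
  simp only [Pi.div_apply, e1, e2]
  field_simp
  ring

/-- The sign of `h'` at `θ = 1/4`. -/
theorem pos_of_quarter {t y b : ℝ} (hθ : fθ t y = 1 / 4) :
    0 < (fw t y / 5000 - 5 / 2 * (fX y ^ 2 / fY y) * (1 - (1 / 2) ^ 2 - 4 * fθ t y) +
      5 * (fX y / fY y ^ 2) * b ^ 2) / fE t y := by
  have hY : 0 < fY y := Real.exp_pos _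
  have hX : 0 < fX y := by unfold fX; positivity
  have hw : 0 < fw t y := Real.exp_pos _
  refine div_pos ?_ (fE_pos t y)
  rw [hθ]
  have h1 : 0 < fX y ^ 2 / fY y := by positivity
  have h2 : 0 ≤ 5 * (fX y / fY y ^ 2) * b ^ 2 := by positivity
  linarith

/-- The sign of `h'` at `θ = 1/8`, `h = 0`. -/
theorem neg_of_eighth {t y a b : ℝ} (hθ : fθ t y = 1 / 8) (hh0 : hh y a b = 0)
    (hen : a ^ 2 + b ^ 2 + (1 / 2) ^ 2 * fY y = fE t y) :
    (fw t y / 5000 - 5 / 2 * (fX y ^ 2 / fY y) * (1 - (1 / 2) ^ 2 - 4 * fθ t y) +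
      5 * (fX y / fY y ^ 2) * b ^ 2) / fE t y < 0 := by
  have hY : 0 < fY y := Real.exp_pos _
  have hXY : fX y = 1 + fY y := rfl
  have hX : 0 < fX y := by rw [hXY]; positivity
  have hw : fw t y = fY y / 8 := by rw [fw_eq, hθ]; ring
  have hE : fE t y = 1 + fY y + fw t y := rfl
  refine div_neg_of_neg_of_pos ?_ (fE_pos t y)
  have hb : b = -(a * fY y) / (250 * fX y) := by
    unfold hh at hh0
    field_simp
    field_simp at hh0
    linarith
  have ha2 : a ^ 2 ≤ fX y := by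
    have := sq_nonneg b
    rw [hE, hw] at hen
    linarith
  have h3 : 5 * (fX y / fY y ^ 2) * b ^ 2 = a ^ 2 / (12500 * fX y) := by
    rw [hb]
    field_simp
    ring
  have h4 : a ^ 2 / (12500 * fX y) ≤ 1 / 12500 := by
    rw [div_le_div_iff₀ (by positivity) (by norm_num)]
    linarith
  have h5 : fY y + 2 ≤ fX y ^ 2 / fY y := by
    rw [le_div_iff₀ hY, hXY]
    nlinarith
  rw [h3, hθ, hw]
  linarith

/-- The initial value with `θ = l`, `h = 0` at `t = 50000`. -/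
def yInit (l : ℝ) : ℝ := (-50000 / 50 - Real.log l) / 5

/-- The initial value of `a`. -/
def aInit (l : ℝ) : ℝ := √((fE 50000 (yInit l) - (1 / 2) ^ 2 * fY (yInit l)) /
  (1 + (fY (yInit l) / (250 * fX (yInit l))) ^ 2))

/-- The initial value of `b`. -/
def bInit (l : ℝ) : ℝ := -(aInit l * (fY (yInit l) / (250 * fX (yInit l))))

/-- The initial value. -/
def zInit (l : ℝ) : ℝ × ℝ × ℝ × ℝ × ℝ := (50000, yInit l, 0, aInit l, bInit l)

theorem num_pos (t y : ℝ) : 1 < fE t y - (1 / 2) ^ 2 * fY y := by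
  unfold fE fY
  have h1 := Real.exp_pos y
  have h2 := Real.exp_pos (-t / 50 - 4 * y)
  linarith

theorem aInit_sq (l : ℝ) : aInit l ^ 2 = (fE 50000 (yInit l) - (1 / 2) ^ 2 * fY (yInit l)) /
    (1 + (fY (yInit l) / (250 * fX (yInit l))) ^ 2) := by
  unfold aInit
  refine Real.sq_sqrt (div_nonneg ?_ (by positivity))
  linarith [num_pos 50000 (yInit l)]

theorem energy_zInit (l : ℝ) : energy (1 / 2) (zInit l) = 0 := by
  unfold energy zInit bInit
  simp only
  have h1 := aInit_sq l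
  have h2 : (1 + (fY (yInit l) / (250 * fX (yInit l))) ^ 2) ≠ 0 := by positivity
  rw [eq_div_iff h2] at h1
  nlinarith

theorem hh_zInit (l : ℝ) : hh (yInit l) (aInit l) (bInit l) = 0 := by
  unfold hh bInit
  have hY : fY (yInit l) ≠ 0 := (Real.exp_pos _).ne'
  have hX : fX (yInit l) ≠ 0 := by unfold fX; positivity
  field_simp
  ring

theorem fθ_zInit {l : ℝ} (hl : 0 < l) : fθ 50000 (yInit l) = l := by
  unfold fθ yInit
  rw [show (-50000 / 50 - 5 * ((-50000 / 50 - Real.log l) / 5) : ℝ) = Real.log l by ring,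
    Real.exp_log hl]

theorem aInit_ge (l : ℝ) : 1 / 2 ≤ aInit l := by
  have h0 : 0 ≤ aInit l := Real.sqrt_nonneg _
  have h1 := aInit_sq l
  have h2 : 0 < (1 + (fY (yInit l) / (250 * fX (yInit l))) ^ 2) := by positivity
  rw [eq_div_iff h2.ne'] at h1
  have hY : 0 < fY (yInit l) := Real.exp_pos _
  have hX : fX (yInit l) = 1 + fY (yInit l) := rfl
  have h3 : fY (yInit l) / (250 * fX (yInit l)) ≤ 1 := by
    rw [div_le_one (by rw [hX]; positivity), hX]
    linarith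
  have h4 : 0 ≤ fY (yInit l) / (250 * fX (yInit l)) := by
    rw [hX]
    positivity
  have h5 := num_pos 50000 (yInit l)
  have h6 : (fY (yInit l) / (250 * fX (yInit l))) ^ 2 ≤ 1 := by nlinarith
  by_contra hlt
  push Not at hlt
  have h7 : aInit l ^ 2 ≤ 1 / 4 := by nlinarith
  nlinarith

theorem continuousOn_zInit : ContinuousOn zInit (Ioi 0) := by
  have hlog : ContinuousOn Real.log (Ioi 0) :=
    Real.continuousOn_log.mono fun x hx => (ne_of_gt hx : x ≠ 0)
  have hy : ContinuousOn yInit (Ioi 0) := by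
    unfold yInit
    exact (continuousOn_const.sub hlog).div_const 5
  have hY : ContinuousOn (fun l => fY (yInit l)) (Ioi 0) := by
    unfold fY
    exact Real.continuous_exp.comp_continuousOn hy
  have hX : ContinuousOn (fun l => fX (yInit l)) (Ioi 0) := by
    unfold fX
    exact continuousOn_const.add (Real.continuous_exp.comp_continuousOn hy)
  have hE : ContinuousOn (fun l => fE 50000 (yInit l)) (Ioi 0) := by
    unfold fE
    exact (continuousOn_const.add (Real.continuous_exp.comp_continuousOn hy)).add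
      (Real.continuous_exp.comp_continuousOn
        (continuousOn_const.sub (continuousOn_const.mul hy)))
  have hX0 : ∀ l ∈ Ioi (0 : ℝ), 250 * fX (yInit l) ≠ 0 := fun l _ => by unfold fX; positivity
  have hr : ContinuousOn (fun l => fY (yInit l) / (250 * fX (yInit l))) (Ioi 0) :=
    hY.div (continuousOn_const.mul hX) hX0
  have ha : ContinuousOn aInit (Ioi 0) := by
    unfold aInit
    refine ContinuousOn.sqrt ?_
    refine ContinuousOn.div (hE.sub (continuousOn_const.mul hY))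
      (continuousOn_const.add (hr.pow 2)) (fun l _ => by positivity)
  have hb : ContinuousOn bInit (Ioi 0) := by
    unfold bInit
    exact (ha.mul hr).neg
  unfold zInit
  exact continuousOn_const.prodMk (hy.prodMk (continuousOn_const.prodMk (ha.prodMk hb)))

/-- The trapped geodesic. -/
theorem exists_trapped : ∃ t y x a b : ℝ → ℝ, (∀ s, Orb (1 / 2) t y x a b s) ∧
    (∀ s, 0 ≤ s → fθ (t s) (y s) ∈ Icc (1 / 8) (1 / 4)) ∧ t 0 = 50000 ∧ x 0 = 0 ∧
    1 / 2 ≤ a 0 := by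
  have hsub : Icc (1 / 8 : ℝ) (1 / 4) ⊆ Ioi 0 := fun l hl => lt_of_lt_of_le (by norm_num) hl.1
  have hzc : ContinuousOn zInit (Icc (1 / 8 : ℝ) (1 / 4)) := continuousOn_zInit.mono hsub
  obtain ⟨R, hR⟩ := isCompact_Icc.exists_bound_of_continuousOn hzc
  obtain ⟨Φ, h0, hd, hc⟩ := geoFlow (1 / 2) R
  have hmem : ∀ l ∈ Icc (1 / 8 : ℝ) (1 / 4), zInit l ∈ initSet (1 / 2) R := fun l hl =>
    ⟨hR l hl, energy_zInit l⟩
  have hE : ∀ l : ℝ, ∀ r, 0 < fE (Φ (zInit l) r).1 (Φ (zInit l) r).2.1 := fun l r => fE_pos _ _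
  have hthc : ContinuousOn (fun z : ℝ × ℝ => fθ (Φ (zInit z.1) z.2).1 (Φ (zInit z.1) z.2).2.1)
      (Icc (1 / 8 : ℝ) (1 / 4) ×ˢ univ) := by
    have h1 : ContinuousOn (fun z : ℝ × ℝ => ((zInit z.1, z.2) : (ℝ × ℝ × ℝ × ℝ × ℝ) × ℝ))
        (Icc (1 / 8 : ℝ) (1 / 4) ×ˢ univ) :=
      (hzc.comp continuousOn_fst fun z hz => hz.1).prodMk continuousOn_snd
    have h2 := hc.comp h1 (fun z hz => ⟨hmem z.1 hz.1, trivial⟩)
    have h3 : Continuous fun z : ℝ × ℝ × ℝ × ℝ × ℝ => fθ z.1 z.2.1 := by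
      unfold fθ
      fun_prop
    exact h3.comp_continuousOn h2
  have key := shoot (p := 1 / 8) (q := 1 / 4) (by norm_num)
    (fun l s => fθ (Φ (zInit l) s).1 (Φ (zInit l) s).2.1) hthc ?_ ?_ ?_ ?_ ?_
  · obtain ⟨l, hl, hl2⟩ := key
    refine ⟨_, _, _, _, _, hd _ (hmem l hl), hl2, ?_, ?_, ?_⟩
    · show (Φ (zInit l) 0).1 = 50000
      rw [h0 _ (hmem l hl)]
      rfl
    · show (Φ (zInit l) 0).2.2.1 = 0
      rw [h0 _ (hmem l hl)]
      rfl
    · show 1 / 2 ≤ (Φ (zInit l) 0).2.2.2.1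
      rw [h0 _ (hmem l hl)]
      exact aInit_ge l
  · -- initial value
    intro l hl
    show fθ (Φ (zInit l) 0).1 (Φ (zInit l) 0).2.1 = l
    rw [h0 _ (hmem l hl)]
    exact fθ_zInit (hsub hl)
  · -- the level 1/4
    intro l hl s hs hθ
    have horb := hd _ (hmem l hl)
    have h1 := frequently_gt (hE l) (fun r => orb_log (horb r)) (orb_hh (horb s))
      (fun _ => pos_of_quarter hθ)
    refine h1.mono fun r hr => ?_
    rw [← hθ]
    exact Real.exp_lt_exp.2 hr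
  · -- the level 1/8
    intro l hl s hs hθ
    have horb := hd _ (hmem l hl)
    have h1 := frequently_gt (ℓ := fun r => -(-(Φ (zInit l) r).1 / 50 -
        5 * (Φ (zInit l) r).2.1))
      (h := fun r => -hh (Φ (zInit l) r).2.1 (Φ (zInit l) r).2.2.2.1 (Φ (zInit l) r).2.2.2.2)
      (hE l) (fun r => ((orb_log (horb r)).neg).congr_deriv (by ring))
      (orb_hh (horb s)).neg
      (fun h => neg_pos.2 (neg_of_eighth hθ (neg_eq_zero.1 h) (horb s).en))
    refine h1.mono fun r hr => ?_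
    rw [← hθ]
    exact Real.exp_lt_exp.2 (neg_lt_neg_iff.1 hr)
  · -- immediately above
    have hl : (1 / 4 : ℝ) ∈ Icc (1 / 8 : ℝ) (1 / 4) := ⟨by norm_num, le_rfl⟩
    have horb := hd _ (hmem _ hl)
    have hθ : fθ (Φ (zInit (1 / 4)) 0).1 (Φ (zInit (1 / 4)) 0).2.1 = 1 / 4 := by
      rw [h0 _ (hmem _ hl)]
      exact fθ_zInit (hsub hl)
    have h1 := frequently_gt_right (hE (1 / 4)) (fun r => orb_log (horb r))
      (orb_hh (horb 0)) (by
        show hh (Φ (zInit (1 / 4)) 0).2.1 (Φ (zInit (1 / 4)) 0).2.2.2.1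
          (Φ (zInit (1 / 4)) 0).2.2.2.2 = 0
        rw [h0 _ (hmem _ hl)]
        exact hh_zInit _) (pos_of_quarter hθ)
    exact h1.mono fun r hr => lt_of_eq_of_lt hθ.symm (Real.exp_lt_exp.2 hr)
  · -- immediately below
    have hl : (1 / 8 : ℝ) ∈ Icc (1 / 8 : ℝ) (1 / 4) := ⟨le_rfl, by norm_num⟩
    have horb := hd _ (hmem _ hl)
    have hθ : fθ (Φ (zInit (1 / 8)) 0).1 (Φ (zInit (1 / 8)) 0).2.1 = 1 / 8 := by
      rw [h0 _ (hmem _ hl)]
      exact fθ_zInit (hsub hl)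
    have hh0 : hh (Φ (zInit (1 / 8)) 0).2.1 (Φ (zInit (1 / 8)) 0).2.2.2.1
        (Φ (zInit (1 / 8)) 0).2.2.2.2 = 0 := by
      rw [h0 _ (hmem _ hl)]
      exact hh_zInit _
    have h1 := frequently_gt_right (ℓ := fun r => -(-(Φ (zInit (1 / 8)) r).1 / 50 -
        5 * (Φ (zInit (1 / 8)) r).2.1))
      (h := fun r => -hh (Φ (zInit (1 / 8)) r).2.1 (Φ (zInit (1 / 8)) r).2.2.2.1
        (Φ (zInit (1 / 8)) r).2.2.2.2)
      (hE (1 / 8)) (fun r => ((orb_log (horb r)).neg).congr_deriv (by ring))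
      (orb_hh (horb 0)).neg (by rw [hh0, neg_zero])
      (neg_pos.2 (neg_of_eighth hθ hh0 (horb 0).en))
    exact h1.mono fun r hr => lt_of_lt_of_eq (Real.exp_lt_exp.2 (neg_lt_neg_iff.1 hr)) hθ

end

end Pool.Agent.Lib.MP_6b187a_gt.Div.Rg
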