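import Pool.Agent.Lib.MP_6b187a_gt.Div.Diag

/-!
# Checks of the definitions

* For the Euclidean metric the distance `RM.dist` is the distance of `ℝⁿ`, the geodesics are the
  straight lines and there are no conjugate points.
* The variation field of a smooth family of geodesics is a Jacobi field.
-/

set_option autoImplicit false
set_option maxSynthPendingDepth 3

namespace Pool.Agent.Lib.MP_6b187a_gt.Div.San

open Filter Set MeasureTheory
open scoped ContDiff Topology

noncomputable section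

variable {n : ℕ}

/-- The Euclidean metric of `ℝⁿ`. -/
def euclid (n : ℕ) : RM n :=
  RM.diag (fun _ _ => 1) (fun _ => contDiff_const) (fun _ _ => one_pos)

theorem euclid_g (x v w : EuclideanSpace ℝ (Fin n)) : (euclid n).g x v w = inner ℝ v w := by
  rw [euclid, RM.diag_g, PiLp.inner_apply]
  refine Finset.sum_congr rfl fun i _ => ?_
  simp [mul_comm]

theorem euclid_length (c : ℝ → EuclideanSpace ℝ (Fin n)) :
    (euclid n).length c = ∫ t in (0 : ℝ)..1, ‖deriv c t‖ := by
  unfold RM.length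
  congr 1
  funext t
  rw [euclid_g, real_inner_self_eq_norm_sq, Real.sqrt_sq (norm_nonneg _)]

/-- For the Euclidean metric the infimum of the lengths of the curves is the distance of `ℝⁿ`. -/
theorem euclid_dist (x y : EuclideanSpace ℝ (Fin n)) : (euclid n).dist x y = dist x y := by
  have hline : ∀ s : ℝ, HasDerivAt (fun s : ℝ => x + s • (y - x)) (y - x) s := fun s => by
    simpa using ((hasDerivAt_id s).smul_const (y - x)).const_add x
  have hmem : dist x y ∈ {l : ℝ | ∃ c : ℝ → EuclideanSpace ℝ (Fin n),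
      ContDiff ℝ 1 c ∧ c 0 = x ∧ c 1 = y ∧ l = (euclid n).length c} := by
    refine ⟨fun s => x + s • (y - x), by fun_prop, by simp, by simp, ?_⟩
    rw [euclid_length]
    have h1 : ∀ t : ℝ, ‖deriv (fun s : ℝ => x + s • (y - x)) t‖ = ‖y - x‖ := fun t => by
      rw [(hline t).deriv]
    simp only [h1, intervalIntegral.integral_const, sub_zero, one_smul]
    rw [dist_comm, dist_eq_norm]
  have hle : ∀ l ∈ {l : ℝ | ∃ c : ℝ → EuclideanSpace ℝ (Fin n),
      ContDiff ℝ 1 c ∧ c 0 = x ∧ c 1 = y ∧ l = (euclid n).length c}, dist x y ≤ l := by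
    rintro l ⟨c, hc, rfl, rfl, rfl⟩
    rw [euclid_length]
    have hd : ∀ t ∈ uIcc (0 : ℝ) 1, HasDerivAt c (deriv c t) t := fun t _ =>
      ((hc.differentiable (by norm_num)) t).hasDerivAt
    have hcd : Continuous (deriv c) := hc.continuous_deriv le_rfl
    have h1 := intervalIntegral.integral_eq_sub_of_hasDerivAt hd (hcd.intervalIntegrable 0 1)
    rw [dist_comm, dist_eq_norm, ← h1]
    exact intervalIntegral.norm_integral_le_integral_norm zero_le_one
  exact le_antisymm (csInf_le ⟨dist x y, hle⟩ hmem) (le_csInf ⟨_, hmem⟩ hle)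

theorem euclid_geo (x v a w : EuclideanSpace ℝ (Fin n)) :
    (euclid n).geo x v a w = inner ℝ a w := by
  rw [RM.geo_eq, euclid_g]
  have h1 : ∀ u v w : EuclideanSpace ℝ (Fin n), (euclid n).Dg x u v w = 0 := by
    intro u v w
    rw [euclid, RM.diag_Dg]
    simp
  rw [h1, h1]
  ring

/-- The geodesics of the Euclidean metric are the straight lines. -/
theorem euclid_isGeodesic_iff (γ : ℝ → EuclideanSpace ℝ (Fin n)) :
    (euclid n).IsGeodesic γ ↔ ∃ x v : EuclideanSpace ℝ (Fin n), ‖v‖ = 1 ∧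
      γ = fun t => x + t • v := by
  constructor
  · intro h
    have h1 : ∀ t, deriv (deriv γ) t = 0 := by
      intro t
      have h2 := h.eq t (deriv (deriv γ) t)
      rw [euclid_geo] at h2
      exact inner_self_eq_zero.1 h2
    have h2 : ∀ t, deriv γ t = deriv γ 0 := by
      intro t
      exact is_const_of_deriv_eq_zero
        (fun s => (RM.hasDerivAt_deriv_of_contDiff h.smooth s).differentiableAt) h1 t 0
    refine ⟨γ 0, deriv γ 0, ?_, ?_⟩
    · have h3 := h.unit 0
      rw [euclid_g, real_inner_self_eq_norm_sq] at h3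
      have h4 := norm_nonneg (deriv γ 0)
      nlinarith
    · have h3 : ∀ t, HasDerivAt (fun t => γ t - t • deriv γ 0) 0 t := by
        intro t
        refine ((RM.hasDerivAt_of_contDiff h.smooth t).sub
          ((hasDerivAt_id t).smul_const (deriv γ 0))).congr_deriv ?_
        rw [h2 t]
        simp
      funext t
      have h4 := is_const_of_deriv_eq_zero (fun s => (h3 s).differentiableAt)
        (fun s => (h3 s).deriv) t 0
      simp only [zero_smul, sub_zero] at h4
      rw [← h4]
      abel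
  · rintro ⟨x, v, hv, rfl⟩
    have hd : ∀ t : ℝ, HasDerivAt (fun t : ℝ => x + t • v) v t := fun t => by
      simpa using ((hasDerivAt_id t).smul_const v).const_add x
    have hd' : deriv (fun t : ℝ => x + t • v) = fun _ => v := funext fun t => (hd t).deriv
    refine ⟨by fun_prop, fun t => ?_, fun t w => ?_⟩
    · rw [hd', euclid_g, real_inner_self_eq_norm_sq, hv]
      norm_num
    · rw [hd', euclid_geo]
      simp

section variation

variable {M : RM n}

/-- The chain rule for the geodesic equation along a curve of positions, velocities and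
accelerations. -/
theorem hasDerivAt_geo_curve {x v a : ℝ → EuclideanSpace ℝ (Fin n)}
    {ξ ζ α : EuclideanSpace ℝ (Fin n)} {s : ℝ} (hx : HasDerivAt x ξ s) (hv : HasDerivAt v ζ s)
    (ha : HasDerivAt a α s) (w : EuclideanSpace ℝ (Fin n)) :
    HasDerivAt (fun s => M.geo (x s) (v s) (a s) w) (M.dgeo (x s) (v s) (a s) ξ ζ α w) s := by
  have hg : HasDerivAt (fun s => M.g (x s)) (M.Dg (x s) ξ) s :=
    (M.hasFDerivAt_g (x s)).comp_hasDerivAt s hx
  have hD : HasDerivAt (fun s => M.Dg (x s)) (M.D2g (x s) ξ) s :=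
    (M.hasFDerivAt_Dg (x s)).comp_hasDerivAt s hx
  have h1 := (hg.clm_apply ha).clm_apply (hasDerivAt_const s w)
  have h2 := ((hD.clm_apply hv).clm_apply hv).clm_apply (hasDerivAt_const s w)
  have h3 := ((hD.clm_apply (hasDerivAt_const s w)).clm_apply hv).clm_apply hv
  have h4 := (h1.add h2).sub (h3.div_const 2)
  refine h4.congr_deriv ?_
  simp only [RM.dgeo, map_zero, add_zero, add_apply]

theorem hasDerivAt_snd {F : ℝ × ℝ → EuclideanSpace ℝ (Fin n)} (hF : Differentiable ℝ F)
    (e t : ℝ) : HasDerivAt (fun t => F (e, t)) (fderiv ℝ F (e, t) (0, 1)) t :=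
  (hF (e, t)).hasFDerivAt.comp_hasDerivAt t ((hasDerivAt_const t e).prodMk (hasDerivAt_id t))

theorem hasDerivAt_fst {F : ℝ × ℝ → EuclideanSpace ℝ (Fin n)} (hF : Differentiable ℝ F)
    (e t : ℝ) : HasDerivAt (fun e => F (e, t)) (fderiv ℝ F (e, t) (1, 0)) e :=
  (hF (e, t)).hasFDerivAt.comp_hasDerivAt e ((hasDerivAt_id e).prodMk (hasDerivAt_const e t))

/-- The mixed derivatives agree. -/
theorem hasDerivAt_mixed {F : ℝ × ℝ → EuclideanSpace ℝ (Fin n)} (hF : ContDiff ℝ ∞ F)
    (e t : ℝ) : HasDerivAt (fun t => fderiv ℝ F (e, t) (1, 0))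
      (fderiv ℝ (fun p => fderiv ℝ F p (0, 1)) (e, t) (1, 0)) t := by
  have hD : ContDiff ℝ ∞ (fderiv ℝ F) := (contDiff_infty_iff_fderiv.1 hF).2
  have hD' : HasFDerivAt (fderiv ℝ F) (fderiv ℝ (fderiv ℝ F) (e, t)) (e, t) :=
    ((hD.differentiable (by simp)) (e, t)).hasFDerivAt
  have h1 : HasDerivAt (fun t => fderiv ℝ F (e, t)) (fderiv ℝ (fderiv ℝ F) (e, t) (0, 1)) t :=
    hD'.comp_hasDerivAt t ((hasDerivAt_const t e).prodMk (hasDerivAt_id t))
  have h2 := h1.clm_apply (hasDerivAt_const t ((1, 0) : ℝ × ℝ))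
  refine h2.congr_deriv ?_
  have h3 : HasFDerivAt (fun p => fderiv ℝ F p (0, 1))
      ((fderiv ℝ (fderiv ℝ F) (e, t)).flip (0, 1)) (e, t) := by
    have := hD'.clm_apply (hasFDerivAt_const ((0, 1) : ℝ × ℝ) (e, t))
    refine this.congr_fderiv ?_
    ext p <;> simp
  rw [h3.fderiv]
  have h4 : IsSymmSndFDerivAt ℝ F (e, t) :=
    (hF.contDiffAt (x := (e, t))).isSymmSndFDerivAt (by
      simp only [minSmoothness_of_isRCLikeNormedField]
      exact WithTop.coe_le_coe.2 le_top)
  have h5 := h4.eq (0, 1) (1, 0)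
  simp only [map_zero, add_zero, ContinuousLinearMap.flip_apply]
  exact h5

/-- The variation field of a smooth family of geodesics is a Jacobi field. -/
theorem isJacobi_of_variation {F : ℝ × ℝ → EuclideanSpace ℝ (Fin n)} (hF : ContDiff ℝ ∞ F)
    (h : ∀ e, M.IsGeodesic fun t => F (e, t)) :
    M.IsJacobi (fun t => F (0, t)) (fun t => deriv (fun e => F (e, t)) 0) := by
  have hd := hF.differentiable (by simp : (∞ : WithTop ℕ∞) ≠ 0)
  set V : ℝ × ℝ → EuclideanSpace ℝ (Fin n) := fun p => fderiv ℝ F p (0, 1) with hV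
  have hVs : ContDiff ℝ ∞ V := (contDiff_infty_iff_fderiv.1 hF).2.clm_apply contDiff_const
  have hVd := hVs.differentiable (by simp : (∞ : WithTop ℕ∞) ≠ 0)
  set A : ℝ × ℝ → EuclideanSpace ℝ (Fin n) := fun p => fderiv ℝ V p (0, 1) with hA
  have hAs : ContDiff ℝ ∞ A := (contDiff_infty_iff_fderiv.1 hVs).2.clm_apply contDiff_const
  have hAd := hAs.differentiable (by simp : (∞ : WithTop ℕ∞) ≠ 0)
  have h1 : ∀ e t, deriv (fun t => F (e, t)) t = V (e, t) := fun e t =>
    (hasDerivAt_snd hd e t).deriv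
  have h1' : ∀ e, deriv (fun t => F (e, t)) = fun t => V (e, t) := fun e => funext (h1 e)
  have h2 : ∀ e t, deriv (deriv fun t => F (e, t)) t = A (e, t) := fun e t => by
    rw [h1' e]
    exact (hasDerivAt_snd hVd e t).deriv
  have hJ : (fun t => deriv (fun e => F (e, t)) 0) = fun t => fderiv ℝ F (0, t) (1, 0) :=
    funext fun t => (hasDerivAt_fst hd 0 t).deriv
  have hJ' : deriv (fun t => fderiv ℝ F (0, t) (1, 0)) = fun t => fderiv ℝ V (0, t) (1, 0) :=
    funext fun t => (hasDerivAt_mixed hF 0 t).deriv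
  have hJ'' : deriv (fun t => fderiv ℝ V (0, t) (1, 0)) = fun t => fderiv ℝ A (0, t) (1, 0) :=
    funext fun t => (hasDerivAt_mixed hVs 0 t).deriv
  rw [hJ]
  refine ⟨?_, fun t w => ?_⟩
  · have h3 : ContDiff ℝ ∞ fun t : ℝ => fderiv ℝ F (0, t) (1, 0) :=
      (((contDiff_infty_iff_fderiv.1 hF).2).comp (contDiff_const.prodMk contDiff_id)).clm_apply
        contDiff_const
    exact h3.of_le (WithTop.coe_le_coe.2 le_top)
  · rw [(M.hasDerivAt_geo _ _ _ _ _ _ w).deriv, hJ', hJ'', h1, h2]
    have h3 := hasDerivAt_geo_curve (M := M) (hasDerivAt_fst hd 0 t) (hasDerivAt_fst hVd 0 t)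
      (hasDerivAt_fst hAd 0 t) w
    have h4 : (fun e => M.geo (F (e, t)) (V (e, t)) (A (e, t)) w) = fun _ => 0 := by
      funext e
      have h5 := (h e).eq t w
      rw [h1, h2] at h5
      exact h5
    rw [h4] at h3
    exact h3.unique (hasDerivAt_const 0 0)

end variation

end

end Pool.Agent.Lib.MP_6b187a_gt.Div.San
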