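import Mathlib

/-!
# Riemannian metrics on `ℝⁿ`: geodesics, Jacobi fields, distance, completeness

Everything is written in the coordinates of `ℝⁿ`.
-/

set_option autoImplicit false

namespace Pool.Agent.Lib.MP_6b187a_gt.Div

open Filter
open scoped ContDiff Topology

noncomputable section

/-- The partial derivative `∂f/∂x_k` at the point `x`. -/
def pd {n : ℕ} (f : (Fin n → ℝ) → ℝ) (k : Fin n) (x : Fin n → ℝ) : ℝ :=
  deriv (fun r : ℝ => f (Function.update x k r)) (x k)

/-- The velocity of the curve `γ` at the time `t`. -/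
def vel {n : ℕ} (γ : ℝ → Fin n → ℝ) (t : ℝ) : Fin n → ℝ := fun i => deriv (fun s => γ s i) t

/-- The curve `γ` is of class `C^m`. -/
def Smooth {n : ℕ} (m : ℕ) (γ : ℝ → Fin n → ℝ) : Prop := ∀ i, ContDiff ℝ m (fun s => γ s i)

/-- A smooth Riemannian metric on `ℝⁿ`: the symmetric positive definite matrix `g x i j` at the
point `x`. -/
structure Metric (n : ℕ) where
  g : (Fin n → ℝ) → Fin n → Fin n → ℝ
  smooth : ∀ i j, ContDiff ℝ ∞ (fun x => g x i j)
  symm : ∀ x i j, g x i j = g x j i
  pos : ∀ (x v : Fin n → ℝ), v ≠ 0 → 0 < ∑ i, ∑ j, g x i j * v i * v j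

namespace Metric

variable {n : ℕ} (M : Metric n)

/-- The square of the length of the tangent vector `v` at the point `x`. -/
def sq (x v : Fin n → ℝ) : ℝ := ∑ i, ∑ j, M.g x i j * v i * v j

/-- The left-hand side of the geodesic equation (with lowered index `k`) for the position `x`, the
velocity `v` and the acceleration `a`:
`∑_j g_kj a_j + ∑_ij (∂_i g_kj - ∂_k g_ij / 2) v_i v_j`. -/
def geo (x v a : Fin n → ℝ) (k : Fin n) : ℝ :=
  ∑ j, M.g x k j * a j + ∑ i, ∑ j,
    (pd (fun z => M.g z k j) i x - pd (fun z => M.g z i j) k x / 2) * v i * v j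

/-- `γ` is a geodesic parametrized by arc length, defined for all times. -/
structure IsGeodesic (γ : ℝ → Fin n → ℝ) : Prop where
  smooth : Smooth 2 γ
  unit : ∀ t, M.sq (γ t) (vel γ t) = 1
  eq : ∀ t k, M.geo (γ t) (vel γ t) (vel (vel γ) t) k = 0

/-- `J` is a Jacobi field along `γ`: it satisfies the linearised geodesic equation, that is the
derivative at `s = 0` of the geodesic equation for `γ + s J` is zero. -/
structure IsJacobi (γ J : ℝ → Fin n → ℝ) : Prop where
  smooth : Smooth 2 J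
  eq : ∀ t k, deriv (fun s : ℝ => M.geo (fun i => γ t i + s * J t i)
    (fun i => vel γ t i + s * vel J t i) (fun i => vel (vel γ) t i + s * vel (vel J) t i) k) 0 = 0

/-- No geodesic contains a pair of conjugate points: a Jacobi field which vanishes at two different
points of a geodesic is zero. -/
def NoConjugatePoints : Prop :=
  ∀ γ J : ℝ → Fin n → ℝ, M.IsGeodesic γ → M.IsJacobi γ J →
    ∀ a b : ℝ, a ≠ b → J a = 0 → J b = 0 → ∀ t, J t = 0

/-- The length of the curve `c`, `0 ≤ t ≤ 1`. -/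
def length (c : ℝ → Fin n → ℝ) : ℝ := ∫ t in (0 : ℝ)..1, √(M.sq (c t) (vel c t))

/-- The Riemannian distance: the infimum of the lengths of the curves of class `C¹` from `x` to
`y`. -/
def dist (x y : Fin n → ℝ) : ℝ :=
  sInf {l : ℝ | ∃ c : ℝ → Fin n → ℝ, Smooth 1 c ∧ c 0 = x ∧ c 1 = y ∧ l = M.length c}

/-- Every geodesic is defined for all times. -/
def GeodesicallyComplete : Prop :=
  ∀ x v : Fin n → ℝ, M.sq x v = 1 →
    ∃ γ : ℝ → Fin n → ℝ, M.IsGeodesic γ ∧ γ 0 = x ∧ vel γ 0 = v

/-- Every Cauchy sequence of the Riemannian distance converges. -/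
def MetricallyComplete : Prop :=
  ∀ x : ℕ → Fin n → ℝ,
    (∀ ε : ℝ, 0 < ε → ∃ N : ℕ, ∀ i j : ℕ, N ≤ i → N ≤ j → M.dist (x i) (x j) < ε) →
    ∃ y, Tendsto (fun i => M.dist (x i) y) atTop (𝓝 0)

end Metric

end

end Pool.Agent.Lib.MP_6b187a_gt.Div
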