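import Pool.Agent.Lib.MP_6b187a_gt.Div.Defs
import Pool.Agent.Lib.MP_6b187a_gt.Div.Stmt

/-!
# From a metric on `EuclideanSpace ℝ (Fin n)` to its matrix
-/

set_option autoImplicit false

namespace Pool.Agent.Lib.MP_6b187a_gt.Div

open scoped ContDiff

noncomputable section

variable {n : ℕ}

/-- The vector of `EuclideanSpace ℝ (Fin n)` with the coordinates `x`. -/
def lp (x : Fin n → ℝ) : EuclideanSpace ℝ (Fin n) := WithLp.toLp 2 x

/-- The basis vector `e_i`. -/
def eb (i : Fin n) : EuclideanSpace ℝ (Fin n) := EuclideanSpace.single i 1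

@[simp] theorem lp_apply (x : Fin n → ℝ) (i : Fin n) : lp x i = x i := rfl

theorem lp_eq_sum (x : Fin n → ℝ) : lp x = ∑ i, x i • eb i := by
  ext j
  simp [eb, lp, Pi.single_apply]

theorem lp_injective : Function.Injective (lp (n := n)) := fun x y h => by
  ext i
  have := congrArg (fun v : EuclideanSpace ℝ (Fin n) => v i) h
  simpa using this

theorem lp_surjective (v : EuclideanSpace ℝ (Fin n)) : lp (fun i => v i) = v := by
  ext i
  rfl

theorem contDiff_lp : ContDiff ℝ ∞ (lp (n := n)) := by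
  rw [contDiff_euclidean]
  intro i
  exact contDiff_apply ℝ ℝ i

theorem RM.g_lp (M : RM n) (p : EuclideanSpace ℝ (Fin n)) (v w : Fin n → ℝ) :
    M.g p (lp v) (lp w) = ∑ i, ∑ j, M.g p (eb i) (eb j) * v i * w j := by
  rw [lp_eq_sum v, lp_eq_sum w]
  simp only [map_sum, map_smul, sum_apply, smul_apply,
    smul_eq_mul, Finset.mul_sum]
  rw [Finset.sum_comm]
  refine Finset.sum_congr rfl fun i _ => Finset.sum_congr rfl fun j _ => ?_
  ring

/-- The matrix of the metric `M`. -/
def RM.toMetric (M : RM n) : Metric n where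
  g x i j := M.g (lp x) (eb i) (eb j)
  smooth i j := by
    have h1 : ContDiff ℝ ∞ (fun x : Fin n → ℝ => M.g (lp x)) := M.smooth.comp contDiff_lp
    exact (h1.clm_apply contDiff_const).clm_apply contDiff_const
  symm x i j := M.symm _ _ _
  pos x v hv := by
    have h1 : lp v ≠ 0 := fun h => hv (lp_injective (by rw [h]; rfl))
    have h2 := M.pos (lp x) (lp v) h1
    rwa [M.g_lp] at h2

theorem RM.toMetric_g (M : RM n) (x : Fin n → ℝ) (i j : Fin n) :
    M.toMetric.g x i j = M.g (lp x) (eb i) (eb j) := rfl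

theorem RM.toMetric_sq (M : RM n) (x v : Fin n → ℝ) :
    M.toMetric.sq x v = M.g (lp x) (lp v) (lp v) := (M.g_lp _ _ _).symm

/-- Curves: `vel` is the derivative. -/
theorem hasDerivAt_lp {γ : ℝ → Fin n → ℝ} {v : Fin n → ℝ} {t : ℝ}
    (h : ∀ i, HasDerivAt (fun s => γ s i) (v i) t) : HasDerivAt (fun s => lp (γ s)) (lp v) t := by
  have hd : DifferentiableAt ℝ (fun s => lp (γ s)) t :=
    differentiableAt_euclidean.2 fun i => (h i).differentiableAt
  have h1 : HasDerivAt (fun s => lp (γ s)) (deriv (fun s => lp (γ s)) t) t := hd.hasDerivAt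
  have h2 : deriv (fun s => lp (γ s)) t = lp v := by
    ext i
    have h4 : HasFDerivAt (EuclideanSpace.proj i : EuclideanSpace ℝ (Fin n) →L[ℝ] ℝ)
      (EuclideanSpace.proj i : EuclideanSpace ℝ (Fin n) →L[ℝ] ℝ) (lp (γ t)) :=
      (EuclideanSpace.proj i : EuclideanSpace ℝ (Fin n) →L[ℝ] ℝ).hasFDerivAt
    have h3 := h4.comp_hasDerivAt (f := fun s => lp (γ s)) t h1
    exact HasDerivAt.unique h3 (h i)
  rw [← h2]
  exact h1

theorem smooth_iff {m : ℕ} {γ : ℝ → Fin n → ℝ} :
    Smooth m γ ↔ ContDiff ℝ m (fun s => lp (γ s)) := by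
  rw [contDiff_euclidean]
  rfl

theorem deriv_lp {γ : ℝ → Fin n → ℝ} (h : Smooth 1 γ) (t : ℝ) :
    deriv (fun s => lp (γ s)) t = lp (vel γ t) :=
  (hasDerivAt_lp fun i => (((h i).differentiable (by norm_num)) t).hasDerivAt).deriv

end

end Pool.Agent.Lib.MP_6b187a_gt.Div
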