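import Pool.Agent.Lib.MP_6b187a_gt.Div.Defs

/-!
# The first variation of the geodesic equation, the index form

For a Jacobi field `J` along a geodesic `γ`,
`d/dt [g(J', J) + (∂_J g)(γ', J)] = g(J', J') + 2 (∂_J g)(γ', J') + (∂²_{JJ} g)(γ', γ') / 2`.
-/

set_option autoImplicit false
set_option maxSynthPendingDepth 3

namespace Pool.Agent.Lib.MP_6b187a_gt.Div

open Filter
open scoped ContDiff Topology

noncomputable section

namespace RM

variable {n : ℕ} (M : RM n)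

/-- The derivative of the metric. -/
def Dg (x : EuclideanSpace ℝ (Fin n)) : EuclideanSpace ℝ (Fin n) →L[ℝ]
    EuclideanSpace ℝ (Fin n) →L[ℝ] EuclideanSpace ℝ (Fin n) →L[ℝ] ℝ := fderiv ℝ M.g x

/-- The second derivative of the metric. -/
def D2g (x : EuclideanSpace ℝ (Fin n)) : EuclideanSpace ℝ (Fin n) →L[ℝ]
    EuclideanSpace ℝ (Fin n) →L[ℝ] EuclideanSpace ℝ (Fin n) →L[ℝ]
    EuclideanSpace ℝ (Fin n) →L[ℝ] ℝ := fderiv ℝ M.Dg x

theorem contDiff_Dg : ContDiff ℝ ∞ M.Dg :=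
  (contDiff_infty_iff_fderiv.1 M.smooth).2

theorem contDiff_D2g : ContDiff ℝ ∞ M.D2g :=
  (contDiff_infty_iff_fderiv.1 M.contDiff_Dg).2

theorem hasFDerivAt_g (x : EuclideanSpace ℝ (Fin n)) : HasFDerivAt M.g (M.Dg x) x :=
  ((M.smooth.differentiable (by simp)) x).hasFDerivAt

theorem hasFDerivAt_Dg (x : EuclideanSpace ℝ (Fin n)) : HasFDerivAt M.Dg (M.D2g x) x :=
  ((M.contDiff_Dg.differentiable (by simp)) x).hasFDerivAt

theorem Dg_symm (x ξ v w : EuclideanSpace ℝ (Fin n)) : M.Dg x ξ v w = M.Dg x ξ w v := by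
  have h1 : HasFDerivAt (fun y => M.g y v w) (((M.Dg x).flip v).flip w) x := by
    have := ((M.hasFDerivAt_g x).clm_apply (hasFDerivAt_const v x)).clm_apply (hasFDerivAt_const w x)
    refine this.congr_fderiv ?_
    ext y
    simp
  have h2 : HasFDerivAt (fun y => M.g y w v) (((M.Dg x).flip w).flip v) x := by
    have := ((M.hasFDerivAt_g x).clm_apply (hasFDerivAt_const w x)).clm_apply (hasFDerivAt_const v x)
    refine this.congr_fderiv ?_
    ext y
    simp
  have h3 : (fun y => M.g y v w) = fun y => M.g y w v := by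
    funext y
    exact M.symm y v w
  rw [h3] at h1
  have := h1.unique h2
  have h4 := congrArg (fun L => L ξ) this
  simpa using h4

theorem D2g_comm (x ξ η : EuclideanSpace ℝ (Fin n)) : M.D2g x ξ η = M.D2g x η ξ := by
  have h : IsSymmSndFDerivAt ℝ M.g x :=
    (M.smooth.contDiffAt (x := x)).isSymmSndFDerivAt (by
      simp only [minSmoothness_of_isRCLikeNormedField]
      exact WithTop.coe_le_coe.2 le_top)
  exact h.eq ξ η

/-- The linearisation of `geo` at `(x, v, a)` in the direction `(ξ, ζ, α)`. -/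
def dgeo (x v a ξ ζ α w : EuclideanSpace ℝ (Fin n)) : ℝ :=
  M.Dg x ξ a w + M.g x α w +
    (M.D2g x ξ v v w + M.Dg x ζ v w + M.Dg x v ζ w) -
    (M.D2g x ξ w v v + M.Dg x w ζ v + M.Dg x w v ζ) / 2

theorem geo_eq (x v a w : EuclideanSpace ℝ (Fin n)) :
    M.geo x v a w = M.g x a w + M.Dg x v v w - M.Dg x w v v / 2 := rfl

theorem hasDerivAt_geo (x v a ξ ζ α w : EuclideanSpace ℝ (Fin n)) :
    HasDerivAt (fun s : ℝ => M.geo (x + s • ξ) (v + s • ζ) (a + s • α) w)
      (M.dgeo x v a ξ ζ α w) 0 := by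
  have hl : ∀ y z : EuclideanSpace ℝ (Fin n), HasDerivAt (fun s : ℝ => y + s • z) z 0 := by
    intro y z
    simpa using ((hasDerivAt_id (0 : ℝ)).smul_const z).const_add y
  have hx := hl x ξ
  have hv := hl v ζ
  have ha := hl a α
  have hg : HasDerivAt (fun s : ℝ => M.g (x + s • ξ)) (M.Dg x ξ) 0 := by
    have h1 : HasFDerivAt M.g (M.Dg x) (x + (0 : ℝ) • ξ) := by
      simpa using M.hasFDerivAt_g x
    exact h1.comp_hasDerivAt (0 : ℝ) hx
  have hD : HasDerivAt (fun s : ℝ => M.Dg (x + s • ξ)) (M.D2g x ξ) 0 := by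
    have h1 : HasFDerivAt M.Dg (M.D2g x) (x + (0 : ℝ) • ξ) := by
      simpa using M.hasFDerivAt_Dg x
    exact h1.comp_hasDerivAt (0 : ℝ) hx
  have h1 := (hg.clm_apply ha).clm_apply (hasDerivAt_const (0 : ℝ) w)
  have h2 := ((hD.clm_apply hv).clm_apply hv).clm_apply (hasDerivAt_const (0 : ℝ) w)
  have h3 := ((hD.clm_apply (hasDerivAt_const (0 : ℝ) w)).clm_apply hv).clm_apply hv
  have h4 := (h1.add h2).sub (h3.div_const 2)
  refine h4.congr_deriv ?_
  simp only [dgeo, zero_smul, add_zero, map_zero, add_apply]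

end RM

namespace RM

variable {n : ℕ} {M : RM n}

theorem IsJacobi.dgeo_eq {γ J : ℝ → EuclideanSpace ℝ (Fin n)} (hJ : M.IsJacobi γ J) (t : ℝ)
    (w : EuclideanSpace ℝ (Fin n)) :
    M.dgeo (γ t) (deriv γ t) (deriv (deriv γ) t) (J t) (deriv J t) (deriv (deriv J) t) w = 0 := by
  rw [← (M.hasDerivAt_geo _ _ _ _ _ _ w).deriv]
  exact hJ.eq t w

/-- The integrand of the second variation of the energy. -/
def quad (M : RM n) (x v ξ ζ : EuclideanSpace ℝ (Fin n)) : ℝ :=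
  M.g x ζ ζ + 2 * M.Dg x ξ v ζ + M.D2g x ξ ξ v v / 2

theorem hasDerivAt_of_contDiff {γ : ℝ → EuclideanSpace ℝ (Fin n)} (h : ContDiff ℝ 2 γ) (t : ℝ) :
    HasDerivAt γ (deriv γ t) t :=
  ((h.differentiable (by norm_num)) t).hasDerivAt

theorem hasDerivAt_deriv_of_contDiff {γ : ℝ → EuclideanSpace ℝ (Fin n)} (h : ContDiff ℝ 2 γ)
    (t : ℝ) : HasDerivAt (deriv γ) (deriv (deriv γ) t) t := by
  have h1 : ContDiff ℝ 1 (deriv γ) := by
    have h2 : ContDiff ℝ (1 + 1) γ := by simpa [one_add_one_eq_two] using h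
    exact (contDiff_succ_iff_deriv.1 h2).2.2
  exact ((h1.differentiable (by norm_num)) t).hasDerivAt

theorem continuous_deriv2 {γ : ℝ → EuclideanSpace ℝ (Fin n)} (h : ContDiff ℝ 2 γ) :
    Continuous (deriv (deriv γ)) := by
  have h1 : ContDiff ℝ 1 (deriv γ) := by
    have h2 : ContDiff ℝ (1 + 1) γ := by simpa [one_add_one_eq_two] using h
    exact (contDiff_succ_iff_deriv.1 h2).2.2
  exact h1.continuous_deriv (by norm_num)

/-- The boundary term: the momentum of the variation applied to `J`. -/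
def pair (M : RM n) (x v ξ ζ : EuclideanSpace ℝ (Fin n)) : ℝ :=
  M.g x ζ ξ + M.Dg x ξ v ξ

/-- **The index form.** -/
theorem IsJacobi.hasDerivAt_pair {γ J : ℝ → EuclideanSpace ℝ (Fin n)} (hγ : ContDiff ℝ 2 γ)
    (hJ : M.IsJacobi γ J) (t : ℝ) :
    HasDerivAt (fun t => M.pair (γ t) (deriv γ t) (J t) (deriv J t))
      (M.quad (γ t) (deriv γ t) (J t) (deriv J t)) t := by
  have hx := hasDerivAt_of_contDiff hγ t
  have hv := hasDerivAt_deriv_of_contDiff hγ t
  have hξ := hasDerivAt_of_contDiff hJ.smooth t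
  have hζ := hasDerivAt_deriv_of_contDiff hJ.smooth t
  have hg : HasDerivAt (fun t => M.g (γ t)) (M.Dg (γ t) (deriv γ t)) t :=
    (M.hasFDerivAt_g (γ t)).comp_hasDerivAt t hx
  have hD : HasDerivAt (fun t => M.Dg (γ t)) (M.D2g (γ t) (deriv γ t)) t :=
    (M.hasFDerivAt_Dg (γ t)).comp_hasDerivAt t hx
  have h1 := (hg.clm_apply hζ).clm_apply hξ
  have h2 := ((hD.clm_apply hξ).clm_apply hv).clm_apply hξ
  have h3 := h1.add h2
  refine h3.congr_deriv ?_
  have h4 := hJ.dgeo_eq t (J t)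
  simp only [dgeo, quad, add_apply] at h4 ⊢
  rw [M.D2g_comm (γ t) (deriv γ t) (J t)]
  have h5 := M.Dg_symm (γ t) (J t) (deriv J t) (deriv γ t)
  linarith

end RM

end

end Pool.Agent.Lib.MP_6b187a_gt.Div
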