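import Pool.Agent.Lib.MP_6b187a_gt.Div.Tr0
import Pool.Agent.Lib.MP_6b187a_gt.Div.Var

/-!
# The geodesic equation in coordinates
-/

set_option autoImplicit false
set_option maxSynthPendingDepth 3

namespace Pool.Agent.Lib.MP_6b187a_gt.Div

open scoped ContDiff

noncomputable section

variable {n : ℕ}

theorem hasDerivAt_update (x : Fin n → ℝ) (i : Fin n) :
    HasDerivAt (fun r : ℝ => lp (Function.update x i r)) (eb i) (x i) := by
  have h : (eb i : EuclideanSpace ℝ (Fin n)) = lp (Pi.single i 1) := by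
    ext j
    simp [eb, Pi.single_apply]
  rw [h]
  apply hasDerivAt_lp
  intro j
  by_cases hj : j = i
  · subst hj
    simp only [Function.update_self, Pi.single_eq_same]
    exact hasDerivAt_id _
  · simp only [Function.update_of_ne hj, Pi.single_eq_of_ne hj]
    exact hasDerivAt_const _ _

theorem RM.pd_toMetric (M : RM n) (x : Fin n → ℝ) (i k j : Fin n) :
    pd (fun z => M.g (lp z) (eb k) (eb j)) i x = fderiv ℝ M.g (lp x) (eb i) (eb k) (eb j) := by
  have h0 : Differentiable ℝ M.g := M.smooth.differentiable (by simp)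
  have h1 : HasDerivAt (fun r : ℝ => M.g (lp (Function.update x i r)))
      (fderiv ℝ M.g (lp x) (eb i)) (x i) := by
    have h2 : HasFDerivAt M.g (fderiv ℝ M.g (lp x)) (lp (Function.update x i (x i))) := by
      rw [Function.update_eq_self]
      exact (h0 _).hasFDerivAt
    exact h2.comp_hasDerivAt (f := fun r : ℝ => lp (Function.update x i r)) (x i)
      (hasDerivAt_update x i)
  have h3 := (h1.clm_apply (hasDerivAt_const (x i) (eb k))).clm_apply
    (hasDerivAt_const (x i) (eb j))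
  simp only [map_zero, add_zero] at h3
  exact h3.deriv

/-- A trilinear expression. -/
theorem tri_sum (D : EuclideanSpace ℝ (Fin n) →L[ℝ] EuclideanSpace ℝ (Fin n) →L[ℝ]
    EuclideanSpace ℝ (Fin n) →L[ℝ] ℝ) (u : EuclideanSpace ℝ (Fin n)) (v w : Fin n → ℝ) :
    D u (lp v) (lp w) = ∑ i, ∑ j, D u (eb i) (eb j) * v i * w j := by
  rw [lp_eq_sum v, lp_eq_sum w]
  simp only [map_sum, map_smul, sum_apply, smul_apply, smul_eq_mul, Finset.mul_sum]
  rw [Finset.sum_comm]
  refine Finset.sum_congr rfl fun i _ => Finset.sum_congr rfl fun j _ => ?_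
  ring

theorem tri_sum' (D : EuclideanSpace ℝ (Fin n) →L[ℝ] EuclideanSpace ℝ (Fin n) →L[ℝ]
    EuclideanSpace ℝ (Fin n) →L[ℝ] ℝ) (u : EuclideanSpace ℝ (Fin n)) (v w : Fin n → ℝ) :
    D (lp v) (lp w) u = ∑ i, ∑ j, D (eb i) (eb j) u * v i * w j := by
  rw [lp_eq_sum v, lp_eq_sum w]
  simp only [map_sum, map_smul, sum_apply, smul_apply, smul_eq_mul, Finset.mul_sum]
  rw [Finset.sum_comm]
  refine Finset.sum_congr rfl fun i _ => Finset.sum_congr rfl fun j _ => ?_
  ring

theorem RM.geo_toMetric (M : RM n) (x v a : Fin n → ℝ) (k : Fin n) :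
    M.toMetric.geo x v a k = M.geo (lp x) (lp v) (lp a) (eb k) := by
  have h1 : M.g (lp x) (lp a) (eb k) = ∑ j, M.g (lp x) (eb k) (eb j) * a j := by
    rw [M.symm, lp_eq_sum a]
    simp only [map_sum, map_smul, smul_eq_mul]
    exact Finset.sum_congr rfl fun j _ => mul_comm _ _
  have hs : ∀ u p q, fderiv ℝ M.g (lp x) u p q = fderiv ℝ M.g (lp x) u q p := by
    intro u p q
    exact M.Dg_symm (lp x) u p q
  have h2 : fderiv ℝ M.g (lp x) (lp v) (lp v) (eb k) =
      ∑ i, ∑ j, fderiv ℝ M.g (lp x) (eb i) (eb j) (eb k) * v i * v j := tri_sum' _ _ _ _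
  have h3 : fderiv ℝ M.g (lp x) (eb k) (lp v) (lp v) =
      ∑ i, ∑ j, fderiv ℝ M.g (lp x) (eb k) (eb i) (eb j) * v i * v j := tri_sum _ _ _ _
  simp only [Metric.geo, RM.geo, M.toMetric_g, M.pd_toMetric]
  rw [h1, h2, h3, add_sub_assoc]
  congr 1
  rw [Finset.sum_div, ← Finset.sum_sub_distrib]
  refine Finset.sum_congr rfl fun i _ => ?_
  rw [Finset.sum_div, ← Finset.sum_sub_distrib]
  refine Finset.sum_congr rfl fun j _ => ?_
  rw [hs (eb i) (eb k) (eb j)]
  ring

/-- The geodesic equation is linear in the lower index. -/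
theorem RM.geo_sum (M : RM n) (x v a w : EuclideanSpace ℝ (Fin n)) :
    M.geo x v a w = ∑ k, w k * M.geo x v a (eb k) := by
  have h2 : w = ∑ k, w k • eb k := by
    conv_lhs => rw [← lp_surjective w]
    exact lp_eq_sum _
  have h3 : ∀ L : EuclideanSpace ℝ (Fin n) →L[ℝ] ℝ, L w = ∑ k, w k * L (eb k) := by
    intro L
    conv_lhs => rw [h2]
    simp only [map_sum, map_smul, smul_eq_mul]
  have h4 : ((fderiv ℝ M.g x w) v) v = ∑ k, w k * ((fderiv ℝ M.g x (eb k)) v) v := by
    conv_lhs => rw [h2]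
    simp only [map_sum, map_smul, sum_apply, smul_apply, smul_eq_mul]
  unfold RM.geo
  rw [h3 (M.g x a), h3 ((fderiv ℝ M.g x v) v), h4, ← Finset.sum_add_distrib, Finset.sum_div,
    ← Finset.sum_sub_distrib]
  refine Finset.sum_congr rfl fun k _ => ?_
  ring

/-- The geodesic equation for all lower indices. -/
theorem RM.geo_eq_zero_iff (M : RM n) (x v a : EuclideanSpace ℝ (Fin n)) :
    (∀ w, M.geo x v a w = 0) ↔ ∀ k, M.geo x v a (eb k) = 0 := by
  constructor
  · intro h k
    exact h _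
  · intro h w
    rw [M.geo_sum]
    simp [h]

theorem Smooth.vel {m : ℕ} {γ : ℝ → Fin n → ℝ} (h : Smooth (m + 1) γ) : Smooth m (vel γ) := by
  intro i
  have h1 := h i
  have h2 : ContDiff ℝ ((m : WithTop ℕ∞) + 1) (fun s => γ s i) := by exact_mod_cast h1
  rw [contDiff_succ_iff_deriv] at h2
  exact h2.2.2

theorem Smooth.of_le {m k : ℕ} {γ : ℝ → Fin n → ℝ} (h : Smooth m γ) (hk : k ≤ m) :
    Smooth k γ := fun i => (h i).of_le (by exact_mod_cast hk)

theorem deriv2_lp {γ : ℝ → Fin n → ℝ} (h : Smooth 2 γ) (t : ℝ) :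
    deriv (deriv (fun s => lp (γ s))) t = lp (vel (vel γ) t) := by
  have h1 : deriv (fun s => lp (γ s)) = fun s => lp (vel γ s) :=
    funext fun s => deriv_lp (h.of_le (by norm_num)) s
  rw [h1, deriv_lp (Smooth.vel (m := 1) h) t]

theorem RM.isGeodesic_toMetric (M : RM n) (γ : ℝ → Fin n → ℝ) :
    M.toMetric.IsGeodesic γ ↔ M.IsGeodesic (fun t => lp (γ t)) := by
  constructor
  · rintro ⟨h1, h2, h3⟩
    have hd : ∀ t, deriv (fun s => lp (γ s)) t = lp (Div.vel γ t) := fun t =>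
      deriv_lp (h1.of_le (by norm_num)) t
    refine ⟨smooth_iff.1 h1, fun t => ?_, fun t => ?_⟩
    · rw [hd, ← M.toMetric_sq]
      exact h2 t
    · rw [hd, deriv2_lp h1, M.geo_eq_zero_iff]
      intro k
      rw [← M.geo_toMetric]
      exact h3 t k
  · rintro ⟨h1, h2, h3⟩
    have h1' : Smooth 2 γ := smooth_iff.2 h1
    have hd : ∀ t, deriv (fun s => lp (γ s)) t = lp (Div.vel γ t) := fun t =>
      deriv_lp (h1'.of_le (by norm_num)) t
    refine ⟨h1', fun t => ?_, fun t k => ?_⟩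
    · rw [M.toMetric_sq, ← hd]
      exact h2 t
    · rw [M.geo_toMetric, ← hd, ← deriv2_lp h1']
      exact h3 t _

theorem RM.isJacobi_toMetric (M : RM n) {γ J : ℝ → Fin n → ℝ} (hγ : Smooth 2 γ)
    (h : M.toMetric.IsJacobi γ J) : M.IsJacobi (fun t => lp (γ t)) (fun t => lp (J t)) := by
  obtain ⟨h1, h2⟩ := h
  refine ⟨smooth_iff.1 h1, fun t w => ?_⟩
  have hadd : ∀ (p q : Fin n → ℝ) (s : ℝ), lp (fun i => p i + s * q i) = lp p + s • lp q := by
    intro p q s
    ext i
    simp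
  have hd : ∀ t, deriv (fun s => lp (γ s)) t = lp (Div.vel γ t) := fun t =>
    deriv_lp (hγ.of_le (by norm_num)) t
  have hdJ : ∀ t, deriv (fun s => lp (J s)) t = lp (Div.vel J t) := fun t =>
    deriv_lp (h1.of_le (by norm_num)) t
  have h3 : ∀ k, deriv (fun s : ℝ => M.geo (lp (γ t) + s • lp (J t))
      (lp (Div.vel γ t) + s • lp (Div.vel J t))
      (lp (Div.vel (Div.vel γ) t) + s • lp (Div.vel (Div.vel J) t)) (eb k)) 0 = 0 := by
    intro k
    have := h2 t k
    simpa only [M.geo_toMetric, hadd] using this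
  simp only [hd, hdJ, deriv2_lp hγ, deriv2_lp h1]
  have h4 : ∀ k, HasDerivAt (fun s : ℝ => M.geo (lp (γ t) + s • lp (J t))
      (lp (Div.vel γ t) + s • lp (Div.vel J t))
      (lp (Div.vel (Div.vel γ) t) + s • lp (Div.vel (Div.vel J) t)) (eb k)) 0 0 := by
    intro k
    have h5 := M.hasDerivAt_geo (lp (γ t)) (lp (Div.vel γ t)) (lp (Div.vel (Div.vel γ) t))
      (lp (J t)) (lp (Div.vel J t)) (lp (Div.vel (Div.vel J) t)) (eb k)
    have h6 := h5.differentiableAt.hasDerivAt
    rw [h3 k] at h6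
    exact h6
  have h6 : HasDerivAt (fun s : ℝ => ∑ k, w k * M.geo (lp (γ t) + s • lp (J t))
      (lp (Div.vel γ t) + s • lp (Div.vel J t))
      (lp (Div.vel (Div.vel γ) t) + s • lp (Div.vel (Div.vel J) t)) (eb k))
      (∑ k, w k * 0) 0 := HasDerivAt.fun_sum fun k _ => (h4 k).const_mul (w k)
  have h7 := h6.deriv
  simp only [mul_zero, Finset.sum_const_zero] at h7
  rw [← h7]
  congr 1
  funext s
  exact M.geo_sum _ _ _ _

theorem RM.toMetric_noConjugatePoints {M : RM n} (h : M.NoConjugatePoints) :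
    M.toMetric.NoConjugatePoints := by
  intro γ J hγ hJ a b hab ha hb t
  have h1 := (M.isGeodesic_toMetric γ).1 hγ
  have h2 := M.isJacobi_toMetric hγ.smooth hJ
  have h3 : (lp (0 : Fin n → ℝ) : EuclideanSpace ℝ (Fin n)) = 0 := rfl
  have h4 := h _ _ h1 h2 a b hab (by simp only [ha, h3]) (by simp only [hb, h3]) t
  exact lp_injective (by rw [h3]; exact h4)

theorem RM.toMetric_geodesicallyComplete {M : RM n} (h : M.GeodesicallyComplete) :
    M.toMetric.GeodesicallyComplete := by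
  intro x v hv
  rw [M.toMetric_sq] at hv
  obtain ⟨γ, hγ, h0, h1⟩ := h _ _ hv
  have h2 : (fun t => lp (fun i => γ t i)) = γ := funext fun t => lp_surjective (γ t)
  have h3 : M.toMetric.IsGeodesic (fun t i => γ t i) := by
    rw [M.isGeodesic_toMetric, h2]
    exact hγ
  refine ⟨_, h3, ?_, ?_⟩
  · funext i
    rw [h0]
    rfl
  · apply lp_injective
    rw [← deriv_lp (h3.smooth.of_le (by norm_num)) 0, h2, h1]

end

end Pool.Agent.Lib.MP_6b187a_gt.Div
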