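import Pool.Agent.Lib.MP_6b187a_gt.Div.Tr0

/-!
# Length, distance and metric completeness for the matrix of a metric
-/

set_option autoImplicit false

namespace Pool.Agent.Lib.MP_6b187a_gt.Div

open Filter
open scoped ContDiff Topology

variable {n : ℕ}

theorem RM.toMetric_length (M : RM n) {c : ℝ → Fin n → ℝ} (h : Smooth 1 c) :
    M.toMetric.length c = M.length (fun t => lp (c t)) := by
  unfold Metric.length RM.length
  congr 1
  funext t
  rw [M.toMetric_sq, deriv_lp h]

theorem RM.toMetric_dist (M : RM n) (x y : Fin n → ℝ) :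
    M.toMetric.dist x y = M.dist (lp x) (lp y) := by
  unfold Metric.dist RM.dist
  congr 1
  ext l
  constructor
  · rintro ⟨c, hc, h0, h1, rfl⟩
    refine ⟨fun t => lp (c t), ?_, ?_, ?_, M.toMetric_length hc⟩
    · have h2 := smooth_iff.1 hc
      simpa using h2
    · simp only [h0]
    · simp only [h1]
  · rintro ⟨c, hc, h0, h1, rfl⟩
    have hc' : Smooth 1 (fun t i => c t i) := by
      rw [smooth_iff]
      have h2 : (fun s => lp (fun i => c s i)) = c := by
        funext s
        exact lp_surjective (c s)
      rw [h2]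
      simpa using hc
    refine ⟨fun t i => c t i, hc', ?_, ?_, ?_⟩
    · funext i
      simp only [h0, lp_apply]
    · funext i
      simp only [h1, lp_apply]
    · rw [M.toMetric_length hc']
      rfl

theorem RM.toMetric_metricallyComplete {M : RM n} (h : M.MetricallyComplete) :
    M.toMetric.MetricallyComplete := by
  intro x hx
  obtain ⟨y, hy⟩ := h (fun i => lp (x i)) (by
    intro ε hε
    obtain ⟨N, hN⟩ := hx ε hε
    refine ⟨N, fun i j hi hj => ?_⟩
    have h1 := hN i j hi hj
    rwa [M.toMetric_dist] at h1)
  refine ⟨fun i => y i, ?_⟩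
  simp only [M.toMetric_dist, lp_surjective]
  exact hy

end Pool.Agent.Lib.MP_6b187a_gt.Div
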