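import Pool.Agent.Lib.MP_6b187a_gt.Div.Tr1
import Pool.Agent.Lib.MP_6b187a_gt.Div.Tr2
import Pool.Agent.Lib.MP_6b187a_gt.Div.NoConj3
import Pool.Agent.Lib.MP_6b187a_gt.Div.Pair
import Pool.Agent.Lib.MP_6b187a_gt.Div.Compl
import Pool.Agent.Lib.MP_6b187a_gt.Div.GeoCompl
import Pool.Agent.Lib.MP_6b187a_gt.Div.ProdDist

/-!
# The example, for metrics written as matrices
-/

set_option autoImplicit false

namespace Pool.Agent.Lib.MP_6b187a_gt.Div

variable {n : ℕ}

/-- The transfer from `RM n` to `Metric n`. -/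
theorem RM.transfer (M : RM n) (h1 : M.GeodesicallyComplete) (h2 : M.MetricallyComplete)
    (h3 : M.NoConjugatePoints) {α β : ℝ → EuclideanSpace ℝ (Fin n)} (hα : M.IsGeodesic α)
    (hβ : M.IsGeodesic β) (h0 : α 0 = β 0) (hd : deriv α 0 ≠ deriv β 0) {C : ℝ}
    (hC : ∀ s, 0 ≤ s → M.dist (α s) (β s) ≤ C) :
    ∃ M : Metric n, M.GeodesicallyComplete ∧ M.MetricallyComplete ∧ M.NoConjugatePoints ∧
      ∃ α β : ℝ → Fin n → ℝ, M.IsGeodesic α ∧ M.IsGeodesic β ∧ α 0 = β 0 ∧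
        vel α 0 ≠ vel β 0 ∧ ∃ C : ℝ, ∀ s, 0 ≤ s → M.dist (α s) (β s) ≤ C := by
  have ha : (fun t => lp (fun i => α t i)) = α := funext fun t => lp_surjective (α t)
  have hb : (fun t => lp (fun i => β t i)) = β := funext fun t => lp_surjective (β t)
  have hα' : M.toMetric.IsGeodesic (fun t i => α t i) := by
    rw [M.isGeodesic_toMetric, ha]
    exact hα
  have hβ' : M.toMetric.IsGeodesic (fun t i => β t i) := by
    rw [M.isGeodesic_toMetric, hb]
    exact hβ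
  refine ⟨M.toMetric, M.toMetric_geodesicallyComplete h1, M.toMetric_metricallyComplete h2,
    M.toMetric_noConjugatePoints h3, fun t i => α t i, fun t i => β t i, hα', hβ', ?_, ?_, C, ?_⟩
  · funext i
    simp only [h0]
  · intro h
    apply hd
    rw [← ha, ← hb, deriv_lp (hα'.smooth.of_le (by norm_num)) 0,
      deriv_lp (hβ'.smooth.of_le (by norm_num)) 0, h]
  · intro s hs
    rw [M.toMetric_dist, lp_surjective, lp_surjective]
    exact hC s hs

/-- **The example in every dimension `n ≥ 3`.** -/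
theorem exists_nonDivergence {n : ℕ} (hn : 3 ≤ n) :
    ∃ M : Metric n, M.GeodesicallyComplete ∧ M.MetricallyComplete ∧ M.NoConjugatePoints ∧
      ∃ α β : ℝ → Fin n → ℝ, M.IsGeodesic α ∧ M.IsGeodesic β ∧ α 0 = β 0 ∧
        vel α 0 ≠ vel β 0 ∧ ∃ C : ℝ, ∀ s, 0 ≤ s → M.dist (α s) (β s) ≤ C := by
  obtain ⟨M, h1, h2, h3, α, β, hα, hβ, h0, hd, C, hC⟩ := exists_of_three
    ⟨gM, gM_geodesicallyComplete, gM_metricallyComplete, gM_noConjugatePoints, gM_pair⟩ hn
  exact M.transfer h1 h2 h3 hα hβ h0 hd hC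

end Pool.Agent.Lib.MP_6b187a_gt.Div
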